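import Pool.Agent.R996.Ty.Loc

/-!
# The first case: the local analysis
-/

set_option linter.unusedSectionVars false

namespace Pool.Agent.R996.Ty
open Finset Classical

section

variable {W : Type} [AddCommGroup W] [Fintype W] {A B : Set W} {α β : Equiv.Perm (W × ZMod 2)}

lemma c2 {a b : ZMod 2} (h : a + b = 0) : a = b := by revert a b; decide

lemma tr_one {T : Set W} {p w : W} (h : w - p ∈ T) : tr T p w = 1 := ind_true h

lemma mem_of_tr {T : Set W} {p w : W} (h : tr T p w ≠ 0) : w - p ∈ T := by
  by_contra h1
  exact h (ind_false h1)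

lemma A_eq {p q : W} (h : ∀ w, tr B p w + tr B q w = tr (dd A B) p w + tr (dd A B) q w) :
    ∀ w, tr A p w = tr A q w := by
  intro w
  have h1 := h w
  rw [tr_dd, tr_dd] at h1
  revert h1
  generalize tr A p w = a
  generalize tr A q w = b
  generalize tr B p w = c
  generalize tr B q w = d
  revert a b c d
  decide

lemma half_case (hodd : Odd (Fintype.card W)) (hA : ∀ a, a ∈ A → -a ∈ A)
    (hB : ∀ a, a ∈ B → -a ∈ B) (hne : ∃ w, w ∈ dd A B) {p q : W} (hqp : q - p ∈ UU A B)
    (h : ∀ w, w - p ∈ UU A B → tr A p w = tr B q w) : False := by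
  have h1 : A ∩ {w | w ∈ UU A B} = B ∩ {w | w ∈ UU A B} := by
    refine tr_eq_of_symm hodd (p := p) (q := q) ?_ ?_ ?_
    · rintro a ⟨h1, h2⟩
      exact ⟨hA a h1, (UU A B).neg_mem h2⟩
    · rintro a ⟨h1, h2⟩
      exact ⟨hB a h1, (UU A B).neg_mem h2⟩
    · intro w
      by_cases hw : w - p ∈ UU A B
      · have hw' : w - q ∈ UU A B := by
          have := (UU A B).sub_mem hw hqp
          have e : w - p - (q - p) = w - q := by abel
          rwa [e] at this
        have h3 := ind_inj.1 (h w hw)
        unfold tr
        rw [ind_inj]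
        exact ⟨fun h4 => ⟨h3.1 h4.1, hw'⟩, fun h4 => ⟨h3.2 h4.1, hw⟩⟩
      · have hw' : w - q ∉ UU A B := by
          intro h4
          apply hw
          have := (UU A B).add_mem h4 hqp
          have e : w - q + (q - p) = w - p := by abel
          rwa [e] at this
        unfold tr
        rw [ind_false (fun h4 => hw h4.2), ind_false (fun h4 => hw' h4.2)]
  obtain ⟨w, hw⟩ := hne
  have hU := mem_UU_of hw
  apply hw
  constructor
  · intro h2
    have h3 : w ∈ A ∩ {w | w ∈ UU A B} := ⟨h2, hU⟩
    rw [h1] at h3
    exact h3.1
  · intro h2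
    have h3 : w ∈ B ∩ {w | w ∈ UU A B} := ⟨h2, hU⟩
    rw [← h1] at h3
    exact h3.1

lemma loc2 (hodd : Odd (Fintype.card W)) (hA : ∀ a, a ∈ A → -a ∈ A)
    (hB : ∀ a, a ∈ B → -a ∈ B) (hst : ∀ h, (∀ a, a + h ∈ A ↔ a ∈ A) → h = 0)
    (hne : ∃ w, w ∈ dd A B) (hper : per B ≤ UU A B) {p q r s : W}
    (h1 : ∀ w, tr B p w + tr B q w = tr (dd A B) p w + tr (dd A B) r w)
    (h2 : ∀ w, tr B p w + tr B q w = tr (dd A B) q w + tr (dd A B) s w) :
    q - p ∈ UU A B ∧ r - p ∈ UU A B ∧ s - p ∈ UU A B := by
  have hsub : ∀ {a b c : W}, a - b ∈ UU A B → c - b ∈ UU A B → a - c ∈ UU A B := by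
    intro a b c h3 h4
    have := (UU A B).sub_mem h3 h4
    have e : a - b - (c - b) = a - c := by abel
    rwa [e] at this
  have hsy : ∀ {a b : W}, a - b ∈ UU A B → b - a ∈ UU A B := by
    intro a b h3
    have := (UU A B).neg_mem h3
    rwa [neg_sub] at this
  have h12 : ∀ w, tr (dd A B) p w + tr (dd A B) r w = tr (dd A B) q w + tr (dd A B) s w :=
    fun w => (h1 w).symm.trans (h2 w)
  obtain ⟨d, hd⟩ := id hne
  have hdU := mem_UU_of hd
  have hqp : q - p ∈ UU A B := by
    by_contra hqp
    have hoff : ∀ {w : W}, w - p ∈ UU A B → w - q ∉ UU A B := by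
      intro w h3 h4
      exact hqp (hsub (hsy (hsy (by
        have := hsub (a := w) (b := w) (c := q) (by rw [sub_self]; exact zero_mem _) (hsy h4)
        exact hsy h4))) (by
        have := hsy h3
        exact this))
    have hoff' : ∀ {w : W}, w - q ∈ UU A B → w - p ∉ UU A B := fun h3 h4 => hoff h4 h3
    have a1 : r - p ∈ UU A B ∨ s - p ∈ UU A B := by
      have h3 := h12 (p + d)
      rw [tr_one (by rw [add_sub_cancel_left]; exact hd),
        tr_off (hoff (by rw [add_sub_cancel_left]; exact hdU)), zero_add] at h3
      by_contra hcon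
      rw [not_or] at hcon
      have e1 : tr (dd A B) r (p + d) = 0 := tr_off fun h4 => hcon.1 (by
        have := hsub (a := p + d) (b := p) (c := p + d) (by rw [add_sub_cancel_left]; exact hdU)
          (by rw [add_sub_cancel_left]; exact hdU)
        have h5 : p + d - p ∈ UU A B := by rw [add_sub_cancel_left]; exact hdU
        exact hsy (hsub (hsy h5) (hsy h4)))
      have e2 : tr (dd A B) s (p + d) = 0 := tr_off fun h4 => hcon.2 (by
        have h5 : p + d - p ∈ UU A B := by rw [add_sub_cancel_left]; exact hdU
        exact hsy (hsub (hsy h5) (hsy h4)))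
      rw [e1, e2] at h3
      exact absurd h3 (by decide)
    have a2 : r - q ∈ UU A B ∨ s - q ∈ UU A B := by
      have h3 := h12 (q + d)
      have h5 : q + d - q ∈ UU A B := by rw [add_sub_cancel_left]; exact hdU
      rw [tr_off (p := p) (hoff' h5), tr_one (p := q) (by rw [add_sub_cancel_left]; exact hd),
        zero_add] at h3
      by_contra hcon
      rw [not_or] at hcon
      have e1 : tr (dd A B) r (q + d) = 0 := tr_off fun h4 => hcon.1 (hsy (hsub (hsy h5) (hsy h4)))
      have e2 : tr (dd A B) s (q + d) = 0 := tr_off fun h4 => hcon.2 (hsy (hsub (hsy h5) (hsy h4)))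
      rw [e1, e2] at h3
      exact absurd h3 (by decide)
    by_cases hr : r - p ∈ UU A B
    · have hrq : r - q ∉ UU A B := fun h3 => hoff hr h3
      have hsq : s - q ∈ UU A B := a2.resolve_left hrq
      have hDr : ∀ w, tr (dd A B) p w = tr (dd A B) r w := by
        intro w
        by_cases hw : w - p ∈ UU A B
        · have h3 := h12 w
          have e1 : tr (dd A B) s w = 0 := tr_off fun h4 => hoff hw (by
            have := (UU A B).add_mem h4 hsq
            rwa [sub_add_sub_cancel] at this)
          rw [tr_off (hoff hw), e1, add_zero] at h3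
          exact c2 h3
        · have e1 : tr (dd A B) r w = 0 := tr_off fun h4 => hw (by
            have := (UU A B).add_mem h4 hr
            rwa [sub_add_sub_cancel] at this)
          rw [e1, tr_off hw]
      have h3 : p - q ∈ per B := by
        apply tr_eq_per
        intro w
        have h4 := h1 w
        rw [hDr w, z2] at h4
        exact c2 h4
      exact hqp (hsy (hper h3))
    · have hsp : s - p ∈ UU A B := a1.resolve_left hr
      have hrq : r - q ∈ UU A B := a2.resolve_right fun h3 => hoff hsp h3
      have hDr : ∀ w, tr (dd A B) r w = tr (dd A B) q w := by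
        intro w
        by_cases hw : w - q ∈ UU A B
        · have h3 := h12 w
          have e1 : tr (dd A B) s w = 0 := tr_off fun h4 => hoff' hw (by
            have := (UU A B).add_mem h4 hsp
            rwa [sub_add_sub_cancel] at this)
          rw [tr_off (hoff' hw), e1, zero_add, add_zero] at h3
          exact h3
        · have e1 : tr (dd A B) r w = 0 := tr_off fun h4 => hw (by
            have := (UU A B).add_mem h4 hrq
            rwa [sub_add_sub_cancel] at this)
          rw [e1, tr_off hw]
      have h3 : ∀ w, tr A p w = tr A q w := A_eq (B := B) (fun w => by rw [h1 w, hDr w])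
      have h4 := hst _ (tr_eq_per h3)
      apply hqp
      rw [sub_eq_zero.1 h4, sub_self]
      exact zero_mem _
  refine ⟨hqp, ?_, ?_⟩
  · by_contra hr
    refine half_case hodd hA hB hne hqp fun w hw => ?_
    have h3 := h1 w
    have e1 : tr (dd A B) r w = 0 := tr_off fun h4 => hr (hsy (hsub (hsy hw) (hsy h4)))
    rw [e1, add_zero, tr_dd] at h3
    revert h3
    generalize tr A p w = a
    generalize tr B p w = b
    generalize tr B q w = c
    revert a b c
    decide
  · by_contra hs
    refine half_case hodd hA hB hne (hsy hqp) fun w hw => ?_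
    have h3 := h2 w
    have e1 : tr (dd A B) s w = 0 := tr_off fun h4 => hs (by
      have := (UU A B).sub_mem hw h4
      have e : w - q - (w - s) = s - q := by abel
      rw [e] at this
      have := (UU A B).add_mem this hqp
      rwa [sub_add_sub_cancel] at this)
    rw [e1, add_zero, tr_dd] at h3
    revert h3
    generalize tr A q w = a
    generalize tr B p w = b
    generalize tr B q w = c
    revert a b c
    decide

/-- The local analysis in the first case. -/
theorem k1 (hodd : Odd (Fintype.card W)) (hA : ∀ a, a ∈ A → -a ∈ A)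
    (hB : ∀ a, a ∈ B → -a ∈ B) (hst : ∀ h, (∀ a, a + h ∈ A ↔ a ∈ A) → h = 0)
    (hne : ∃ w, w ∈ dd A B) (hper : per B ≤ UU A B) (h : TF A B α β) (x : W × ZMod 2) :
    (α (x.1, x.2 + 1)).2 ≠ (α x).2 ∧ (α (x.1, x.2 + 1)).1 - (α x).1 ∈ UU A B ∧
      (β x).1 - (α x).1 ∈ UU A B := by
  obtain ⟨x', hx'⟩ : ∃ x' : W × ZMod 2, x' = (x.1, x.2 + 1) := ⟨_, rfl⟩
  have hx1 : x'.1 = x.1 := by rw [hx']
  have hx2 : x'.2 = x.2 + 1 := by rw [hx']
  rw [← hx']
  have hneq : x.2 ≠ x'.2 := by
    rw [hx2]
    generalize x.2 = a
    revert a; decide
  have hinj : α x ≠ α x' := fun h1 => hneq (congrArg Prod.snd (α.injective h1))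
  have hd : ∀ (l : ZMod 2) (w : W), tr B (α x).1 w + tr B (α x').1 w =
      rr A B (α x) (w, l) + rr A B (α x') (w, l) + rr A B (β x) (w, l) + rr A B (β x') (w, l) :=
    fun l w => dia hodd hA hB h (by rw [hx1, sub_self]; exact zero_mem _) (w, l)
  have hnx : ∀ a b : ZMod 2, a ≠ b → b = a + 1 := by decide
  have hnx2 : ∀ a : ZMod 2, a ≠ a + 1 := by decide
  by_cases h1 : (α x).2 = (α x').2
  · exfalso
    by_cases h2 : (β x).2 = (β x').2
    · by_cases h3 : (β x).2 = (α x).2
      · have h4 := hd ((α x).2 + 1)
        have e1 := hnx2 (α x).2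
        have h5 : (α x).1 - (α x').1 ∈ per B := by
          apply tr_eq_per
          intro w
          have h6 := h4 w
          rw [rr_diff e1, rr_diff (by rw [← h1]; exact e1), rr_diff (by rw [h3]; exact e1),
            rr_diff (by rw [← h2, h3]; exact e1)] at h6
          simp only [add_zero] at h6
          exact c2 h6
        exact hneq (cos_inv hodd hA hB h h1 (by
          have := (UU A B).neg_mem (hper h5)
          rwa [neg_sub] at this)).1
      · have h4 := hd (α x).2
        have h5 : ∀ w, tr A (α x).1 w = tr A (α x').1 w := by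
          apply A_eq (B := B)
          intro w
          have h6 := h4 w
          rw [rr_same rfl, rr_same h1.symm, rr_diff h3, rr_diff (by rw [← h2]; exact h3), add_zero,
            add_zero] at h6
          exact h6
        have h6 := hst _ (tr_eq_per h5)
        exact hinj (Prod.ext (sub_eq_zero.1 h6) h1)
    · have key : ∀ {u v : W × ZMod 2}, u.2 = (α x).2 → v.2 ≠ (α x).2 →
          (∀ (l : ZMod 2) (w : W), tr B (α x).1 w + tr B (α x').1 w =
            rr A B (α x) (w, l) + rr A B (α x') (w, l) + rr A B u (w, l) + rr A B v (w, l)) →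
          False := by
        intro u v hu hv hd
        obtain ⟨d, hd'⟩ := hne
        refine tele hodd hA hB (p := (α x).1) (q := (α x').1) (r := u.1) (s := v.1) ?_ ?_ d hd'
        · intro w
          have h6 := hd (α x).2 w
          rw [rr_same rfl, rr_same h1.symm, rr_same hu, rr_diff hv, add_zero, tr_dd, tr_dd] at h6
          revert h6
          generalize tr A (α x).1 w = a1
          generalize tr A (α x').1 w = a2
          generalize tr B (α x).1 w = a3
          generalize tr B (α x').1 w = a4
          generalize tr (dd A B) u.1 w = a5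
          revert a1 a2 a3 a4 a5
          decide
        · intro w
          have h6 := hd v.2 w
          rw [rr_diff (Ne.symm hv), rr_diff (by rw [← h1]; exact Ne.symm hv),
            rr_diff (by rw [hu]; exact Ne.symm hv), rr_same rfl] at h6
          rw [h6]
          simp only [zero_add]
      by_cases h3 : (β x).2 = (α x).2
      · exact key h3 (by rw [← h3]; exact Ne.symm h2) hd
      · refine key (u := β x') (v := β x) ?_ h3 ?_
        · have e1 := hnx _ _ h3
          have e2 := hnx _ _ h2
          rw [e1, e2]
        · intro l w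
          rw [hd l w]
          ring
  · have h1' : (α x').2 ≠ (α x).2 := Ne.symm h1
    refine ⟨h1', ?_⟩
    by_cases h2 : (β x).2 = (β x').2
    · exfalso
      by_cases h3 : (β x).2 = (α x).2
      · -- the other layer
        have h4 := hd (α x').2
        have h5 : A = B := by
          refine tr_eq_of_symm hodd hA hB (p := (α x').1) (q := (α x).1) fun w => ?_
          have h6 := h4 w
          rw [rr_diff h1, rr_same rfl, rr_diff (by rw [h3]; exact h1),
            rr_diff (by rw [← h2, h3]; exact h1), tr_dd] at h6
          revert h6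
          generalize tr A (α x').1 w = a1
          generalize tr B (α x).1 w = a3
          generalize tr B (α x').1 w = a4
          revert a1 a3 a4
          decide
        obtain ⟨d, hd'⟩ := hne
        exact hd' (by rw [h5])
      · have h4 := hd (α x).2
        have h5 : A = B := by
          refine tr_eq_of_symm hodd hA hB (p := (α x).1) (q := (α x').1) fun w => ?_
          have h6 := h4 w
          rw [rr_same rfl, rr_diff h1', rr_diff h3,
            rr_diff (by rw [← h2]; exact h3), tr_dd] at h6
          revert h6
          generalize tr A (α x).1 w = a1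
          generalize tr B (α x).1 w = a3
          generalize tr B (α x').1 w = a4
          revert a1 a3 a4
          decide
        obtain ⟨d, hd'⟩ := hne
        exact hd' (by rw [h5])
    · by_cases h3 : (β x).2 = (α x).2
      · have h4 : (β x').2 = (α x').2 := by
          rw [hnx _ _ h2, hnx _ _ h1, h3]
        have h5 := loc2 hodd hA hB hst hne hper (p := (α x).1) (q := (α x').1) (r := (β x).1)
          (s := (β x').1) (fun w => by
            rw [hd (α x).2 w, rr_same rfl, rr_diff h1', rr_same h3,
              rr_diff (by rw [h4]; exact h1')]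
            simp only [add_zero]) (fun w => by
            rw [hd (α x').2 w, rr_diff h1, rr_same rfl, rr_diff (by rw [h3]; exact h1), rr_same h4]
            simp only [add_zero, zero_add])
        exact ⟨h5.1, h5.2.1⟩
      · have h4 : (β x').2 = (α x).2 := by
          have e1 := hnx _ _ h3
          have e2 := hnx _ _ h2
          rw [e1, e2]
        have h4' : (β x).2 = (α x').2 := by
          rw [hnx _ _ h1]
          exact hnx _ _ (Ne.symm h3)
        have h5 := loc2 hodd hA hB hst hne hper (p := (α x).1) (q := (α x').1) (r := (β x').1)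
          (s := (β x).1) (fun w => by
            rw [hd (α x).2 w, rr_same rfl, rr_diff h1', rr_diff h3, rr_same h4]
            simp only [add_zero]) (fun w => by
            rw [hd (α x').2 w, rr_diff h1, rr_same rfl, rr_same h4', rr_diff (by rw [h4]; exact h1)]
            simp only [add_zero, zero_add])
        exact ⟨h5.1, h5.2.2⟩

end

end Pool.Agent.R996.Ty
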