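import Pool.Agent.R996.Ty.Case1

/-!
# The first case: the group argument
-/

set_option linter.unusedSectionVars false

namespace Pool.Agent.R996.Ty
open Finset Classical

section

variable {W : Type} [AddCommGroup W] [Fintype W] {A B : Set W} {α β : Equiv.Perm (W × ZMod 2)}

/-- The flip of the layers by the function `f`. -/
def fl (f : W → ZMod 2) : Equiv.Perm (W × ZMod 2) where
  toFun x := (x.1, x.2 + f x.1)
  invFun x := (x.1, x.2 + f x.1)
  left_inv x := by
    refine Prod.ext rfl ?_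
    change x.2 + f x.1 + f x.1 = x.2
    rw [add_assoc, z2, add_zero]
  right_inv x := by
    refine Prod.ext rfl ?_
    change x.2 + f x.1 + f x.1 = x.2
    rw [add_assoc, z2, add_zero]

lemma fl_apply (f : W → ZMod 2) (x : W × ZMod 2) : fl f x = (x.1, x.2 + f x.1) := rfl

lemma fl_inv (f : W → ZMod 2) : (fl f)⁻¹ = fl f := rfl

lemma fl_mul (f g : W → ZMod 2) : fl f * fl g = fl (fun w => g w + f w) := by
  ext1 x
  refine Prod.ext rfl ?_
  change x.2 + g x.1 + f x.1 = x.2 + (g x.1 + f x.1)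
  rw [add_assoc]

/-- The translations. -/
def tl (v : W × ZMod 2) : Equiv.Perm (W × ZMod 2) := Equiv.addRight v

lemma tl_apply (v x : W × ZMod 2) : tl v x = x + v := rfl

lemma tf_tl (v : W × ZMod 2) : TF A B (tl v) (tl v) := by
  intro x y
  rw [tl_apply, tl_apply, add_sub_add_right_eq_sub]

/-- A function which is constant on the cosets. -/
def Inv (A B : Set W) (f : W → ZMod 2) : Prop := ∀ x y, y - x ∈ UU A B → f x = f y

lemma ss_off {v : W × ZMod 2} (h : v.1 ∉ UU A B) : v ∈ SS A B ↔ v.1 ∈ A := by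
  have h1 : v.1 ∈ A ↔ v.1 ∈ B := by
    by_contra h2
    exact h (mem_UU_of h2)
  constructor
  · rintro (h2 | h2)
    · exact h2.2
    · exact h1.2 h2.2
  · intro h2
    rcases z2c v.2 with h3 | h3
    · exact Or.inl ⟨h3, h2⟩
    · exact Or.inr ⟨h3, h1.1 h2⟩

lemma tf_fl {f : W → ZMod 2} (hf : Inv A B f) : TF A B (fl f) (fl f) := by
  intro x y
  by_cases h : (y - x).1 ∈ UU A B
  · have h1 : fl f y - fl f x = y - x := by
      refine Prod.ext rfl ?_
      change y.2 + f y.1 - (x.2 + f x.1) = y.2 - x.2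
      rw [hf x.1 y.1 h]
      abel
    rw [h1]
  · have h1 : (fl f y - fl f x).1 = (y - x).1 := rfl
    rw [ss_off h, ss_off (by rw [h1]; exact h), h1]

variable (hodd : Odd (Fintype.card W)) (hA : ∀ a, a ∈ A → -a ∈ A)
    (hB : ∀ a, a ∈ B → -a ∈ B) (hst : ∀ h, (∀ a, a + h ∈ A ↔ a ∈ A) → h = 0)
    (hne : ∃ w, w ∈ dd A B) (hper : per B ≤ UU A B)

include hodd hA hB hst hne hper

lemma layf (h : TF A B α β) : ∃ f : W → ZMod 2, Inv A B f ∧ ∀ x, (α x).2 = x.2 + f x.1 := by
  refine ⟨fun w => (α (w, 0)).2, ?_, ?_⟩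
  · intro x y hxy
    exact (cos hodd hA hB h (x := (x, 0)) (y := (y, 0)) rfl hxy).1
  · intro x
    have h1 := (k1 hodd hA hB hst hne hper h (x.1, 0)).1
    rcases z2c x.2 with h2 | h2
    · have e : x = (x.1, 0) := Prod.ext rfl h2
      rw [h2, zero_add]
      nth_rewrite 1 [e]
      rfl
    · have e : x = (x.1, 0 + 1) := Prod.ext rfl (by rw [h2, zero_add])
      have h3 : (α x).2 ≠ (α (x.1, 0)).2 := by
        nth_rewrite 1 [e]
        exact h1
      rw [h2]
      change (α x).2 = 1 + (α (x.1, 0)).2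
      revert h3
      generalize (α x).2 = a
      generalize (α (x.1, 0)).2 = b
      revert a b
      decide

lemma nearU (h : TF A B α β) (x : W × ZMod 2) : (β x).1 - (α x).1 ∈ UU A B :=
  (k1 hodd hA hB hst hne hper h x).2.2

/-- Elements of the same block have images in the same block. -/
lemma blk (h : TF A B α β) {x y : W × ZMod 2} (hxy : y.1 - x.1 ∈ UU A B) :
    (α y).1 - (α x).1 ∈ UU A B := by
  by_cases h1 : x.2 = y.2
  · exact (cos hodd hA hB h h1 hxy).2
  · have h2 := (k1 hodd hA hB hst hne hper h x).2.1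
    have h3 : y.2 = x.2 + 1 := by
      revert h1
      generalize x.2 = a
      generalize y.2 = b
      revert a b
      decide
    have h4 := (cos hodd hA hB h (x := (x.1, x.2 + 1)) (y := y) h3.symm hxy).2
    have h5 := add_mem h4 h2
    rwa [sub_add_sub_cancel] at h5

lemma blk_inv (h : TF A B α β) {x y : W × ZMod 2} (hxy : (α y).1 - (α x).1 ∈ UU A B) :
    y.1 - x.1 ∈ UU A B := by
  have h1 := blk hodd hA hB hst hne hper h.inv' hxy
  rwa [ia, ia] at h1

/-- The case of a pair whose first component preserves the layers. -/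
lemma a4_core (h : TF A B α β) {F : W → ZMod 2} (hF : Inv A B F) (h1 : ∀ x, (α x).2 = x.2)
    (h2 : ∀ x, (β x).2 = x.2 + F x.1) : β = α * fl F := by
  have h1i : ∀ x, (α⁻¹ x).2 = x.2 := by
    intro x
    have := h1 (α⁻¹ x)
    rw [ai] at this
    exact this.symm
  have hFαβ : ∀ x y : W × ZMod 2, y.1 - x.1 ∈ UU A B → F x.1 = F y.1 := fun x y hxy => hF _ _ hxy
  -- the quotient
  obtain ⟨c, hc⟩ : ∃ c, c = α⁻¹ * β := ⟨_, rfl⟩
  have hβ : β = α * c := by rw [hc, mul_inv_cancel_left]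
  have hcl : ∀ x, (c x).2 = x.2 + F x.1 := by
    intro x
    rw [hc, Equiv.Perm.mul_apply, h1i, h2]
  have hcU : ∀ x, (c x).1 - x.1 ∈ UU A B := by
    intro x
    apply blk_inv hodd hA hB hst hne hper h
    have h3 := nearU hodd hA hB hst hne hper h x
    rwa [hβ, Equiv.Perm.mul_apply] at h3
  have hβi : ∀ y, y.2 = (β⁻¹ y).2 + F (β⁻¹ y).1 := by
    intro y
    have := h2 (β⁻¹ y)
    rwa [ai] at this
  -- the translations
  have hcomm : ∀ (v : W × ZMod 2), v.1 ∈ UU A B → ∀ x, c (x + v) = c x + v := by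
    intro v hv
    have e1 : TF A B (tl (0, v.2) * (α * tl v * α⁻¹)) (tl (0, v.2) * (β * tl v * β⁻¹)) :=
      (tf_tl _).mul' ((h.mul' (tf_tl v)).mul' h.inv')
    have e2 := tf_eq hodd hA hst e1 (by
      intro x
      rw [Equiv.Perm.mul_apply, tl_apply, Prod.snd_add, Equiv.Perm.mul_apply,
        Equiv.Perm.mul_apply, h1, tl_apply, Prod.snd_add, h1i]
      change x.2 + v.2 + v.2 = x.2
      rw [add_assoc, z2, add_zero]) (by
      intro x
      rw [Equiv.Perm.mul_apply, tl_apply, Prod.snd_add, Equiv.Perm.mul_apply,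
        Equiv.Perm.mul_apply, h2, tl_apply, Prod.snd_add, Prod.fst_add]
      have e3 : F ((β⁻¹ x).1 + v.1) = F (β⁻¹ x).1 := by
        symm
        apply hF
        rwa [add_sub_cancel_left]
      rw [e3]
      have e4 := hβi x
      change (β⁻¹ x).2 + v.2 + F (β⁻¹ x).1 + v.2 = x.2
      rw [e4]
      have key : ∀ a b c : ZMod 2, a + b + c + b = a + c := by decide
      exact key _ _ _)
    have e3 : α * tl v * α⁻¹ = β * tl v * β⁻¹ := mul_left_cancel e2
    have e4 : tl v * c = c * tl v := by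
      have e5 : α⁻¹ * (α * tl v * α⁻¹) * β = α⁻¹ * (β * tl v * β⁻¹) * β := by rw [e3]
      rw [hc]
      simpa [mul_assoc] using e5
    intro x
    have e5 := congrArg (fun g : Equiv.Perm (W × ZMod 2) => g x) e4
    simp only [Equiv.Perm.mul_apply, tl_apply] at e5
    exact e5.symm
  -- the inverse
  have hci : ∀ y, (c⁻¹ y).2 = y.2 + F y.1 := by
    intro y
    have e1 := hcl (c⁻¹ y)
    rw [ai] at e1
    have e2 : F (c⁻¹ y).1 = F y.1 := by
      have e3 := hcU (c⁻¹ y)
      rw [ai] at e3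
      exact hF _ _ e3
    rw [e1, e2, add_assoc, z2, add_zero]
  have e1 : TF A B (c * fl F) (c⁻¹ * fl F) := by
    have e2 : TF A B (α⁻¹ * β) (β⁻¹ * α) := h.inv'.mul' (h.swap hA hB)
    have e3 : β⁻¹ * α = c⁻¹ := by rw [hc, mul_inv_rev, inv_inv]
    rw [← hc, e3] at e2
    exact e2.mul' (tf_fl hF)
  have e2 := tf_eq hodd hA hst e1 (by
    intro x
    rw [Equiv.Perm.mul_apply, hcl, fl_apply]
    change x.2 + F x.1 + F x.1 = x.2
    rw [add_assoc, z2, add_zero]) (by
    intro x
    rw [Equiv.Perm.mul_apply, hci, fl_apply]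
    change x.2 + F x.1 + F x.1 = x.2
    rw [add_assoc, z2, add_zero])
  have e3 : c = c⁻¹ := mul_right_cancel e2
  have e4 : ∀ x, c (c x) = x := by
    intro x
    nth_rewrite 1 [e3]
    exact ia c x
  have e5 : ∀ x, (c x).1 = x.1 := by
    intro x
    have e6 := hcomm (c x - x) (by rw [Prod.fst_sub]; exact hcU x) x
    rw [add_sub_cancel, e4] at e6
    have e7 := congrArg Prod.fst e6
    rw [Prod.fst_add, Prod.fst_sub] at e7
    have e8 : (c x).1 - x.1 = 0 := by
      apply two_inj hodd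
      rw [add_zero]
      have : (c x).1 - x.1 + ((c x).1 - x.1) = (c x).1 + ((c x).1 - x.1) - x.1 := by abel
      rw [this, ← e7, sub_self]
    exact sub_eq_zero.1 e8
  have e6 : c = fl F := by
    ext1 x
    exact Prod.ext (e5 x) (hcl x)
  rw [hβ, e6]

/-- The quotient of the two components of a two-fold automorphism is a flip. -/
theorem a4 (h : TF A B α β) : ∃ F : W → ZMod 2, Inv A B F ∧ β = α * fl F := by
  obtain ⟨f, hf, h1⟩ := layf hodd hA hB hst hne hper h
  obtain ⟨g, hg, h2⟩ := layf hodd hA hB hst hne hper (h.swap hA hB)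
  have hFinv : Inv A B (fun w => f w + g w) := fun x y hxy => by
    change f x + g x = f y + g y
    rw [hf x y hxy, hg x y hxy]
  have h3 := a4_core hodd hA hB hst hne hper (α := α * fl f) (β := β * fl f)
    (h.mul' (tf_fl hf)) hFinv (by
      intro x
      rw [Equiv.Perm.mul_apply, h1, fl_apply]
      change x.2 + f x.1 + f x.1 = x.2
      rw [add_assoc, z2, add_zero]) (by
      intro x
      rw [Equiv.Perm.mul_apply, h2, fl_apply]
      change x.2 + f x.1 + g x.1 = x.2 + (f x.1 + g x.1)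
      rw [add_assoc])
  refine ⟨_, hFinv, ?_⟩
  have h4 : β = β * fl f * fl f := by
    have : fl f * fl f = 1 := by
      rw [fl_mul]
      ext1 x
      refine Prod.ext rfl ?_
      change x.2 + (f x.1 + f x.1) = x.2
      rw [z2, add_zero]
    rw [mul_assoc, this, mul_one]
  rw [h4, h3, mul_assoc, mul_assoc, fl_mul, fl_mul]
  congr 2
  funext w
  change f w + (f w + g w) + f w = f w + g w
  generalize f w = a
  generalize g w = b
  revert a b
  decide

/-- The components commute with the exchange of the layers. -/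
lemma a5 {α' β' : Equiv.Perm (W × ZMod 2)} (h : TF A B α β) {F : W → ZMod 2} (hF : Inv A B F)
    (hβ : β = α * fl F) {w₀ : W} (hw : F w₀ = 1) (h' : TF A B α' β') (x : W × ZMod 2) :
    α' (x.1, x.2 + 1) = ((α' x).1, (α' x).2 + 1) := by
  obtain ⟨F', hF', hβ'⟩ := a4 hodd hA hB hst hne hper h'
  obtain ⟨v, hv⟩ : ∃ v : W, v = (α' x).1 - w₀ := ⟨_, rfl⟩
  obtain ⟨G, hG⟩ : ∃ G : W → ZMod 2, G = fun w => F (w - v) := ⟨_, rfl⟩
  have e1 : fl F * tl (-v, 0) = tl (-v, 0) * fl G := by
    ext1 y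
    refine Prod.ext rfl ?_
    change y.2 + 0 + F (y.1 + -v) = y.2 + G y.1 + 0
    have e0 : G y.1 = F (y.1 + -v) := by
      rw [hG, ← sub_eq_add_neg]
    rw [e0, add_zero, add_zero]
  have e2 : TF A B (tl (v, 0) * α * tl (-v, 0)) (tl (v, 0) * α * tl (-v, 0) * fl G) := by
    have e3 := ((tf_tl (v, 0)).mul' h).mul' (tf_tl (A := A) (B := B) (-v, 0))
    rw [hβ] at e3
    have e4 : tl (v, 0) * (α * fl F) * tl (-v, 0) = tl (v, 0) * α * tl (-v, 0) * fl G := by
      simp only [mul_assoc]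
      rw [e1]
    rwa [e4] at e3
  have e3 := e2.mul' h'
  obtain ⟨K, hK, h1⟩ := a4 hodd hA hB hst hne hper e3
  rw [hβ'] at h1
  have h2 : fl G * (α' * fl F') = α' * fl K := by
    simp only [mul_assoc] at h1
    exact mul_left_cancel (mul_left_cancel (mul_left_cancel h1))
  have h3 : fl G * α' = α' * fl (fun w => F' w + K w) := by
    have h4 : fl G * (α' * fl F') * fl F' = α' * fl K * fl F' := by rw [h2]
    have h5 : fl F' * fl F' = 1 := by
      rw [fl_mul]
      ext1 x
      refine Prod.ext rfl ?_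
      change x.2 + (F' x.1 + F' x.1) = x.2
      rw [z2, add_zero]
    rw [mul_assoc, mul_assoc, h5, mul_one, mul_assoc, fl_mul] at h4
    exact h4
  have h4 := congrArg (fun g : Equiv.Perm (W × ZMod 2) => g x) h3
  simp only [Equiv.Perm.mul_apply, fl_apply] at h4
  have h5 : G (α' x).1 = 1 := by
    rw [hG, hv]
    change F ((α' x).1 - ((α' x).1 - w₀)) = 1
    rw [sub_sub_cancel]
    exact hw
  rw [h5] at h4
  rcases z2c (F' x.1 + K x.1) with h6 | h6
  · exfalso
    rw [h6, add_zero] at h4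
    have h7 := congrArg Prod.snd h4
    change (α' x).2 + 1 = (α' x).2 at h7
    revert h7
    generalize (α' x).2 = a
    revert a
    decide
  · rw [h6] at h4
    exact h4.symm

/-- The conclusion in the first case. -/
theorem case1 (h : TF A B α β) (hαβ : α ≠ β) :
    ∃ (z : Equiv.Perm W) (F : W → Bool), (∃ x, F x = true) ∧ ∀ x y,
      (F y = true → ((y - x ∈ A ↔ z y - z x ∈ B) ∧ (y - x ∈ B ↔ z y - z x ∈ A))) ∧
      (F y = false → ((y - x ∈ A ↔ z y - z x ∈ A) ∧ (y - x ∈ B ↔ z y - z x ∈ B))) := by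
  obtain ⟨F, hF, hβ⟩ := a4 hodd hA hB hst hne hper h
  have hF1 : ∃ w₀, F w₀ = 1 := by
    by_contra hcon
    apply hαβ
    rw [hβ]
    have : fl F = 1 := by
      ext1 x
      refine Prod.ext rfl ?_
      change x.2 + F x.1 = x.2
      rcases z2c (F x.1) with h1 | h1
      · rw [h1, add_zero]
      · exact absurd ⟨_, h1⟩ hcon
    rw [this, mul_one]
  obtain ⟨w₀, hw₀⟩ := hF1
  have hc := fun x => a5 hodd hA hB hst hne hper h hF hβ hw₀ h x
  obtain ⟨f, hf, h1⟩ := layf hodd hA hB hst hne hper h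
  -- the permutation
  have hz : ∀ x : W × ZMod 2, (α x).1 = (α (x.1, 0)).1 := by
    intro x
    rcases z2c x.2 with h2 | h2
    · have e : x = (x.1, 0) := Prod.ext rfl h2
      nth_rewrite 1 [e]
      rfl
    · have e : x = (x.1, 0 + 1) := Prod.ext rfl (by rw [h2, zero_add])
      nth_rewrite 1 [e]
      have := hc (x.1, 0)
      rw [this]
  have hbij : Function.Bijective (fun w : W => (α (w, 0)).1) := by
    rw [Fintype.bijective_iff_surjective_and_card]
    refine ⟨fun w => ?_, rfl⟩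
    obtain ⟨x, hx⟩ := α.surjective (w, 0)
    refine ⟨x.1, ?_⟩
    change (α (x.1, 0)).1 = w
    rw [← hz, hx]
  refine ⟨Equiv.ofBijective _ hbij, fun w => decide (F w = 1), ⟨w₀, by simpa using hw₀⟩, ?_⟩
  intro x y
  have hrel : ∀ i : ZMod 2, (((y, i) : W × ZMod 2) - (x, 0) ∈ SS A B ↔
      ((α (y, 0)).1 - (α (x, 0)).1, i + F y + f y - f x) ∈ SS A B) := by
    intro i
    rw [h (x, 0) (y, i), hβ, Equiv.Perm.mul_apply, fl_apply]
    have e : α (y, i + F y) - α (x, 0) =
        ((α (y, 0)).1 - (α (x, 0)).1, i + F y + f y - f x) := by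
      refine Prod.ext ?_ ?_
      · rw [Prod.fst_sub]
        congr 1
        exact hz (y, i + F y)
      · rw [Prod.snd_sub, h1, h1]
        change i + F y + f y - (0 + f x) = _
        rw [zero_add]
    change α (y, i + F y) - α (x, 0) ∈ SS A B ↔ _
    rw [e]
  have hs0 : ∀ w : W, ((w, 0) : W × ZMod 2) ∈ SS A B ↔ w ∈ A := by
    intro w
    constructor
    · rintro (h7 | h7)
      · exact h7.2
      · exact absurd h7.1 (show ¬ ((0 : ZMod 2) = 1) by decide)
    · intro h7; exact Or.inl ⟨rfl, h7⟩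
  have hs1 : ∀ w : W, ((w, 1) : W × ZMod 2) ∈ SS A B ↔ w ∈ B := by
    intro w
    constructor
    · rintro (h7 | h7)
      · exact absurd h7.1 (show ¬ ((1 : ZMod 2) = 0) by decide)
      · exact h7.2
    · intro h7; exact Or.inr ⟨rfl, h7⟩
  have e0 := hrel 0
  have e1 := hrel 1
  have g0 : ((y, 0) : W × ZMod 2) - (x, 0) = (y - x, 0) := rfl
  have g1 : ((y, 1) : W × ZMod 2) - (x, 0) = (y - x, 1) := rfl
  rw [g0, hs0] at e0
  rw [g1, hs1] at e1
  change (decide (F y = 1) = true → ((y - x ∈ A ↔ (α (y, 0)).1 - (α (x, 0)).1 ∈ B) ∧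
      (y - x ∈ B ↔ (α (y, 0)).1 - (α (x, 0)).1 ∈ A))) ∧
      (decide (F y = 1) = false → ((y - x ∈ A ↔ (α (y, 0)).1 - (α (x, 0)).1 ∈ A) ∧
      (y - x ∈ B ↔ (α (y, 0)).1 - (α (x, 0)).1 ∈ B)))
  by_cases hU : y - x ∈ UU A B
  · have hfe : f x = f y := hf x y hU
    have k0 : (0 : ZMod 2) + F y + f y - f x = F y := by rw [hfe]; ring
    have k1' : (1 : ZMod 2) + F y + f y - f x = 1 + F y := by rw [hfe]; ring
    rw [k0] at e0
    rw [k1'] at e1
    constructor
    · intro h5
      have h6 : F y = 1 := of_decide_eq_true h5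
      rw [h6] at e0 e1
      rw [hs1] at e0
      have : (1 : ZMod 2) + 1 = 0 := by decide
      rw [this, hs0] at e1
      exact ⟨e0, e1⟩
    · intro h5
      have h6 : F y = 0 := (z2c (F y)).resolve_right (of_decide_eq_false h5)
      rw [h6] at e0 e1
      rw [hs0] at e0
      rw [add_zero, hs1] at e1
      exact ⟨e0, e1⟩
  · have hU' : (α (y, 0)).1 - (α (x, 0)).1 ∉ UU A B := fun h5 =>
      hU (blk_inv hodd hA hB hst hne hper h (x := (x, 0)) (y := (y, 0)) h5)
    have hAB : y - x ∈ A ↔ y - x ∈ B := by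
      by_contra h5
      exact hU (mem_UU_of h5)
    have hAB' : (α (y, 0)).1 - (α (x, 0)).1 ∈ A ↔ (α (y, 0)).1 - (α (x, 0)).1 ∈ B := by
      by_contra h5
      exact hU' (mem_UU_of h5)
    have e0' : y - x ∈ A ↔ (α (y, 0)).1 - (α (x, 0)).1 ∈ A := by
      rw [e0]
      exact ss_off hU'
    constructor
    · intro _
      exact ⟨e0'.trans hAB', hAB.symm.trans e0'⟩
    · intro _
      exact ⟨e0', hAB.symm.trans (e0'.trans hAB')⟩

end

end Pool.Agent.R996.Ty
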