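import Pool.Agent.R996.Ty.Case1

/-!
# The second case
-/

set_option linter.unusedSectionVars false
set_option linter.unusedVariables false

namespace Pool.Agent.R996.Ty
open Finset Classical

section

variable {W : Type} [AddCommGroup W] [Fintype W] {A B : Set W} {α β : Equiv.Perm (W × ZMod 2)}

/-- The doubling step for the relation given by the first coordinates. -/
lemma q_dbl (hodd : Odd (Fintype.card W)) {T : Set W} (α γ : Equiv.Perm (W × ZMod 2))
    (h1 : ∀ x v : W × ZMod 2, v.1 - x.1 ∈ T ↔ (γ v).1 - (α x).1 ∈ T)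
    (h2 : ∀ v x : W × ZMod 2, x.1 - v.1 ∈ T ↔ (α x).1 - (γ v).1 ∈ T) :
    ∀ x x' : W × ZMod 2, x'.1 - x.1 ∈ dbl T ↔ (α x').1 - (α x).1 ∈ dbl T := by
  have hc : ∀ a b : W, (univ.filter fun v : W × ZMod 2 => v.1 - a ∈ T ∧ b - v.1 ∈ T).card =
      (univ.filter fun w : W => w - a ∈ T ∧ b - w ∈ T).card * 2 := by
    intro a b
    have e : (univ.filter fun v : W × ZMod 2 => v.1 - a ∈ T ∧ b - v.1 ∈ T) =
        (univ.filter fun w : W => w - a ∈ T ∧ b - w ∈ T) ×ˢ (univ : Finset (ZMod 2)) := by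
      ext v
      simp
    rw [e, card_product, card_univ, ZMod.card]
  have hs : ∀ a b : W, ind (b - a ∈ dbl T) =
      ((univ.filter fun w : W => w - a ∈ T ∧ b - w ∈ T).card : ZMod 2) := by
    intro a b
    rw [← par_W hodd]
    unfold ind
    rw [Finset.card_filter]
    push_cast
    refine Finset.sum_congr rfl fun w _ => ?_
    congr
  intro x x'
  rw [← ind_inj, hs, hs]
  congr 1
  have h3 : (univ.filter fun v : W × ZMod 2 => v.1 - x.1 ∈ T ∧ x'.1 - v.1 ∈ T).card =
      (univ.filter fun v : W × ZMod 2 => v.1 - (α x).1 ∈ T ∧ (α x').1 - v.1 ∈ T).card := by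
    refine Finset.card_bij (fun v _ => γ v) ?_ ?_ ?_
    · intro v hv
      rw [mem_filter] at hv ⊢
      exact ⟨mem_univ _, (h1 x v).1 hv.2.1, (h2 v x').1 hv.2.2⟩
    · intro a _ b _ hab
      exact γ.injective hab
    · intro b hb
      rw [mem_filter] at hb
      refine ⟨γ⁻¹ b, ?_, ai γ b⟩
      rw [mem_filter]
      refine ⟨mem_univ _, (h1 _ _).2 ?_, (h2 _ _).2 ?_⟩
      · rw [ai]; exact hb.2.1
      · rw [ai]; exact hb.2.2
  rw [hc, hc] at h3
  omega

/-- The relation is preserved by the first component alone. -/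
lemma q_all (hodd : Odd (Fintype.card W)) {T : Set W} (hT : ∀ a, a ∈ T → -a ∈ T)
    (α γ : Equiv.Perm (W × ZMod 2))
    (h1 : ∀ x v : W × ZMod 2, v.1 - x.1 ∈ T ↔ (γ v).1 - (α x).1 ∈ T) :
    ∀ x x' : W × ZMod 2, x'.1 - x.1 ∈ T ↔ (α x').1 - (α x).1 ∈ T := by
  have hn : ∀ a b : W, a - b ∈ T ↔ b - a ∈ T := by
    intro a b
    constructor
    · intro h; have := hT _ h; rwa [neg_sub] at this
    · intro h; have := hT _ h; rwa [neg_sub] at this
  have h2 : ∀ v x : W × ZMod 2, x.1 - v.1 ∈ T ↔ (α x).1 - (γ v).1 ∈ T := by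
    intro v x
    rw [hn, h1, hn]
  obtain ⟨n, hn'⟩ := exists_period (W := W) hodd
  have key : ∀ k : ℕ, ∀ x x' : W × ZMod 2,
      x'.1 - x.1 ∈ dbl^[k + 1] T ↔ (α x').1 - (α x).1 ∈ dbl^[k + 1] T := by
    intro k
    induction k with
    | zero => exact q_dbl hodd α γ h1 h2
    | succ k ih =>
      rw [Function.iterate_succ', Function.comp_apply]
      exact q_dbl hodd α α ih (fun v x => ih v x)
  have h3 := key n
  rwa [hn'] at h3

variable (hodd : Odd (Fintype.card W)) (hA : ∀ a, a ∈ A → -a ∈ A)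
    (hB : ∀ a, a ∈ B → -a ∈ B) (hst : ∀ h, (∀ a, a + h ∈ A ↔ a ∈ A) → h = 0)
    (hne : ∃ w, w ∈ dd A B) (hper : ∃ h, h ∈ per B ∧ h ∉ UU A B)

include hodd hA hB hst hne hper

/-- A point in a different block. -/
lemma exists_far (h : TF A B α β) (x : W × ZMod 2) : ∃ x' : W × ZMod 2, x.1 - x'.1 ∈ per B ∧
    (α x').1 - (α x).1 ∉ UU A B ∧ (β x').1 - (α x).1 ∉ UU A B := by
  obtain ⟨t, ht, htU⟩ := hper
  by_contra hcon
  push Not at hcon
  have hg : ∀ j : Fin 3 × ZMod 2, x.1 - (x.1 + (j.1 : ℕ) • t, j.2).1 ∈ per B := by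
    intro j
    change x.1 - (x.1 + (j.1 : ℕ) • t) ∈ per B
    have e : x.1 - (x.1 + (j.1 : ℕ) • t) = -((j.1 : ℕ) • t) := by abel
    rw [e]
    exact (per B).neg_mem ((per B).nsmul_mem ht _)
  let f : Fin 3 × ZMod 2 → Bool × ZMod 2 := fun j =>
    if (α (x.1 + (j.1 : ℕ) • t, j.2)).1 - (α x).1 ∈ UU A B then
      (true, (α (x.1 + (j.1 : ℕ) • t, j.2)).2)
    else (false, (β (x.1 + (j.1 : ℕ) • t, j.2)).2)
  obtain ⟨i, j, hij, hf⟩ := Fintype.exists_ne_map_eq_of_card_lt f (by
    rw [Fintype.card_prod, Fintype.card_prod, Fintype.card_fin, ZMod.card, Fintype.card_bool]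
    norm_num)
  apply hij
  have hfin : ∀ {i j : Fin 3 × ZMod 2}, i.2 = j.2 →
      (x.1 + (j.1 : ℕ) • t) - (x.1 + (i.1 : ℕ) • t) ∈ UU A B → i = j := by
    intro i j h1 h2
    refine Prod.ext ?_ h1
    have e : (x.1 + (j.1 : ℕ) • t) - (x.1 + (i.1 : ℕ) • t) = (j.1 : ℕ) • t - (i.1 : ℕ) • t := by
      abel
    rw [e] at h2
    have h2t : t + t ∉ UU A B := by
      intro h3
      obtain ⟨k, hk⟩ := hodd
      apply htU
      have h7 : t = (k + 1) • (t + t) := by
        have h1 : (Fintype.card W) • t = 0 := card_nsmul_eq_zero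
        rw [hk] at h1
        rw [← two_nsmul, ← mul_nsmul', show (k + 1) * 2 = (2 * k + 1) + 1 by ring, add_nsmul,
          one_nsmul, h1, zero_add]
      rw [h7]
      exact (UU A B).nsmul_mem h3 _
    have hneg : ∀ a b : W, a - b ∈ UU A B → b - a ∈ UU A B := by
      intro a b h3
      have := (UU A B).neg_mem h3
      rwa [neg_sub] at this
    obtain ⟨⟨i, hi⟩, i2⟩ := i
    obtain ⟨⟨j, hj⟩, j2⟩ := j
    apply Fin.ext
    change i = j
    change j • t - i • t ∈ UU A B at h2
    interval_cases i <;> interval_cases j <;> first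
      | rfl
      | (exfalso
         simp only [zero_nsmul, one_nsmul, two_nsmul, sub_zero, zero_sub, add_sub_cancel_left,
           sub_add_cancel_left, neg_mem_iff] at h2
         first
          | exact htU h2
          | exact h2t h2)
  have hsub : ∀ {a b c : W}, a - c ∈ UU A B → b - c ∈ UU A B → b - a ∈ UU A B := by
    intro a b c h1 h2
    have := (UU A B).sub_mem h2 h1
    rwa [sub_sub_sub_cancel_right] at this
  by_cases h1 : (α (x.1 + (i.1 : ℕ) • t, i.2)).1 - (α x).1 ∈ UU A B
  · by_cases h2 : (α (x.1 + (j.1 : ℕ) • t, j.2)).1 - (α x).1 ∈ UU A B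
    · have h3 : f i = (true, (α (x.1 + (i.1 : ℕ) • t, i.2)).2) := if_pos h1
      have h4 : f j = (true, (α (x.1 + (j.1 : ℕ) • t, j.2)).2) := if_pos h2
      rw [h3, h4] at hf
      have hf2 : (α (x.1 + (i.1 : ℕ) • t, i.2)).2 = (α (x.1 + (j.1 : ℕ) • t, j.2)).2 :=
        congrArg (fun p : Bool × ZMod 2 => p.2) hf
      have h5 := cos_inv hodd hA hB h hf2 (hsub h1 h2)
      exact hfin h5.1 h5.2
    · have h3 : f i = (true, (α (x.1 + (i.1 : ℕ) • t, i.2)).2) := if_pos h1
      have h4 : f j = (false, (β (x.1 + (j.1 : ℕ) • t, j.2)).2) := if_neg h2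
      rw [h3, h4] at hf
      exact absurd (congrArg Prod.fst hf) (by simp)
  · by_cases h2 : (α (x.1 + (j.1 : ℕ) • t, j.2)).1 - (α x).1 ∈ UU A B
    · have h3 : f i = (false, (β (x.1 + (i.1 : ℕ) • t, i.2)).2) := if_neg h1
      have h4 : f j = (true, (α (x.1 + (j.1 : ℕ) • t, j.2)).2) := if_pos h2
      rw [h3, h4] at hf
      exact absurd (congrArg Prod.fst hf) (by simp)
    · have h3 : f i = (false, (β (x.1 + (i.1 : ℕ) • t, i.2)).2) := if_neg h1
      have h4 : f j = (false, (β (x.1 + (j.1 : ℕ) • t, j.2)).2) := if_neg h2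
      rw [h3, h4] at hf
      have h1' := hcon _ (hg i) h1
      have h2' := hcon _ (hg j) h2
      have hf2 : (β (x.1 + (i.1 : ℕ) • t, i.2)).2 = (β (x.1 + (j.1 : ℕ) • t, j.2)).2 :=
        congrArg (fun p : Bool × ZMod 2 => p.2) hf
      have h5 := cos_inv hodd hA hB (h.swap hA hB) hf2 (hsub h1' h2')
      exact hfin h5.1 h5.2

lemma rr_both (v : W × ZMod 2) (w : W) (l : ZMod 2) :
    rr A B v (w, l) + rr A B v (w, l + 1) = tr (dd A B) v.1 w := by
  have hnx : ∀ a b : ZMod 2, a ≠ b → b + 1 = a := by decide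
  have hnx2 : ∀ a : ZMod 2, a ≠ a + 1 := by decide
  by_cases h1 : v.2 = l
  · rw [rr_same h1, rr_diff (by rw [h1]; exact hnx2 l), add_zero]
  · rw [rr_diff h1, rr_same (hnx _ _ h1).symm, zero_add]

/-- The images of a point under the two components. -/
lemma near2 (h : TF A B α β) (x : W × ZMod 2) (w : W) :
    tr (dd A B) (α x).1 w = tr (dd A B) (β x).1 w := by
  obtain ⟨x', hx', h1, h2⟩ := exists_far hodd hA hB hst hne hper h x
  have hw : ∀ w, w - (α x).1 ∈ UU A B → tr (dd A B) (α x).1 w = tr (dd A B) (β x).1 w := by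
    intro w hw
    have h3 := dia hodd hA hB h hx' (w, 0)
    have h4 := dia hodd hA hB h hx' (w, 0 + 1)
    have b := rr_both hodd hA hB hst hne hper
    have e1 := b (α x) w 0
    have e2 := b (α x') w 0
    have e3 := b (β x) w 0
    have e4 := b (β x') w 0
    have e5 : tr (dd A B) (α x').1 w = 0 := tr_off fun h5 => h1 (by
      have := (UU A B).sub_mem hw h5
      rwa [sub_sub_sub_cancel_left] at this)
    have e6 : tr (dd A B) (β x').1 w = 0 := tr_off fun h5 => h2 (by
      have := (UU A B).sub_mem hw h5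
      rwa [sub_sub_sub_cancel_left] at this)
    rw [e5] at e2
    rw [e6] at e4
    rw [← e1, ← e3]
    change tr B (α x).1 w + tr B (α x').1 w = _ at h3
    change tr B (α x).1 w + tr B (α x').1 w = _ at h4
    have h5 := h3.symm.trans h4
    revert h5 e2 e4
    generalize rr A B (α x) (w, 0) = a1
    generalize rr A B (α x) (w, 0 + 1) = a2
    generalize rr A B (α x') (w, 0) = a3
    generalize rr A B (α x') (w, 0 + 1) = a4
    generalize rr A B (β x) (w, 0) = a5
    generalize rr A B (β x) (w, 0 + 1) = a6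
    generalize rr A B (β x') (w, 0) = a7
    generalize rr A B (β x') (w, 0 + 1) = a8
    intro e2 e4 h5
    have e2' : a4 = a3 := (c2 (by rw [add_comm]; exact e2))
    have e4' : a8 = a7 := (c2 (by rw [add_comm]; exact e4))
    subst e2' e4'
    revert a1 a2 a4 a5 a6 a8
    decide
  by_cases hwU : w - (α x).1 ∈ UU A B
  · exact hw w hwU
  · obtain ⟨d, hd⟩ := id hne
    have h3 := hw ((α x).1 + d) (by rw [add_sub_cancel_left]; exact mem_UU_of hd)
    rw [tr_one (by rw [add_sub_cancel_left]; exact hd)] at h3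
    have h4 := mem_UU_of (mem_of_tr (T := dd A B) (p := (β x).1) (w := (α x).1 + d)
      (by rw [← h3]; decide))
    have h5 : w - (β x).1 ∉ UU A B := by
      intro h6
      apply hwU
      have h7 := (UU A B).add_mem ((UU A B).sub_mem h6 h4) (mem_UU_of hd)
      have e : w - (β x).1 - ((α x).1 + d - (β x).1) + d = w - (α x).1 := by abel
      rwa [e] at h7
    rw [tr_off hwU, tr_off h5]

/-- The two components have the same layer. -/
lemma samelay (h : TF A B α β) (x : W × ZMod 2) : (β x).2 = (α x).2 := by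
  have hn := near2 hodd hA hB hst hne hper h
  have hnx2 : ∀ a : ZMod 2, a ≠ a + 1 := by decide
  have hnx : ∀ a b : ZMod 2, a ≠ b → a = b + 1 := by decide
  -- the sum of the two terms
  have s0 : ∀ x, (β x).2 = (α x).2 → ∀ y, rr A B (α x) y + rr A B (β x) y = 0 := by
    intro x hx y
    by_cases h1 : (α x).2 = y.2
    · have e1 : rr A B (α x) y = tr (dd A B) (α x).1 y.1 := rr_same h1 y.1
      have e2 : rr A B (β x) y = tr (dd A B) (β x).1 y.1 := rr_same (hx.trans h1) y.1
      rw [e1, e2, hn, z2]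
    · have e1 : rr A B (α x) y = 0 := rr_diff h1 y.1
      have e2 : rr A B (β x) y = 0 := rr_diff (by rw [hx]; exact h1) y.1
      rw [e1, e2, add_zero]
  have s1 : ∀ x, (β x).2 ≠ (α x).2 → ∀ y, rr A B (α x) y + rr A B (β x) y =
      tr (dd A B) (α x).1 y.1 := by
    intro x hx y
    by_cases h1 : (α x).2 = y.2
    · have e1 : rr A B (α x) y = tr (dd A B) (α x).1 y.1 := rr_same h1 y.1
      have e2 : rr A B (β x) y = 0 := rr_diff (by rw [← h1]; exact hx) y.1
      rw [e1, e2, add_zero]
    · have e1 : rr A B (α x) y = 0 := rr_diff h1 y.1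
      have e2 : rr A B (β x) y = tr (dd A B) (β x).1 y.1 := rr_same (by
        rw [hnx _ _ hx]
        exact (hnx _ _ (Ne.symm h1)).symm) y.1
      rw [e1, e2, zero_add, ← hn]
  obtain ⟨t, ht, htU⟩ := id hper
  by_contra hx
  -- all the points of the fibre have the same first coordinate
  have key : ∀ x' : W × ZMod 2, x.1 - x'.1 ∈ per B → (α x').1 = (α x).1 := by
    intro x' hx'
    have hd : ∀ w, tr B (α x).1 w + tr B (α x').1 w =
        (rr A B (α x) (w, 0) + rr A B (β x) (w, 0)) +
        (rr A B (α x') (w, 0) + rr A B (β x') (w, 0)) := by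
      intro w
      have := dia hodd hA hB h hx' (w, 0)
      change tr B (α x).1 w + tr B (α x').1 w = _ at this
      rw [this]
      ring
    by_cases h1 : (β x').2 = (α x').2
    · exfalso
      have h5 : A = B := by
        refine tr_eq_of_symm hodd hA hB (p := (α x).1) (q := (α x').1) fun w => ?_
        have h6 := hd w
        rw [s0 _ h1, s1 _ hx, add_zero] at h6
        change _ = tr (dd A B) (α x).1 w at h6
        rw [tr_dd] at h6
        revert h6
        generalize tr A (α x).1 w = a1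
        generalize tr B (α x).1 w = a3
        generalize tr B (α x').1 w = a4
        revert a1 a3 a4
        decide
      obtain ⟨d, hd'⟩ := id hne
      exact hd' (by rw [h5])
    · have h5 : ∀ w, tr A (α x).1 w = tr A (α x').1 w := by
        apply A_eq (B := B)
        intro w
        have h6 := hd w
        rw [s1 _ h1, s1 _ hx] at h6
        exact h6
      have h6 := hst _ (tr_eq_per h5)
      exact (sub_eq_zero.1 h6).symm
  have k1 := key (x.1 + t, x.2) (by
    change x.1 - (x.1 + t) ∈ per B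
    rw [sub_add_cancel_left]
    exact (per B).neg_mem ht)
  have k2 := key (x.1 + (t + t), x.2) (by
    change x.1 - (x.1 + (t + t)) ∈ per B
    rw [sub_add_cancel_left]
    exact (per B).neg_mem ((per B).add_mem ht ht))
  have ht0 : t ≠ 0 := fun h1 => htU (by rw [h1]; exact zero_mem _)
  have htt : t + t ≠ 0 := fun h1 => ht0 (two_inj hodd (by rw [h1, add_zero]))
  have d1 : (α (x.1 + t, x.2)).2 ≠ (α x).2 := by
    intro h1
    have h2 := congrArg Prod.fst (α.injective (Prod.ext k1 h1))
    exact ht0 (left_eq_add.1 h2.symm)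
  have d2 : (α (x.1 + (t + t), x.2)).2 ≠ (α x).2 := by
    intro h1
    have h2 := congrArg Prod.fst (α.injective (Prod.ext k2 h1))
    exact htt (left_eq_add.1 h2.symm)
  have d3 : (α (x.1 + (t + t), x.2)).2 ≠ (α (x.1 + t, x.2)).2 := by
    intro h1
    have h2 := congrArg Prod.fst (α.injective (Prod.ext (k2.trans k1.symm) h1))
    change x.1 + (t + t) = x.1 + t at h2
    rw [← add_assoc] at h2
    exact ht0 (left_eq_add.1 h2.symm)
  revert d1 d2 d3
  generalize (α (x.1 + (t + t), x.2)).2 = a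
  generalize (α (x.1 + t, x.2)).2 = b
  generalize (α x).2 = c
  revert a b c
  decide

/-- The conclusion in the second case. -/
theorem case2 (h : TF A B α β) : α = β := by
  have hn := near2 hodd hA hB hst hne hper h
  have hs := samelay hodd hA hB hst hne hper h
  have hq : ∀ x v : W × ZMod 2, v.1 - x.1 ∈ B ↔ (β v).1 - (α x).1 ∈ B := by
    intro x v
    have h1 := dia0 hodd hA hB h x (β v)
    have h2 : rr A B (α x) (β v) = rr A B (β x) (β v) := by
      by_cases h1 : (α x).2 = (β v).2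
      · have e1 : rr A B (α x) (β v) = tr (dd A B) (α x).1 (β v).1 := rr_same h1 _
        have e2 : rr A B (β x) (β v) = tr (dd A B) (β x).1 (β v).1 := rr_same ((hs x).trans h1) _
        rw [e1, e2, hn]
      · have e1 : rr A B (α x) (β v) = 0 := rr_diff h1 _
        have e2 : rr A B (β x) (β v) = 0 := rr_diff (by rw [hs]; exact h1) _
        rw [e1, e2]
    rw [h2, add_assoc, z2, add_zero, Equiv.symm_apply_apply] at h1
    exact (ind_inj.1 h1).symm
  have hq2 := q_all hodd hB α β hq
  ext1 v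
  refine Prod.ext ?_ (hs v).symm
  have hsy : ∀ a b : W, a - b ∈ B ↔ b - a ∈ B := by
    intro a b
    constructor
    · intro h; have := hB _ h; rwa [neg_sub] at this
    · intro h; have := hB _ h; rwa [neg_sub] at this
  have h1 : ∀ w, tr B (α v).1 w = tr B (β v).1 w := by
    intro w
    obtain ⟨x, hx⟩ := α.surjective (w, 0)
    have hx' : w = (α x).1 := by rw [hx]
    unfold tr
    rw [ind_inj, hx', hsy, ← hq2 x v, hq x v, hsy]
  have h2 : ∀ w, tr A (α v).1 w = tr A (β v).1 w := by
    apply A_eq (B := B)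
    intro w
    rw [h1, hn, z2, z2]
  exact sub_eq_zero.1 (hst _ (tr_eq_per h2))

end

end Pool.Agent.R996.Ty
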