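import Pool.Agent.R996.Ty.Defs

/-!
# Local analysis of permutations of abelian groups: definitions
-/

namespace Pool.Agent.R996.Ty

section

variable {W : Type} [AddCommGroup W]

/-- The subgroup `V` is invariant under `z`: the cosets of `V` are permuted by `z`. -/
def ZI (z : Equiv.Perm W) (V : AddSubgroup W) : Prop := ∀ x y, y - x ∈ V ↔ z y - z x ∈ V

/-- The image of the set of differences `Y` at the point `x`. -/
def img (z : Equiv.Perm W) (Y : Set W) (x : W) : Set W := {t | z.symm (z x + t) - x ∈ Y}

/-- The images of `Y` are constant on the cosets of `V`. -/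
def PG (z : Equiv.Perm W) (V : AddSubgroup W) (Y : Set W) : Prop :=
  ∀ x, ∀ v ∈ V, img z Y (x + v) = img z Y x

/-- The atom of `w` in the Boolean algebra of the sets with `PG z V`. -/
def atm (z : Equiv.Perm W) (V : AddSubgroup W) (w : W) : Set W :=
  {y | ∀ Y : Set W, PG z V Y → w ∈ Y → y ∈ Y}

/-- The smallest invariant subgroup containing `w`. -/
def vw (z : Equiv.Perm W) (w : W) : AddSubgroup W := sInf {V | ZI z V ∧ w ∈ V}

/-- The periods of a set. -/
def pers (Y : Set W) : AddSubgroup W where
  carrier := {h | ∀ w, w + h ∈ Y ↔ w ∈ Y}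
  add_mem' := by
    intro a b ha hb w
    rw [← add_assoc, hb, ha]
  zero_mem' := by
    intro w
    rw [add_zero]
  neg_mem' := by
    intro a ha w
    have := ha (w + -a)
    rw [neg_add_cancel_right] at this
    exact this.symm

lemma mem_img {z : Equiv.Perm W} {Y : Set W} {x y : W} : z y - z x ∈ img z Y x ↔ y - x ∈ Y := by
  change z.symm (z x + (z y - z x)) - x ∈ Y ↔ _
  rw [add_sub_cancel, Equiv.symm_apply_apply]

end

end Pool.Agent.R996.Ty
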