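import Pool.Agent.R996.Ty.Defs

/-!
# The multiplier lemma
-/

namespace Pool.Agent.R996.Ty

open Finset

section cnt

variable {W : Type} [AddCommGroup W] [DecidableEq W]

/-- the number of representations as a sum, modulo `p` -/
def cnt (p : ℕ) (S : Finset W) : ℕ → W → ZMod p
  | 0, u => if u = 0 then 1 else 0
  | n + 1, u => ∑ w ∈ S, cnt p S n (u - w)

theorem cnt_eq (p : ℕ) (S : Finset W) (n : ℕ) (u : W) :
    ((∑ w ∈ S, AddMonoidAlgebra.single w (1 : ZMod p)) ^ n : AddMonoidAlgebra (ZMod p) W).coeff u =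
      cnt p S n u := by
  induction n generalizing u with
  | zero =>
    rw [pow_zero, AddMonoidAlgebra.one_def, cnt, AddMonoidAlgebra.coeff_single,
      Finsupp.single_apply]
    simp only [eq_comm]
  | succ n ih =>
    rw [pow_succ', Finset.sum_mul, cnt, AddMonoidAlgebra.coeff_sum, Finsupp.finsetSum_apply]
    refine Finset.sum_congr rfl fun w _ => ?_
    rw [AddMonoidAlgebra.coeff_single_mul_eq_mul_coeff (m₂ := u - w), one_mul, ih]
    intro v _
    rw [eq_sub_iff_add_eq, add_comm]

theorem cnt_prime (p : ℕ) [Fact p.Prime] (S : Finset W)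
    (hinj : ∀ w ∈ S, ∀ w' ∈ S, p • w = p • w' → w = w') (u : W) :
    u ∈ S.image (fun w => p • w) ↔ cnt p S p u ≠ 0 := by
  have : CharP (AddMonoidAlgebra (ZMod p) W) p :=
    charP_of_injective_algebraMap (algebraMap (ZMod p) (AddMonoidAlgebra (ZMod p) W)).injective p
  have h1 : ((∑ w ∈ S, AddMonoidAlgebra.single w (1 : ZMod p)) ^ p :
      AddMonoidAlgebra (ZMod p) W) = ∑ w ∈ S, AddMonoidAlgebra.single (p • w) (1 : ZMod p) := by
    rw [sum_pow_char]
    refine Finset.sum_congr rfl fun w _ => ?_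
    rw [AddMonoidAlgebra.single_pow, one_pow]
  have h2 : cnt p S p u = ∑ w ∈ S, if p • w = u then (1 : ZMod p) else 0 := by
    rw [← cnt_eq, h1, AddMonoidAlgebra.coeff_sum, Finsupp.finsetSum_apply]
    refine Finset.sum_congr rfl fun w _ => ?_
    rw [AddMonoidAlgebra.coeff_single, Finsupp.single_apply]
  rw [h2]
  constructor
  · intro hu
    obtain ⟨w, hw, hwu⟩ := Finset.mem_image.mp hu
    rw [Finset.sum_eq_single_of_mem w hw, if_pos hwu]
    · exact one_ne_zero
    · intro b hb hbw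
      rw [if_neg]
      intro hbu
      exact hbw (hinj b hb w hw (hbu.trans hwu.symm))
  · intro hne
    obtain ⟨w, hw, hwu⟩ := Finset.exists_ne_zero_of_sum_ne_zero hne
    refine Finset.mem_image.mpr ⟨w, hw, ?_⟩
    by_contra hh
    exact hwu (if_neg hh)

theorem cnt_trans (p : ℕ) (z : Equiv.Perm W) (Y : Finset W)
    (Y' : W → Finset W) (h : ∀ x y, y - x ∈ Y ↔ z y - z x ∈ Y' x)
    (hc : ∀ x, ∀ w ∈ Y, Y' (x + w) = Y' x) (n : ℕ) (x y : W) :
    cnt p Y n (y - x) = cnt p (Y' x) n (z y - z x) := by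
  induction n generalizing x with
  | zero => simp only [cnt, sub_eq_zero, EmbeddingLike.apply_eq_iff_eq]
  | succ n ih =>
    simp only [cnt]
    refine Finset.sum_bij (fun w _ => z (x + w) - z x) ?_ ?_ ?_ ?_
    · intro w hw
      rw [← h x (x + w)]
      simpa using hw
    · intro w _ w' _ hww
      have := sub_left_injective hww
      simpa using z.injective this
    · intro b hb
      refine ⟨z.symm (b + z x) - x, ?_, ?_⟩
      · rw [h]
        simpa using hb
      · simp
    · intro w hw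
      have := ih (x + w)
      rw [hc x w hw] at this
      rw [sub_sub, this]
      congr 1
      abel

end cnt

theorem mult_prime {W : Type} [AddCommGroup W] [Fintype W] [DecidableEq W] (H : AddSubgroup W)
    (p : ℕ) (hp : p.Prime) (hN : p.Coprime (Nat.card H)) (z : Equiv.Perm W) (Y : Finset W)
    (Y' : W → Finset W) (hY : ∀ w ∈ Y, ∀ w' ∈ Y, w - w' ∈ H)
    (hY' : ∀ x, ∀ w ∈ Y' x, ∀ w' ∈ Y' x, w - w' ∈ H)
    (h : ∀ x y, y - x ∈ Y ↔ z y - z x ∈ Y' x) (hc : ∀ x, ∀ w ∈ Y, Y' (x + w) = Y' x) :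
    ∀ x y, y - x ∈ Y.image (fun w => p • w) ↔ z y - z x ∈ (Y' x).image (fun w => p • w) := by
  have : Fact p.Prime := ⟨hp⟩
  have key : ∀ v ∈ H, p • v = 0 → v = 0 := by
    intro v hv hpv
    have h1 : Nat.card H • v = 0 := by
      have h0 : Nat.card H • (⟨v, hv⟩ : H) = 0 := card_nsmul_eq_zero'
      have h2 := congrArg (fun t : H => (t : W)) h0
      exact h2
    have h3 : addOrderOf v ∣ p := addOrderOf_dvd_of_nsmul_eq_zero hpv
    have h4 : addOrderOf v ∣ Nat.card H := addOrderOf_dvd_of_nsmul_eq_zero h1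
    have h5 : addOrderOf v = 1 := Nat.eq_one_of_dvd_coprimes hN h3 h4
    exact AddMonoid.addOrderOf_eq_one_iff.mp h5
  have inj : ∀ S : Finset W, (∀ w ∈ S, ∀ w' ∈ S, w - w' ∈ H) →
      ∀ w ∈ S, ∀ w' ∈ S, p • w = p • w' → w = w' := by
    intro S hS w hw w' hw' he
    exact sub_eq_zero.mp (key _ (hS w hw w' hw') (by rw [smul_sub, he, sub_self]))
  intro x y
  rw [cnt_prime p Y (inj Y hY), cnt_prime p (Y' x) (inj (Y' x) (hY' x)),
    cnt_trans p z Y Y' h hc]

theorem mult {W : Type} [AddCommGroup W] [Fintype W] [DecidableEq W] (H : AddSubgroup W) (N : ℕ)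
    (hN0 : 0 < N) (hN : N.Coprime (Nat.card H)) (z : Equiv.Perm W) (Y : Finset W)
    (Y' : W → Finset W) (hY : ∀ w ∈ Y, ∀ w' ∈ Y, w - w' ∈ H)
    (hY' : ∀ x, ∀ w ∈ Y' x, ∀ w' ∈ Y' x, w - w' ∈ H)
    (h : ∀ x y, y - x ∈ Y ↔ z y - z x ∈ Y' x) (hc : ∀ x, ∀ w ∈ Y, Y' (x + w) = Y' x) :
    ∀ x y, y - x ∈ Y.image (fun w => N • w) ↔ z y - z x ∈ (Y' x).image (fun w => N • w) := by
  induction N using induction_on_primes generalizing Y Y' with
  | zero => exact absurd hN0 (lt_irrefl 0)
  | one => simpa using h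
  | prime_mul p a hp ih =>
    have ha0 : 0 < a := Nat.pos_of_mul_pos_left hN0
    have hpc : p.Coprime (Nat.card H) := Nat.Coprime.coprime_mul_right hN
    have hac : a.Coprime (Nat.card H) := Nat.Coprime.coprime_mul_left hN
    have h1 := mult_prime H p hp hpc z Y Y' hY hY' h hc
    have hcm : ∀ x, ∀ w ∈ Y, ∀ k : ℕ, Y' (x + k • w) = Y' x := by
      intro x w hw k
      induction k with
      | zero => simp
      | succ k ihk => rw [succ_nsmul, ← add_assoc, hc _ w hw, ihk]
    have h2 := ih ha0 hac (Y.image (fun w => p • w)) (fun x => (Y' x).image (fun w => p • w))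
      (by
        intro w hw w' hw'
        obtain ⟨v, hv, rfl⟩ := Finset.mem_image.mp hw
        obtain ⟨v', hv', rfl⟩ := Finset.mem_image.mp hw'
        rw [← smul_sub]
        exact H.nsmul_mem (hY v hv v' hv') p)
      (by
        intro x w hw w' hw'
        obtain ⟨v, hv, rfl⟩ := Finset.mem_image.mp hw
        obtain ⟨v', hv', rfl⟩ := Finset.mem_image.mp hw'
        rw [← smul_sub]
        exact H.nsmul_mem (hY' x v hv v' hv') p)
      h1
      (by
        intro x w hw
        obtain ⟨v, hv, rfl⟩ := Finset.mem_image.mp hw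
        simp only [hcm x v hv p])
    have h3 : ∀ S : Finset W, (S.image (fun w => p • w)).image (fun w => a • w) =
        S.image (fun w => (p * a) • w) := by
      intro S
      rw [Finset.image_image]
      refine Finset.image_congr ?_
      intro w _
      simp only [Function.comp, smul_smul, mul_comm]
    intro x y
    have h4 := h2 x y
    rw [h3, h3] at h4
    exact h4

end Pool.Agent.R996.Ty
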