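import Mathlib
import Pool.Agent.R996.Ty.Defs3
import Pool.Agent.R996.Ty.Mult

/-!
# Local permutations: the Frobenius map and multipliers (helper308)
-/

namespace Pool.Agent.R996.Ty

open Finset

namespace Fr

/-- the element of the group algebra given by a finite set -/
noncomputable def E {W : Type} [AddCommGroup W] (p : ℕ) (S : Finset W) :
    AddMonoidAlgebra (ZMod p) W :=
  ∑ w ∈ S, AddMonoidAlgebra.single w (1 : ZMod p)

theorem E_mul {W : Type} [AddCommGroup W] (p : ℕ) (S : Finset W)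
    (Q : AddMonoidAlgebra (ZMod p) W) (u : W) :
    (E p S * Q).coeff u = ∑ w ∈ S, Q.coeff (u - w) := by
  classical
  rw [E, Finset.sum_mul, AddMonoidAlgebra.coeff_sum, Finsupp.finsetSum_apply]
  refine Finset.sum_congr rfl fun w _ => ?_
  rw [AddMonoidAlgebra.coeff_single_mul_eq_mul_coeff (m₂ := u - w), one_mul]
  intro v _
  rw [eq_sub_iff_add_eq, add_comm]

/-- the product of the images -/
noncomputable def PP {W : Type} [AddCommGroup W] (p : ℕ) (Y' : W → Finset W) (w : W) (n : ℕ)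
    (x : W) : AddMonoidAlgebra (ZMod p) W :=
  ∏ j ∈ range n, E p (Y' (x + j • w))

theorem PP_succ {W : Type} [AddCommGroup W] (p : ℕ) (Y' : W → Finset W) (w : W) (n : ℕ)
    (x : W) : PP p Y' w (n + 1) x = E p (Y' x) * PP p Y' w n (x + w) := by
  unfold PP
  rw [Finset.prod_range_succ', mul_comm, zero_smul, add_zero]
  congr 1
  refine Finset.prod_congr rfl fun j _ => ?_
  rw [succ_nsmul', add_assoc]

theorem PP_add {W : Type} [AddCommGroup W] (p : ℕ) (Y' : W → Finset W) (w : W) (n : ℕ)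
    (L : AddSubgroup W) (hc : ∀ x, ∀ l ∈ L, Y' (x + l) = Y' x) (x l : W) (hl : l ∈ L) :
    PP p Y' w n (x + l) = PP p Y' w n x := by
  unfold PP
  refine Finset.prod_congr rfl fun j _ => ?_
  rw [add_right_comm, hc _ l hl]

theorem claim {W : Type} [AddCommGroup W] (p : ℕ) (z : Equiv.Perm W) (L : AddSubgroup W)
    (Y : Finset W) (Y' : W → Finset W) (h : ∀ x y, y - x ∈ Y ↔ z y - z x ∈ Y' x)
    (hc : ∀ x, ∀ l ∈ L, Y' (x + l) = Y' x) (w : W) (hd : ∀ y ∈ Y, y - w ∈ L) (n : ℕ)
    (x b : W) : (E p Y ^ n).coeff (b - x) = (PP p Y' w n x).coeff (z b - z x) := by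
  classical
  induction n generalizing x with
  | zero =>
    unfold PP
    rw [pow_zero, Finset.prod_range_zero, AddMonoidAlgebra.one_def, AddMonoidAlgebra.coeff_single,
      Finsupp.single_apply, Finsupp.single_apply]
    have h1 : (0 = b - x) ↔ (0 = z b - z x) := by
      rw [eq_comm, sub_eq_zero, eq_comm (a := (0 : W)), sub_eq_zero, EmbeddingLike.apply_eq_iff_eq]
    simp only [h1]
  | succ n ih =>
    rw [pow_succ', E_mul, PP_succ, E_mul]
    refine Finset.sum_bij (fun y _ => z (x + y) - z x) ?_ ?_ ?_ ?_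
    · intro y hy
      rw [← h x (x + y)]
      simpa using hy
    · intro y _ y' _ hyy
      have := sub_left_injective hyy
      simpa using z.injective this
    · intro t ht
      refine ⟨z.symm (t + z x) - x, ?_, ?_⟩
      · rw [h]
        simpa using ht
      · simp
    · intro y hy
      have h1 := ih (x + y)
      have h2 : x + y = (x + w) + (y - w) := by abel
      rw [sub_sub, h1]
      conv_lhs => rw [h2]
      rw [PP_add p Y' w n L hc _ _ (hd y hy), ← h2]
      congr 1
      abel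

end Fr

open Fr

theorem fr {W : Type} [AddCommGroup W] [Fintype W] (z : Equiv.Perm W) (L : AddSubgroup W)
    (Y : Set W) (hY : PG z L Y) (w : W) (hd : ∀ y ∈ Y, y - w ∈ L) (p : ℕ) [Fact p.Prime] (i : ℕ)
    (c : ZMod p) :
    PG z L {s | ((Set.ncard {y | y ∈ Y ∧ p ^ i • y = s} : ℕ) : ZMod p) = c} := by
  classical
  have hch : CharP (AddMonoidAlgebra (ZMod p) W) p :=
    charP_of_injective_algebraMap (algebraMap (ZMod p) (AddMonoidAlgebra (ZMod p) W)).injective p
  obtain ⟨S, hS⟩ : ∃ S : Finset W, ∀ y, y ∈ S ↔ y ∈ Y := ⟨Y.toFinset, fun y => Set.mem_toFinset⟩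
  obtain ⟨S', hS'⟩ : ∃ S' : W → Finset W, ∀ x y, y ∈ S' x ↔ y ∈ img z Y x :=
    ⟨fun x => (img z Y x).toFinset, fun x y => Set.mem_toFinset⟩
  have h : ∀ x y, y - x ∈ S ↔ z y - z x ∈ S' x := by
    intro x y
    rw [hS, hS', mem_img]
  have hc : ∀ x, ∀ l ∈ L, S' (x + l) = S' x := by
    intro x l hl
    ext y
    rw [hS', hS', hY x l hl]
  have hd' : ∀ y ∈ S, y - w ∈ L := fun y hy => hd y ((hS y).1 hy)
  have hcount : ∀ s : W, (E p S ^ p ^ i).coeff s =
      ((Set.ncard {y | y ∈ Y ∧ p ^ i • y = s} : ℕ) : ZMod p) := by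
    intro s
    have h1 : E p S ^ p ^ i = ∑ y ∈ S, AddMonoidAlgebra.single (p ^ i • y) (1 : ZMod p) := by
      rw [E, sum_pow_char_pow]
      refine Finset.sum_congr rfl fun y _ => ?_
      rw [AddMonoidAlgebra.single_pow, one_pow]
    rw [h1, AddMonoidAlgebra.coeff_sum, Finsupp.finsetSum_apply]
    have h2 : {y | y ∈ Y ∧ p ^ i • y = s} = ((S.filter fun y => p ^ i • y = s : Finset W) :
        Set W) := by
      ext y
      rw [Finset.mem_coe, Finset.mem_filter, hS]
      rfl
    rw [h2, Set.ncard_coe_finset, Finset.card_filter, Nat.cast_sum]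
    refine Finset.sum_congr rfl fun y _ => ?_
    rw [AddMonoidAlgebra.coeff_single, Finsupp.single_apply]
    split_ifs <;> simp
  have key : ∀ x t, t ∈ img z {s | ((Set.ncard {y | y ∈ Y ∧ p ^ i • y = s} : ℕ) : ZMod p) = c} x ↔
      (PP p S' w (p ^ i) x).coeff t = c := by
    intro x t
    change ((Set.ncard {y | y ∈ Y ∧ p ^ i • y = z.symm (z x + t) - x} : ℕ) : ZMod p) = c ↔ _
    rw [← hcount, claim p z L S S' h hc w hd', Equiv.apply_symm_apply, add_sub_cancel_left]
  intro x l hl
  ext t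
  rw [key, key, PP_add p S' w _ L hc x l hl]

theorem pg_mul {W : Type} [AddCommGroup W] [Fintype W] (z : Equiv.Perm W) (V : AddSubgroup W)
    (hV : ZI z V) (Y : Set W) (hY : PG z V Y) (hYV : Y ⊆ V) (N : ℕ) (hN0 : 0 < N)
    (hN : N.Coprime (Nat.card V)) :
    PG z V ((fun w => N • w) '' Y) ∧
      ∀ x, img z ((fun w => N • w) '' Y) x = (fun w => N • w) '' (img z Y x) := by
  classical
  have hsub : ∀ x, ∀ t ∈ img z Y x, t ∈ V := by
    intro x t ht
    have h1 : z.symm (z x + t) - x ∈ V := hYV ht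
    rw [hV, Equiv.apply_symm_apply, add_sub_cancel_left] at h1
    exact h1
  have h := mult V N hN0 hN z Y.toFinset (fun x => (img z Y x).toFinset)
    (fun w hw w' hw' => V.sub_mem (hYV (Set.mem_toFinset.1 hw)) (hYV (Set.mem_toFinset.1 hw')))
    (fun x w hw w' hw' => V.sub_mem (hsub x w (Set.mem_toFinset.1 hw))
      (hsub x w' (Set.mem_toFinset.1 hw')))
    (fun x y => by rw [Set.mem_toFinset, Set.mem_toFinset, mem_img])
    (fun x w hw => by
      have h1 := hY x w (hYV (Set.mem_toFinset.1 hw))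
      simp only [h1])
  have h2 : ∀ x, img z ((fun w => N • w) '' Y) x = (fun w => N • w) '' (img z Y x) := by
    intro x
    ext t
    have h3 := h x (z.symm (z x + t))
    rw [Equiv.apply_symm_apply, add_sub_cancel_left] at h3
    simp only [Finset.mem_image, Set.mem_toFinset] at h3
    exact h3
  refine ⟨fun x v hv => ?_, h2⟩
  rw [h2, h2, hY x v hv]

theorem atm_mul {W : Type} [AddCommGroup W] [Fintype W] (z : Equiv.Perm W) (V : AddSubgroup W)
    (hV : ZI z V) (w : W) (hw : w ∈ V) (N : ℕ) (hN0 : 0 < N) (hN : N.Coprime (Nat.card V))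
    (y : W) (hy : y ∈ atm z V w) (hNy : N • y ∈ atm z V w) :
    ∀ y' ∈ atm z V w, N • y' ∈ atm z V w := by
  classical
  -- the subgroup itself
  have hVpg : PG z V (V : Set W) := by
    have h1 : ∀ x, img z (V : Set W) x = (V : Set W) := by
      intro x
      ext t
      change z.symm (z x + t) - x ∈ V ↔ t ∈ V
      rw [hV, Equiv.apply_symm_apply, add_sub_cancel_left]
    intro x v _
    rw [h1, h1]
  have hXV : ∀ u ∈ atm z V w, u ∈ V := fun u hu => hu V hVpg hw
  have hXpg : PG z V (atm z V w) := by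
    intro x v hv
    ext t
    constructor
    · intro ht Y hY hwY
      have h1 : t ∈ img z Y (x + v) := ht Y hY hwY
      rw [hY x v hv] at h1
      exact h1
    · intro ht Y hY hwY
      have h1 : t ∈ img z Y x := ht Y hY hwY
      rw [← hY x v hv] at h1
      exact h1
  have hcompl : ∀ Y : Set W, PG z V Y → PG z V Yᶜ := by
    intro Y hY x v hv
    ext t
    have h1 := Set.ext_iff.1 (hY x v hv) t
    exact not_congr h1
  have hmin : ∀ Y : Set W, PG z V Y → y ∈ Y → ∀ u ∈ atm z V w, u ∈ Y := by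
    intro Y hY hyY u hu
    by_cases hwY : w ∈ Y
    · exact hu Y hY hwY
    · exact absurd hyY (hy Yᶜ (hcompl Y hY) hwY)
  -- the inverse multiplier
  have hcard : 0 < Nat.card V := Nat.card_pos
  obtain ⟨M, hM0, hMc, hM⟩ : ∃ M : ℕ, 0 < M ∧ M.Coprime (Nat.card V) ∧
      M * N ≡ 1 [MOD Nat.card V] := by
    refine ⟨N ^ (Nat.totient (Nat.card V) - 1), Nat.pow_pos hN0, Nat.Coprime.pow_left _ hN, ?_⟩
    have h1 := Nat.ModEq.pow_totient hN
    have h2 : 0 < Nat.totient (Nat.card V) := Nat.totient_pos.2 hcard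
    have h3 : N ^ (Nat.totient (Nat.card V) - 1) * N = N ^ Nat.totient (Nat.card V) := by
      rw [← pow_succ, Nat.sub_add_cancel h2]
    rw [h3]
    exact h1
  have hMN : ∀ u ∈ V, (M * N) • u = u := by
    intro u hu
    have h1 : Nat.card V • u = 0 := by
      have h0 : Nat.card V • (⟨u, hu⟩ : V) = 0 := card_nsmul_eq_zero'
      have h2 := congrArg (fun t : V => (t : W)) h0
      exact h2
    have h2 : M * N ≡ 1 [MOD addOrderOf u] := hM.of_dvd (addOrderOf_dvd_of_nsmul_eq_zero h1)
    have h3 := nsmul_eq_nsmul_iff_modEq.2 h2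
    rw [h3, one_nsmul]
  have hpm := (pg_mul z V hV (atm z V w) hXpg (fun u hu => hXV u hu) M hM0 hMc).1
  have hyV := hXV y hy
  have hy' : y ∈ (fun u => M • u) '' atm z V w :=
    ⟨N • y, hNy, by
      change M • N • y = y
      rw [← mul_nsmul', hMN y hyV]⟩
  intro u hu
  obtain ⟨v, hv, hvu⟩ := hmin _ hpm hy' u hu
  have h1 : N • u = v := by
    rw [← hvu]
    change N • M • v = v
    rw [← mul_nsmul', mul_comm, hMN v (hXV v hv)]
  rw [h1]
  exact hv

end Pool.Agent.R996.Ty
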