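import Pool.Agent.R996.Ty.Sub2
import Pool.Agent.R996.Ty.Fr

/-!
# Minimal invariant subgroups of composite order split off
-/

namespace Pool.Agent.R996.Ty

section

variable {W : Type} [AddCommGroup W]

/-- The elements of `L` killed by `p`. -/
def PP (L : AddSubgroup W) (p : ℕ) : AddSubgroup W where
  carrier := {u | u ∈ L ∧ p • u = 0}
  add_mem' := by
    rintro a b ⟨ha, ha'⟩ ⟨hb, hb'⟩
    exact ⟨L.add_mem ha hb, by rw [nsmul_add, ha', hb', add_zero]⟩
  zero_mem' := ⟨L.zero_mem, nsmul_zero p⟩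
  neg_mem' := by
    rintro a ⟨ha, ha'⟩
    exact ⟨L.neg_mem ha, by rw [smul_neg, ha', neg_zero]⟩

lemma mem_PP {L : AddSubgroup W} {p : ℕ} {u : W} : u ∈ PP L p ↔ u ∈ L ∧ p • u = 0 := Iff.rfl

lemma PP_le (L : AddSubgroup W) (p : ℕ) : PP L p ≤ L := fun _ h => h.1

lemma card_PP [Finite W] [IsAddCyclic W] (L : AddSubgroup W) (p : ℕ) (hp : p.Prime)
    (hdvd : p ∣ Nat.card L) : Nat.card (PP L p) = p := by
  classical
  cases nonempty_fintype W
  have : Fact p.Prime := ⟨hp⟩
  apply le_antisymm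
  · have h := IsAddCyclic.card_nsmul_eq_zero_le (α := W) hp.pos
    refine le_trans ?_ h
    rw [← SetLike.coe_sort_coe, Nat.card_coe_set_eq, Set.ncard_eq_toFinset_card']
    apply Finset.card_le_card
    intro u hu
    rw [Set.mem_toFinset] at hu
    rw [Finset.mem_filter]
    exact ⟨Finset.mem_univ _, hu.2⟩
  · obtain ⟨x, hx⟩ := exists_prime_addOrderOf_dvd_card' (G := L) p hdvd
    have hxP : (x : W) ∈ PP L p := by
      refine ⟨x.2, ?_⟩
      have := addOrderOf_nsmul_eq_zero x
      rw [hx] at this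
      exact_mod_cast congrArg (Subtype.val) this
    have h2 : addOrderOf (⟨(x : W), hxP⟩ : PP L p) = p := by
      rw [← AddSubgroup.addOrderOf_coe]
      simp only
      rw [AddSubgroup.addOrderOf_coe, hx]
    calc p = addOrderOf (⟨(x : W), hxP⟩ : PP L p) := h2.symm
      _ ≤ Nat.card (PP L p) := Nat.le_of_dvd Nat.card_pos (addOrderOf_dvd_natCard _)

lemma ncard_coset [Finite W] (P : AddSubgroup W) (y0 : W) :
    {y | y - y0 ∈ P}.ncard = Nat.card P := by
  have h : {y | y - y0 ∈ P} = (fun u => y0 + u) '' (P : Set W) := by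
    ext y
    constructor
    · intro hy
      exact ⟨y - y0, hy, by simp⟩
    · rintro ⟨u, hu, rfl⟩
      simpa using hu
  rw [h, Set.ncard_image_of_injective _ (add_right_injective y0)]
  exact (Nat.card_coe_set_eq _).symm

lemma inv_empty [Finite W] (P : AddSubgroup W) (N : Set W) (hN : ∀ y ∈ N, ∀ u ∈ P, y + u ∈ N)
    (hc : N.ncard < Nat.card P) : N = ∅ := by
  by_contra hne
  obtain ⟨y, hy⟩ := Set.nonempty_iff_ne_empty.2 hne
  have : {y' | y' - y ∈ P} ⊆ N := by
    intro y' hy'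
    have := hN y hy _ hy'
    simpa using this
  have h2 := Set.ncard_le_ncard this (Set.toFinite _)
  rw [ncard_coset] at h2
  omega

lemma claimG [Finite W] (L P : AddSubgroup W) (p : ℕ) (hp : p % 2 = 1) (hP : Nat.card P = p)
    (Xw G : Set W)
    (hgen : AddSubgroup.closure {u | u ∈ L ∧ (Xw \ ((fun y => y + u) '' Xw)).ncard ≤ (p - 1) / 2} = L)
    (hG : ∀ y ∈ G, ∀ u ∈ P, y + u ∈ G)
    (hcard : (G \ Xw).ncard + (Xw \ G).ncard ≤ (p - 1) / 2) : ∀ y ∈ G, ∀ l ∈ L, y + l ∈ G := by
  have key : L ≤ pers G := by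
    rw [← hgen, AddSubgroup.closure_le]
    rintro u ⟨_, hu⟩
    have hN : G \ ((fun y => y + u) '' G) = ∅ := by
      apply inv_empty P
      · rintro y ⟨hy1, hy2⟩ v hv
        refine ⟨hG y hy1 v hv, ?_⟩
        rintro ⟨g, hg, hgu⟩
        apply hy2
        refine ⟨g + -v, hG g hg _ (P.neg_mem hv), ?_⟩
        simp only at hgu ⊢
        have : y = g + u - v := by rw [hgu]; abel
        rw [this]; abel
      · have hsub : G \ ((fun y => y + u) '' G) ⊆
            ((G \ Xw) ∪ (Xw \ ((fun y => y + u) '' Xw))) ∪ ((fun y => y + u) '' (Xw \ G)) := by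
          rintro y ⟨hy1, hy2⟩
          by_cases h1 : y ∈ Xw
          · by_cases h2 : y ∈ (fun y => y + u) '' Xw
            · right
              obtain ⟨g, hg, rfl⟩ := h2
              exact ⟨g, ⟨hg, fun hgG => hy2 ⟨g, hgG, rfl⟩⟩, rfl⟩
            · left; right; exact ⟨h1, h2⟩
          · left; left; exact ⟨hy1, h1⟩
        have h1 := Set.ncard_le_ncard hsub (Set.toFinite _)
        have h2 := Set.ncard_union_le ((G \ Xw) ∪ (Xw \ ((fun y => y + u) '' Xw)))
          ((fun y => y + u) '' (Xw \ G))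
        have h3 := Set.ncard_union_le (G \ Xw) (Xw \ ((fun y => y + u) '' Xw))
        have h4 : ((fun y => y + u) '' (Xw \ G)).ncard = (Xw \ G).ncard :=
          Set.ncard_image_of_injective _ (add_left_injective u)
        rw [hP]
        omega
    have hsub : G ⊆ (fun y => y + u) '' G := Set.sdiff_eq_empty.1 hN
    have heq : G = (fun y => y + u) '' G := by
      apply Set.eq_of_subset_of_ncard_le hsub _ (Set.toFinite _)
      rw [Set.ncard_image_of_injective _ (add_left_injective u)]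
    intro y
    constructor
    · intro hy
      rw [heq] at hy
      obtain ⟨g, hg, hgy⟩ := hy
      have : g = y := add_right_cancel hgy
      rwa [← this]
    · intro hy
      rw [heq]
      exact ⟨y, hy, rfl⟩
  intro y hy l hl
  exact (key hl y).2 hy

lemma smallN [Finite W] [IsAddCyclic W] {z : Equiv.Perm W} {L P : AddSubgroup W} (hL : ZI z L)
    (hmin : ∀ D, ZI z D → D ≤ L → D = ⊥ ∨ D = L) (hPL : P ≤ L) (hne : P ≠ L)
    (N : Set W) (hN : PG z L N) (y0 : W) (hd : ∀ y ∈ N, y - y0 ∈ P) :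
    ∀ y ∈ N, ∀ y' ∈ N, y = y' := by
  intro y hy y' hy'
  have hdd : ∀ y ∈ N, ∀ y' ∈ N, y - y' ∈ P := by
    intro a ha b hb
    have := P.sub_mem (hd a ha) (hd b hb)
    simpa using this
  have hz := zi_diff hL hN (fun a ha b hb => hPL (hdd a ha b hb)) ⟨y, hy⟩
  have hle : AddSubgroup.closure {d | ∃ y ∈ N, ∃ y' ∈ N, d = y - y'} ≤ P := by
    rw [AddSubgroup.closure_le]
    rintro d ⟨a, ha, b, hb, rfl⟩
    exact hdd a ha b hb
  rcases hmin _ hz (hle.trans hPL) with h | h
  · have : y - y' ∈ AddSubgroup.closure {d | ∃ y ∈ N, ∃ y' ∈ N, d = y - y'} :=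
      AddSubgroup.subset_closure ⟨y, hy, y', hy', rfl⟩
    rw [h, AddSubgroup.mem_bot] at this
    exact sub_eq_zero.1 this
  · exact absurd (le_antisymm hPL (h ▸ hle)) hne

theorem coreA [Fintype W] [IsAddCyclic W] (z : Equiv.Perm W) (L : AddSubgroup W) (hL : ZI z L)
    (hmin : ∀ D, ZI z D → D ≤ L → D = ⊥ ∨ D = L)
    (p : ℕ) [hp : Fact p.Prime] (hp2 : p % 2 = 1) (hcard : Nat.card (PP L p) = p)
    (hPL : PP L p ≠ L)
    (Xw : Set W) (hX : PG z L Xw) (w : W) (hw : w ∈ Xw) (hd : ∀ y ∈ Xw, y - w ∈ L)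
    (hbad : ∃ l ∈ L, w + l ∉ Xw) :
    (∀ y ∈ Xw, y = w) ∨ (∃ b, ∀ y, y - w ∈ L → (y ∉ Xw ↔ y = b)) := by
  have hp1 : 1 < p := hp.out.one_lt
  have hdd : ∀ y ∈ Xw, ∀ y' ∈ Xw, y - y' ∈ L := by
    intro a ha b hb
    have := L.sub_mem (hd a ha) (hd b hb)
    simpa using this
  have hPne : PP L p ≠ ⊥ := by
    intro h
    rw [h] at hcard
    simp at hcard
    omega
  -- coset counts
  have lemA : ∀ y ∈ Xw, ((Set.ncard {y' | y' ∈ Xw ∧ p ^ 1 • y' = p • y} : ℕ) : ZMod p) = 0 →
      ∀ u ∈ PP L p, y + u ∈ Xw := by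
    intro y hy h0 u hu
    rw [ZMod.natCast_eq_zero_iff] at h0
    have hsub : {y' | y' ∈ Xw ∧ p ^ 1 • y' = p • y} ⊆ {y' | y' - y ∈ PP L p} := by
      rintro y' ⟨h1, h2⟩
      refine ⟨hdd y' h1 y hy, ?_⟩
      rw [pow_one] at h2
      rw [nsmul_sub, h2, sub_self]
    have hpos : 0 < Set.ncard {y' | y' ∈ Xw ∧ p ^ 1 • y' = p • y} := by
      rw [Set.ncard_pos (Set.toFinite _)]
      exact ⟨y, hy, by rw [pow_one]⟩
    have hle := Nat.le_of_dvd hpos h0
    have heq := Set.eq_of_subset_of_ncard_le hsub (by rw [ncard_coset, hcard]; exact hle)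
      (Set.toFinite _)
    have : y + u ∈ {y' | y' - y ∈ PP L p} := by
      change y + u - y ∈ PP L p
      simpa using hu
    rw [← heq] at this
    exact this.1
  set S : Set W := {s | ((Set.ncard {y | y ∈ Xw ∧ p ^ 1 • y = s} : ℕ) : ZMod p) ≠ 0} with hSdef
  have hS : PG z L S := PG.compl (fr z L Xw hX w hd p 1 0)
  have hSmem : ∀ s ∈ S, ∃ y ∈ Xw, p • y = s := by
    intro s hs
    have hne : Set.ncard {y | y ∈ Xw ∧ p ^ 1 • y = s} ≠ 0 := by
      intro h
      apply hs
      rw [h]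
      simp
    obtain ⟨y, hy1, hy2⟩ := Set.nonempty_of_ncard_ne_zero hne
    exact ⟨y, hy1, by rwa [pow_one] at hy2⟩
  have hSne : S.Nonempty := by
    by_contra hemp
    rw [Set.not_nonempty_iff_eq_empty] at hemp
    have hinv : ∀ y ∈ Xw, ∀ u ∈ PP L p, y + u ∈ Xw := by
      intro y hy
      apply lemA y hy
      by_contra h
      have : p • y ∈ S := h
      rw [hemp] at this
      exact this
    have hle : PP L p ≤ pers Xw := by
      intro u hu y
      constructor
      · intro h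
        have := hinv _ h _ ((PP L p).neg_mem hu)
        simpa using this
      · intro h
        exact hinv y h u hu
    have hperL : pers Xw ≤ L := by
      intro h hh
      have h1 := (hh w).2 hw
      have := hd _ h1
      simpa using this
    rcases hmin _ (zi_per hL hX hdd ⟨w, hw⟩) hperL with h | h
    · rw [h] at hle
      exact hPne (le_bot_iff.1 hle)
    · obtain ⟨l, hl, hl'⟩ := hbad
      rw [← h] at hl
      exact hl' ((hl w).2 hw)
  have hSdiff : ∀ s ∈ S, ∀ s' ∈ S, s - s' ∈ L := by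
    intro s hs s' hs'
    obtain ⟨y, hy, rfl⟩ := hSmem s hs
    obtain ⟨y', hy', rfl⟩ := hSmem s' hs'
    rw [← nsmul_sub]
    exact L.nsmul_mem (hdd y hy y' hy') p
  have hSeq : ∀ s ∈ S, ∀ s' ∈ S, s = s' := by
    intro s hs s' hs'
    have hz := zi_diff hL hS hSdiff hSne
    have hle : AddSubgroup.closure {d | ∃ y ∈ S, ∃ y' ∈ S, d = y - y'} ≤
        L.map (nsmulAddMonoidHom (α := W) p) := by
      rw [AddSubgroup.closure_le]
      rintro d ⟨a, ha, b, hb, rfl⟩
      obtain ⟨y, hy, rfl⟩ := hSmem a ha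
      obtain ⟨y', hy', rfl⟩ := hSmem b hb
      exact ⟨y - y', hdd y hy y' hy', by simp [nsmul_sub]⟩
    have hleL : AddSubgroup.closure {d | ∃ y ∈ S, ∃ y' ∈ S, d = y - y'} ≤ L := by
      rw [AddSubgroup.closure_le]
      rintro d ⟨a, ha, b, hb, rfl⟩
      exact hSdiff a ha b hb
    rcases hmin _ hz hleL with h | h
    · have : s - s' ∈ AddSubgroup.closure {d | ∃ y ∈ S, ∃ y' ∈ S, d = y - y'} :=
        AddSubgroup.subset_closure ⟨s, hs, s', hs', rfl⟩
      rw [h, AddSubgroup.mem_bot] at this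
      exact sub_eq_zero.1 this
    · exfalso
      rw [h] at hle
      let f : L → L := fun l => ⟨p • (l : W), L.nsmul_mem l.2 p⟩
      have hsurj : Function.Surjective f := by
        rintro ⟨l, hl⟩
        obtain ⟨l', hl', h'⟩ := hle hl
        exact ⟨⟨l', hl'⟩, Subtype.ext h'⟩
      have hinj : Function.Injective f := Finite.injective_iff_surjective.2 hsurj
      apply hPne
      rw [eq_bot_iff]
      intro u hu
      have : f ⟨u, hu.1⟩ = f 0 := by
        apply Subtype.ext
        change p • u = p • (0 : W)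
        rw [hu.2, nsmul_zero]
      have := hinj this
      rw [AddSubgroup.mem_bot]
      exact congrArg Subtype.val this
  obtain ⟨s0, hs0⟩ := hSne
  obtain ⟨y0, hy0, hy0s⟩ := hSmem s0 hs0
  set P := PP L p with hPdef
  set Cw : Set W := {y | y - y0 ∈ P} with hCw
  have hy0C : y0 ∈ Cw := by
    change y0 - y0 ∈ P
    rw [sub_self]; exact P.zero_mem
  have hCcard : Cw.ncard = p := by rw [hCw, ncard_coset, hcard]
  have hJ : {y | y ∈ Xw ∧ p ^ 1 • y = s0} = Cw ∩ Xw := by
    ext y
    constructor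
    · rintro ⟨h1, h2⟩
      refine ⟨⟨hdd y h1 y0 hy0, ?_⟩, h1⟩
      rw [pow_one] at h2
      rw [nsmul_sub, h2, hy0s, sub_self]
    · rintro ⟨h1, h2⟩
      refine ⟨h2, ?_⟩
      rw [pow_one]
      have h3 := h1.2
      rw [nsmul_sub, hy0s] at h3
      exact sub_eq_zero.1 h3
  have hj0 : ¬ p ∣ (Cw ∩ Xw).ncard := by
    rw [← hJ, ← ZMod.natCast_eq_zero_iff]
    exact hs0
  have hjadd := Set.ncard_inter_add_ncard_sdiff_eq_ncard Cw Xw (Set.toFinite _)
  rw [hCcard] at hjadd
  set j := (Cw ∩ Xw).ncard with hjdef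
  have hj1 : 1 ≤ j := by
    rcases Nat.eq_zero_or_pos j with h | h
    · rw [h] at hj0
      exact absurd (dvd_zero p) hj0
    · exact h
  have hF : ∀ y ∈ Xw, y ∉ Cw → ∀ u ∈ P, y + u ∈ Xw := by
    intro y hy hyC
    apply lemA y hy
    by_contra h
    have h1 : p • y ∈ S := h
    have h2 := hSeq _ h1 _ hs0
    apply hyC
    refine ⟨hdd y hy y0 hy0, ?_⟩
    rw [nsmul_sub, h2, hy0s, sub_self]
  have hCinv : ∀ y ∈ Cw, ∀ u ∈ P, y + u ∈ Cw := by
    intro y hy u hu
    have := P.add_mem hy hu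
    change y + u - y0 ∈ P
    rwa [show y + u - y0 = y - y0 + u by abel]
  have hCninv : ∀ y, y ∉ Cw → ∀ u ∈ P, y + u ∉ Cw := by
    intro y hy u hu h
    apply hy
    have := hCinv _ h _ (P.neg_mem hu)
    simpa using this
  -- the level set
  have hlev : ∀ u ∈ P, (Xw \ ((fun y => y + u) '' Xw)).ncard ≤ (p - 1) / 2 := by
    intro u hu
    have hin : ∀ y ∈ Xw \ ((fun y => y + u) '' Xw), y ∈ Cw ∧ y + -u ∉ Xw := by
      rintro y ⟨h1, h2⟩
      have h3 : y + -u ∉ Xw := fun h => h2 ⟨y + -u, h, by simp⟩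
      refine ⟨?_, h3⟩
      by_contra h4
      exact h3 (hF y h1 h4 _ (P.neg_mem hu))
    have h1 : (Xw \ ((fun y => y + u) '' Xw)).ncard ≤ j := by
      apply Set.ncard_le_ncard _ (Set.toFinite _)
      intro y hy
      exact ⟨(hin y hy).1, hy.1⟩
    have h2 : (Xw \ ((fun y => y + u) '' Xw)).ncard ≤ (Cw \ Xw).ncard := by
      apply Set.ncard_le_ncard_of_injOn (fun y => y + -u) _ _ (Set.toFinite _)
      · intro y hy
        exact ⟨hCinv y (hin y hy).1 _ (P.neg_mem hu), (hin y hy).2⟩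
      · intro a _ b _ hab
        exact add_right_cancel hab
    omega
  have hgen : AddSubgroup.closure
      {u | u ∈ L ∧ (Xw \ ((fun y => y + u) '' Xw)).ncard ≤ (p - 1) / 2} = L := by
    have hz := zi_lvl hL hX hdd ((p - 1) / 2)
    have hle : AddSubgroup.closure
      {u | u ∈ L ∧ (Xw \ ((fun y => y + u) '' Xw)).ncard ≤ (p - 1) / 2} ≤ L := by
      rw [AddSubgroup.closure_le]
      rintro u ⟨hu, _⟩
      exact hu
    rcases hmin _ hz hle with h | h
    · exfalso
      apply hPne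
      rw [eq_bot_iff, ← h]
      intro u hu
      exact AddSubgroup.subset_closure ⟨hu.1, hlev u hu⟩
    · exact h
  rcases Nat.lt_or_ge (2 * j) p with hlt | hge
  · left
    have hG := claimG L P p hp2 hcard Xw (Xw \ Cw) hgen
      (by
        rintro y ⟨h1, h2⟩ u hu
        exact ⟨hF y h1 h2 u hu, hCninv y h2 u hu⟩)
      (by
        have e1 : (Xw \ Cw) \ Xw = ∅ := by
          ext y; simp only [Set.mem_sdiff, Set.mem_empty_iff_false, iff_false]; tauto
        have e2 : Xw \ (Xw \ Cw) = Cw ∩ Xw := by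
          ext y; simp only [Set.mem_sdiff, Set.mem_inter_iff]; tauto
        rw [e1, e2, Set.ncard_empty]
        omega)
    have hsubC : ∀ y ∈ Xw, y - y0 ∈ P := by
      intro y hy
      by_contra h
      have := hG y ⟨hy, h⟩ (y0 - y) (hdd y0 hy0 y hy)
      rw [add_sub_cancel] at this
      exact this.2 hy0C
    intro y hy
    exact smallN hL hmin (PP_le L p) hPL Xw hX y0 hsubC y hy w hw
  · right
    have hG := claimG L P p hp2 hcard Xw (Xw ∪ Cw) hgen
      (by
        rintro y hy u hu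
        by_cases h2 : y ∈ Cw
        · right; exact hCinv y h2 u hu
        · rcases hy with h | h
          · left; exact hF y h h2 u hu
          · exact absurd h h2)
      (by
        have e1 : (Xw ∪ Cw) \ Xw = Cw \ Xw := by
          ext y; simp only [Set.mem_sdiff, Set.mem_union]; tauto
        have e2 : Xw \ (Xw ∪ Cw) = ∅ := by
          ext y; simp only [Set.mem_sdiff, Set.mem_union, Set.mem_empty_iff_false, iff_false]; tauto
        rw [e1, e2, Set.ncard_empty]
        omega)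
    have hN : PG z L ({y | y - w ∈ L} \ Xw) := PG.diff (ZI.coset hL le_rfl w) hX
    have hNC : ∀ y ∈ ({y | y - w ∈ L} \ Xw), y - y0 ∈ P := by
      rintro y ⟨h1, h2⟩
      have h3 : y - y0 ∈ L := by
        have := L.sub_mem h1 (hd y0 hy0)
        simpa using this
      have := hG y0 (Or.inl hy0) _ h3
      rw [add_sub_cancel] at this
      rcases this with h | h
      · exact absurd h h2
      · exact h
    obtain ⟨l, hl, hl'⟩ := hbad
    have hb : w + l ∈ ({y | y - w ∈ L} \ Xw) := ⟨by change w + l - w ∈ L; simpa using hl, hl'⟩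
    refine ⟨w + l, ?_⟩
    intro y hy
    constructor
    · intro h
      exact smallN hL hmin (PP_le L p) hPL _ hN y0 hNC y ⟨hy, h⟩ _ hb
    · rintro rfl
      exact hl'

theorem caseA {W : Type} [AddCommGroup W] [Fintype W] [IsAddCyclic W]
    (hodd : Odd (Fintype.card W)) (z : Equiv.Perm W) (L V : AddSubgroup W) (hL : ZI z L)
    (hmin : ∀ D, ZI z D → D ≤ L → D = ⊥ ∨ D = L) (hL0 : L ≠ ⊥) (hnp : ¬ (Nat.card L).Prime)
    (hV : ZI z V) (hLV : L ≤ V) (w : W) (hw : w ∈ V) (hcl : AddSubgroup.closure (atm z V w) = V)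
    (hbad : ∃ l ∈ L, w + l ∉ atm z V w) :
    ∃ Q : AddSubgroup W, ZI z Q ∧ Q ≤ V ∧ L ⊓ Q = ⊥ ∧ L ⊔ Q = V := by
  classical
  set X := atm z V w with hXdef
  have hX : PG z V X := atm_pg z V w
  have hwX : w ∈ X := atm_self z V w
  have hXV : X ⊆ V := atm_sub (ZI.pg hV V) hw
  have hcardL : Nat.card L ≠ 1 := by
    intro h
    exact hL0 (AddSubgroup.card_eq_one.1 h)
  set p := (Nat.card L).minFac with hpdef
  have hpp : p.Prime := Nat.minFac_prime hcardL
  have hpfact : Fact p.Prime := ⟨hpp⟩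
  have hpdvd : p ∣ Nat.card L := Nat.minFac_dvd _
  have hp2 : p % 2 = 1 := by
    have h1 : Nat.card L ∣ Fintype.card W := by
      rw [← Nat.card_eq_fintype_card]; exact AddSubgroup.card_addSubgroup_dvd_card L
    exact Nat.odd_iff.1 (Odd.of_dvd_nat hodd (hpdvd.trans h1))
  have hPc : Nat.card (PP L p) = p := card_PP L p hpp hpdvd
  have hPL : PP L p ≠ L := by
    intro h
    rw [h] at hPc
    apply hnp
    rw [hPc]; exact hpp
  have hPne : PP L p ≠ ⊥ := by
    intro h
    rw [h] at hPc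
    simp at hPc
    exact hpp.one_lt.ne hPc
  have hPzi : ¬ ZI z (PP L p) := by
    intro h
    rcases hmin _ h (PP_le L p) with h | h
    · exact hPne h
    · exact hPL h
  have hcnt : ∀ y ∈ X, Set.ncard {l : W | l ∈ L ∧ y + l ∈ X} = Set.ncard {l : W | l ∈ L ∧ w + l ∈ X} := by
    have := pg_cnt hL hX (Set.ncard {l : W | l ∈ L ∧ w + l ∈ X})
    exact atm_sub this rfl
  have hcore := coreA z L hL hmin p hp2 hPc hPL (X ∩ {y | y - w ∈ L})
    (PG.inter (PG.mono hLV hX) (ZI.coset hL le_rfl w)) w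
    ⟨hwX, by change w - w ∈ L; rw [sub_self]; exact L.zero_mem⟩ (fun y hy => hy.2)
    (by
      obtain ⟨l, hl, hl'⟩ := hbad
      exact ⟨l, hl, fun h => hl' h.1⟩)
  rcases hcore with h1 | ⟨b, hb⟩
  · -- one element
    exfalso
    apply hPzi
    have hset : {l : W | l ∈ L ∧ w + l ∈ X} = {0} := by
      ext l
      constructor
      · rintro ⟨ha, hb⟩
        have := h1 (w + l) ⟨hb, by change w + l - w ∈ L; simpa using ha⟩
        simpa using this
      · intro hl
        rw [Set.mem_singleton_iff] at hl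
        subst hl
        exact ⟨L.zero_mem, by rwa [add_zero]⟩
    have h2 : ∀ y ∈ X, ∀ l ∈ L, y + l ∈ X → l = 0 := by
      intro y hy l hl hyl
      have h3 := hcnt y hy
      rw [hset, Set.ncard_singleton] at h3
      obtain ⟨a, ha⟩ := Set.ncard_eq_one.1 h3
      have h4 : l ∈ {l : W | l ∈ L ∧ y + l ∈ X} := ⟨hl, hyl⟩
      have h5 : (0 : W) ∈ {l : W | l ∈ L ∧ y + l ∈ X} := ⟨L.zero_mem, by rwa [add_zero]⟩
      rw [ha] at h4 h5
      rw [Set.mem_singleton_iff] at h4 h5
      rw [h4, h5]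
    have h3 := kap hL hLV hX hcl h2
    exact kap_zi hL (PP_le L p) (fun x v hv u hu => h3 x v (hLV hv) u hu)
  · -- all but one element
    have hcompl : ∀ y ∈ X, Set.ncard {l : W | l ∈ L ∧ y + l ∉ X} = 1 := by
      have hsum : ∀ y, Set.ncard {l : W | l ∈ L ∧ y + l ∈ X} + Set.ncard {l : W | l ∈ L ∧ y + l ∉ X}
          = Nat.card L := by
        intro y
        have := Set.ncard_inter_add_ncard_sdiff_eq_ncard (L : Set W) {l | y + l ∈ X} (Set.toFinite _)
        have e := (Nat.card_coe_set_eq (L : Set W)).symm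
        rw [e] at this
        exact this
      have hw1 : Set.ncard {l : W | l ∈ L ∧ w + l ∉ X} = 1 := by
        rw [Set.ncard_eq_one]
        refine ⟨b - w, ?_⟩
        obtain ⟨l0, hl0, hl0'⟩ := hbad
        have hb0 : w + l0 = b := (hb (w + l0) (by simpa using hl0)).1 (fun h => hl0' h.1)
        ext l
        constructor
        · rintro ⟨h1, h2⟩
          have := (hb (w + l) (by simpa using h1)).1 (fun h => h2 h.1)
          rw [Set.mem_singleton_iff, ← this]
          simp
        · intro h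
          rw [Set.mem_singleton_iff, ← hb0, add_sub_cancel_left] at h
          subst h
          exact ⟨hl0, hl0'⟩
      intro y hy
      have h1 := hsum y
      have h2 := hsum w
      have h3 := hcnt y hy
      omega
    set B : Set W := Xᶜ ∩ {y | Set.ncard {l : W | l ∈ L ∧ y + l ∈ X} = 0}ᶜ with hBdef
    have hBpg : PG z V B := PG.inter (PG.compl hX) (PG.compl (pg_cnt hL hX 0))
    have hBmem : ∀ y, y ∈ B ↔ y ∉ X ∧ ∃ l ∈ L, y + l ∈ X := by
      intro y
      constructor
      · rintro ⟨h1, h2⟩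
        refine ⟨h1, ?_⟩
        obtain ⟨l, hl⟩ := Set.nonempty_of_ncard_ne_zero h2
        exact ⟨l, hl⟩
      · rintro ⟨h1, l, h2, h3⟩
        refine ⟨h1, ?_⟩
        intro h
        change Set.ncard _ = 0 at h
        rw [Set.ncard_eq_zero (Set.toFinite _)] at h
        have : l ∈ {l : W | l ∈ L ∧ y + l ∈ X} := ⟨h2, h3⟩
        rw [h] at this
        exact this
    have hBV : B ⊆ V := by
      intro y hy
      obtain ⟨_, l, hl, hyl⟩ := (hBmem y).1 hy
      have := V.sub_mem (hXV hyl) (hLV hl)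
      simpa using this
    have hB1 : ∀ y ∈ B, ∀ l ∈ L, y + l ∈ B → l = 0 := by
      intro y hy l hl hyl
      obtain ⟨h1, m, hm, hym⟩ := (hBmem y).1 hy
      obtain ⟨a, ha⟩ := Set.ncard_eq_one.1 (hcompl _ hym)
      have h4 : -m ∈ {l : W | l ∈ L ∧ y + m + l ∉ X} := ⟨L.neg_mem hm, by simpa using h1⟩
      have h5 : l - m ∈ {l : W | l ∈ L ∧ y + m + l ∉ X} := by
        refine ⟨L.sub_mem hl hm, ?_⟩
        rw [show y + m + (l - m) = y + l by abel]
        exact ((hBmem _).1 hyl).1
      rw [ha] at h4 h5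
      rw [Set.mem_singleton_iff] at h4 h5
      have : l = (l - m) - (-m) := by abel
      rw [this, h4, h5, sub_self]
    set Q := AddSubgroup.closure B with hQdef
    have hQ : ZI z Q := zi_closure hV hBpg hBV
    have hQV : Q ≤ V := by
      rw [hQdef, AddSubgroup.closure_le]; exact hBV
    refine ⟨Q, hQ, hQV, ?_, ?_⟩
    · rcases hmin _ (ZI.inf hL hQ) inf_le_left with h | h
      · exact h
      · exfalso
        have hLQ : L ≤ Q := inf_eq_left.1 h
        apply hPzi
        have h3 := kap hL hLQ (PG.mono hQV hBpg) rfl hB1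
        exact kap_zi hL (PP_le L p) (fun x v hv u hu => h3 x v (hLQ hv) u hu)
    · apply le_antisymm (sup_le hLV hQV)
      rw [← hcl, AddSubgroup.closure_le]
      intro y hy
      obtain ⟨a, ha⟩ := Set.ncard_eq_one.1 (hcompl y hy)
      have h4 : a ∈ {l : W | l ∈ L ∧ y + l ∉ X} := by rw [ha]; rfl
      have h5 : y + a ∈ B := (hBmem _).2 ⟨h4.2, -a, L.neg_mem h4.1, by simpa using hy⟩
      have h6 : y = -a + (y + a) := by abel
      rw [h6]
      exact AddSubgroup.add_mem_sup (L.neg_mem h4.1) (AddSubgroup.subset_closure h5)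

end

end Pool.Agent.R996.Ty
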