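import Mathlib

/-!
# The period-free part: group theoretic core
-/

namespace Pool.Agent.R996.Ty

section gen

variable {W : Type} [AddCommGroup W]

/-- In a finite cyclic group the elements killed by the order of `m` are the multiples of `m`. -/
lemma qf_gen [Fintype W] [IsAddCyclic W] (m u : W) (h : addOrderOf m • u = 0) :
    ∃ t : ℕ, u = t • m := by
  classical
  have hpos : 0 < addOrderOf m := addOrderOf_pos m
  have hsub : (Finset.range (addOrderOf m)).image (fun t => t • m) ⊆
      Finset.univ.filter (fun a : W => addOrderOf m • a = 0) := by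
    intro a ha
    obtain ⟨t, -, rfl⟩ := Finset.mem_image.1 ha
    refine Finset.mem_filter.2 ⟨Finset.mem_univ _, ?_⟩
    rw [smul_comm, addOrderOf_nsmul_eq_zero, smul_zero]
  have hcard : ((Finset.range (addOrderOf m)).image (fun t => t • m)).card = addOrderOf m := by
    rw [Finset.card_image_of_injOn, Finset.card_range]
    intro a ha b hb hab
    simp only [Finset.coe_range, Set.mem_Iio] at ha hb
    exact nsmul_injOn_Iio_addOrderOf ha hb hab
  have hle := IsAddCyclic.card_nsmul_eq_zero_le (α := W) hpos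
  have heq := Finset.eq_of_subset_of_card_le hsub (by rw [hcard]; exact hle)
  have hu : u ∈ Finset.univ.filter (fun a : W => addOrderOf m • a = 0) :=
    Finset.mem_filter.2 ⟨Finset.mem_univ _, h⟩
  rw [← heq] at hu
  obtain ⟨t, -, ht⟩ := Finset.mem_image.1 hu
  exact ⟨t, ht.symm⟩

/-- A finite set invariant under translation by an element of prime order. -/
lemma qf_dvd [Finite W] (N : Set W) (q : ℕ) (hq : q.Prime) (u : W) (hu0 : u ≠ 0)
    (hqu : q • u = 0) (hN : ∀ y ∈ N, y + u ∈ N) : q ∣ N.ncard := by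
  classical
  have : Fact q.Prime := ⟨hq⟩
  have := Fintype.ofFinite W
  let f : Function.End N := fun y => ⟨y.1 + u, hN y.1 y.2⟩
  have hit : ∀ n : ℕ, ∀ y : N, ((f : N → N)^[n] y : W) = y + n • u := by
    intro n
    induction n with
    | zero => intro y; rw [zero_nsmul, add_zero]; rfl
    | succ n ih =>
      intro y
      rw [Function.iterate_succ_apply', succ_nsmul, ← add_assoc, ← ih]
  have hf : f ^ q ^ 1 = 1 := by
    rw [pow_one]
    funext y
    apply Subtype.ext
    change ((f : N → N)^[q] y : W) = y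
    rw [hit, hqu, add_zero]
  have key := Equiv.Perm.card_fixedPoints_modEq (p := q) (n := 1) hf
  have hfix : Fintype.card (Function.fixedPoints f) = 0 := by
    rw [Fintype.card_eq_zero_iff]
    refine ⟨fun y => ?_⟩
    have h1 : f y.1 = y.1 := y.2
    have h2 : (y.1 : W) + u = y.1 := congrArg Subtype.val h1
    exact hu0 (by simpa using h2)
  rw [hfix] at key
  rw [← Nat.card_coe_set_eq, Nat.card_eq_fintype_card]
  exact (Nat.modEq_zero_iff_dvd).1 key

end gen

/-- Arithmetic: `(1+x)^q - 1` for `q` odd prime, `q ∣ x`. -/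
lemma qf_arith (q x : ℕ) (hq : q.Prime) (hq2 : q ≠ 2) (hx : q ∣ x) :
    ∃ c : ℕ, (1 + x) ^ q = 1 + x * (q * c) ∧ ¬ q ∣ c := by
  obtain ⟨x', rfl⟩ := hx
  have h1 : ∀ k : ℕ, (1 + q * x') ^ k ≡ 1 + k * (q * x') [MOD (q ^ 2)] := by
    intro k
    induction k with
    | zero => simp [Nat.ModEq]
    | succ k ih =>
      have h2 := ih.mul_right (1 + q * x')
      rw [← pow_succ] at h2
      refine h2.trans ?_
      have h3 : (1 + k * (q * x')) * (1 + q * x') =
          1 + (k + 1) * (q * x') + q ^ 2 * (k * x' ^ 2) := by ring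
      rw [h3]
      exact (Nat.ModEq.refl _).add_right_cancel' 0 |>.trans (by simp [Nat.ModEq])
  obtain ⟨h, hh⟩ : ∃ h, q = 2 * h + 1 := by
    have := hq.odd_of_ne_two hq2
    exact this
  have hsum : ∑ k ∈ Finset.range q, (1 + q * x') ^ k ≡ q [MOD (q ^ 2)] := by
    have h2 : ∑ k ∈ Finset.range q, (1 + q * x') ^ k ≡
        ∑ k ∈ Finset.range q, (1 + k * (q * x')) [MOD (q ^ 2)] := by
      apply Nat.ModEq.sum
      intro k _
      exact h1 k
    refine h2.trans ?_
    rw [Finset.sum_add_distrib, ← Finset.sum_mul]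
    have h3 : ∑ k ∈ Finset.range q, k = q * h := by
      have := Finset.sum_range_id_mul_two q
      rw [hh] at this ⊢
      have h4 : 2 * h + 1 - 1 = 2 * h := by omega
      rw [h4] at this
      have h5 : (∑ i ∈ Finset.range (2 * h + 1), i) * 2 = ((2 * h + 1) * h) * 2 := by
        rw [this]; ring
      exact Nat.eq_of_mul_eq_mul_right (by norm_num) h5
    rw [h3]
    simp only [Finset.sum_const, Finset.card_range, smul_eq_mul, mul_one]
    have h4 : q + q * h * (q * x') = q + q ^ 2 * (h * x') := by ring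
    rw [h4]
    simp [Nat.ModEq]
  have hge : q ≤ ∑ k ∈ Finset.range q, (1 + q * x') ^ k := by
    calc q = ∑ k ∈ Finset.range q, 1 := by simp
      _ ≤ _ := Finset.sum_le_sum (fun k _ => Nat.one_le_pow _ _ (by omega))
  obtain ⟨k, hk⟩ := (Nat.modEq_iff_dvd' hge).1 hsum.symm
  have hE : ∑ k ∈ Finset.range q, (1 + q * x') ^ k = q * (1 + q * k) := by
    have : q * (1 + q * k) = q + q ^ 2 * k := by ring
    rw [this]
    omega
  refine ⟨1 + q * k, ?_, ?_⟩
  · have hgeom := geom_sum_mul_add (q * x' : ℕ) q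
    have h6 : ∑ i ∈ Finset.range q, (q * x' + 1) ^ i = q * (1 + q * k) := by
      rw [← hE]
      apply Finset.sum_congr rfl
      intro i _
      rw [add_comm]
    have h8 : (1 + q * x') ^ q = (q * x' + 1) ^ q := by rw [add_comm]
    rw [h8, ← hgeom, h6]
    ring
  · intro hdvd
    have h7 : q ∣ 1 := (Nat.dvd_add_left (dvd_mul_right q k)).1 hdvd
    exact hq.one_lt.ne' (Nat.dvd_one.1 h7)


/-- The element `y` of `X` is bad: `X` does not contain `y + u` for some `u` killed by `q`. -/
def Bd {W : Type} [AddCommGroup W] (V : AddSubgroup W) (X : Set W) (q : ℕ) (y : W) : Prop :=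
  ∃ u ∈ V, q • u = 0 ∧ y + u ∉ X

section core

variable {W : Type} [AddCommGroup W] (V : AddSubgroup W) (q r l : ℕ)

lemma qf_ord (hq : q.Prime) (m : W) (hm : m ≠ 0) (hqm : q • m = 0) : addOrderOf m = q := by
  have h1 : addOrderOf m ∣ q := addOrderOf_dvd_of_nsmul_eq_zero hqm
  rcases (Nat.dvd_prime hq).1 h1 with h | h
  · rw [AddMonoid.addOrderOf_eq_one_iff] at h
    exact absurd h hm
  · exact h

lemma qf_kill (hcard : Nat.card V = q ^ r * l) (y : W) (hy : y ∈ V) : (q ^ r * l) • y = 0 := by
  have h1 : Nat.card V • (⟨y, hy⟩ : V) = 0 := card_nsmul_eq_zero'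
  rw [hcard] at h1
  have h2 := congrArg Subtype.val h1
  simpa using h2

lemma qf_cop (hcard : Nat.card V = q ^ r * l) (i t : ℕ) (hi : 1 ≤ i) :
    (1 + t * (q ^ i * l)).Coprime (Nat.card V) := by
  rw [hcard]
  apply Nat.Coprime.mul_right
  · apply Nat.Coprime.pow_right
    obtain ⟨j, rfl⟩ := Nat.exists_eq_add_of_le hi
    have : 1 + t * (q ^ (1 + j) * l) = 1 + (t * q ^ j * l) * q := by ring
    rw [this]
    simp
  · have : 1 + t * (q ^ i * l) = 1 + (t * q ^ i) * l := by ring
    rw [this]
    simp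

end core


/-- The sets where the number of elements of a fibre is not divisible by `q`. -/
lemma qf_iff {W : Type} [AddCommGroup W] [Fintype W] (V : AddSubgroup W) (X : Set W)
    (q : ℕ) (hq : q.Prime) (hbad : ∃ y ∈ X, Bd V X q y) (i : ℕ) (hi : 1 ≤ i)
    (H : ∀ y ∈ X, Bd V X q y → ({y' | y' ∈ X ∧ q ^ i • y' = q ^ i • y} : Set W).ncard < q)
    (s : W) :
    (∃ y ∈ X, Bd V X q y ∧ s = q ^ i • y) ↔
      ¬ ((({y | y ∈ X ∧ q ^ i • y = s} : Set W).ncard : ℕ) : ZMod q) = 0 := by
  classical
  constructor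
  · rintro ⟨y, hyX, hyb, rfl⟩ h0
    rw [ZMod.natCast_eq_zero_iff] at h0
    have hpos : 0 < ({y' | y' ∈ X ∧ q ^ i • y' = q ^ i • y} : Set W).ncard := by
      rw [Set.ncard_pos (Set.toFinite _)]
      exact ⟨y, hyX, rfl⟩
    exact absurd (Nat.le_of_dvd hpos h0) (not_le.2 (H y hyX hyb))
  · intro h0
    by_contra hno
    apply h0
    rw [ZMod.natCast_eq_zero_iff]
    obtain ⟨y1, hy1, u, huV, hqu, hnu⟩ := hbad
    have hu0 : u ≠ 0 := by
      rintro rfl
      rw [add_zero] at hnu
      exact hnu hy1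
    refine qf_dvd _ q hq u hu0 hqu ?_
    rintro y ⟨hyX, hys⟩
    refine ⟨?_, ?_⟩
    · by_contra hc
      exact hno ⟨y, hyX, ⟨u, huV, hqu, hc⟩, hys.symm⟩
    · obtain ⟨j, rfl⟩ := Nat.exists_eq_add_of_le hi
      rw [smul_add, hys, add_comm 1 j, pow_succ, mul_smul, hqu, smul_zero, add_zero]

theorem qf_core {W : Type} [AddCommGroup W] [Fintype W] [IsAddCyclic W] (V : AddSubgroup W)
    (X : Set W) (hXV : X ⊆ V) (q : ℕ) (hq : q.Prime) (hq2 : q ≠ 2) (r l : ℕ)
    (hcard : Nat.card V = q ^ r * l) (hl : ¬ q ∣ l)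
    (MS : ∀ N : ℕ, 0 < N → N.Coprime (Nat.card V) → ∀ y ∈ X, N • y ∈ X → ∀ y' ∈ X, N • y' ∈ X)
    (hbad : ∃ y ∈ X, Bd V X q y) :
    ∃ i : ℕ, 1 ≤ i ∧
      (∀ s : W, (∃ y ∈ X, Bd V X q y ∧ s = q ^ i • y) ↔
        ¬ ((({y | y ∈ X ∧ q ^ i • y = s} : Set W).ncard : ℕ) : ZMod q) = 0) ∧
      (∀ y ∈ X, Bd V X q y → (q ^ i * l) • y = 0) ∧
      (2 ≤ i → ∀ y ∈ X, Bd V X q y → (q ^ (i - 1) * l) • y ≠ 0 ∧
        ∀ u ∈ V, q ^ (i - 1) • u = 0 → y + u ∈ X → u = 0) := by
  classical
  have : Fact q.Prime := ⟨hq⟩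
  have hqpos : 0 < q := hq.pos
  have hQf : (Finset.univ.filter (fun a : W => q • a = 0)).card ≤ q :=
    IsAddCyclic.card_nsmul_eq_zero_le hqpos
  have hex : ∃ i : ℕ, ∀ y ∈ X, Bd V X q y → (q ^ i * l) • y = 0 :=
    ⟨r, fun y hy _ => qf_kill V q r l hcard y (hXV hy)⟩
  by_cases hP1 : ∀ y ∈ X, Bd V X q y → (q ^ 1 * l) • y = 0
  · -- the case `i = 1`
    refine ⟨1, le_rfl, ?_, hP1, fun h => absurd h (by norm_num)⟩
    intro s
    apply qf_iff V X q hq hbad 1 le_rfl
    rintro y hyX ⟨u1, hu1V, hqu1, hnu1⟩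
    have h1 : ({y' | y' ∈ X ∧ q ^ 1 • y' = q ^ 1 • y} : Set W).ncard ≤
        ((((Finset.univ.filter (fun a : W => q • a = 0)).erase u1 : Finset W)) : Set W).ncard := by
      apply Set.ncard_le_ncard_of_injOn (fun y' => y' - y)
      · rintro y' ⟨hy'X, hy'⟩
        rw [pow_one] at hy'
        rw [Finset.coe_erase]
        refine ⟨?_, ?_⟩
        · simp [smul_sub, hy']
        · rintro (h : y' - y = u1)
          apply hnu1
          rw [← h, add_sub_cancel]
          exact hy'X
      · intro a _ b _ hab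
        exact sub_left_injective hab
    rw [Set.ncard_coe_finset] at h1
    have h2 : u1 ∈ Finset.univ.filter (fun a : W => q • a = 0) := by simp [hqu1]
    rw [Finset.card_erase_of_mem h2] at h1
    have h3 : 0 < (Finset.univ.filter (fun a : W => q • a = 0)).card := Finset.card_pos.2 ⟨_, h2⟩
    omega
  · -- the case `i ≥ 2`
    obtain ⟨i, hi2, hA, y0, hy0X, hy0bad, hy0M⟩ : ∃ i : ℕ, 2 ≤ i ∧
        (∀ y ∈ X, Bd V X q y → (q ^ i * l) • y = 0) ∧
        ∃ y ∈ X, Bd V X q y ∧ (q ^ (i - 1) * l) • y ≠ 0 := by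
      have hP0 : ¬ ∀ y ∈ X, Bd V X q y → (q ^ 0 * l) • y = 0 := by
        intro h
        apply hP1
        intro y hy hb
        have := h y hy hb
        rw [pow_zero, one_mul] at this
        rw [pow_one, mul_smul, this, smul_zero]
      refine ⟨Nat.find hex, ?_, Nat.find_spec hex, ?_⟩
      · by_contra hlt
        have h1 : Nat.find hex = 0 ∨ Nat.find hex = 1 := by omega
        have h2 := Nat.find_spec hex
        rcases h1 with h | h
        · rw [h] at h2; exact hP0 h2
        · rw [h] at h2; exact hP1 h2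
      · have h3 : Nat.find hex ≠ 0 := by
          intro h
          have h2 := Nat.find_spec hex
          rw [h] at h2
          exact hP0 h2
        have h4 := Nat.find_min hex (m := Nat.find hex - 1) (by omega)
        push Not at h4
        exact h4
    obtain ⟨M, hMdef⟩ : ∃ M : ℕ, M = q ^ (i - 1) * l := ⟨_, rfl⟩
    have hqM : q * M = q ^ i * l := by
      rw [hMdef, ← mul_assoc, ← pow_succ', Nat.sub_add_cancel (by omega)]
    have hMM : M * M = (q ^ (i - 2) * l) * (q ^ i * l) := by
      rw [hMdef]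
      obtain ⟨j, rfl⟩ := Nat.exists_eq_add_of_le hi2
      have e1 : 2 + j - 1 = j + 1 := by omega
      have e2 : 2 + j - 2 = j := by omega
      rw [e1, e2]
      ring
    rw [← hMdef] at hy0M
    have NC : ∀ t, (1 + t * M).Coprime (Nat.card V) := by
      intro t
      rw [hMdef]
      exact qf_cop V q r l hcard (i - 1) t (by omega)
    have hV : ∀ y ∈ X, ∀ n : ℕ, n • y ∈ V := fun y hy n => V.nsmul_mem (hXV hy) n
    have hqMy : ∀ y : W, (q ^ i * l) • y = 0 → q • (M • y) = 0 := by
      intro y hy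
      rw [← mul_smul, hqM, hy]
    have hexp : ∀ (t : ℕ) (y : W), (1 + t * M) • y = y + t • (M • y) := by
      intro t y
      rw [add_smul, one_smul, mul_smul]
    -- (q1)
    have q1 : ∀ y' ∈ X, M • y' ≠ 0 := by
      intro y' hy' h0
      obtain ⟨u, huV, hqu, hnu⟩ := id hy0bad
      obtain ⟨t, ht⟩ := qf_gen (M • y0) u (by
        rw [qf_ord q hq _ hy0M (hqMy _ (hA y0 hy0X hy0bad))]; exact hqu)
      have h1 := MS (1 + t * M) (by omega) (NC t) y' hy' (by
        rw [hexp, h0, smul_zero, add_zero]; exact hy') y0 hy0X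
      apply hnu
      rw [ht, ← hexp]
      exact h1
    -- the converse
    have q1' : ∀ y' ∈ X, (q ^ i * l) • y' = 0 → Bd V X q y' := by
      intro y' hy' hA'
      by_contra hnb
      have hnb' : ∀ u ∈ V, q • u = 0 → y' + u ∈ X := by
        intro u hu hqu
        by_contra hc
        exact hnb ⟨u, hu, hqu, hc⟩
      obtain ⟨u, huV, hqu, hnu⟩ := id hy0bad
      obtain ⟨t, ht⟩ := qf_gen (M • y0) u (by
        rw [qf_ord q hq _ hy0M (hqMy _ (hA y0 hy0X hy0bad))]; exact hqu)
      have h1 := MS (1 + t * M) (by omega) (NC t) y' hy' (by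
        rw [hexp]
        apply hnb' _ (V.nsmul_mem (hV y' hy' M) t)
        rw [smul_comm, hqMy _ hA', smul_zero]) y0 hy0X
      apply hnu
      rw [ht, ← hexp]
      exact h1
    -- (q2)
    have q2 : ∀ y' ∈ X, (q ^ i * l) • y' = 0 → ∀ u ∈ V, q • u = 0 → y' + u ∈ X → u = 0 := by
      intro y' hy' hA' u huV hqu hyu
      by_contra hu
      obtain ⟨u', hu'V, hqu', hnu'⟩ := q1' y' hy' hA'
      obtain ⟨t, ht⟩ := qf_gen (M • y') u (by
        rw [qf_ord q hq _ (q1 y' hy') (hqMy _ hA')]; exact hqu)
      obtain ⟨j, hj⟩ := qf_gen u u' (by rw [qf_ord q hq _ hu hqu]; exact hqu')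
      have hMu : M • u = 0 := by
        rw [ht, smul_comm, ← mul_smul M M, hMM, mul_smul, hA', smul_zero, smul_zero]
      have h0 : (1 + t * M) • y' ∈ X := by rw [hexp, ← ht]; exact hyu
      have hall : ∀ k : ℕ, y' + k • u ∈ X := by
        intro k
        induction k with
        | zero => rw [zero_smul, add_zero]; exact hy'
        | succ k ih =>
          have h2 := MS (1 + t * M) (by omega) (NC t) y' hy' h0 _ ih
          have h3 : (1 + t * M) • (y' + k • u) = y' + (k + 1) • u := by
            rw [smul_add, hexp, ← ht, hexp, smul_comm M k u, hMu, smul_zero, smul_zero, add_zero,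
              add_assoc, succ_nsmul, add_comm u]
          rwa [h3] at h2
      apply hnu'
      rw [hj]
      exact hall j
    -- (q3)
    have q3 : ∀ f : ℕ, f ≤ i - 1 → ∀ y' ∈ X, (q ^ i * l) • y' = 0 → ∀ u ∈ V, q ^ f • u = 0 →
        y' + u ∈ X → u = 0 := by
      intro f
      induction f with
      | zero =>
        intro _ y' _ _ u _ h0 _
        rwa [pow_zero, one_smul] at h0
      | succ f ih =>
        intro hf y' hy' hA' u huV hqu hyu
        by_cases hf0 : f = 0
        · subst hf0
          rw [zero_add, pow_one] at hqu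
          exact q2 y' hy' hA' u huV hqu hyu
        by_contra hu
        have h0 : ¬ q ^ f • u = 0 := fun h => hu (ih (by omega) y' hy' hA' u huV h hyu)
        have hordu : addOrderOf u = q ^ (f + 1) := addOrderOf_eq_prime_pow h0 hqu
        have hordm : addOrderOf ((q * l) • y') = q ^ (i - 2 + 1) := by
          apply addOrderOf_eq_prime_pow
          · rw [← mul_smul]
            have e1 : q ^ (i - 2) * (q * l) = M := by
              rw [hMdef]
              have e2 : i - 1 = i - 2 + 1 := by omega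
              rw [e2, pow_succ]
              ring
            rw [e1]
            exact q1 y' hy'
          · rw [← mul_smul]
            have e1 : q ^ (i - 2 + 1) * (q * l) = q ^ i * l := by
              have e2 : i = i - 2 + 1 + 1 := by omega
              conv_rhs => rw [e2]
              rw [pow_succ (n := i - 2 + 1)]
              ring
            rw [e1, hA']
        obtain ⟨t, ht⟩ := qf_gen ((q * l) • y') u (by
          rw [hordm]
          obtain ⟨k, hk⟩ := Nat.exists_eq_add_of_le (show f + 1 ≤ i - 2 + 1 by omega)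
          rw [hk, pow_add, mul_comm, mul_smul, hqu, smul_zero])
        obtain ⟨c, hc, hqc⟩ := qf_arith q (t * (q ^ 1 * l)) hq hq2
          ⟨t * l, by ring⟩
        have hNC := qf_cop V q r l hcard 1 t le_rfl
        have hNy : (1 + t * (q ^ 1 * l)) • y' = y' + u := by
          rw [add_smul, one_smul, mul_smul, pow_one, ← ht]
        have hall : ∀ k : ℕ, (1 + t * (q ^ 1 * l)) ^ k • y' ∈ X := by
          intro k
          induction k with
          | zero => rw [pow_zero, one_smul]; exact hy'
          | succ k ihk =>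
            rw [pow_succ', mul_smul]
            exact MS _ (by omega) hNC y' hy' (by rw [hNy]; exact hyu) _ ihk
        have h5 := hall q
        have h6 : (1 + t * (q ^ 1 * l)) ^ q • y' = y' + (q * c) • u := by
          rw [hc, add_smul, one_smul, mul_comm (t * (q ^ 1 * l)), mul_smul, mul_smul t, pow_one,
            ← ht]
        rw [h6] at h5
        have h7 := ih (by omega) y' hy' hA' ((q * c) • u) (V.nsmul_mem huV _) (by
          rw [← mul_smul]
          have e1 : q ^ f * (q * c) = c * q ^ (f + 1) := by ring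
          rw [e1, mul_smul, hqu, smul_zero]) h5
        have h8 : q ^ (f + 1) ∣ q * c := by
          rw [← hordu]
          exact addOrderOf_dvd_of_nsmul_eq_zero h7
        rw [pow_succ'] at h8
        have h9 : q ^ f ∣ c := Nat.dvd_of_mul_dvd_mul_left hqpos h8
        exact hqc ((dvd_pow_self q hf0).trans h9)
    refine ⟨i, by omega, ?_, hA, ?_⟩
    · intro s
      apply qf_iff V X q hq hbad i (by omega)
      intro y hyX hyb
      have hAy := hA y hyX hyb
      have hAS : ∀ y' : W, q ^ i • y' = q ^ i • y → (q ^ i * l) • y' = 0 := by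
        intro y' hy'
        rw [mul_comm, mul_smul, hy', ← mul_smul, mul_comm l, hAy]
      have h1 : ({y' | y' ∈ X ∧ q ^ i • y' = q ^ i • y} : Set W).ncard ≤
          ((((Finset.univ.filter (fun a : W => q • a = 0)).erase 0 : Finset W)) : Set W).ncard := by
        apply Set.ncard_le_ncard_of_injOn (fun y' => M • y')
        · rintro y' ⟨hy'X, hy'⟩
          rw [Finset.coe_erase]
          refine ⟨?_, ?_⟩
          · simpa using hqMy _ (hAS y' hy')
          · exact q1 y' hy'X
        · rintro a ⟨haX, ha⟩ b ⟨hbX, hb⟩ (hab : M • a = M • b)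
          have hu1 : q ^ i • (b - a) = 0 := by rw [smul_sub, ha, hb, sub_self]
          have hu2 : M • (b - a) = 0 := by rw [smul_sub, hab, sub_self]
          have hv : q ^ (i - 1) • (b - a) = 0 := by
            have h2 : q • (q ^ (i - 1) • (b - a)) = 0 := by
              rw [← mul_smul, ← pow_succ', Nat.sub_add_cancel (by omega), hu1]
            have h3 : l • (q ^ (i - 1) • (b - a)) = 0 := by
              rw [← mul_smul, mul_comm, ← hMdef, hu2]
            have h4 := addOrderOf_dvd_of_nsmul_eq_zero h2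
            have h5 := addOrderOf_dvd_of_nsmul_eq_zero h3
            have h6 := Nat.dvd_gcd h4 h5
            have h7 : Nat.gcd q l = 1 := (Nat.Prime.coprime_iff_not_dvd hq).2 hl
            rw [h7, Nat.dvd_one, AddMonoid.addOrderOf_eq_one_iff] at h6
            exact h6
          have h8 := q3 (i - 1) le_rfl a haX (hAS a ha) (b - a)
            (V.sub_mem (hXV hbX) (hXV haX)) hv (by rw [add_sub_cancel]; exact hbX)
          exact (sub_eq_zero.1 h8).symm
      rw [Set.ncard_coe_finset] at h1
      have h2 : (0 : W) ∈ Finset.univ.filter (fun a : W => q • a = 0) := by simp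
      rw [Finset.card_erase_of_mem h2] at h1
      have h3 : 0 < (Finset.univ.filter (fun a : W => q • a = 0)).card := Finset.card_pos.2 ⟨_, h2⟩
      omega
    · intro _ y hyX hyb
      rw [← hMdef]
      exact ⟨q1 y hyX, q3 (i - 1) le_rfl y hyX (hA y hyX hyb)⟩

end Pool.Agent.R996.Ty
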