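import Pool.Agent.R996.Ty.Sub1
import Pool.Agent.R996.Ty.Fr
import Pool.Agent.R996.Ty.QfCore

/-!
# Prime divisors of the period-free part
-/

namespace Pool.Agent.R996.Ty

theorem qf {W : Type} [AddCommGroup W] [Fintype W] [IsAddCyclic W] (z : Equiv.Perm W) (V : AddSubgroup W) (hV : ZI z V) (w : W) (hw : w ∈ V) (q : ℕ) (hq : q.Prime) (hq2 : q ≠ 2) (r l : ℕ) (hcard : Nat.card V = q ^ r * l) (hl : ¬ q ∣ l)
    (hbad : ∃ y ∈ atm z V w, ∃ u ∈ V, q • u = 0 ∧ y + u ∉ atm z V w) :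
    ∃ i : ℕ, 1 ≤ i ∧
      PG z V {s | ∃ y ∈ atm z V w, (∃ u ∈ V, q • u = 0 ∧ y + u ∉ atm z V w) ∧ s = q ^ i • y} ∧
      (∀ y ∈ atm z V w, (∃ u ∈ V, q • u = 0 ∧ y + u ∉ atm z V w) → (q ^ i * l) • y = 0) ∧
      (2 ≤ i → ∀ y ∈ atm z V w, (∃ u ∈ V, q • u = 0 ∧ y + u ∉ atm z V w) → (q ^ (i - 1) * l) • y ≠ 0 ∧
        ∀ u ∈ V, q ^ (i - 1) • u = 0 → y + u ∈ atm z V w → u = 0) := by
  have hF : Fact q.Prime := ⟨hq⟩
  have hXV : atm z V w ⊆ V := atm_le hV hw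
  obtain ⟨i, hi, h1, h2, h3⟩ := qf_core V (atm z V w) hXV q hq hq2 r l hcard hl
    (fun N h0 hN y hy hNy => atm_mul z V hV w hw N h0 hN y hy hNy) hbad
  refine ⟨i, hi, ?_, h2, h3⟩
  have h4 : {s | ∃ y ∈ atm z V w, (∃ u ∈ V, q • u = 0 ∧ y + u ∉ atm z V w) ∧ s = q ^ i • y} =
      {s | ((Set.ncard {y | y ∈ atm z V w ∧ q ^ i • y = s} : ℕ) : ZMod q) = 0}ᶜ := by
    ext s
    exact h1 s
  rw [h4]
  exact PG.compl (fr z V (atm z V w) (atm_pg z V w) 0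
    (fun y hy => by rw [sub_zero]; exact hXV hy) q i 0)

end Pool.Agent.R996.Ty
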