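import Pool.Agent.R996.Ty.Defs3

/-!
# Passing to the quotient by an invariant subgroup
-/

namespace Pool.Agent.R996.Ty

variable {W : Type} [AddCommGroup W]

private lemma zi_symm_aux {z : Equiv.Perm W} {R : AddSubgroup W} (hR : ZI z R) : ZI z.symm R := by
  intro x y
  have := hR (z.symm x) (z.symm y)
  rw [Equiv.apply_symm_apply, Equiv.apply_symm_apply] at this
  exact this.symm

/-- The permutation of the quotient. -/
def zq (z : Equiv.Perm W) (R : AddSubgroup W) (hR : ZI z R) : Equiv.Perm (W ⧸ R) where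
  toFun := Quotient.map' z (by
    intro a b h
    rw [QuotientAddGroup.leftRel_apply, neg_add_eq_sub] at h ⊢
    exact (hR a b).mp h)
  invFun := Quotient.map' z.symm (by
    intro a b h
    rw [QuotientAddGroup.leftRel_apply, neg_add_eq_sub] at h ⊢
    exact (zi_symm_aux hR a b).mp h)
  left_inv := by
    intro q
    induction q using QuotientAddGroup.induction_on with
    | H x =>
      change ((z.symm (z x) : W) : W ⧸ R) = _
      rw [Equiv.symm_apply_apply]
  right_inv := by
    intro q
    induction q using QuotientAddGroup.induction_on with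
    | H x =>
      change ((z (z.symm x) : W) : W ⧸ R) = _
      rw [Equiv.apply_symm_apply]

theorem zq_mk (z : Equiv.Perm W) (R : AddSubgroup W) (hR : ZI z R) (x : W) :
    zq z R hR (x : W ⧸ R) = (z x : W ⧸ R) := rfl

theorem zq_symm_mk (z : Equiv.Perm W) (R : AddSubgroup W) (hR : ZI z R) (x : W) :
    (zq z R hR).symm (x : W ⧸ R) = (z.symm x : W ⧸ R) := rfl

variable {z : Equiv.Perm W} {R : AddSubgroup W}

theorem zi_zq (hR : ZI z R) (D : AddSubgroup (W ⧸ R)) :
    ZI (zq z R hR) D ↔ ZI z (D.comap (QuotientAddGroup.mk' R)) := by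
  have key : ∀ x y : W, (((y : W ⧸ R) - (x : W ⧸ R) ∈ D ↔
      zq z R hR (y : W ⧸ R) - zq z R hR (x : W ⧸ R) ∈ D) ↔
      (y - x ∈ D.comap (QuotientAddGroup.mk' R) ↔
        z y - z x ∈ D.comap (QuotientAddGroup.mk' R))) := by
    intro x y
    rw [AddSubgroup.mem_comap, AddSubgroup.mem_comap, map_sub, map_sub]
    exact Iff.rfl
  constructor
  · intro h x y
    exact (key x y).mp (h (x : W ⧸ R) (y : W ⧸ R))
  · intro h x y
    induction x using QuotientAddGroup.induction_on with
    | H x =>
      induction y using QuotientAddGroup.induction_on with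
      | H y => exact (key x y).mpr (h x y)

theorem img_zq (hR : ZI z R) (Y : Set (W ⧸ R)) (x : W) :
    img z ((QuotientAddGroup.mk' R) ⁻¹' Y) x =
      (QuotientAddGroup.mk' R) ⁻¹' (img (zq z R hR) Y (x : W ⧸ R)) := by
  ext t
  exact Iff.rfl

theorem pg_zq (hR : ZI z R) (V : AddSubgroup (W ⧸ R)) (Y : Set (W ⧸ R)) :
    PG (zq z R hR) V Y ↔ PG z (V.comap (QuotientAddGroup.mk' R))
      ((QuotientAddGroup.mk' R) ⁻¹' Y) := by
  constructor
  · intro h x v hv
    rw [img_zq hR, img_zq hR]
    have := h (x : W ⧸ R) (v : W ⧸ R) hv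
    rw [← this]
    rfl
  · intro h x v hv
    induction x using QuotientAddGroup.induction_on with
    | H x =>
      induction v using QuotientAddGroup.induction_on with
      | H v =>
        have h1 := h x v hv
        rw [img_zq hR, img_zq hR] at h1
        exact (Set.preimage_injective.mpr (QuotientAddGroup.mk'_surjective R)) h1

private lemma atm_pg_aux (V : AddSubgroup W) (w : W) : PG z V (atm z V w) := by
  intro x v hv
  ext t
  constructor
  · intro h Y hY hw
    have h1 : t ∈ img z Y (x + v) := h Y hY hw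
    rw [hY x v hv] at h1
    exact h1
  · intro h Y hY hw
    have h1 : t ∈ img z Y x := h Y hY hw
    rw [← hY x v hv] at h1
    exact h1

theorem atm_zq (hR : ZI z R) (V : AddSubgroup W) (hV : ZI z V) (hRV : R ≤ V) (w : W)
    (h : R ≤ pers (atm z V w)) :
    (QuotientAddGroup.mk' R) ⁻¹'
      (atm (zq z R hR) (V.map (QuotientAddGroup.mk' R)) (w : W ⧸ R)) = atm z V w := by
  have hcomap : (V.map (QuotientAddGroup.mk' R)).comap (QuotientAddGroup.mk' R) = V := by
    rw [AddSubgroup.comap_map_eq, QuotientAddGroup.ker_mk']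
    exact sup_eq_left.mpr hRV
  have hinv : (QuotientAddGroup.mk' R) ⁻¹' ((QuotientAddGroup.mk' R) '' (atm z V w)) =
      atm z V w := by
    apply Set.Subset.antisymm
    · rintro y ⟨x, hx, hxy⟩
      have hr : -x + y ∈ R := QuotientAddGroup.eq.mp hxy
      have h1 := (h hr x).mpr hx
      rw [add_neg_cancel_left] at h1
      exact h1
    · exact Set.subset_preimage_image _ _
  apply Set.Subset.antisymm
  · intro y hy
    have h1 : PG (zq z R hR) (V.map (QuotientAddGroup.mk' R))
        ((QuotientAddGroup.mk' R) '' (atm z V w)) := by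
      rw [pg_zq hR, hcomap, hinv]
      exact atm_pg_aux V w
    have h2 : (w : W ⧸ R) ∈ (QuotientAddGroup.mk' R) '' (atm z V w) :=
      ⟨w, fun Y _ hw => hw, rfl⟩
    have h3 : y ∈ (QuotientAddGroup.mk' R) ⁻¹' ((QuotientAddGroup.mk' R) '' (atm z V w)) :=
      hy _ h1 h2
    rwa [hinv] at h3
  · intro y hy
    have h1 : PG z V ((QuotientAddGroup.mk' R) ⁻¹'
        (atm (zq z R hR) (V.map (QuotientAddGroup.mk' R)) (w : W ⧸ R))) := by
      have h2 := (pg_zq hR (V.map (QuotientAddGroup.mk' R))
        (atm (zq z R hR) (V.map (QuotientAddGroup.mk' R)) (w : W ⧸ R))).mp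
          (atm_pg_aux (z := zq z R hR) _ _)
      rwa [hcomap] at h2
    exact hy _ h1 (fun Y _ hw => hw)

theorem card_map_mk [Finite W] (V : AddSubgroup W) (hRV : R ≤ V) :
    Nat.card (V.map (QuotientAddGroup.mk' R)) * Nat.card R = Nat.card V := by
  have hker : ((QuotientAddGroup.mk' R).comp V.subtype).ker = R.addSubgroupOf V := by
    ext x
    rw [AddMonoidHom.mem_ker, AddSubgroup.mem_addSubgroupOf]
    exact QuotientAddGroup.eq_zero_iff (x : W)
  have hrange : ((QuotientAddGroup.mk' R).comp V.subtype).range =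
      V.map (QuotientAddGroup.mk' R) := by
    rw [AddMonoidHom.range_comp]
    congr 1
    exact AddSubgroup.range_subtype V
  have h1 := AddSubgroup.card_mul_index (((QuotientAddGroup.mk' R).comp V.subtype).ker)
  rw [AddSubgroup.index_ker, hrange, hker,
    Nat.card_congr (AddSubgroup.addSubgroupOfEquivOfLe hRV).toEquiv] at h1
  rw [mul_comm]
  exact h1

end Pool.Agent.R996.Ty
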