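import Pool.Agent.R996.Ty.Sub2
import Pool.Agent.R996.Ty.Fr
import Pool.Agent.R996.Ty.Qf
import Pool.Agent.R996.Ty.Quo

/-!
# The rigidity of the `p`-part
-/

namespace Pool.Agent.R996.Ty

namespace CC

section cyc

/-- The elements killed by `n`. -/
def ctor (W : Type) [AddCommGroup W] (n : ℕ) : AddSubgroup W := (nsmulAddMonoidHom n : W →+ W).ker

lemma mem_ctor {W : Type} [AddCommGroup W] {n : ℕ} {v : W} : v ∈ ctor W n ↔ n • v = 0 := by
  rw [ctor, AddMonoidHom.mem_ker]; rfl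

lemma gcd_nsmul {W : Type} [AddCommGroup W] {a : W} {m n g : ℕ} (hm : m • a = 0) (hn : n • a = 0)
    (hg : Nat.gcd m n ∣ g) : g • a = 0 := by
  rw [← addOrderOf_dvd_iff_nsmul_eq_zero] at *
  exact (Nat.dvd_gcd hm hn).trans hg

lemma dvd_nsmul {W : Type} [AddCommGroup W] {a : W} {m n : ℕ} (hm : m • a = 0) (h : m ∣ n) :
    n • a = 0 := by
  rw [← addOrderOf_dvd_iff_nsmul_eq_zero] at *
  exact hm.trans h

lemma split_nsmul {W : Type} [AddCommGroup W] (v : W) (m n : ℕ) (hc : Nat.Coprime m n)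
    (h : (m * n) • v = 0) : ∃ s u : W, m • s = 0 ∧ n • u = 0 ∧ v = s + u := by
  obtain ⟨a, b, hab⟩ := Nat.isCoprime_iff_coprime.mpr hc
  have h' : ((m : ℤ) * (n : ℤ)) • v = 0 := by
    rw [← Nat.cast_mul, natCast_zsmul, h]
  refine ⟨(b * n) • v, (a * m) • v, ?_, ?_, ?_⟩
  · rw [← natCast_zsmul, smul_smul, show (m : ℤ) * (b * n) = b * (m * n) by ring, mul_smul, h',
      smul_zero]
  · rw [← natCast_zsmul, smul_smul, show (n : ℤ) * (a * m) = a * (m * n) by ring, mul_smul, h',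
      smul_zero]
  · rw [← add_smul, add_comm, hab, one_smul]

variable {W : Type} [AddCommGroup W] [Finite W] [IsAddCyclic W]

omit [Finite W] in
lemma ann_dvd (A : AddSubgroup W) (n : ℕ) (h : ∀ a ∈ A, n • a = 0) : Nat.card A ∣ n := by
  rw [← IsAddCyclic.exponent_eq_card]
  exact AddMonoid.exponent_dvd_of_forall_nsmul_eq_zero fun a => Subtype.ext (h a a.2)

omit [Finite W] [IsAddCyclic W] in
lemma card_nsmul_mem {A : AddSubgroup W} {a : W} (ha : a ∈ A) : Nat.card A • a = 0 := by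
  have := card_nsmul_eq_zero' (x := (⟨a, ha⟩ : A))
  exact congrArg Subtype.val this

omit [Finite W] in
lemma card_closure_dvd (X : Set W) (m : ℕ) :
    Nat.card (AddSubgroup.closure X) ∣ m ↔ ∀ y ∈ X, m • y = 0 := by
  constructor
  · intro h y hy
    exact dvd_nsmul (card_nsmul_mem (AddSubgroup.subset_closure hy)) h
  · intro h
    apply ann_dvd
    intro a ha
    have : AddSubgroup.closure X ≤ ctor W m := by
      rw [AddSubgroup.closure_le]
      intro y hy
      exact mem_ctor.mpr (h y hy)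
    exact mem_ctor.mp (this ha)

lemma mem_iff_card (A : AddSubgroup W) (a : W) : a ∈ A ↔ Nat.card A • a = 0 := by
  refine ⟨card_nsmul_mem, fun h => ?_⟩
  have hle : A ≤ ctor W (Nat.card A) := fun b hb => mem_ctor.mpr (card_nsmul_mem hb)
  have hd : Nat.card (ctor W (Nat.card A)) ∣ Nat.card A :=
    ann_dvd _ _ fun b hb => mem_ctor.mp hb
  have heq := AddSubgroup.eq_of_le_of_card_ge hle (Nat.le_of_dvd Nat.card_pos hd)
  rw [heq]
  exact mem_ctor.mpr h

lemma le_of_card_dvd {A B : AddSubgroup W} (h : Nat.card A ∣ Nat.card B) : A ≤ B := by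
  intro a ha
  rw [mem_iff_card] at ha ⊢
  exact dvd_nsmul ha h

end cyc

lemma pow_dvd_aux {p k l n : ℕ} (hp : p.Prime) (h : n ∣ p ^ k * l) (hn : ¬ p ^ k ∣ n)
    (hn0 : n ≠ 0) : n ∣ p ^ (k - 1) * l := by
  obtain ⟨j, m, hm, rfl⟩ := Nat.exists_eq_pow_mul_and_not_dvd hn0 p hp.ne_one
  have hj : j < k := by
    by_contra hcon
    exact hn (Dvd.dvd.mul_right (pow_dvd_pow p (not_lt.mp hcon)) m)
  have hml : m ∣ l := by
    have h1 : m ∣ p ^ k * l := (Dvd.intro_left _ rfl).trans h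
    exact (Nat.Coprime.dvd_of_dvd_mul_left
      (Nat.Coprime.pow_right k ((hp.coprime_iff_not_dvd.mpr hm).symm)) h1)
  exact mul_dvd_mul (pow_dvd_pow p (by omega)) hml

section

variable {W : Type} [AddCommGroup W]

lemma all_bad [Finite W] [IsAddCyclic W] (z : Equiv.Perm W) (L V : AddSubgroup W) (hL : ZI z L)
    (hLV : L ≤ V) (p : ℕ) (hLp : Nat.card L = p) (w : W) (hbad : ∃ u ∈ L, w + u ∉ atm z V w) :
    ∀ y ∈ atm z V w, ∃ u ∈ V, p • u = 0 ∧ y + u ∉ atm z V w := by
  intro y hy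
  obtain ⟨u, hu, hwu⟩ := hbad
  have h1 := pg_cnt (L := L) (V := V) (Y := atm z V w) hL (atm_pg _ _ _)
    (Set.ncard {l : W | l ∈ L ∧ w + l ∈ atm z V w})
  have h2 : Set.ncard {l : W | l ∈ L ∧ y + l ∈ atm z V w} =
      Set.ncard {l : W | l ∈ L ∧ w + l ∈ atm z V w} := atm_sub h1 (w := w) rfl hy
  by_contra hcon
  push Not at hcon
  have h3 : {l : W | l ∈ L ∧ y + l ∈ atm z V w} = (L : Set W) := by
    ext l
    constructor
    · intro h
      exact h.1
    · intro h
      refine ⟨h, hcon l (hLV h) ?_⟩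
      rw [← hLp]
      exact card_nsmul_mem h
  have h4 : {l : W | l ∈ L ∧ w + l ∈ atm z V w} ⊂ (L : Set W) := by
    refine ⟨fun l h => h.1, fun h => hwu (h hu).2⟩
  have h5 := Set.ncard_lt_ncard h4 (Set.toFinite _)
  rw [← h2, h3] at h5
  exact lt_irrefl _ h5

lemma prime_ne_two [Fintype W] (hodd : Odd (Fintype.card W)) {q : ℕ} (V : AddSubgroup W)
    (h : q ∣ Nat.card V) : q ≠ 2 := by
  rintro rfl
  have h1 : 2 ∣ Nat.card W := h.trans (AddSubgroup.card_addSubgroup_dvd_card V)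
  rw [Nat.card_eq_fintype_card] at h1
  exact (Nat.not_even_iff_odd.mpr hodd) (even_iff_two_dvd.mpr h1)

theorem caseC1' {W : Type} [AddCommGroup W] [Fintype W] [IsAddCyclic W]
    (hodd : Odd (Fintype.card W)) (z : Equiv.Perm W) (L V : AddSubgroup W) (hL : ZI z L) (p : ℕ)
    (hp : p.Prime) (hLp : Nat.card L = p) (hV : ZI z V) (hLV : L ≤ V) (w : W) (hw : w ∈ V)
    (hcl : AddSubgroup.closure (atm z V w) = V) (hbad : ∃ u ∈ L, w + u ∉ atm z V w) :
    ∃ U : AddSubgroup W, ZI z U ∧ U ≤ V ∧ L ⊓ U = ⊥ ∧ ¬ p ∣ Nat.card U ∧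
      ∃ k : ℕ, Nat.card V = p ^ k * Nat.card U := by
  have hpV : p ∣ Nat.card V := by
    rw [← hLp]
    exact AddSubgroup.card_dvd_of_le hLV
  have hp2 : p ≠ 2 := prime_ne_two hodd V hpV
  have hb := all_bad z L V hL hLV p hLp w hbad
  obtain ⟨k, l, hl, hcard⟩ := Nat.exists_eq_pow_mul_and_not_dvd (n := Nat.card V)
    (Nat.card_pos.ne') p hp.ne_one
  obtain ⟨i, hi1, hpg, hk1, hk2⟩ := qf z V hV w hw p hp hp2 k l hcard hl
    ⟨w, (atm_self _ _ _), hb w (atm_self _ _ _)⟩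
  have hXV : atm z V w ⊆ V := atm_sub (ZI.pg hV V) hw
  have hl0 : 0 < l := Nat.pos_of_ne_zero fun h => hl (h ▸ dvd_zero p)
  set S : Set W := {s | ∃ y ∈ atm z V w, (∃ u ∈ V, p • u = 0 ∧ y + u ∉ atm z V w) ∧
    s = p ^ i • y} with hS
  have hSV : S ⊆ V := by
    rintro s ⟨y, hy, -, rfl⟩
    exact AddSubgroup.nsmul_mem V (hXV hy) _
  have hU : ZI z (AddSubgroup.closure S) := zi_closure hV hpg hSV
  have hUl : Nat.card (AddSubgroup.closure S) ∣ l := by
    rw [card_closure_dvd]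
    rintro s ⟨y, hy, hyb, rfl⟩
    rw [smul_smul, mul_comm]
    exact hk1 y hy hyb
  have hlU : l ∣ Nat.card (AddSubgroup.closure S) := by
    have h1 : Nat.card V ∣ Nat.card (AddSubgroup.closure S) * p ^ i := by
      nth_rewrite 1 [← hcl]
      rw [card_closure_dvd]
      intro y hy
      rw [mul_smul]
      exact card_nsmul_mem (AddSubgroup.subset_closure ⟨y, hy, hb y hy, rfl⟩)
    have h2 : l ∣ Nat.card (AddSubgroup.closure S) * p ^ i :=
      (Dvd.intro_left _ hcard.symm).trans h1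
    exact Nat.Coprime.dvd_of_dvd_mul_right
      (Nat.Coprime.pow_right i ((hp.coprime_iff_not_dvd.mpr hl).symm)) h2
  have heq : Nat.card (AddSubgroup.closure S) = l := Nat.dvd_antisymm hUl hlU
  refine ⟨AddSubgroup.closure S, hU, (AddSubgroup.closure_le V).mpr hSV, ?_, ?_, k, ?_⟩
  · rw [eq_bot_iff]
    rintro x ⟨hx1, hx2⟩
    rw [AddSubgroup.mem_bot]
    have e1 : p • x = 0 := by
      rw [← hLp]
      exact card_nsmul_mem hx1
    have e2 : l • x = 0 := by
      rw [← heq]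
      exact card_nsmul_mem hx2
    have e3 := gcd_nsmul (g := 1) e1 e2 (by
      rw [Nat.Coprime.gcd_eq_one (hp.coprime_iff_not_dvd.mpr hl)])
    rwa [one_smul] at e3
  · rw [heq]
    exact hl
  · rw [heq]
    exact hcard

/-! ### The period-free case -/

lemma dq [Fintype W] [IsAddCyclic W] (hodd : Odd (Fintype.card W)) (z : Equiv.Perm W)
    (V : AddSubgroup W) (p : ℕ) (hp : p.Prime) (hV : ZI z V) (w : W) (hw : w ∈ V)
    (hpers : pers (atm z V w) = ⊥) (k l : ℕ) (hcard : Nat.card V = p ^ k * l) (hk : 1 ≤ k)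
    (hA : ∀ y ∈ atm z V w, (p ^ (k - 1) * l) • y ≠ 0) (q : ℕ) (hq : q.Prime) (hqp : q ≠ p)
    (hqV : q ∣ Nat.card V) :
    ∃ D : AddSubgroup W, ZI z D ∧ D ≤ V ∧ ctor W (p ^ k) ≤ D ∧ ¬ q ∣ Nat.card D := by
  have hXV : atm z V w ⊆ V := atm_sub (ZI.pg hV V) hw
  obtain ⟨r, l', hl', hcard'⟩ := Nat.exists_eq_pow_mul_and_not_dvd (n := Nat.card V)
    (Nat.card_pos.ne') q hq.ne_one
  have hbad : ∃ y ∈ atm z V w, ∃ u ∈ V, q • u = 0 ∧ y + u ∉ atm z V w := by
    have : Fact q.Prime := ⟨hq⟩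
    obtain ⟨u0, hu0⟩ := exists_prime_addOrderOf_dvd_card' (G := V) q hqV
    have hu1 : (u0 : W) ≠ 0 := by
      intro h
      have h1 : u0 = 0 := Subtype.ext h
      rw [h1, addOrderOf_zero] at hu0
      exact hq.ne_one hu0.symm
    have hu2 : q • (u0 : W) = 0 := by
      have := addOrderOf_nsmul_eq_zero u0
      rw [hu0] at this
      exact congrArg Subtype.val this
    have hu3 : (u0 : W) ∉ pers (atm z V w) := by
      rw [hpers, AddSubgroup.mem_bot]
      exact hu1
    have hu4 : ¬ ∀ w', w' + (u0 : W) ∈ atm z V w ↔ w' ∈ atm z V w := hu3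
    push Not at hu4
    obtain ⟨w', hw'⟩ := hu4
    rcases hw' with ⟨h1, h2⟩ | ⟨h1, h2⟩
    · refine ⟨w' + u0, h1, -u0, V.neg_mem u0.2, ?_, ?_⟩
      · rw [smul_neg, hu2, neg_zero]
      · rw [add_neg_cancel_right]
        exact h2
    · exact ⟨w', h2, u0, u0.2, hu2, h1⟩
  obtain ⟨i, hi1, hpg, hk1, -⟩ := qf z V hV w hw q hq (prime_ne_two hodd V hqV) r l' hcard' hl' hbad
  set S : Set W := {s | ∃ y ∈ atm z V w, (∃ u ∈ V, q • u = 0 ∧ y + u ∉ atm z V w) ∧
    s = q ^ i • y} with hS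
  have hSV : S ⊆ V := by
    rintro s ⟨y, hy, -, rfl⟩
    exact AddSubgroup.nsmul_mem V (hXV hy) _
  have hDV : AddSubgroup.closure S ≤ V := (AddSubgroup.closure_le V).mpr hSV
  refine ⟨AddSubgroup.closure S, zi_closure hV hpg hSV, hDV, ?_, ?_⟩
  · have hpk : p ^ k ∣ Nat.card (AddSubgroup.closure S) := by
      by_contra hcon
      have h1 : Nat.card (AddSubgroup.closure S) ∣ p ^ k * l := by
        rw [← hcard]
        exact AddSubgroup.card_dvd_of_le hDV
      have h2 := pow_dvd_aux hp h1 hcon Nat.card_pos.ne'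
      obtain ⟨y, hy, hyb⟩ := hbad
      have hm : q ^ i • y ∈ S := ⟨y, hy, hyb, rfl⟩
      have h3 : (p ^ (k - 1) * l) • (q ^ i • y) = 0 :=
        dvd_nsmul (card_nsmul_mem (AddSubgroup.subset_closure hm)) h2
      have h4 : q ^ i • ((p ^ (k - 1) * l) • y) = 0 := by
        rw [smul_comm]
        exact h3
      have h5 : p • ((p ^ (k - 1) * l) • y) = 0 := by
        rw [smul_smul, show p * (p ^ (k - 1) * l) = Nat.card V by
          rw [hcard, ← mul_assoc, ← pow_succ', Nat.sub_add_cancel hk]]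
        exact card_nsmul_mem (hXV hy)
      have h6 := gcd_nsmul (g := 1) h4 h5 (by
        rw [Nat.Coprime.gcd_eq_one (Nat.Coprime.pow_left i ((Nat.coprime_primes hq hp).mpr hqp))])
      rw [one_smul] at h6
      exact hA y hy h6
    intro v hv
    rw [mem_iff_card]
    exact dvd_nsmul (mem_ctor.mp hv) hpk
  · intro hcon
    apply hl'
    refine hcon.trans ?_
    rw [card_closure_dvd]
    rintro s ⟨y, hy, hyb, rfl⟩
    rw [smul_smul, mul_comm]
    exact hk1 y hy hyb

lemma pk_zi [Fintype W] [IsAddCyclic W] (hodd : Odd (Fintype.card W)) (z : Equiv.Perm W)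
    (V : AddSubgroup W) (p : ℕ) (hp : p.Prime) (hV : ZI z V) (w : W) (hw : w ∈ V)
    (hpers : pers (atm z V w) = ⊥) (k l : ℕ) (hcard : Nat.card V = p ^ k * l) (hl : ¬ p ∣ l)
    (hk : 1 ≤ k) (hA : ∀ y ∈ atm z V w, (p ^ (k - 1) * l) • y ≠ 0) : ZI z (ctor W (p ^ k)) := by
  set T : Set (AddSubgroup W) := {D | ZI z D ∧ D ≤ V ∧ ctor W (p ^ k) ≤ D} with hT
  have hE : ZI z (sInf T) := zi_sInf T fun D hD => hD.1
  have hVT : V ∈ T := by
    refine ⟨hV, le_refl _, fun v hv => ?_⟩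
    rw [mem_iff_card, hcard]
    exact dvd_nsmul (mem_ctor.mp hv) (Dvd.intro _ rfl)
  have hEV : sInf T ≤ V := sInf_le hVT
  have hPE : ctor W (p ^ k) ≤ sInf T := le_sInf fun D hD => hD.2.2
  have hEq : ∀ q : ℕ, q.Prime → q ∣ Nat.card (sInf T : AddSubgroup W) → q = p := by
    intro q hq hqE
    by_contra hqp
    have hqV : q ∣ Nat.card V := hqE.trans (AddSubgroup.card_dvd_of_le hEV)
    obtain ⟨D, hD1, hD2, hD3, hD4⟩ := dq hodd z V p hp hV w hw hpers k l hcard hk hA q hq hqp hqV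
    exact hD4 (hqE.trans (AddSubgroup.card_dvd_of_le (sInf_le (show D ∈ T from ⟨hD1, hD2, hD3⟩))))
  have hEj := Nat.eq_prime_pow_of_unique_prime_dvd (n := Nat.card (sInf T : AddSubgroup W))
    (p := p) Nat.card_pos.ne' (fun {d} hd hdE => hEq d hd hdE)
  set j := (Nat.card (sInf T : AddSubgroup W)).primeFactorsList.length with hj
  have hEk : Nat.card (sInf T : AddSubgroup W) ∣ p ^ k := by
    have h1 : Nat.card (sInf T : AddSubgroup W) ∣ p ^ k * l := by
      rw [← hcard]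
      exact AddSubgroup.card_dvd_of_le hEV
    rw [hEj] at h1 ⊢
    exact Nat.Coprime.dvd_of_dvd_mul_right
      (Nat.Coprime.pow_left j (hp.coprime_iff_not_dvd.mpr hl)) h1
  have hEP : sInf T = ctor W (p ^ k) := by
    refine le_antisymm (fun v hv => ?_) hPE
    exact mem_ctor.mpr (dvd_nsmul (card_nsmul_mem hv) hEk)
  rw [← hEP]
  exact hE

lemma pv_zi [Fintype W] [IsAddCyclic W] (z : Equiv.Perm W)
    (V : AddSubgroup W) (p : ℕ) (hp : p.Prime) (hV : ZI z V) (w : W) (hw : w ∈ V)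
    (hcl : AddSubgroup.closure (atm z V w) = V) (k l : ℕ) (hcard : Nat.card V = p ^ k * l)
    (hk : 2 ≤ k)
    (hB : ∀ y ∈ atm z V w, ∀ u ∈ V, p ^ (k - 1) • u = 0 → y + u ∈ atm z V w → u = 0) :
    ∃ D : AddSubgroup W, ZI z D ∧ ∀ v, v ∈ D ↔ (p ^ (k - 1) * l) • v = 0 := by
  have : Fact p.Prime := ⟨hp⟩
  have hXV : atm z V w ⊆ V := atm_sub (ZI.pg hV V) hw
  have h1 := fr z V (atm z V w) (atm_pg _ _ _) 0 (fun y hy => by rw [sub_zero]; exact hXV hy) p 1 1
  have h2 : {s : W | ((Set.ncard {y | y ∈ atm z V w ∧ p ^ 1 • y = s} : ℕ) : ZMod p) = 1} =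
      (fun y => p • y) '' atm z V w := by
    ext s
    constructor
    · intro hs
      have hs' : ((Set.ncard {y | y ∈ atm z V w ∧ p ^ 1 • y = s} : ℕ) : ZMod p) = 1 := hs
      have hne : Set.Nonempty {y | y ∈ atm z V w ∧ p ^ 1 • y = s} := by
        rw [Set.nonempty_iff_ne_empty]
        intro he
        rw [he, Set.ncard_empty, Nat.cast_zero] at hs'
        exact zero_ne_one hs'
      obtain ⟨y, hy, hys⟩ := hne
      rw [pow_one] at hys
      exact ⟨y, hy, hys⟩
    · rintro ⟨y, hy, rfl⟩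
      have he : {y' | y' ∈ atm z V w ∧ p ^ 1 • y' = p • y} = {y} := by
        ext y'
        constructor
        · rintro ⟨hy', he⟩
          have e1 : p • (y' - y) = 0 := by
            rw [smul_sub, sub_eq_zero, ← he, pow_one]
          have e2 : y' - y = 0 := by
            apply hB y hy (y' - y) (V.sub_mem (hXV hy') (hXV hy))
            · exact dvd_nsmul e1 (dvd_pow_self p (by omega))
            · rw [add_sub_cancel]
              exact hy'
          exact sub_eq_zero.mp e2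
        · rintro rfl
          exact ⟨hy, by rw [pow_one]⟩
      change ((Set.ncard {y' | y' ∈ atm z V w ∧ p ^ 1 • y' = p • y} : ℕ) : ZMod p) = 1
      rw [he, Set.ncard_singleton, Nat.cast_one]
  rw [h2] at h1
  have hSV : (fun y => p • y) '' atm z V w ⊆ V := by
    rintro s ⟨y, hy, rfl⟩
    exact AddSubgroup.nsmul_mem V (hXV hy) _
  refine ⟨AddSubgroup.closure ((fun y => p • y) '' atm z V w), zi_closure hV h1 hSV, ?_⟩
  have hc : Nat.card (AddSubgroup.closure ((fun y => p • y) '' atm z V w)) = p ^ (k - 1) * l := by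
    apply Nat.dvd_antisymm
    · rw [card_closure_dvd]
      rintro s ⟨y, hy, rfl⟩
      change (p ^ (k - 1) * l) • (p • y) = 0
      rw [smul_smul, show p ^ (k - 1) * l * p = Nat.card V by
        rw [hcard, mul_right_comm, ← pow_succ, Nat.sub_add_cancel (by omega)]]
      exact card_nsmul_mem (hXV hy)
    · have e1 : Nat.card V ∣ Nat.card (AddSubgroup.closure ((fun y => p • y) '' atm z V w)) * p := by
        nth_rewrite 1 [← hcl]
        rw [card_closure_dvd]
        intro y hy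
        rw [mul_smul]
        exact card_nsmul_mem (AddSubgroup.subset_closure ⟨y, hy, rfl⟩)
      apply Nat.dvd_of_mul_dvd_mul_right hp.pos
      rw [show p ^ (k - 1) * l * p = Nat.card V by
        rw [hcard, mul_right_comm, ← pow_succ, Nat.sub_add_cancel (by omega)]]
      exact e1
  intro v
  rw [mem_iff_card, hc]

lemma pp_zi [Fintype W] [IsAddCyclic W] (z : Equiv.Perm W)
    (V : AddSubgroup W) (p : ℕ) (hp : p.Prime) (hV : ZI z V) (w : W) (hw : w ∈ V)
    (hcl : AddSubgroup.closure (atm z V w) = V) (k l : ℕ) (hcard : Nat.card V = p ^ k * l)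
    (hl : ¬ p ∣ l) (hk : 2 ≤ k)
    (hB : ∀ y ∈ atm z V w, ∀ u ∈ V, p ^ (k - 1) • u = 0 → y + u ∈ atm z V w → u = 0)
    (hP : ZI z (ctor W (p ^ k))) : ZI z (ctor W (p ^ (k - 1))) := by
  obtain ⟨D, hD, hD'⟩ := pv_zi z V p hp hV w hw hcl k l hcard hk hB
  have : ctor W (p ^ (k - 1)) = ctor W (p ^ k) ⊓ D := by
    ext v
    rw [AddSubgroup.mem_inf, mem_ctor, mem_ctor, hD']
    constructor
    · intro h
      exact ⟨dvd_nsmul h (pow_dvd_pow p (by omega)), dvd_nsmul h (Dvd.intro _ rfl)⟩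
    · rintro ⟨h1, h2⟩
      refine gcd_nsmul h1 h2 ?_
      have h3 : p ^ k = p ^ (k - 1) * p := by
        rw [← pow_succ, Nat.sub_add_cancel (by omega)]
      rw [h3, Nat.gcd_mul_left, Nat.Coprime.gcd_eq_one (hp.coprime_iff_not_dvd.mpr hl), mul_one]
  rw [this]
  exact ZI.inf hP hD

/-- The rigidity in the period-free case. -/
theorem caseC_aux [Fintype W] [IsAddCyclic W] (hodd : Odd (Fintype.card W)) (z : Equiv.Perm W)
    (V U : AddSubgroup W) (p : ℕ) (hp : p.Prime) (hV : ZI z V) (w : W) (hw : w ∈ V)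
    (hcl : AddSubgroup.closure (atm z V w) = V) (hpers : pers (atm z V w) = ⊥) (hU : ZI z U)
    (k l : ℕ) (hUl : Nat.card U = l) (hcard : Nat.card V = p ^ k * l) (hl : ¬ p ∣ l)
    (hk : 2 ≤ k) (hA : ∀ y ∈ atm z V w, (p ^ (k - 1) * l) • y ≠ 0)
    (hB : ∀ y ∈ atm z V w, ∀ u ∈ V, p ^ (k - 1) • u = 0 → y + u ∈ atm z V w → u = 0) :
    ∀ x, ∀ v ∈ V, ∀ v' ∈ V, z (x + v + v') - z (x + v) - (z (x + v') - z x) ∈ U := by
  have hXV : atm z V w ⊆ V := atm_sub (ZI.pg hV V) hw
  have hX : PG z V (atm z V w) := atm_pg _ _ _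
  have hPk : ZI z (ctor W (p ^ k)) :=
    pk_zi hodd z V p hp hV w hw hpers k l hcard hl (by omega) hA
  have hPp : ZI z (ctor W (p ^ (k - 1))) :=
    pp_zi z V p hp hV w hw hcl k l hcard hl hk hB hPk
  have hPkV : ctor W (p ^ k) ≤ V := by
    intro v hv
    rw [mem_iff_card, hcard]
    exact dvd_nsmul (mem_ctor.mp hv) (Dvd.intro _ rfl)
  have hPpk : ctor W (p ^ (k - 1)) ≤ ctor W (p ^ k) := by
    intro v hv
    exact mem_ctor.mpr (dvd_nsmul (mem_ctor.mp hv) (pow_dvd_pow p (by omega)))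
  have hPpV : ctor W (p ^ (k - 1)) ≤ V := hPpk.trans hPkV
  have hpk : p ^ (k - 1) * p = p ^ k := by
    rw [← pow_succ, Nat.sub_add_cancel (by omega)]
  have K := kap (z := z) hPp hPpV hX hcl (fun y hy u hu h => hB y hy u (hPpV hu) (mem_ctor.mp hu) h)
  -- two elements of the image of the atom in one coset
  have hinj : ∀ x, ∀ t₁ ∈ img z (atm z V w) x, ∀ t₂ ∈ img z (atm z V w) x,
      t₁ - t₂ ∈ ctor W (p ^ (k - 1)) → t₁ = t₂ := by
    intro x t₁ h₁ t₂ h₂ hd
    have e₁ : z.symm (z x + t₁) - x ∈ atm z V w := h₁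
    have e₂ : z.symm (z x + t₂) - x ∈ atm z V w := h₂
    have e₃ : z.symm (z x + t₁) - z.symm (z x + t₂) ∈ ctor W (p ^ (k - 1)) := by
      rw [hPp, Equiv.apply_symm_apply, Equiv.apply_symm_apply, add_sub_add_left_eq_sub]
      exact hd
    have e₄ : z.symm (z x + t₁) - z.symm (z x + t₂) = 0 := by
      refine hB _ e₂ _ (hPpV e₃) (mem_ctor.mp e₃) ?_
      rw [show z.symm (z x + t₂) - x + (z.symm (z x + t₁) - z.symm (z x + t₂)) =
        z.symm (z x + t₁) - x by abel]
      exact e₁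
    have e₅ := z.symm.injective (sub_eq_zero.mp e₄)
    exact add_left_cancel e₅
  have hYV : ∀ x, ∀ y ∈ atm z V w, z (x + y) - z x ∈ V := by
    intro x y hy
    rw [← hV, add_sub_cancel_left]
    exact hXV hy
  have hYm : ∀ x, ∀ y ∈ atm z V w, z (x + y) - z x ∈ img z (atm z V w) x := by
    intro x y hy
    rw [mem_img, add_sub_cancel_left]
    exact hy
  have hVk : ∀ v ∈ V, (p ^ k * l) • v = 0 := by
    intro v hv
    rw [← hcard]
    exact card_nsmul_mem hv
  have hmul : ∀ v ∈ V, (p * l) • v ∈ ctor W (p ^ (k - 1)) := by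
    intro v hv
    rw [mem_ctor, smul_smul, ← mul_assoc, hpk]
    exact hVk v hv
  have hcop : Nat.Coprime (1 + p * l) (Nat.card V) := by
    rw [hcard]
    apply Nat.Coprime.mul_right
    · apply Nat.Coprime.pow_right
      rw [Nat.coprime_add_mul_left_left]
      exact Nat.coprime_one_left p
    · rw [Nat.coprime_add_mul_right_left]
      exact Nat.coprime_one_left l
  -- the multiple `h = p * l`
  have h3 : ∀ x, ∀ y ∈ atm z V w, z (x + (p * l) • y) - z x = (p * l) • (z (x + y) - z x) := by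
    intro x y hy
    obtain ⟨-, hm⟩ := pg_mul z V hV (atm z V w) hX hXV (1 + p * l) (by omega) hcop
    have hτ : z (x + y) - z x ∈ img z (atm z V w) x := hYm x y hy
    have hK := K x y (hXV hy) ((p * l) • y) (hmul y (hXV hy))
    have ht : z (x + (1 + p * l) • y) - z x ∈
        img z ((fun w => (1 + p * l) • w) '' (atm z V w)) x := by
      rw [mem_img, add_sub_cancel_left]
      exact ⟨y, hy, rfl⟩
    rw [hm] at ht
    obtain ⟨τ₁, hτ₁, hτ₂⟩ := ht
    have hτ₂' : (1 + p * l) • τ₁ = z (x + (1 + p * l) • y) - z x := hτ₂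
    have e1 : z (x + (1 + p * l) • y) - z x =
        (z (x + (p * l) • y) - z x) + (z (x + y) - z x) := by
      rw [add_smul, one_smul, ← add_assoc, ← hK]
      abel
    have hd1 : z (x + (p * l) • y) - z x ∈ ctor W (p ^ (k - 1)) := by
      rw [← hPp, add_sub_cancel_left]
      exact hmul y (hXV hy)
    have hτ₁V : τ₁ ∈ V := by
      have e2 : z.symm (z x + τ₁) - x ∈ V := hXV hτ₁
      rw [hV, Equiv.apply_symm_apply, add_sub_cancel_left] at e2
      exact e2
    have hd : τ₁ - (z (x + y) - z x) ∈ ctor W (p ^ (k - 1)) := by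
      have e3 : (1 + p * l) • (τ₁ - (z (x + y) - z x)) ∈ ctor W (p ^ (k - 1)) := by
        rw [smul_sub, hτ₂', e1, add_smul, one_smul]
        rw [show z (x + (p * l) • y) - z x + (z (x + y) - z x) -
          (z (x + y) - z x + (p * l) • (z (x + y) - z x)) =
          (z (x + (p * l) • y) - z x) - (p * l) • (z (x + y) - z x) by abel]
        exact AddSubgroup.sub_mem _ hd1 (hmul _ (hYV x y hy))
      rw [mem_ctor, smul_smul] at e3
      have e4 := hVk _ (V.sub_mem hτ₁V (hYV x y hy))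
      rw [mem_ctor]
      refine gcd_nsmul e3 e4 ?_
      rw [← hpk, mul_assoc, Nat.gcd_mul_left]
      have e5 : Nat.Coprime (1 + p * l) (p * l) := by
        rw [Nat.coprime_add_self_left]
        exact Nat.coprime_one_left _
      rw [Nat.Coprime.gcd_eq_one e5, mul_one]
    have he := hinj x τ₁ hτ₁ _ hτ hd
    rw [he, e1, add_smul, one_smul, add_comm] at hτ₂'
    exact (add_right_cancel hτ₂').symm
  -- the differences along the atom are constant on the cosets of the `p`-part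
  have ha : ∀ x, ∀ y ∈ atm z V w, ∀ s ∈ ctor W (p ^ k),
      z (x + s + y) - z (x + s) = z (x + y) - z x := by
    intro x y hy s hs
    have m1 : z (x + s + y) - z (x + s) ∈ img z (atm z V w) x := by
      rw [← hX x s (hPkV hs)]
      exact hYm (x + s) y hy
    refine hinj x _ m1 _ (hYm x y hy) ?_
    have d1 : z (x + s + y) - z (x + s) - (z (x + y) - z x) ∈ ctor W (p ^ k) := by
      rw [show z (x + s + y) - z (x + s) - (z (x + y) - z x) =
        (z (x + s + y) - z (x + y)) - (z (x + s) - z x) by abel]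
      apply AddSubgroup.sub_mem
      · rw [← hPk, show x + s + y - (x + y) = s by abel]
        exact hs
      · rw [← hPk, add_sub_cancel_left]
        exact hs
    have d2 : (p * l) • (z (x + s + y) - z (x + s) - (z (x + y) - z x)) = 0 := by
      rw [smul_sub, ← h3 (x + s) y hy, ← h3 x y hy,
        K x s (hPkV hs) ((p * l) • y) (hmul y (hXV hy)), sub_self]
    rw [mem_ctor]
    refine gcd_nsmul d2 (mem_ctor.mp d1) ?_
    have e5 : Nat.gcd (p * l) (p ^ k) = p := by
      rw [← hpk, mul_comm (p ^ (k - 1)) p, Nat.gcd_mul_left]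
      have : Nat.Coprime l (p ^ (k - 1)) :=
        Nat.Coprime.pow_right _ ((hp.coprime_iff_not_dvd.mpr hl).symm)
      rw [Nat.Coprime.gcd_eq_one this, mul_one]
    rw [e5]
    exact dvd_pow_self p (by omega)
  -- closure induction
  have hb : ∀ y ∈ V, ∀ x, ∀ s ∈ ctor W (p ^ k), z (x + y + s) - z (x + y) = z (x + s) - z x := by
    intro y hy
    rw [← hcl] at hy
    induction hy using AddSubgroup.closure_induction with
    | mem y hy =>
      intro x s hs
      have := ha x y hy s hs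
      rw [add_right_comm x y s]
      rw [sub_eq_iff_eq_add] at this ⊢
      rw [this]
      abel
    | zero =>
      intro x s hs
      rw [add_zero]
    | add y₁ y₂ _ _ h₁ h₂ =>
      intro x s hs
      rw [← add_assoc, h₂ (x + y₁) s hs, h₁ x s hs]
    | neg y _ h =>
      intro x s hs
      have := h (x + -y) s hs
      rw [neg_add_cancel_right] at this
      exact this.symm
  intro x v hv v' hv'
  obtain ⟨s, u, hs, hu, rfl⟩ := split_nsmul v' (p ^ k) l
    (Nat.Coprime.pow_left k (hp.coprime_iff_not_dvd.mpr hl)) (hVk v' hv')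
  have huU : u ∈ U := by
    rw [mem_iff_card, hUl]
    exact hu
  have e1 := hb v hv x s (mem_ctor.mpr hs)
  have e2 : z (x + v + (s + u)) - z (x + v + s) ∈ U := by
    rw [← hU, show x + v + (s + u) - (x + v + s) = u by abel]
    exact huU
  have e3 : z (x + (s + u)) - z (x + s) ∈ U := by
    rw [← hU, show x + (s + u) - (x + s) = u by abel]
    exact huU
  have e4 : z (x + v + (s + u)) - z (x + v) - (z (x + (s + u)) - z x) =
      (z (x + v + (s + u)) - z (x + v + s)) - (z (x + (s + u)) - z (x + s)) +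
        ((z (x + v + s) - z (x + v)) - (z (x + s) - z x)) := by abel
  rw [e4, e1, sub_self, add_zero]
  exact U.sub_mem e2 e3

theorem caseC' {W : Type} [AddCommGroup W] [Fintype W] [IsAddCyclic W]
    (hodd : Odd (Fintype.card W)) (z : Equiv.Perm W) (L V U : AddSubgroup W) (hL : ZI z L) (p : ℕ)
    (hp : p.Prime) (hLp : Nat.card L = p) (hV : ZI z V) (hLV : L ≤ V) (w : W) (hw : w ∈ V)
    (hcl : AddSubgroup.closure (atm z V w) = V) (hbad : ∃ u ∈ L, w + u ∉ atm z V w) (hU : ZI z U)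
    (hUV : U ≤ V) (k : ℕ) (hcard : Nat.card V = p ^ k * Nat.card U) (hpU : ¬ p ∣ Nat.card U)
    (hk : 2 ≤ k) :
    ∀ x, ∀ v ∈ V, ∀ v' ∈ V, z (x + v + v') - z (x + v) - (z (x + v') - z x) ∈ U := by
  have hpV : p ∣ Nat.card V := by
    rw [← hLp]
    exact AddSubgroup.card_dvd_of_le hLV
  have hp2 : p ≠ 2 := prime_ne_two hodd V hpV
  have hXV : atm z V w ⊆ V := atm_sub (ZI.pg hV V) hw
  have hall := all_bad z L V hL hLV p hLp w hbad
  have hU0 : 0 < Nat.card U := Nat.card_pos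
  obtain ⟨i, hi1, -, hk1, hk2⟩ := qf z V hV w hw p hp hp2 k (Nat.card U) hcard hpU
    ⟨w, (atm_self _ _ _), hall w (atm_self _ _ _)⟩
  -- the exponent is `k`
  have hik : i = k := by
    have h1 : Nat.card V ∣ p ^ i * Nat.card U := by
      nth_rewrite 1 [← hcl]
      rw [card_closure_dvd]
      intro y hy
      exact hk1 y hy (hall y hy)
    rw [hcard] at h1
    have h2 : k ≤ i := (Nat.pow_dvd_pow_iff_le_right hp.one_lt).mp
      (Nat.dvd_of_mul_dvd_mul_right hU0 h1)
    by_contra hne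
    have h3 : k ≤ i - 1 := by omega
    have h4 := (hk2 (by omega) w (atm_self _ _ _) (hall w (atm_self _ _ _))).1
    apply h4
    refine dvd_nsmul (card_nsmul_mem hw) ?_
    rw [hcard]
    exact mul_dvd_mul_right (pow_dvd_pow p h3) _
  subst hik
  have hA : ∀ y ∈ atm z V w, (p ^ (i - 1) * Nat.card U) • y ≠ 0 := fun y hy =>
    (hk2 hk y hy (hall y hy)).1
  have hB : ∀ y ∈ atm z V w, ∀ u ∈ V, p ^ (i - 1) • u = 0 → y + u ∈ atm z V w → u = 0 :=
    fun y hy => (hk2 hk y hy (hall y hy)).2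
  -- the periods
  obtain ⟨R, hRdef⟩ : ∃ R : AddSubgroup W, R = pers (atm z V w) := ⟨_, rfl⟩
  have hR : ZI z R := by
    rw [hRdef]
    exact zi_per hV (atm_pg _ _ _) (fun y hy y' hy' => V.sub_mem (hXV hy) (hXV hy')) ⟨w, (atm_self _ _ _)⟩
  have hRm : ∀ r ∈ R, ∀ y, y + r ∈ atm z V w ↔ y ∈ atm z V w := by
    intro r hr y
    rw [hRdef] at hr
    exact hr y
  have hRV : R ≤ V := by
    intro r hr
    have h1 : w + r ∈ atm z V w := (hRm r hr w).mpr (atm_self _ _ _)
    have h2 := V.sub_mem (hXV h1) hw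
    rwa [add_sub_cancel_left] at h2
  have hpR : ¬ p ∣ Nat.card R := by
    intro hcon
    obtain ⟨u, hu, hwu⟩ := hbad
    have h1 : L ≤ R := le_of_card_dvd (by rw [hLp]; exact hcon)
    exact hwu ((hRm u (h1 hu) w).mpr (atm_self _ _ _))
  have hRU : R ≤ U := by
    apply le_of_card_dvd
    have h1 : Nat.card R ∣ p ^ i * Nat.card U := by
      rw [← hcard]
      exact AddSubgroup.card_dvd_of_le hRV
    exact Nat.Coprime.dvd_of_dvd_mul_left
      (Nat.Coprime.pow_right i ((hp.coprime_iff_not_dvd.mpr hpR).symm)) h1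
  have hR0 : 0 < Nat.card R := Nat.card_pos
  -- the quotient
  have : IsAddCyclic (W ⧸ R) := isAddCyclic_of_surjective (QuotientAddGroup.mk' R)
    (QuotientAddGroup.mk'_surjective R)
  have : Fintype (W ⧸ R) := Fintype.ofFinite _
  have hodd1 : Odd (Fintype.card (W ⧸ R)) := by
    have h1 : Fintype.card (W ⧸ R) ∣ Fintype.card W := by
      rw [← Nat.card_eq_fintype_card, ← Nat.card_eq_fintype_card]
      exact AddSubgroup.card_quotient_dvd_card R
    exact Odd.of_dvd_nat hodd h1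
  have hcomap : ∀ D : AddSubgroup W, R ≤ D →
      (D.map (QuotientAddGroup.mk' R)).comap (QuotientAddGroup.mk' R) = D := by
    intro D hD
    rw [AddSubgroup.comap_map_eq, QuotientAddGroup.ker_mk', sup_eq_left]
    exact hD
  have hV1 : ZI (zq z R hR) (V.map (QuotientAddGroup.mk' R)) := by
    rw [zi_zq, hcomap V hRV]
    exact hV
  have hU1 : ZI (zq z R hR) (U.map (QuotientAddGroup.mk' R)) := by
    rw [zi_zq, hcomap U hRU]
    exact hU
  have hatm := atm_zq hR V hV hRV w (le_of_eq hRdef)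
  have hatm' : ∀ y : W, (QuotientAddGroup.mk' R y) ∈
      atm (zq z R hR) (V.map (QuotientAddGroup.mk' R)) (w : W ⧸ R) ↔ y ∈ atm z V w := by
    intro y
    exact Set.ext_iff.mp hatm y
  have hw1 : (w : W ⧸ R) ∈ V.map (QuotientAddGroup.mk' R) := ⟨w, hw, rfl⟩
  have hcl1 : AddSubgroup.closure (atm (zq z R hR) (V.map (QuotientAddGroup.mk' R)) (w : W ⧸ R)) =
      V.map (QuotientAddGroup.mk' R) := by
    have h1 : atm (zq z R hR) (V.map (QuotientAddGroup.mk' R)) (w : W ⧸ R) =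
        (QuotientAddGroup.mk' R) '' (atm z V w) := by
      ext y1
      obtain ⟨y, rfl⟩ := QuotientAddGroup.mk'_surjective R y1
      rw [hatm']
      constructor
      · intro hy
        exact ⟨y, hy, rfl⟩
      · rintro ⟨y', hy', he⟩
        rw [← hatm', ← he, hatm']
        exact hy'
    rw [h1, ← AddMonoidHom.map_closure, hcl]
  have hpers1 : pers (atm (zq z R hR) (V.map (QuotientAddGroup.mk' R)) (w : W ⧸ R)) = ⊥ := by
    rw [eq_bot_iff]
    intro h1 hh1
    obtain ⟨h, rfl⟩ := QuotientAddGroup.mk'_surjective R h1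
    have hh2 : ∀ y1, y1 + QuotientAddGroup.mk' R h ∈
        atm (zq z R hR) (V.map (QuotientAddGroup.mk' R)) (w : W ⧸ R) ↔
        y1 ∈ atm (zq z R hR) (V.map (QuotientAddGroup.mk' R)) (w : W ⧸ R) := hh1
    rw [AddSubgroup.mem_bot, QuotientAddGroup.mk'_apply, QuotientAddGroup.eq_zero_iff, hRdef]
    intro y
    have := hh2 (QuotientAddGroup.mk' R y)
    rw [← map_add, hatm', hatm'] at this
    exact this
  have hcU := card_map_mk (R := R) U hRU
  have hcV := card_map_mk (R := R) V hRV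
  obtain ⟨l, hl⟩ : ∃ l, Nat.card (U.map (QuotientAddGroup.mk' R)) = l := ⟨_, rfl⟩
  rw [hl] at hcU
  have hcard1 : Nat.card (V.map (QuotientAddGroup.mk' R)) = p ^ i * l := by
    apply Nat.eq_of_mul_eq_mul_right hR0
    rw [hcV, hcard, mul_assoc, hcU]
  have hl1 : ¬ p ∣ l := by
    intro hcon
    apply hpU
    rw [← hcU]
    exact Dvd.dvd.mul_right hcon _
  have hA1 : ∀ y1 ∈ atm (zq z R hR) (V.map (QuotientAddGroup.mk' R)) (w : W ⧸ R),
      (p ^ (i - 1) * l) • y1 ≠ 0 := by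
    intro y1 hy1 he
    obtain ⟨y, rfl⟩ := QuotientAddGroup.mk'_surjective R y1
    rw [hatm'] at hy1
    rw [← map_nsmul, QuotientAddGroup.mk'_apply, QuotientAddGroup.eq_zero_iff] at he
    apply hA y hy1
    have h1 := card_nsmul_mem he
    rw [smul_smul] at h1
    rw [← hcU, ← mul_assoc, mul_comm (p ^ (i - 1) * l)]
    exact h1
  have hB1 : ∀ y1 ∈ atm (zq z R hR) (V.map (QuotientAddGroup.mk' R)) (w : W ⧸ R),
      ∀ u1 ∈ V.map (QuotientAddGroup.mk' R), p ^ (i - 1) • u1 = 0 →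
      y1 + u1 ∈ atm (zq z R hR) (V.map (QuotientAddGroup.mk' R)) (w : W ⧸ R) → u1 = 0 := by
    rintro y1 hy1 _ ⟨u, hu, rfl⟩ hpu hyu
    obtain ⟨y, rfl⟩ := QuotientAddGroup.mk'_surjective R y1
    rw [hatm'] at hy1
    rw [← map_add, hatm'] at hyu
    rw [← map_nsmul, QuotientAddGroup.mk'_apply, QuotientAddGroup.eq_zero_iff] at hpu
    have h1 : (p ^ (i - 1) * Nat.card R) • u = 0 := by
      rw [mul_comm, mul_smul]
      exact card_nsmul_mem hpu
    obtain ⟨s, r, hs, hr, rfl⟩ := split_nsmul u (p ^ (i - 1)) (Nat.card R)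
      (Nat.Coprime.pow_left _ (hp.coprime_iff_not_dvd.mpr hpR)) h1
    have hrR : r ∈ R := (mem_iff_card R r).mpr hr
    have hsV : s ∈ V := by
      have := V.sub_mem hu (hRV hrR)
      rwa [add_sub_cancel_right] at this
    have hs0 : s = 0 := by
      apply hB y hy1 s hsV hs
      rw [← add_assoc, hRm r hrR] at hyu
      exact hyu
    rw [hs0, zero_add, QuotientAddGroup.mk'_apply, QuotientAddGroup.eq_zero_iff]
    exact hrR
  have key := caseC_aux hodd1 (zq z R hR) (V.map (QuotientAddGroup.mk' R))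
    (U.map (QuotientAddGroup.mk' R)) p hp hV1 (w : W ⧸ R) hw1 hcl1 hpers1 hU1 i l hl hcard1 hl1 hk
    hA1 hB1
  intro x v hv v' hv'
  have h1 := key (x : W ⧸ R) (v : W ⧸ R) ⟨v, hv, rfl⟩ (v' : W ⧸ R) ⟨v', hv', rfl⟩
  rw [← QuotientAddGroup.mk_add, ← QuotientAddGroup.mk_add, ← QuotientAddGroup.mk_add, zq_mk,
    zq_mk, zq_mk, zq_mk, ← QuotientAddGroup.mk_sub, ← QuotientAddGroup.mk_sub,
    ← QuotientAddGroup.mk_sub] at h1
  have h2 : z (x + v + v') - z (x + v) - (z (x + v') - z x) ∈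
      (U.map (QuotientAddGroup.mk' R)).comap (QuotientAddGroup.mk' R) := h1
  rw [hcomap U hRU] at h2
  exact h2

end

end CC

theorem caseC1 {W : Type} [AddCommGroup W] [Fintype W] [IsAddCyclic W]
    (hodd : Odd (Fintype.card W)) (z : Equiv.Perm W) (L V : AddSubgroup W) (hL : ZI z L) (p : ℕ)
    (hp : p.Prime) (hLp : Nat.card L = p) (hV : ZI z V) (hLV : L ≤ V) (w : W) (hw : w ∈ V)
    (hcl : AddSubgroup.closure (atm z V w) = V) (hbad : ∃ u ∈ L, w + u ∉ atm z V w) :
    ∃ U : AddSubgroup W, ZI z U ∧ U ≤ V ∧ L ⊓ U = ⊥ ∧ ¬ p ∣ Nat.card U ∧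
      ∃ k : ℕ, Nat.card V = p ^ k * Nat.card U :=
  CC.caseC1' hodd z L V hL p hp hLp hV hLV w hw hcl hbad

theorem caseC {W : Type} [AddCommGroup W] [Fintype W] [IsAddCyclic W]
    (hodd : Odd (Fintype.card W)) (z : Equiv.Perm W) (L V U : AddSubgroup W) (hL : ZI z L) (p : ℕ)
    (hp : p.Prime) (hLp : Nat.card L = p) (hV : ZI z V) (hLV : L ≤ V) (w : W) (hw : w ∈ V)
    (hcl : AddSubgroup.closure (atm z V w) = V) (hbad : ∃ u ∈ L, w + u ∉ atm z V w) (hU : ZI z U)
    (hUV : U ≤ V) (k : ℕ) (hcard : Nat.card V = p ^ k * Nat.card U) (hpU : ¬ p ∣ Nat.card U)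
    (hk : 2 ≤ k) :
    ∀ x, ∀ v ∈ V, ∀ v' ∈ V, z (x + v + v') - z (x + v) - (z (x + v') - z x) ∈ U :=
  CC.caseC' hodd z L V U hL p hp hLp hV hLV w hw hcl hbad hU hUV k hcard hpU hk

end Pool.Agent.R996.Ty
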