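import Pool.Agent.R996.Ty.Prod

/-!
# The cyclic case
-/

namespace Pool.Agent.R996.Ty

section general

variable {W C : Type} [AddCommGroup W] (col : W → C) (z : Equiv.Perm W) (Θ : W → Equiv.Perm C)

theorem cyc_step1 (hz : Tw col z Θ) (x w : W) : Θ (x + w) (col w) = Θ x (col w) := by
  have h := hz x (x + w)
  rw [add_sub_cancel_left] at h
  rw [← h.1, ← h.2]

theorem cyc_step2 (hz : Tw col z Θ) (c : C) (w : W) (hw : w ∈ AddSubgroup.closure {w | col w = c}) :
    ∀ x, Θ (x + w) c = Θ x c := by
  induction hw using AddSubgroup.closure_induction with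
  | mem w h =>
    intro x
    have := cyc_step1 col z Θ hz x w
    rwa [show col w = c from h] at this
  | zero => simp
  | add w w' _ _ h h' =>
    intro x
    rw [← add_assoc, h', h]
  | neg w _ h =>
    intro x
    have := h (x + -w)
    rw [neg_add_cancel_right] at this
    exact this.symm

theorem cyc_step3 (hz : Tw col z Θ) (c : C) (w : W) (hw : w ∈ AddSubgroup.closure {w | col w = c}) :
    ∀ x, z (x + w) - z x ∈ AddSubgroup.closure {w | col w = Θ x c} := by
  induction hw using AddSubgroup.closure_induction with
  | mem w h =>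
    intro x
    apply AddSubgroup.subset_closure
    have h1 := (hz x (x + w)).1
    rw [add_sub_cancel_left] at h1
    show col _ = _
    rw [h1, show col w = c from h]
  | zero => intro x; simp
  | add w w' hw hw' h h' =>
    intro x
    have e : z (x + (w + w')) - z x = (z (x + w + w') - z (x + w)) + (z (x + w) - z x) := by
      rw [← add_assoc]; abel
    rw [e]
    apply AddSubgroup.add_mem _ _ (h x)
    have h2 := h' (x + w)
    rwa [cyc_step2 col z Θ hz c w hw x] at h2
  | neg w hw h =>
    intro x
    have e : z (x + -w) - z x = -(z (x + -w + w) - z (x + -w)) := by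
      rw [neg_add_cancel_right]; abel
    rw [e]
    apply AddSubgroup.neg_mem
    have h2 := h (x + -w)
    have h3 := cyc_step2 col z Θ hz c w hw (x + -w)
    rw [neg_add_cancel_right] at h3
    rwa [← h3] at h2

theorem cyc_card_le [Finite W] (hz : Tw col z Θ) (c : C) (x : W) :
    Nat.card (AddSubgroup.closure {w | col w = c}) ≤
      Nat.card (AddSubgroup.closure {w | col w = Θ x c}) := by
  apply Nat.card_le_card_of_injective
    (fun w : AddSubgroup.closure {w | col w = c} =>
      (⟨z (x + w.1) - z x, cyc_step3 col z Θ hz c w.1 w.2 x⟩ :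
        AddSubgroup.closure {w | col w = Θ x c}))
  intro w w' h
  have h1 := congrArg Subtype.val h
  have h2 : z (x + w.1) - z x = z (x + w'.1) - z x := h1
  have h3 := sub_left_injective h2
  exact Subtype.ext (add_left_cancel (z.injective h3))

theorem cyc_tw_symm (hz : Tw col z Θ) : Tw col z.symm (fun x => (Θ (z.symm x)).symm) := by
  intro x y
  have h := hz (z.symm x) (z.symm y)
  rw [z.apply_symm_apply, z.apply_symm_apply] at h
  constructor
  · rw [Equiv.eq_symm_apply]; exact h.1.symm
  · rw [Equiv.eq_symm_apply]; exact h.2.symm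

theorem cyc_card_eq [Finite W] (hz : Tw col z Θ) (c : C) (x : W) :
    Nat.card (AddSubgroup.closure {w | col w = c}) =
      Nat.card (AddSubgroup.closure {w | col w = Θ x c}) := by
  apply le_antisymm (cyc_card_le col z Θ hz c x)
  have h := cyc_card_le col z.symm _ (cyc_tw_symm col z Θ hz) (Θ x c) (z x)
  simpa using h

end general

/-- subgroups of a cyclic group are determined by their order -/
theorem cyc_mem_iff (n : ℕ) [NeZero n] (K : AddSubgroup (ZMod n)) (x : ZMod n) :
    x ∈ K ↔ Nat.card K • x = 0 := by
  classical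
  have h1 : ∀ y ∈ K, Nat.card K • y = 0 := by
    intro y hy
    have h0 : Nat.card K • (⟨y, hy⟩ : K) = 0 := card_nsmul_eq_zero'
    exact congrArg (fun t : K => (t : ZMod n)) h0
  have h2 : (Finset.univ.filter fun y : ZMod n => y ∈ K) ⊆
      Finset.univ.filter fun y : ZMod n => Nat.card K • y = 0 := by
    intro y hy
    simp only [Finset.mem_filter, Finset.mem_univ, true_and] at hy ⊢
    exact h1 y hy
  have h3 : (Finset.univ.filter fun y : ZMod n => Nat.card K • y = 0).card ≤
      (Finset.univ.filter fun y : ZMod n => y ∈ K).card := by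
    have h4 : (Finset.univ.filter fun y : ZMod n => y ∈ K).card = Nat.card K := by
      rw [Nat.card_eq_fintype_card, Fintype.card_subtype]
    rw [h4]
    exact IsAddCyclic.card_nsmul_eq_zero_le (Nat.card_pos)
  have h5 := Finset.eq_of_subset_of_card_le h2 h3
  have h6 := Finset.ext_iff.mp h5 x
  simpa using h6

theorem good_of_block (n : ℕ) [NeZero n] (_hodd : Odd n) {C : Type} (col : ZMod n → C)
    (z : Equiv.Perm (ZMod n)) (Θ : ZMod n → Equiv.Perm C) (hz : Tw col z Θ) (c : C) :
    ∀ x y, y - x ∈ AddSubgroup.closure {w | col w = c} →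
      z y - z x ∈ AddSubgroup.closure {w | col w = c} := by
  intro x y h
  have h1 := cyc_step3 col z Θ hz c (y - x) h x
  rw [add_sub_cancel, cyc_mem_iff, ← cyc_card_eq col z Θ hz c x, ← cyc_mem_iff] at h1
  exact h1

theorem good_zmod (n : ℕ) (hodd : Odd n) (hsq : Squarefree n) : Good (ZMod n) := by
  induction n using Nat.strong_induction_on with
  | _ n ih =>
  have hn0 : n ≠ 0 := hodd.pos.ne'
  have : NeZero n := ⟨hn0⟩
  intro C col z Θ hz x₀
  by_cases hall : ∀ c, AddSubgroup.closure {w | col w = c} = ⊥ ∨
      AddSubgroup.closure {w | col w = c} = ⊤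
  · refine ⟨z, ?_⟩
    intro x y
    rcases eq_or_ne y x with rfl | hne
    · have := (hz x₀ x₀).1
      simpa using this
    · have hmem : y - x ∈ AddSubgroup.closure {w | col w = col (y - x)} :=
        AddSubgroup.subset_closure rfl
      rcases hall (col (y - x)) with h | h
      · rw [h, AddSubgroup.mem_bot] at hmem
        exact absurd (sub_eq_zero.mp hmem) hne
      · have h1 := cyc_step2 col z Θ hz (col (y - x)) (x₀ - x) (by rw [h]; trivial) x
        rw [add_sub_cancel] at h1
        rw [(hz x y).1, h1]
  · push Not at hall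
    obtain ⟨c, hbot, htop⟩ := hall
    set K := AddSubgroup.closure {w | col w = c} with hK
    have hcard : Nat.card K ∣ n := by
      have := AddSubgroup.card_addSubgroup_dvd_card K
      simpa using this
    obtain ⟨b, hb⟩ := hcard
    have hblock := good_of_block n hodd col z Θ hz c
    have hmemK := cyc_mem_iff n K
    rw [← hK] at hblock
    have ha1 : Nat.card K ≠ 1 := by
      intro h
      exact hbot ((AddSubgroup.card_eq_one).mp h)
    have han : Nat.card K ≠ n := by
      intro h
      apply htop
      apply AddSubgroup.eq_top_of_card_eq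
      simpa using h
    generalize Nat.card K = a at *
    subst hb
    have ha0 : a ≠ 0 := left_ne_zero_of_mul hn0
    have hb0 : b ≠ 0 := right_ne_zero_of_mul hn0
    have hb1 : b ≠ 1 := by
      rintro rfl
      exact han (mul_one a).symm
    have hab : a.Coprime b := Nat.coprime_of_squarefree_mul hsq
    have haodd : Odd a := (Nat.odd_mul.mp hodd).1
    have hbodd : Odd b := (Nat.odd_mul.mp hodd).2
    have hal : a < a * b := by
      have : 2 ≤ b := by omega
      nlinarith [Nat.pos_of_ne_zero ha0]
    have hbl : b < a * b := by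
      have : 2 ≤ a := by omega
      nlinarith [Nat.pos_of_ne_zero hb0]
    have hA := ih a hal haodd (hsq.squarefree_of_dvd (Dvd.intro _ rfl))
    have hB := ih b hbl hbodd (hsq.squarefree_of_dvd (Dvd.intro_left _ rfl))
    have : NeZero a := ⟨ha0⟩
    have : NeZero b := ⟨hb0⟩
    let e : ZMod (a * b) ≃+ ZMod a × ZMod b := (ZMod.chineseRemainder hab).toAddEquiv
    have hKe : ∀ x, x ∈ K ↔ (e x).2 = 0 := by
      intro x
      rw [hmemK, ← e.map_eq_zero_iff, map_nsmul]
      constructor
      · intro h
        have h1 : a • (e x).2 = 0 := congrArg Prod.snd h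
        rw [nsmul_eq_mul] at h1
        have hu : IsUnit (a : ZMod b) := (ZMod.isUnit_iff_coprime a b).mpr hab
        exact (hu.mul_right_eq_zero).mp h1
      · intro h
        apply Prod.ext
        · show a • (e x).1 = 0
          rw [nsmul_eq_mul, ZMod.natCast_self, zero_mul]
        · show a • (e x).2 = 0
          rw [h, smul_zero]
    obtain ⟨ψ, hψ⟩ := prod_step (A := ZMod a) (B := ZMod b) (by rwa [ZMod.card])
      (by rwa [ZMod.card, ZMod.card]) hA hB (fun p => col (e.symm p))
      ((e.symm.toEquiv.trans z).trans e.toEquiv) (fun p => Θ (e.symm p))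
      (by
        intro p q
        have h := hz (e.symm p) (e.symm q)
        simp only [Equiv.trans_apply, AddEquiv.toEquiv_eq_coe, AddEquiv.coe_toEquiv, map_sub,
          AddEquiv.symm_apply_apply]
        exact h)
      (by
        intro a1 a2 b1
        simp only [Equiv.trans_apply, AddEquiv.toEquiv_eq_coe, AddEquiv.coe_toEquiv]
        have h1 : e.symm (a1, b1) - e.symm (a2, b1) ∈ K := by
          rw [hKe, map_sub, e.apply_symm_apply, e.apply_symm_apply]
          simp
        have h2 := hblock _ _ h1
        rw [hKe, map_sub] at h2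
        exact sub_eq_zero.mp h2)
      (e x₀)
    refine ⟨(e.toEquiv.trans ψ).trans e.symm.toEquiv, ?_⟩
    intro x y
    have h := hψ (e x) (e y)
    simp only [map_sub, e.symm_apply_apply] at h
    simp only [Equiv.trans_apply, AddEquiv.toEquiv_eq_coe, AddEquiv.coe_toEquiv]
    exact h

end Pool.Agent.R996.Ty
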