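import Mathlib

/-!
# Unstable circulants of Type II: definitions
-/

namespace Pool.Agent.R996.Ty

/-- The permutation `z` changes the colours of the differences by the permutations `Θ x`. -/
def Tw {W C : Type} [AddCommGroup W] (col : W → C) (z : Equiv.Perm W) (Θ : W → Equiv.Perm C) :
    Prop :=
  ∀ x y, col (z y - z x) = Θ x (col (y - x)) ∧ col (z y - z x) = Θ y (col (y - x))

/-- Every local change of colours is given by a permutation with constant change of colours. -/
def Good (W : Type) [AddCommGroup W] : Prop :=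
  ∀ (C : Type) (col : W → C) (z : Equiv.Perm W) (Θ : W → Equiv.Perm C), Tw col z Θ →
    ∀ x₀ : W, ∃ ψ : Equiv.Perm W, ∀ x y, col (ψ y - ψ x) = Θ x₀ (col (y - x))

/-- The connection set in `W × ℤ/2` given by its even part `A` and its odd part `B`. -/
def SS {W : Type} (A B : Set W) : Set (W × ZMod 2) :=
  {v | (v.2 = 0 ∧ v.1 ∈ A) ∨ (v.2 = 1 ∧ v.1 ∈ B)}

/-- Two-fold automorphisms. -/
def TF {W : Type} [AddCommGroup W] (A B : Set W) (α β : Equiv.Perm (W × ZMod 2)) : Prop :=
  ∀ x y, y - x ∈ SS A B ↔ β y - α x ∈ SS A B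

/-- The relation given by the differences in `D` inside the two layers. -/
def RR {W : Type} [AddCommGroup W] (D : Set W) (x y : W × ZMod 2) : Prop :=
  x.2 = y.2 ∧ y.1 - x.1 ∈ D

end Pool.Agent.R996.Ty
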