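import Pool.Agent.R996.Ty.Defs

/-!
# Graphs without nontrivial two-fold automorphisms are stable
-/

namespace Pool.Agent.R996.Ty

/-- The direct product with the complete graph on two vertices. -/
def Dbl {V : Type} (r : V → V → Prop) (x y : V × Bool) : Prop := r x.1 y.1 ∧ x.2 ≠ y.2

/-- the action of `ℤ/2` on the two layers -/
def bb (e : ZMod 2) (i : Bool) : Bool := if e = 0 then i else !i

theorem bb_add : ∀ (e e' : ZMod 2) (i : Bool), bb (e + e') i = bb e (bb e' i) := by decide

theorem bb_inj : ∀ (e : ZMod 2) (i j : Bool), bb e i = bb e j ↔ i = j := by decide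

theorem bb_bb : ∀ (e : ZMod 2) (i : Bool), bb e (bb e i) = i := by decide

theorem bb_eq : ∀ (e e' : ZMod 2), bb e false = bb e' false → e = e' := by decide

theorem bb_ex : ∀ a : Bool, ∃ e : ZMod 2, ∀ i j : Bool, xor j i = a → j = bb e i := by decide

section

variable {V : Type} (r : V → V → Prop)

/-- an automorphism of the double from an automorphism and a shift of the layers -/
def act (g : r ≃r r) (e : ZMod 2) : Dbl r ≃r Dbl r where
  toFun p := (g p.1, bb e p.2)
  invFun p := (g.symm p.1, bb e p.2)
  left_inv p := by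
    ext
    · simp
    · simp [bb_bb]
  right_inv p := by
    ext
    · simp
    · simp [bb_bb]
  map_rel_iff' := by
    intro p q
    simp only [Dbl, Equiv.coe_fn_mk, g.map_rel_iff, ne_eq, bb_inj]

theorem act_apply (g : r ≃r r) (e : ZMod 2) (p : V × Bool) :
    act r g e p = (g p.1, bb e p.2) := rfl

/-- the double is connected -/
theorem dbl_conn [Nonempty V]
    (hconn : ∀ x y, Relation.ReflTransGen r x y)
    (hnb : ¬ ∃ c : V → Bool, ∀ x y, r x y → c x ≠ c y) :
    ∃ p₀ : V × Bool, ∀ p, Relation.ReflTransGen (Dbl r) p₀ p := by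
  classical
  obtain ⟨v₀⟩ := ‹Nonempty V›
  refine ⟨(v₀, false), ?_⟩
  have step : ∀ (x y : V) (i : Bool), r x y →
      Relation.ReflTransGen (Dbl r) (v₀, false) (x, i) →
      Relation.ReflTransGen (Dbl r) (v₀, false) (y, !i) := by
    intro x y i hxy h
    exact h.tail ⟨hxy, by cases i <;> simp⟩
  have some1 : ∀ v, ∃ i, Relation.ReflTransGen (Dbl r) (v₀, false) (v, i) := by
    intro v
    have h := hconn v₀ v
    induction h with
    | refl => exact ⟨false, Relation.ReflTransGen.refl⟩
    | tail _ hxy ih =>
      obtain ⟨i, hi⟩ := ih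
      exact ⟨!i, step _ _ i hxy hi⟩
  have both : ∃ v, ∀ i, Relation.ReflTransGen (Dbl r) (v₀, false) (v, i) := by
    by_contra hno
    push Not at hno
    apply hnb
    refine ⟨fun v => decide (Relation.ReflTransGen (Dbl r) (v₀, false) (v, true)), ?_⟩
    intro x y hxy hc
    rw [decide_eq_decide] at hc
    by_cases hx : Relation.ReflTransGen (Dbl r) (v₀, false) (x, true)
    · obtain ⟨i, hi⟩ := hno y
      have h1 := hc.mp hx
      have h2 := step x y true hxy hx
      cases i
      · exact hi h2
      · exact hi h1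
    · have hy : ¬ Relation.ReflTransGen (Dbl r) (v₀, false) (y, true) := fun h => hx (hc.mpr h)
      obtain ⟨i, hi⟩ := some1 x
      cases i
      · exact hy (step x y false hxy hi)
      · exact hx hi
  obtain ⟨v, hv⟩ := both
  rintro ⟨w, i⟩
  have h := hconn v w
  induction h generalizing i with
  | refl => exact hv i
  | tail _ hxy ih =>
    have := step _ _ (!i) hxy (ih (!i))
    rwa [Bool.not_not] at this

theorem surj [Nonempty V]
    (hconn : ∀ x y, Relation.ReflTransGen r x y)
    (hnb : ¬ ∃ c : V → Bool, ∀ x y, r x y → c x ≠ c y)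
    (htf : ∀ α β : Equiv.Perm V, (∀ x y, r x y ↔ r (α x) (β y)) → α = β)
    (φ : Dbl r ≃r Dbl r) : ∃ (g : r ≃r r) (e : ZMod 2), act r g e = φ := by
  obtain ⟨p₀, hp₀⟩ := dbl_conn r hconn hnb
  have hconst : ∀ p, xor (φ p).2 p.2 = xor (φ p₀).2 p₀.2 := by
    intro p
    have h := hp₀ p
    induction h with
    | refl => rfl
    | @tail a b _ hab ih =>
      rw [← ih]
      have h1 := hab.2
      have h2 := (φ.map_rel_iff.mpr hab).2
      revert h1 h2
      generalize (φ a).2 = s
      generalize (φ b).2 = t
      generalize a.2 = u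
      generalize b.2 = w
      revert s t u w
      decide
  obtain ⟨e, he⟩ := bb_ex (xor (φ p₀).2 p₀.2)
  have h2 : ∀ p, (φ p).2 = bb e p.2 := fun p => he _ _ (hconst p)
  have bij : ∀ i : Bool, Function.Bijective (fun v => (φ (v, i)).1) := by
    intro i
    constructor
    · intro v w hvw
      have h3 : φ (v, i) = φ (w, i) := Prod.ext hvw (by rw [h2, h2])
      have := φ.injective h3
      exact congrArg Prod.fst this
    · intro w
      obtain ⟨⟨v, j⟩, hv⟩ := φ.surjective (w, bb e i)
      have h4 := h2 (v, j)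
      rw [hv] at h4
      have h5 : j = i := ((bb_inj e i j).mp h4).symm
      refine ⟨v, ?_⟩
      rw [← h5]
      exact congrArg Prod.fst hv
  have hrel : ∀ x y, r x y ↔ r (φ (x, false)).1 (φ (y, true)).1 := by
    intro x y
    have h3 := φ.map_rel_iff (a := (x, false)) (b := (y, true))
    constructor
    · intro hxy
      exact (h3.mpr ⟨hxy, by simp⟩).1
    · intro hxy
      refine (h3.mp ⟨hxy, ?_⟩).1
      rw [h2, h2]
      intro h
      exact absurd ((bb_inj e false true).mp h) (by simp)
  have heq := htf (Equiv.ofBijective _ (bij false)) (Equiv.ofBijective _ (bij true)) hrel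
  have heq' : ∀ v, (φ (v, false)).1 = (φ (v, true)).1 := fun v => by
    have := Equiv.congr_fun heq v
    exact this
  refine ⟨⟨Equiv.ofBijective _ (bij false), ?_⟩, e, ?_⟩
  · intro x y
    have := hrel x y
    rw [← heq' y] at this
    exact this.symm
  · apply RelIso.ext
    rintro ⟨v, i⟩
    rw [act_apply]
    apply Prod.ext
    · show (φ (v, false)).1 = (φ (v, i)).1
      cases i
      · rfl
      · exact heq' v
    · exact (h2 (v, i)).symm

end

theorem stable_of {V : Type} [Nonempty V] (r : V → V → Prop) (_hsymm : ∀ x y, r x y → r y x)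
    (hconn : ∀ x y, Relation.ReflTransGen r x y) (hnb : ¬ ∃ c : V → Bool, ∀ x y, r x y → c x ≠ c y)
    (htf : ∀ α β : Equiv.Perm V, (∀ x y, r x y ↔ r (α x) (β y)) → α = β) :
    Nonempty ((Dbl r ≃r Dbl r) ≃* ((r ≃r r) × Multiplicative (ZMod 2))) := by
  let F : ((r ≃r r) × Multiplicative (ZMod 2)) →* (Dbl r ≃r Dbl r) :=
    MonoidHom.mk' (fun a => act r a.1 (Multiplicative.toAdd a.2)) (by
      intro a b
      apply RelIso.ext
      intro p
      rw [RelIso.mul_apply, act_apply, act_apply, act_apply]
      apply Prod.ext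
      · rfl
      · exact bb_add _ _ _)
  have hF : Function.Bijective F := by
    constructor
    · rintro ⟨g, e⟩ ⟨g', e'⟩ h
      have h' : ∀ p, act r g (Multiplicative.toAdd e) p = act r g' (Multiplicative.toAdd e') p :=
        fun p => DFunLike.congr_fun h p
      apply Prod.ext
      · apply RelIso.ext
        intro v
        exact congrArg Prod.fst (h' (v, false))
      · obtain ⟨v⟩ := ‹Nonempty V›
        exact Multiplicative.toAdd.injective (bb_eq _ _ (congrArg Prod.snd (h' (v, false))))
    · intro φ
      obtain ⟨g, e, hge⟩ := surj r hconn hnb htf φ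
      exact ⟨(g, Multiplicative.ofAdd e), hge⟩
  exact ⟨(MulEquiv.ofBijective F hF).symm⟩

end Pool.Agent.R996.Ty
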