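import Pool.Agent.R996.Ty.Defs
import Pool.Agent.R996.Ty.Stab

/-!
# Unstable circulants of Type II: the statement
-/

namespace Pool.Agent.R996.Ty

/-- `z` exchanges `A` and `B` at the points with `F = true` and preserves them at the others. -/
def Sw {W : Type} [AddCommGroup W] (A B : Set W) (z : Equiv.Perm W) (F : W → Bool) : Prop :=
  ∀ x y, (F y = true → ((y - x ∈ A ↔ z y - z x ∈ B) ∧ (y - x ∈ B ↔ z y - z x ∈ A))) ∧
    (F y = false → ((y - x ∈ A ↔ z y - z x ∈ A) ∧ (y - x ∈ B ↔ z y - z x ∈ B)))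

/-- Local exchanges of two symmetric sets give global exchanges. -/
def GoodSw (W : Type) [AddCommGroup W] : Prop :=
  ∀ (A B : Set W), (∀ a, a ∈ A → -a ∈ A) → (∀ a, a ∈ B → -a ∈ B) →
    ∀ (z : Equiv.Perm W) (F : W → Bool), Sw A B z F → (∃ x, F x = true) →
      ∃ ψ : Equiv.Perm W, ∀ x y, (y - x ∈ A ↔ ψ y - ψ x ∈ B) ∧ (y - x ∈ B ↔ ψ y - ψ x ∈ A)

/-- Every nontrivial two-fold automorphism gives a local exchange. -/
def GoodT (W : Type) [AddCommGroup W] : Prop :=
  ∀ (A B : Set W), (∀ a, a ∈ A → -a ∈ A) → (∀ a, a ∈ B → -a ∈ B) →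
    (∀ h, (∀ a, a + h ∈ A ↔ a ∈ A) → h = 0) →
    ∀ α β : Equiv.Perm (W × ZMod 2), TF A B α β → α ≠ β →
      ∃ (z : Equiv.Perm W) (F : W → Bool), Sw A B z F ∧ (∃ x, F x = true)

/-- Adjacency in the circulant graph with connection set `S`. -/
def Circ {n : ℕ} (S : Set (ZMod n)) (x y : ZMod n) : Prop := y - x ∈ S

/-- A graph (given by its adjacency relation `r`) is stable: `Aut(Γ × K₂) ≅ Aut(Γ) × ℤ/2`. -/
def Stable {V : Type} (r : V → V → Prop) : Prop :=
  Nonempty ((Dbl r ≃r Dbl r) ≃* ((r ≃r r) × Multiplicative (ZMod 2)))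

/-- Nontrivially unstable: unstable, connected, not bipartite, and without two vertices with the
same neighbourhood. -/
def NtUnstable {V : Type} (r : V → V → Prop) : Prop :=
  ¬ Stable r ∧ (∀ x y, Relation.ReflTransGen r x y) ∧
    (¬ ∃ c : V → Bool, ∀ x y, r x y → c x ≠ c y) ∧ ∀ x y, (∀ z, r x z ↔ r y z) → x = y

/-- Type II: of the two permutations of a nontrivial two-fold automorphism at least one does not
map the even residues onto themselves. -/
def TypeII {m : ℕ} (S : Set (ZMod (2 * m))) : Prop :=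
  ∀ α β : Equiv.Perm (ZMod (2 * m)), (∀ u v, Circ S u v ↔ Circ S (α u) (β v)) → α ≠ β →
    α '' {x | ∃ y, x = 2 * y} ≠ {x | ∃ y, x = 2 * y} ∨
      β '' {x | ∃ y, x = 2 * y} ≠ {x | ∃ y, x = 2 * y}

end Pool.Agent.R996.Ty
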