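import Pool.Agent.R996.Ty.Defs2
import Pool.Agent.R996.Ty.Cyc

/-!
# Unstable circulants of Type II: final assembly
-/

namespace Pool.Agent.R996.Ty

theorem goodSw_of_good {W : Type} [AddCommGroup W] (h : Good W) : GoodSw W := by
  classical
  rintro A B hA hB z F hS ⟨x0, hx0⟩
  let col : W → Bool × Bool := fun w => (decide (w ∈ A), decide (w ∈ B))
  let Θ : W → Equiv.Perm (Bool × Bool) := fun x =>
    if F x = true then Equiv.prodComm Bool Bool else 1
  have key : ∀ x y, col (z y - z x) = Θ y (col (y - x)) := by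
    intro x y
    by_cases hF : F y = true
    · have h1 := (hS x y).1 hF
      simp only [col, Θ, hF, if_true, Equiv.prodComm_apply, Prod.swap_prod_mk, Prod.mk.injEq,
        decide_eq_decide]
      exact ⟨h1.2.symm, h1.1.symm⟩
    · have h1 := (hS x y).2 (by simpa using hF)
      have h2 : Θ y = 1 := if_neg hF
      rw [h2, Equiv.Perm.one_apply]
      simp only [col, Prod.mk.injEq, decide_eq_decide]
      exact ⟨h1.1.symm, h1.2.symm⟩
  have hneg : ∀ w, col (-w) = col w := by
    intro w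
    simp only [col, Prod.mk.injEq, decide_eq_decide]
    exact ⟨⟨fun h => by simpa using hA _ h, hA w⟩, ⟨fun h => by simpa using hB _ h, hB w⟩⟩
  have htw : Tw col z Θ := by
    intro x y
    refine ⟨?_, key x y⟩
    rw [← neg_sub (z x) (z y), hneg, key y x, ← neg_sub y x, hneg]
  obtain ⟨ψ, hψ⟩ := h (Bool × Bool) col z Θ htw x0
  refine ⟨ψ, fun x y => ?_⟩
  have h1 := hψ x y
  simp only [col, Θ, hx0, if_true, Equiv.prodComm_apply, Prod.swap_prod_mk, Prod.mk.injEq,
    decide_eq_decide] at h1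
  exact ⟨h1.2.symm, h1.1.symm⟩

section

variable {m : ℕ}

theorem z01 : ∀ i : ZMod 2, i = 0 ∨ i = 1 := by decide

theorem d01 : (0 : ZMod 2) ≠ 1 := by decide

theorem s01 : (0 : ZMod 2) - 1 = 1 := by decide

/-- membership in the connection set, transported -/
theorem mem_ss (e : ZMod (2 * m) ≃+* ZMod m × ZMod 2) (S : Set (ZMod (2 * m)))
    (v : ZMod m × ZMod 2) :
    v ∈ SS {w | e.symm (w, 0) ∈ S} {w | e.symm (w, 1) ∈ S} ↔ e.symm v ∈ S := by
  obtain ⟨w, i⟩ := v
  rcases z01 i with rfl | rfl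
  · simp [SS]
  · simp [SS]

theorem even_iff (hm : Odd m) (e : ZMod (2 * m) ≃+* ZMod m × ZMod 2) (x : ZMod (2 * m)) :
    (∃ y, x = 2 * y) ↔ (e x).2 = 0 := by
  have h2 : (2 : ZMod 2) = 0 := by decide
  constructor
  · rintro ⟨y, rfl⟩
    rw [map_mul, map_ofNat, Prod.snd_mul]
    change (2 : ZMod 2) * _ = 0
    rw [h2, zero_mul]
  · intro h
    obtain ⟨t, ht⟩ := hm
    refine ⟨e.symm (((t + 1 : ℕ) : ZMod m) * (e x).1, 0), ?_⟩
    apply e.injective
    rw [map_mul, map_ofNat, RingEquiv.apply_symm_apply]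
    ext
    · change (e x).1 = (2 : ZMod m) * (((t + 1 : ℕ) : ZMod m) * (e x).1)
      have h3 : (2 : ZMod m) * ((t + 1 : ℕ) : ZMod m) = 1 := by
        have h4 : (2 : ZMod m) * ((t + 1 : ℕ) : ZMod m) = ((2 * t + 1 : ℕ) : ZMod m) + 1 := by
          push_cast
          ring
        rw [h4, ← ht, ZMod.natCast_self, zero_add]
      rw [← mul_assoc, h3, one_mul]
    · change (e x).2 = (2 : ZMod 2) * 0
      rw [h, mul_zero]

/-- translation in one layer -/
def lay (h : ZMod m) (i : ZMod 2) : Equiv.Perm (ZMod m × ZMod 2) where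
  toFun x := if x.2 = i then (x.1 + h, x.2) else x
  invFun x := if x.2 = i then (x.1 - h, x.2) else x
  left_inv x := by
    obtain ⟨x, j⟩ := x
    by_cases hx : j = i
    · simp [hx]
    · simp [hx]
  right_inv x := by
    obtain ⟨x, j⟩ := x
    by_cases hx : j = i
    · simp [hx]
    · simp [hx]

theorem lay_snd (h : ZMod m) (i : ZMod 2) (x : ZMod m × ZMod 2) : (lay h i x).2 = x.2 := by
  unfold lay
  simp only [Equiv.coe_fn_mk]
  split_ifs <;> rfl

theorem lay_tf (h : ZMod m) (A B : Set (ZMod m)) (hh : ∀ a, a + h ∈ A ↔ a ∈ A) :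
    TF A B (lay h 0) (lay h 1) := by
  rintro ⟨x, i⟩ ⟨y, j⟩
  have h1 : y - (x + h) + h = y - x := by abel
  have h2 := hh (y - (x + h))
  rw [h1] at h2
  have h3 : y + h - x = y - x + h := by abel
  have h4 := hh (y - x)
  have h5 : y + h - (x + h) = y - x := by abel
  rcases z01 i with rfl | rfl <;> rcases z01 j with rfl | rfl
  · simp [SS, lay, h2]
  · simp [SS, lay]
  · simp [SS, lay]
  · simp [SS, lay, h3, h4]

theorem fin_odd {m : ℕ} (hm : Odd m) (hG : GoodSw (ZMod m)) (hT : GoodT (ZMod m))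
    (S : Set (ZMod (2 * m))) (hsym : ∀ a, a ∈ S → -a ∈ S) (hnu : NtUnstable (Circ S))
    (hII : TypeII S) :
    ∃ ψ : Equiv.Perm (ZMod (2 * m)), ∀ u v, Circ S u v ↔
      Circ ((fun s => s + (m : ZMod (2 * m))) '' S) (ψ u) (ψ v) := by
  classical
  obtain ⟨e⟩ : Nonempty (ZMod (2 * m) ≃+* ZMod m × ZMod 2) :=
    ⟨(ZMod.chineseRemainder (Nat.coprime_two_left.2 hm)).trans RingEquiv.prodComm⟩
  let A : Set (ZMod m) := {w | e.symm (w, 0) ∈ S}
  let B : Set (ZMod m) := {w | e.symm (w, 1) ∈ S}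
  have hss : ∀ v, v ∈ SS A B ↔ e.symm v ∈ S := mem_ss e S
  have hA : ∀ a, a ∈ A → -a ∈ A := by
    intro a ha
    have h1 := hsym _ (show e.symm (a, 0) ∈ S from ha)
    rw [← map_neg] at h1
    have h2 : (-(a, (0 : ZMod 2)) : ZMod m × ZMod 2) = (-a, 0) := by
      ext
      · rfl
      · change -(0 : ZMod 2) = 0
        decide
    rw [h2] at h1
    exact h1
  have hB : ∀ a, a ∈ B → -a ∈ B := by
    intro a ha
    have h1 := hsym _ (show e.symm (a, 1) ∈ S from ha)
    rw [← map_neg] at h1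
    have h2 : (-(a, (1 : ZMod 2)) : ZMod m × ZMod 2) = (-a, 1) := by
      ext
      · rfl
      · change -(1 : ZMod 2) = 1
        decide
    rw [h2] at h1
    exact h1
  -- a nontrivial two-fold automorphism
  obtain ⟨hns, hconn, hnb, -⟩ := hnu
  have hex : ∃ α β : Equiv.Perm (ZMod (2 * m)),
      (∀ u v, Circ S u v ↔ Circ S (α u) (β v)) ∧ α ≠ β := by
    by_contra hno
    push Not at hno
    refine hns (stable_of (Circ S) (fun x y h => ?_) hconn hnb fun α β h => hno α β h)
    unfold Circ at h ⊢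
    rw [← neg_sub]
    exact hsym _ h
  obtain ⟨α, β, hαβ, hne⟩ := hex
  -- the transport of two-fold automorphisms
  have htf : TF A B (e.toEquiv.permCongr α) (e.toEquiv.permCongr β) := by
    intro x y
    rw [hss, hss, map_sub, map_sub]
    have h1 := hαβ (e.symm x) (e.symm y)
    unfold Circ at h1
    rw [h1]
    simp [Equiv.permCongr_apply]
  have hne' : e.toEquiv.permCongr α ≠ e.toEquiv.permCongr β := fun h =>
    hne (e.toEquiv.permCongr.injective h)
  have hst : ∀ h, (∀ a, a + h ∈ A ↔ a ∈ A) → h = 0 := by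
    intro h hh
    by_contra h0
    have h1 := lay_tf h A B hh
    have himg : ∀ i, (e.symm.toEquiv.permCongr (lay h i)) '' {x | ∃ y, x = 2 * y} =
        {x | ∃ y, x = 2 * y} := by
      intro i
      ext x
      simp only [Set.mem_image, Set.mem_ofPred_eq]
      constructor
      · rintro ⟨y, hy, rfl⟩
        rw [even_iff hm e] at hy ⊢
        simpa [Equiv.permCongr_apply, lay_snd] using hy
      · intro hx
        refine ⟨(e.symm.toEquiv.permCongr (lay h i)).symm x, ?_, Equiv.apply_symm_apply _ _⟩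
        rw [even_iff hm e] at hx ⊢
        obtain ⟨y, hy⟩ : ∃ y, x = (e.symm.toEquiv.permCongr (lay h i)) y :=
          ⟨_, (Equiv.apply_symm_apply _ _).symm⟩
        rw [hy] at hx ⊢
        rw [Equiv.symm_apply_apply]
        simpa [Equiv.permCongr_apply, lay_snd] using hx
    rcases hII (e.symm.toEquiv.permCongr (lay h 0)) (e.symm.toEquiv.permCongr (lay h 1))
      (by
        intro u v
        have h2 := h1 (e u) (e v)
        rw [hss, hss, map_sub, map_sub] at h2
        unfold Circ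
        simpa [Equiv.permCongr_apply] using h2)
      (by
        intro h2
        have h3 := e.symm.toEquiv.permCongr.injective h2
        have h4 := congrArg (fun σ : Equiv.Perm (ZMod m × ZMod 2) => σ (0, 0)) h3
        simp [lay] at h4
        exact h0 h4) with h2 | h2
    · exact h2 (himg 0)
    · exact h2 (himg 1)
  obtain ⟨z, F, hSw, hF⟩ := hT A B hA hB hst _ _ htf hne'
  obtain ⟨ψ, hψ⟩ := hG A B hA hB z F hSw hF
  refine ⟨(e.toEquiv.trans (ψ.prodCongr (Equiv.refl _))).trans e.symm.toEquiv, fun u v => ?_⟩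
  have hm1 : e (m : ZMod (2 * m)) = (0, 1) := by
    rw [map_natCast]
    ext
    · change ((m : ℕ) : ZMod m) = 0
      exact ZMod.natCast_self m
    · change ((m : ℕ) : ZMod 2) = 1
      exact (ZMod.natCast_eq_one_iff_odd).2 hm
  have hmem : ∀ w : ZMod (2 * m), w ∈ (fun s => s + (m : ZMod (2 * m))) '' S ↔
      (e w) - (0, 1) ∈ SS A B := by
    intro w
    rw [hss, map_sub, ← hm1, RingEquiv.symm_apply_apply, RingEquiv.symm_apply_apply]
    constructor
    · rintro ⟨s, hs, rfl⟩
      simpa using hs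
    · intro h
      exact ⟨_, h, by simp⟩
  unfold Circ
  rw [hmem, map_sub]
  have hl : v - u ∈ S ↔ e v - e u ∈ SS A B := by
    rw [hss, map_sub, RingEquiv.symm_apply_apply, RingEquiv.symm_apply_apply]
  rw [hl]
  have hr : e ((e.toEquiv.trans (ψ.prodCongr (Equiv.refl (ZMod 2)))).trans e.symm.toEquiv v) -
      e ((e.toEquiv.trans (ψ.prodCongr (Equiv.refl (ZMod 2)))).trans e.symm.toEquiv u) - (0, 1) =
      (ψ (e v).1 - ψ (e u).1, (e v).2 - (e u).2 - 1) := by
    simp only [Equiv.trans_apply, RingEquiv.toEquiv_eq_coe, EquivLike.coe_coe, RingEquiv.apply_symm_apply]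
    ext
    · simp
    · simp
  rw [hr]
  have h1 := hψ (e u).1 (e v).1
  have hd : e v - e u = ((e v).1 - (e u).1, (e v).2 - (e u).2) := rfl
  rw [hd]
  generalize (e v).2 - (e u).2 = k
  rcases z01 k with rfl | rfl
  · simp [SS, h1.1]
  · simp [SS, h1.2]

end

end Pool.Agent.R996.Ty
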