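import Pool.Agent.R996.Ty.Defs3

/-!
# The gluing lemma (TY2-GLUE, by helper634)
-/

namespace Pool.Agent.R996.Ty

namespace GlueAux

section

variable {W : Type} [AddCommGroup W]

/-- The permutation of the quotient. -/
def zq0 (z : Equiv.Perm W) (R : AddSubgroup W) (hR : ZI z R) : Equiv.Perm (W ⧸ R) where
  toFun := Quotient.map' z (by
    intro a b h
    rw [QuotientAddGroup.leftRel_apply] at h ⊢
    have h1 : b - a ∈ R := by rw [sub_eq_neg_add]; exact h
    have h2 := (hR a b).1 h1
    rw [sub_eq_neg_add] at h2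
    exact h2)
  invFun := Quotient.map' z.symm (by
    intro a b h
    rw [QuotientAddGroup.leftRel_apply] at h ⊢
    have h1 : b - a ∈ R := by rw [sub_eq_neg_add]; exact h
    have h2 : z.symm b - z.symm a ∈ R := by
      rw [hR]
      simpa using h1
    rw [sub_eq_neg_add] at h2
    exact h2)
  left_inv := by
    intro X
    induction X using QuotientAddGroup.induction_on with
    | H x =>
      change ((z.symm (z x) : W) : W ⧸ R) = x
      rw [Equiv.symm_apply_apply]
  right_inv := by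
    intro X
    induction X using QuotientAddGroup.induction_on with
    | H x =>
      change ((z (z.symm x) : W) : W ⧸ R) = x
      rw [Equiv.apply_symm_apply]

theorem zq0_mk (z : Equiv.Perm W) (R : AddSubgroup W) (hR : ZI z R) (x : W) :
    zq0 z R hR (x : W ⧸ R) = (z x : W ⧸ R) := rfl

/-- The permutation of the difference classes at the point `x`. -/
def al (z : Equiv.Perm W) (U : AddSubgroup W) (hU : ZI z U) (x : W) : Equiv.Perm (W ⧸ U) where
  toFun := Quotient.map' (fun v => z (x + v) - z x) (by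
    intro a b h
    rw [QuotientAddGroup.leftRel_apply] at h ⊢
    have h1 : (x + b) - (x + a) ∈ U := by
      have : (x + b) - (x + a) = -a + b := by abel
      rw [this]; exact h
    have h2 := (hU _ _).1 h1
    have : -(z (x + a) - z x) + (z (x + b) - z x) = z (x + b) - z (x + a) := by abel
    rw [this]
    exact h2)
  invFun := Quotient.map' (fun t => z.symm (z x + t) - x) (by
    intro a b h
    rw [QuotientAddGroup.leftRel_apply] at h ⊢
    have h1 : z.symm (z x + b) - z.symm (z x + a) ∈ U := by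
      rw [hU]
      rw [Equiv.apply_symm_apply, Equiv.apply_symm_apply]
      have : (z x + b) - (z x + a) = -a + b := by abel
      rw [this]; exact h
    have : -(z.symm (z x + a) - x) + (z.symm (z x + b) - x) =
        z.symm (z x + b) - z.symm (z x + a) := by abel
    rw [this]
    exact h1)
  left_inv := by
    intro X
    induction X using QuotientAddGroup.induction_on with
    | H v =>
      change ((z.symm (z x + (z (x + v) - z x)) - x : W) : W ⧸ U) = v
      rw [add_sub_cancel, Equiv.symm_apply_apply, add_sub_cancel_left]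
  right_inv := by
    intro X
    induction X using QuotientAddGroup.induction_on with
    | H v =>
      change ((z (x + (z.symm (z x + v) - x)) - z x : W) : W ⧸ U) = v
      rw [add_sub_cancel, Equiv.apply_symm_apply, add_sub_cancel_left]

theorem al_mk (z : Equiv.Perm W) (U : AddSubgroup W) (hU : ZI z U) (x v : W) :
    al z U hU x (v : W ⧸ U) = ((z (x + v) - z x : W) : W ⧸ U) := rfl

open Classical in
/-- The class of `v` modulo `U` if `v ∈ V`. -/
noncomputable def pt (U V : AddSubgroup W) (v : W) : Option (W ⧸ U) :=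
  if v ∈ V then some (v : W ⧸ U) else none

theorem pt_in {U V : AddSubgroup W} {v : W} (h : v ∈ V) : pt U V v = some (v : W ⧸ U) := by
  classical
  exact if_pos h

theorem pt_out {U V : AddSubgroup W} {v : W} (h : v ∉ V) : pt U V v = none := by
  classical
  exact if_neg h

theorem eq_mk {R : AddSubgroup W} {a b : W} : (a : W ⧸ R) = (b : W ⧸ R) ↔ a - b ∈ R :=
  QuotientAddGroup.eq_iff_sub_mem

/-- From equal `pt`s with one argument in `V`. -/
theorem of_pt_eq {U V : AddSubgroup W} {a b : W} (hb : b ∈ V) (h : pt U V a = pt U V b) :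
    a ∈ V ∧ a - b ∈ U := by
  rw [pt_in hb] at h
  by_cases ha : a ∈ V
  · rw [pt_in ha] at h
    exact ⟨ha, eq_mk.1 (Option.some.inj h)⟩
  · rw [pt_out ha] at h
    exact absurd h (by simp)

end

section

variable {W C : Type} [AddCommGroup W] (L U V : AddSubgroup W) (z : Equiv.Perm W)
  (hU : ZI z U) (col : W → C) (Θ : W → Equiv.Perm C)

/-- The colour of a class. -/
def colh (X : W ⧸ L) : Set (Option (W ⧸ U) × C) := {p | ∃ v : W, (v : W ⧸ L) = X ∧
  p = (pt U V v, col v)}

/-- The local permutation of pairs. -/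
def F (x : W) : Equiv.Perm (Option (W ⧸ U) × C) :=
  Equiv.prodCongr (Equiv.optionCongr (al z U hU x)) (Θ x)

theorem F_apply (hV : ZI z V) (hz : Tw col z Θ) (x v : W) :
    F U z hU Θ x (pt U V v, col v) = (pt U V (z (x + v) - z x), col (z (x + v) - z x)) := by
  have h1 : v ∈ V ↔ z (x + v) - z x ∈ V := by
    have := hV x (x + v)
    rwa [add_sub_cancel_left] at this
  have h2 := (hz x (x + v)).1
  rw [add_sub_cancel_left] at h2
  rw [h2]
  by_cases hv : v ∈ V
  · rw [pt_in hv, pt_in (h1.1 hv)]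
    rfl
  · rw [pt_out hv, pt_out (fun h => hv (h1.2 h))]
    rfl

end

end GlueAux

open GlueAux in
theorem glue {W C : Type} [AddCommGroup W] [Fintype W] (L U V : AddSubgroup W)
    (z : Equiv.Perm W) (hL : ZI z L) (hU : ZI z U) (hV : ZI z V) (hLV : L ≤ V) (hUV : U ≤ V)
    (hLU : L ⊓ U = ⊥) (col : W → C) (Θ : W → Equiv.Perm C) (hz : Tw col z Θ)
    (hout : ∀ w, w ∉ V → ∀ l ∈ L, col (w + l) = col w)
    (s : W ⧸ L → W) (hs : ∀ X : W ⧸ L, (s X : W ⧸ L) = X)
    (hs1 : ∀ X Y : W ⧸ L, s Y - s X ∈ V → ∀ l ∈ L,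
      Θ (s Y) (col (s Y - s X + l)) = Θ (s X) (col (s Y - s X + l)))
    (hs2 : ∀ X Y : W ⧸ L, s Y - s X ∈ V → ∀ l ∈ L,
      (z (s Y + (s Y - s X + l)) - z (s Y)) - (z (s X + (s Y - s X + l)) - z (s X)) ∈ U)
    (x₀ : W) (hx₀ : s x₀ = x₀)
    (g : W → W) (hg0 : ∀ v ∈ V, ∀ v' ∈ V, v' - v ∈ U ↔ g v' - g v ∈ U)
    (hg1 : ∀ v ∈ V, ∃ l ∈ L, (z (x₀ + (v + l)) - z x₀) - g v ∈ U)
    (hg2 : ∀ v ∈ V, ∀ v' ∈ V, ∀ l ∈ L,
      (z (x₀ + (v' - v + l)) - z x₀) - (g v' - g v) ∈ U → col (v' - v + l) = col (v' - v))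
    (hgood : Good (W ⧸ L)) :
    ∃ ψ : Equiv.Perm W, ∀ x y, col (ψ y - ψ x) = Θ x₀ (col (y - x)) := by
  classical
  set Th : W ⧸ L → Equiv.Perm (Set (Option (W ⧸ U) × C)) := fun X =>
    Equiv.Set.congr (F U z hU Θ (s X)) with hTh
  have hThA : ∀ X S, Th X S = F U z hU Θ (s X) '' S := fun X S => rfl
  -- the first equation
  have hA : ∀ X Y : W ⧸ L, colh L U V col (zq0 z L hL Y - zq0 z L hL X) =
      F U z hU Θ (s X) '' colh L U V col (Y - X) := by
    intro X Y
    have hzX : zq0 z L hL X = ((z (s X) : W) : W ⧸ L) := by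
      conv_lhs => rw [← hs X]
      rfl
    have key : ∀ v : W, (v : W ⧸ L) = Y - X ↔
        ((z (s X + v) - z (s X) : W) : W ⧸ L) = zq0 z L hL Y - zq0 z L hL X := by
      intro v
      rw [hzX, QuotientAddGroup.mk_sub, sub_left_inj, ← zq0_mk z L hL,
        (zq0 z L hL).injective.eq_iff, QuotientAddGroup.mk_add, hs, eq_sub_iff_add_eq', eq_comm,
        eq_comm]
    ext p
    constructor
    · rintro ⟨t, ht, rfl⟩
      have ht2 : z (s X + (z.symm (z (s X) + t) - s X)) - z (s X) = t := by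
        rw [add_sub_cancel, Equiv.apply_symm_apply, add_sub_cancel_left]
      refine ⟨_, ⟨z.symm (z (s X) + t) - s X, ?_, rfl⟩, ?_⟩
      · rw [key, ht2, ht]
      · rw [F_apply U V z hU col Θ hV hz, ht2]
    · rintro ⟨_, ⟨v, hv, rfl⟩, rfl⟩
      rw [F_apply U V z hU col Θ hV hz]
      exact ⟨_, (key v).1 hv, rfl⟩
  have hB : ∀ X Y : W ⧸ L, F U z hU Θ (s Y) '' colh L U V col (Y - X) =
      F U z hU Θ (s X) '' colh L U V col (Y - X) := by
    intro X Y
    apply Set.image_congr
    rintro _ ⟨v, hv, rfl⟩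
    have hl : v - (s Y - s X) ∈ L := by
      rw [← eq_mk, hv, QuotientAddGroup.mk_sub, hs, hs]
    have hve : v = s Y - s X + (v - (s Y - s X)) := by abel
    by_cases hYX : s Y - s X ∈ V
    · have h1 := hs1 X Y hYX _ hl
      have h2 := hs2 X Y hYX _ hl
      rw [← hve] at h1 h2
      have hvV : v ∈ V := by
        rw [hve]
        exact V.add_mem hYX (hLV hl)
      change (Option.map _ (pt U V v), Θ (s Y) (col v)) = (Option.map _ (pt U V v), Θ (s X) (col v))
      rw [h1, pt_in hvV]
      change (some (al z U hU (s Y) (v : W ⧸ U)), _) = (some (al z U hU (s X) (v : W ⧸ U)), _)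
      rw [al_mk, al_mk, eq_mk.2 h2]
    · have hvV : v ∉ V := by
        intro h
        apply hYX
        have : s Y - s X = v - (v - (s Y - s X)) := by abel
        rw [this]
        exact V.sub_mem h (hLV hl)
      have hc : col v = col (s Y - s X) := by
        rw [hve]
        exact hout _ hYX _ hl
      have h1 := hz (s X) (s Y)
      change (Option.map _ (pt U V v), Θ (s Y) (col v)) = (Option.map _ (pt U V v), Θ (s X) (col v))
      rw [pt_out hvV, hc, ← h1.1, ← h1.2]
      rfl
  have hTw : Tw (colh L U V col) (zq0 z L hL) Th := by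
    intro X Y
    refine ⟨hA X Y, ?_⟩
    rw [hThA, hB]
    exact hA X Y
  obtain ⟨ps, hps⟩ := hgood _ _ _ _ hTw (x₀ : W ⧸ L)
  simp only [hThA, hx₀] at hps
  -- base points
  set b : W → W := fun x => ((x : W ⧸ V)).out with hb
  have hb1 : ∀ x, x - b x ∈ V := by
    intro x
    rw [← eq_mk]
    exact (Quotient.out_eq' _).symm
  have hb2 : ∀ x x', x' - x ∈ V → b x' = b x := by
    intro x x' h
    have : (x' : W ⧸ V) = (x : W ⧸ V) := eq_mk.2 h
    simp only [hb, this]
  set c : W → W := fun x => s (ps (b x : W ⧸ L)) with hc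
  have hc2 : ∀ x x', x' - x ∈ V → c x' = c x := by
    intro x x' h
    simp only [hc, hb2 x x' h]
  have hex : ∀ x : W, ∃ t : W, (t : W ⧸ L) = ps (x : W ⧸ L) ∧ (t - c x) - g (x - b x) ∈ U := by
    intro x
    obtain ⟨l, hl, hgl⟩ := hg1 (x - b x) (hb1 x)
    have hmem : F U z hU Θ x₀ (pt U V (x - b x + l), col (x - b x + l)) ∈
        colh L U V col (ps (x : W ⧸ L) - ps (b x : W ⧸ L)) := by
      rw [hps]
      refine ⟨_, ⟨x - b x + l, ?_, rfl⟩, rfl⟩
      rw [← QuotientAddGroup.mk_sub, eq_mk, add_sub_cancel_left]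
      exact hl
    rw [F_apply U V z hU col Θ hV hz] at hmem
    obtain ⟨t', ht', he⟩ := hmem
    have hin : z (x₀ + (x - b x + l)) - z x₀ ∈ V := by
      rw [← hV, add_sub_cancel_left]
      exact V.add_mem (hb1 x) (hLV hl)
    have h1 := of_pt_eq hin (Prod.ext_iff.1 he).1.symm
    refine ⟨c x + t', ?_, ?_⟩
    · rw [QuotientAddGroup.mk_add, hc, hs, ht', add_sub_cancel]
    · have : c x + t' - c x - g (x - b x) = (t' - (z (x₀ + (x - b x + l)) - z x₀)) +
          ((z (x₀ + (x - b x + l)) - z x₀) - g (x - b x)) := by abel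
      rw [this]
      exact U.add_mem h1.2 hgl
  choose ψ hψ1 hψ2 using hex
  have hgg : ∀ x x', x' - x ∈ V →
      (ψ x' - ψ x) - (g (x' - b x') - g (x - b x)) ∈ U := by
    intro x x' h
    have h1 := hψ2 x
    have h2 := hψ2 x'
    rw [hc2 x x' h] at h2
    have : (ψ x' - ψ x) - (g (x' - b x') - g (x - b x)) =
        (ψ x' - c x - g (x' - b x')) - (ψ x - c x - g (x - b x)) := by abel
    rw [this]
    exact U.sub_mem h2 h1
  have hinj : Function.Injective ψ := by
    intro x x' h
    have h1 : (x : W ⧸ L) = (x' : W ⧸ L) := by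
      apply ps.injective
      rw [← hψ1, ← hψ1, h]
    have h2 : x' - x ∈ L := eq_mk.1 h1.symm
    have h3 := hgg x x' (hLV h2)
    rw [h, sub_self, zero_sub, neg_mem_iff] at h3
    have h4 := (hg0 (x - b x) (hb1 x) (x' - b x') (hb1 x')).2 h3
    rw [hb2 x x' (hLV h2)] at h4
    have h5 : x' - b x - (x - b x) = x' - x := by abel
    rw [h5] at h4
    have h6 : x' - x ∈ L ⊓ U := ⟨h2, h4⟩
    rw [hLU, AddSubgroup.mem_bot, sub_eq_zero] at h6
    exact h6.symm
  have hbij : Function.Bijective ψ := Finite.injective_iff_bijective.1 hinj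
  refine ⟨Equiv.ofBijective ψ hbij, ?_⟩
  intro x x'
  change col (ψ x' - ψ x) = _
  have hmem : (pt U V (ψ x' - ψ x), col (ψ x' - ψ x)) ∈
      colh L U V col (ps (x' : W ⧸ L) - ps (x : W ⧸ L)) := by
    refine ⟨ψ x' - ψ x, ?_, rfl⟩
    rw [QuotientAddGroup.mk_sub, hψ1, hψ1]
  rw [hps] at hmem
  obtain ⟨_, ⟨w, hw, rfl⟩, he⟩ := hmem
  have hθ : Θ x₀ (col w) = col (ψ x' - ψ x) := (Prod.ext_iff.1 he).2
  change F U z hU Θ x₀ (pt U V w, col w) = _ at he
  rw [F_apply U V z hU col Θ hV hz] at he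
  have hpt := (Prod.ext_iff.1 he).1.symm
  have hl : w - (x' - x) ∈ L := by
    rw [← eq_mk, hw, QuotientAddGroup.mk_sub]
  have hwe : w = x' - x + (w - (x' - x)) := by abel
  rw [← hθ]
  congr 1
  by_cases hV' : x' - x ∈ V
  · have hwV : w ∈ V := by
      rw [hwe]
      exact V.add_mem hV' (hLV hl)
    have hin : z (x₀ + w) - z x₀ ∈ V := by
      rw [← hV, add_sub_cancel_left]
      exact hwV
    have h1 := of_pt_eq hin hpt
    have h2 := hgg x x' hV'
    have hvv : (x' - b x') - (x - b x) = x' - x := by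
      rw [hb2 x x' hV']
      abel
    have h3 := hg2 (x - b x) (hb1 x) (x' - b x') (hb1 x') (w - (x' - x)) hl
    rw [hvv, ← hwe] at h3
    apply h3
    have : z (x₀ + w) - z x₀ - (g (x' - b x') - g (x - b x)) =
        ((ψ x' - ψ x) - (g (x' - b x') - g (x - b x))) -
        ((ψ x' - ψ x) - (z (x₀ + w) - z x₀)) := by abel
    rw [this]
    exact U.sub_mem h2 h1.2
  · rw [hwe]
    exact hout _ hV' _ hl

end Pool.Agent.R996.Ty
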