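import Pool.Agent.R996.Ty.Prod
import Pool.Agent.R996.Ty.Glue

set_option linter.unusedSectionVars false

namespace Pool.Agent.R996.Ty

/-- The permutation of the subgroup `S` induced at the point `x₀`. -/
def locP {W : Type} [AddCommGroup W] (z : Equiv.Perm W) (S : AddSubgroup W) (hS : ZI z S)
    (x₀ : W) : Equiv.Perm S where
  toFun l := ⟨z (x₀ + l) - z x₀, (hS x₀ (x₀ + l)).1 (by simp)⟩
  invFun t := ⟨z.symm (z x₀ + t) - x₀, (hS x₀ _).2 (by simp)⟩
  left_inv l := by
    apply Subtype.ext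
    simp
  right_inv t := by
    apply Subtype.ext
    simp

theorem locP_apply {W : Type} [AddCommGroup W] (z : Equiv.Perm W) (S : AddSubgroup W)
    (hS : ZI z S) (x₀ : W) (l : S) : ((locP z S hS x₀ l : S) : W) = z (x₀ + l) - z x₀ := rfl

theorem nonsplit {W C : Type} [AddCommGroup W] [Fintype W] (L U V : AddSubgroup W)
    (z : Equiv.Perm W) (hL : ZI z L) (hU : ZI z U) (hV : ZI z V) (hLV : L ≤ V) (hUV : U ≤ V)
    (hLU : L ⊓ U = ⊥)
    (haff : ∀ x, ∀ v ∈ V, ∀ v' ∈ V, z (x + v + v') - z (x + v) - (z (x + v') - z x) ∈ U)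
    (col : W → C) (Θ : W → Equiv.Perm C) (hz : Tw col z Θ)
    (hout : ∀ w, w ∉ V → ∀ l ∈ L, col (w + l) = col w) (x₀ : W)
    (hgq : Good (W ⧸ L)) : ∃ ψ : Equiv.Perm W, ∀ x y, col (ψ y - ψ x) = Θ x₀ (col (y - x)) := by
  classical
  have hzero : ∀ t, t ∈ L → t ∈ U → t = 0 := by
    intro t h1 h2
    have : t ∈ L ⊓ U := ⟨h1, h2⟩
    rwa [hLU, AddSubgroup.mem_bot] at this
  have key : ∀ x, ∀ w ∈ V, ∀ u ∈ L, z (x + u + w) - z (x + u) = z (x + w) - z x := by
    intro x w hw u hu
    have h1 := haff x u (hLV hu) w hw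
    have h2 : z (x + u + w) - z (x + u) - (z (x + w) - z x) ∈ L := by
      have e : z (x + u + w) - z (x + u) - (z (x + w) - z x) =
          (z (x + u + w) - z (x + w)) - (z (x + u) - z x) := by abel
      rw [e]
      refine L.sub_mem ((hL _ _).1 ?_) ((hL _ _).1 ?_)
      · have : x + u + w - (x + w) = u := by abel
        rwa [this]
      · rwa [add_sub_cancel_left]
    exact sub_eq_zero.1 (hzero _ h2 h1)
  have keyT : ∀ x, ∀ w ∈ V, ∀ u ∈ L, Θ (x + u) (col w) = Θ x (col w) := by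
    intro x w hw u hu
    have h1 := (hz (x + u) (x + u + w)).1
    have h2 := (hz x (x + w)).1
    rw [add_sub_cancel_left] at h1 h2
    rw [← h1, ← h2, key x w hw u hu]
  refine glue L U V z hL hU hV hLV hUV hLU col Θ hz hout
    (fun X => if X = (x₀ : W ⧸ L) then x₀ else X.out) ?_ ?_ ?_ x₀ ?_
    (fun v => z (x₀ + v) - z x₀) ?_ ?_ ?_ hgq
  · intro X
    split_ifs with h
    · exact h.symm
    · exact Quotient.out_eq' X
  · intro X Y hXY l hl
    set a := (fun X : W ⧸ L => if X = (x₀ : W ⧸ L) then x₀ else X.out) X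
    set b := (fun X : W ⧸ L => if X = (x₀ : W ⧸ L) then x₀ else X.out) Y
    have h1 := tw_step hz a (b - a + l)
    have e : a + (b - a + l) = b + l := by abel
    rw [e, keyT b (b - a + l) (V.add_mem hXY (hLV hl)) l hl] at h1
    exact h1
  · intro X Y hXY l hl
    set a := (fun X : W ⧸ L => if X = (x₀ : W ⧸ L) then x₀ else X.out) X
    set b := (fun X : W ⧸ L => if X = (x₀ : W ⧸ L) then x₀ else X.out) Y
    have h1 := haff a (b - a) hXY (b - a + l) (V.add_mem hXY (hLV hl))
    rw [add_sub_cancel] at h1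
    exact h1
  · rw [if_pos rfl]
  · intro v hv v' hv'
    have e : z (x₀ + v') - z x₀ - (z (x₀ + v) - z x₀) = z (x₀ + v') - z (x₀ + v) := by abel
    rw [e, ← hU (x₀ + v) (x₀ + v'), add_sub_add_left_eq_sub]
  · intro v hv
    refine ⟨0, L.zero_mem, ?_⟩
    rw [add_zero, sub_self]
    exact U.zero_mem
  · intro v hv v' hv' l hl h
    have h1 := haff x₀ v hv (v' - v) (V.sub_mem hv' hv)
    have e0 : x₀ + v + (v' - v) = x₀ + v' := by abel
    rw [e0] at h1
    have h2 := U.add_mem h h1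
    have e1 : z (x₀ + (v' - v + l)) - z x₀ - (z (x₀ + v') - z x₀ - (z (x₀ + v) - z x₀)) +
        (z (x₀ + v') - z (x₀ + v) - (z (x₀ + (v' - v)) - z x₀)) =
        z (x₀ + (v' - v + l)) - z (x₀ + (v' - v)) := by abel
    rw [e1, ← hU] at h2
    have e2 : x₀ + (v' - v + l) - (x₀ + (v' - v)) = l := by abel
    rw [e2] at h2
    rw [hzero l hl h2, add_zero]

theorem coprime_of_inf {W : Type} [AddCommGroup W] [Fintype W] [IsAddCyclic W]
    (L U : AddSubgroup W) (hLU : L ⊓ U = ⊥) : (Nat.card L).Coprime (Nat.card U) := by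
  classical
  by_contra hne
  obtain ⟨p, hp, h1, h2⟩ := Nat.Prime.not_coprime_iff_dvd.1 hne
  have : Fact p.Prime := ⟨hp⟩
  obtain ⟨a, ha⟩ := exists_prime_addOrderOf_dvd_card' (G := L) p h1
  obtain ⟨b, hb⟩ := exists_prime_addOrderOf_dvd_card' (G := U) p h2
  have ha' : addOrderOf (a : W) = p := by
    rw [← ha]
    exact AddSubgroup.addOrderOf_coe a
  have hb' : addOrderOf (b : W) = p := by
    rw [← hb]
    exact AddSubgroup.addOrderOf_coe b
  have hcard : Nat.card (AddSubgroup.zmultiples (a : W)) =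
      Nat.card (AddSubgroup.zmultiples (b : W)) := by
    rw [Nat.card_zmultiples, Nat.card_zmultiples, ha', hb']
  have heq : AddSubgroup.zmultiples (a : W) = AddSubgroup.zmultiples (b : W) := by
    have hle := IsAddCyclic.card_nsmul_eq_zero_le (α := W) (n := p) hp.pos
    have hsub : ∀ c : W, addOrderOf c = p → ((AddSubgroup.zmultiples c : Set W).toFinset) =
        Finset.univ.filter (fun x : W => p • x = 0) := by
      intro c hc
      refine Finset.eq_of_subset_of_card_le ?_ ?_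
      · intro x hx
        rw [Set.mem_toFinset, SetLike.mem_coe, AddSubgroup.mem_zmultiples_iff] at hx
        obtain ⟨k, rfl⟩ := hx
        rw [Finset.mem_filter]
        refine ⟨Finset.mem_univ _, ?_⟩
        rw [← natCast_zsmul, smul_comm, natCast_zsmul, ← hc, addOrderOf_nsmul_eq_zero, smul_zero]
      · refine hle.trans ?_
        rw [Set.toFinset_card, ← Nat.card_eq_fintype_card]
        have := Nat.card_zmultiples c
        rw [hc] at this
        exact this.ge
    have h3 := (hsub _ ha').trans (hsub _ hb').symm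
    rw [Set.toFinset_inj] at h3
    exact SetLike.coe_injective h3
  have hmem : (a : W) ∈ L ⊓ U := by
    refine ⟨a.2, ?_⟩
    have : (a : W) ∈ AddSubgroup.zmultiples (b : W) := by
      rw [← heq]
      exact AddSubgroup.mem_zmultiples _
    exact (AddSubgroup.zmultiples_le_of_mem b.2) this
  rw [hLU, AddSubgroup.mem_bot] at hmem
  rw [hmem, addOrderOf_zero] at ha'
  exact hp.one_lt.ne ha'

theorem split {W C : Type} [AddCommGroup W] [Fintype W] [IsAddCyclic W] (L U V : AddSubgroup W)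
    (z : Equiv.Perm W) (hL : ZI z L) (hU : ZI z U) (hV : ZI z V) (hLU : L ⊓ U = ⊥)
    (hLUV : L ⊔ U = V)
    (col : W → C) (Θ : W → Equiv.Perm C) (hz : Tw col z Θ)
    (hout : ∀ w, w ∉ V → ∀ l ∈ L, col (w + l) = col w) (x₀ : W)
    (hgL : Good L) (hgq : Good (W ⧸ L)) :
    ∃ ψ : Equiv.Perm W, ∀ x y, col (ψ y - ψ x) = Θ x₀ (col (y - x)) := by
  classical
  have hLV : L ≤ V := hLUV ▸ le_sup_left
  have hUV : U ≤ V := hLUV ▸ le_sup_right
  have hzero : ∀ t, t ∈ L → t ∈ U → t = 0 := by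
    intro t h1 h2
    have : t ∈ L ⊓ U := ⟨h1, h2⟩
    rwa [hLU, AddSubgroup.mem_bot] at this
  have hco := coprime_of_inf L U hLU
  -- (P)
  have P : ∀ x, ∀ l ∈ L, ∀ q ∈ U, z (x + l + q) - z (x + l) = z (x + q) - z x := by
    intro x l hl q hq
    have h1 : z (x + l + q) - z (x + l) - (z (x + q) - z x) ∈ U := by
      refine U.sub_mem ((hU _ _).1 ?_) ((hU _ _).1 ?_)
      · rwa [add_sub_cancel_left]
      · rwa [add_sub_cancel_left]
    have h2 : z (x + l + q) - z (x + l) - (z (x + q) - z x) ∈ L := by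
      have e : z (x + l + q) - z (x + l) - (z (x + q) - z x) =
          (z (x + l + q) - z (x + q)) - (z (x + l) - z x) := by abel
      rw [e]
      refine L.sub_mem ((hL _ _).1 ?_) ((hL _ _).1 ?_)
      · have : x + l + q - (x + q) = l := by abel
        rwa [this]
      · rwa [add_sub_cancel_left]
    exact sub_eq_zero.1 (hzero _ h2 h1)
  have smulL : ∀ {m n : ℕ}, m ≡ n [MOD Nat.card L] → ∀ l ∈ L, m • l = n • l := by
    intro m n h l hl
    have := nsmul_of_modEq (G := L) (m := m) (n := n) (by rwa [← Nat.card_eq_fintype_card]) ⟨l, hl⟩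
    exact congrArg Subtype.val this
  have smulU : ∀ {m n : ℕ}, m ≡ n [MOD Nat.card U] → ∀ l ∈ U, m • l = n • l := by
    intro m n h l hl
    have := nsmul_of_modEq (G := U) (m := m) (n := n) (by rwa [← Nat.card_eq_fintype_card]) ⟨l, hl⟩
    exact congrArg Subtype.val this
  have T1 : ∀ x, ∀ l ∈ L, ∀ q ∈ U, Θ (x + l) (col (l + q)) = Θ x (col (l + q)) := by
    intro x l hl q hq
    obtain ⟨N, h1, h2⟩ := Nat.chineseRemainder hco 1 0
    have := tw_nsmul hz x (l + q) N
    rw [nsmul_add, smulL h1 l hl, smulU h2 q hq, one_nsmul, zero_nsmul, add_zero] at this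
    exact this
  have T2 : ∀ x, ∀ l ∈ L, ∀ q ∈ U, Θ (x + q) (col (l + q)) = Θ x (col (l + q)) := by
    intro x l hl q hq
    obtain ⟨N, h1, h2⟩ := Nat.chineseRemainder hco 0 1
    have := tw_nsmul hz x (l + q) N
    rw [nsmul_add, smulL h1 l hl, smulU h2 q hq, one_nsmul, zero_nsmul, zero_add] at this
    exact this
  -- the components
  have hdec : ∀ v : W, ∃ l : W, v ∈ V → l ∈ L ∧ v - l ∈ U := by
    intro v
    by_cases hv : v ∈ V
    · rw [← hLUV] at hv
      obtain ⟨l, hl, q, hq, rfl⟩ := AddSubgroup.mem_sup.1 hv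
      exact ⟨l, fun _ => ⟨hl, by rwa [add_sub_cancel_left]⟩⟩
    · exact ⟨0, fun h => absurd h hv⟩
  choose Lc hLc using hdec
  -- Good L
  set zL : Equiv.Perm L := locP z L hL x₀ with hzL
  set zeta : Equiv.Perm U := locP z U hU x₀ with hzeta
  obtain ⟨pL, hpL⟩ : ∃ pL : Equiv.Perm L, ∀ (l l' : L) (q : U),
      col (((pL l' : L) : W) - ((pL l : L) : W) + ((zeta q : U) : W)) =
        Θ x₀ (col ((l' : W) - (l : W) + (q : W))) := by
    have htw : Tw (fun (l : L) (q : U) => col ((l : W) + (q : W))) zL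
        (fun l => Equiv.arrowCongr zeta (Θ (x₀ + l))) := by
      intro l l'
      have key : ∀ a : W, (∀ q : U, Θ a (col ((l' : W) - (l : W) + (q : W))) =
          Θ (x₀ + l) (col ((l' : W) - (l : W) + (q : W)))) →
          (fun q : U => col (((zL l' - zL l : L) : W) + (q : W))) =
          (Equiv.arrowCongr zeta (Θ a)) (fun q : U => col (((l' - l : L) : W) + (q : W))) := by
        intro a ha
        funext q
        obtain ⟨q, rfl⟩ := zeta.surjective q
        rw [Equiv.arrowCongr_apply]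
        simp only [Function.comp, Equiv.symm_apply_apply, AddSubgroup.coe_sub]
        rw [ha, hzL, hzeta, locP_apply, locP_apply, locP_apply]
        have h1 := (hz (x₀ + l) (x₀ + l' + q)).1
        have e1 : x₀ + (l' : W) + (q : W) - (x₀ + (l : W)) = (l' : W) - (l : W) + (q : W) := by abel
        rw [e1] at h1
        rw [← h1, ← P x₀ l' l'.2 q q.2]
        congr 1
        abel
      constructor
      · exact key _ (fun _ => rfl)
      · refine key _ (fun q => ?_)
        have := T1 (x₀ + l) ((l' : W) - (l : W)) (L.sub_mem l'.2 l.2) q q.2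
        have e : x₀ + (l : W) + ((l' : W) - (l : W)) = x₀ + l' := by abel
        rw [e] at this
        exact this
    obtain ⟨ψ, hψ⟩ := hgL _ _ _ _ htw 0
    refine ⟨ψ, fun l l' q => ?_⟩
    have := congrFun (hψ l l') (zeta q)
    rw [Equiv.arrowCongr_apply] at this
    simpa only [Function.comp, Equiv.symm_apply_apply, AddSubgroup.coe_sub,
      AddSubgroup.coe_zero, add_zero] using this
  -- the section
  set b : W ⧸ V → W := fun K => if K = (x₀ : W ⧸ V) then x₀ else K.out with hb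
  have hbK : ∀ K : W ⧸ V, ((b K : W) : W ⧸ V) = K := by
    intro K
    rw [hb]
    dsimp only
    split_ifs with h
    · exact h.symm
    · exact Quotient.out_eq' K
  have hb0 : b (x₀ : W ⧸ V) = x₀ := by
    rw [hb]
    dsimp only
    rw [if_pos rfl]
  have hbV : ∀ x : W, x - b (x : W ⧸ V) ∈ V := by
    intro x
    have := hbK (x : W ⧸ V)
    rw [QuotientAddGroup.eq] at this
    rw [sub_eq_neg_add]
    exact this
  set s : W ⧸ L → W := fun X => X.out - Lc (X.out - b (X.out : W ⧸ V)) with hs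
  have hsU : ∀ X : W ⧸ L, s X - b (X.out : W ⧸ V) ∈ U := by
    intro X
    have := (hLc _ (hbV X.out)).2
    have e : s X - b (X.out : W ⧸ V) =
        X.out - b (X.out : W ⧸ V) - Lc (X.out - b (X.out : W ⧸ V)) := by
      rw [hs]
      dsimp only
      abel
    rw [e]
    exact this
  have hsX : ∀ X : W ⧸ L, (s X : W ⧸ L) = X := by
    intro X
    have h1 : ((X.out : W) : W ⧸ L) = X := Quotient.out_eq' X
    conv_rhs => rw [← h1]
    rw [QuotientAddGroup.eq]
    have e : -s X + X.out = Lc (X.out - b (X.out : W ⧸ V)) := by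
      rw [hs]
      dsimp only
      abel
    rw [e]
    exact (hLc _ (hbV X.out)).1
  have hsUV : ∀ X Y : W ⧸ L, s Y - s X ∈ V → s Y - s X ∈ U := by
    intro X Y h
    have h1 : ∀ X : W ⧸ L, ((s X : W) : W ⧸ V) = (X.out : W ⧸ V) := by
      intro X
      rw [QuotientAddGroup.eq]
      have e : -s X + X.out = Lc (X.out - b (X.out : W ⧸ V)) := by
        rw [hs]
        dsimp only
        abel
      rw [e]
      exact hLV (hLc _ (hbV X.out)).1
    have h2 : (X.out : W ⧸ V) = (Y.out : W ⧸ V) := by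
      rw [← h1, ← h1, QuotientAddGroup.eq, ← sub_eq_neg_add]
      exact h
    have h3 := U.sub_mem (hsU Y) (hsU X)
    rw [h2] at h3
    have e : s Y - b (Y.out : W ⧸ V) - (s X - b (Y.out : W ⧸ V)) = s Y - s X := by abel
    rw [e] at h3
    exact h3
  refine glue L U V z hL hU hV hLV hUV hLU col Θ hz hout s hsX ?_ ?_ x₀ ?_
    (fun v => if h : v ∈ V then ((pL ⟨Lc v, (hLc v h).1⟩ : L) : W) else 0) ?_ ?_ ?_ hgq
  · intro X Y hXY l hl
    have hq := hsUV X Y hXY
    have := T2 (s X) l hl (s Y - s X) hq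
    rw [add_sub_cancel, add_comm l] at this
    exact this
  · intro X Y hXY l hl
    have hq := hsUV X Y hXY
    have h1 : z (s Y + (s Y - s X + l)) - z (s X + (s Y - s X + l)) ∈ U := by
      refine (hU _ _).1 ?_
      have e : s Y + (s Y - s X + l) - (s X + (s Y - s X + l)) = s Y - s X := by abel
      rwa [e]
    have h2 : z (s Y) - z (s X) ∈ U := (hU _ _).1 hq
    have e : z (s Y + (s Y - s X + l)) - z (s Y) - (z (s X + (s Y - s X + l)) - z (s X)) =
        (z (s Y + (s Y - s X + l)) - z (s X + (s Y - s X + l))) - (z (s Y) - z (s X)) := by abel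
    rw [e]
    exact U.sub_mem h1 h2
  · -- s x₀ = x₀
    have h1 : (((x₀ : W ⧸ L).out : W) : W ⧸ L) = (x₀ : W ⧸ L) := Quotient.out_eq' _
    have h1' : ((x₀ : W ⧸ L).out : W) - x₀ ∈ L := by
      have := h1.symm
      rw [QuotientAddGroup.eq] at this
      rw [sub_eq_neg_add]
      exact this
    have h2 : (((x₀ : W ⧸ L).out : W) : W ⧸ V) = (x₀ : W ⧸ V) := by
      rw [eq_comm, QuotientAddGroup.eq, ← sub_eq_neg_add]
      exact hLV h1'
    have h3 : s (x₀ : W ⧸ L) = (x₀ : W ⧸ L).out - Lc ((x₀ : W ⧸ L).out - x₀) := by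
      rw [hs]
      dsimp only
      rw [h2, hb0]
    obtain ⟨h4, h5⟩ := hLc _ (hLV h1')
    have h6 : (x₀ : W ⧸ L).out - x₀ - Lc ((x₀ : W ⧸ L).out - x₀) = 0 :=
      hzero _ (L.sub_mem h1' h4) h5
    rw [h3]
    rw [sub_right_comm] at h6
    exact sub_eq_zero.1 h6
  · -- hg0
    intro v hv v' hv'
    rw [dif_pos hv, dif_pos hv']
    obtain ⟨h1, h2⟩ := hLc v hv
    obtain ⟨h3, h4⟩ := hLc v' hv'
    constructor
    · intro h
      have h5 : Lc v' - Lc v ∈ U := by
        have := U.sub_mem h (U.sub_mem h4 h2)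
        have e : v' - v - (v' - Lc v' - (v - Lc v)) = Lc v' - Lc v := by abel
        rwa [e] at this
      have h6 := sub_eq_zero.1 (hzero _ (L.sub_mem h3 h1) h5)
      have h7 : (⟨Lc v', h3⟩ : L) = ⟨Lc v, h1⟩ := Subtype.ext h6
      rw [h7, sub_self]
      exact U.zero_mem
    · intro h
      have h5 : ((pL ⟨Lc v', h3⟩ : L) : W) - ((pL ⟨Lc v, h1⟩ : L) : W) = 0 :=
        hzero _ (L.sub_mem (pL ⟨Lc v', h3⟩).2 (pL ⟨Lc v, h1⟩).2) h
      have h6 := pL.injective (Subtype.ext (sub_eq_zero.1 h5))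
      have h7 : Lc v' = Lc v := congrArg Subtype.val h6
      have h8 := U.sub_mem h4 h2
      have e : v' - Lc v' - (v - Lc v) = v' - v := by
        rw [h7]
        abel
      rwa [e] at h8
  · -- hg1
    intro v hv
    rw [dif_pos hv]
    obtain ⟨h1, h2⟩ := hLc v hv
    set t : L := pL ⟨Lc v, h1⟩ with ht
    refine ⟨((zL.symm t : L) : W) - Lc v, L.sub_mem (zL.symm t).2 h1, ?_⟩
    have h3 : ((zL (zL.symm t) : L) : W) = z (x₀ + (zL.symm t : L)) - z x₀ := rfl
    rw [Equiv.apply_symm_apply] at h3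
    have h4 : z (x₀ + (v + (((zL.symm t : L) : W) - Lc v))) - z (x₀ + (zL.symm t : L)) ∈ U := by
      refine (hU _ _).1 ?_
      have e : x₀ + (v + (((zL.symm t : L) : W) - Lc v)) - (x₀ + (zL.symm t : L)) = v - Lc v := by
        abel
      rwa [e]
    rw [h3]
    have e : z (x₀ + (v + (((zL.symm t : L) : W) - Lc v))) - z x₀ -
        (z (x₀ + (zL.symm t : L)) - z x₀) =
        z (x₀ + (v + (((zL.symm t : L) : W) - Lc v))) - z (x₀ + (zL.symm t : L)) := by abel
    rw [e]
    exact h4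
  · -- hg2
    intro v hv v' hv' l hl h
    rw [dif_pos hv, dif_pos hv'] at h
    obtain ⟨h1, h2⟩ := hLc v hv
    obtain ⟨h3, h4⟩ := hLc v' hv'
    set l0 : L := ⟨Lc v, h1⟩ with hl0
    set l1 : L := ⟨Lc v', h3⟩ with hl1
    set l2 : L := l1 - l0 + ⟨l, hl⟩ with hl2
    set q : U := ⟨v' - Lc v', h4⟩ - ⟨v - Lc v, h2⟩ with hq
    have hl2' : (l2 : W) = Lc v' - Lc v + l := rfl
    have hq' : (q : W) = v' - Lc v' - (v - Lc v) := rfl
    have e1 : v' - v + l = (l2 : W) + (q : W) := by
      rw [hl2', hq']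
      abel
    have e2 : v' - v = (l1 : W) - (l0 : W) + (q : W) := by
      rw [hq', hl0, hl1]
      abel
    have h5 : z (x₀ + (l2 : W) + (q : W)) - z (x₀ + (l2 : W)) ∈ U := by
      refine (hU _ _).1 ?_
      rw [add_sub_cancel_left]
      exact q.2
    have h6 : ((zL l2 : L) : W) - (((pL l1 : L) : W) - ((pL l0 : L) : W)) = 0 := by
      refine hzero _ (L.sub_mem (zL l2).2 (L.sub_mem (pL l1).2 (pL l0).2)) ?_
      have h7 := U.sub_mem h h5
      rw [e1, ← add_assoc] at h7
      have e3 : z (x₀ + (l2 : W) + (q : W)) - z x₀ - (((pL l1 : L) : W) - ((pL l0 : L) : W)) -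
          (z (x₀ + (l2 : W) + (q : W)) - z (x₀ + (l2 : W))) =
          ((zL l2 : L) : W) - (((pL l1 : L) : W) - ((pL l0 : L) : W)) := by
        rw [hzL, locP_apply]
        abel
      rwa [e3] at h7
    have h8 := hpL l0 l1 q
    rw [← sub_eq_zero.1 h6] at h8
    have h9 := (hz x₀ (x₀ + (l2 : W) + (q : W))).1
    have e4 : x₀ + (l2 : W) + (q : W) - x₀ = (l2 : W) + (q : W) := by abel
    have e5 : z (x₀ + (l2 : W) + (q : W)) - z x₀ = ((zL l2 : L) : W) + ((zeta q : U) : W) := by
      rw [hzL, hzeta, locP_apply, locP_apply, ← P x₀ l2 l2.2 q q.2]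
      abel
    rw [e4, e5, h8] at h9
    rw [e1, e2]
    exact ((Θ x₀).injective h9).symm

end Pool.Agent.R996.Ty
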