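import Pool.Agent.R996.Ty.Sub1
import Pool.Agent.R996.Ty.Split
import Pool.Agent.R996.Ty.Cyc
import Pool.Agent.R996.Ty.CaseA
import Pool.Agent.R996.Ty.CaseC

/-!
# Local changes of colours on cyclic groups of odd order
-/

set_option linter.unusedSectionVars false

namespace Pool.Agent.R996.Ty
open Classical

section

variable {W : Type} [AddCommGroup W]

lemma mem_iff_card [Finite W] [IsAddCyclic W] (K : AddSubgroup W) (x : W) :
    x ∈ K ↔ Nat.card K • x = 0 := by
  constructor
  · intro hx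
    have h0 : Nat.card K • (⟨x, hx⟩ : K) = 0 := card_nsmul_eq_zero'
    exact congrArg (fun t : K => (t : W)) h0
  · intro hx
    -- the subgroup generated by `x` has a cardinality dividing that of `K`
    have h1 : addOrderOf x ∣ Nat.card K := addOrderOf_dvd_of_nsmul_eq_zero hx
    have : IsAddCyclic K := inferInstance
    obtain ⟨g, hg⟩ := IsAddCyclic.exists_generator (α := K)
    have h2 : addOrderOf g = Nat.card K := addOrderOf_eq_card_of_forall_mem_zmultiples hg
    obtain ⟨c, hc⟩ := h1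
    have hpos : 0 < Nat.card K := Nat.card_pos
    have hc0 : c ≠ 0 := by
      rintro rfl
      omega
    have h3 : addOrderOf (c • g) = addOrderOf x := by
      rw [addOrderOf_nsmul' g hc0, h2, hc, Nat.gcd_mul_left_left]
      exact Nat.mul_div_cancel _ (Nat.pos_of_ne_zero hc0)
    have h4 : addOrderOf ((c • g : K) : W) = addOrderOf x := by
      rw [← h3]
      exact addOrderOf_injective K.subtype K.subtype_injective (c • g)
    have h5 : AddSubgroup.zmultiples ((c • g : K) : W) = AddSubgroup.zmultiples x := by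
      apply sub_eq
      rw [Nat.card_zmultiples, Nat.card_zmultiples, h4]
    have h6 : x ∈ AddSubgroup.zmultiples ((c • g : K) : W) := by
      rw [h5]
      exact AddSubgroup.mem_zmultiples x
    exact (AddSubgroup.zmultiples_le_of_mem (c • g : K).2) h6

lemma cop_of_inf [Finite W] [IsAddCyclic W] {A B : AddSubgroup W} (h : A ⊓ B = ⊥) :
    (Nat.card A).Coprime (Nat.card B) := by
  rw [Nat.coprime_iff_gcd_eq_one] at *
  by_contra hg
  obtain ⟨p, hp, hpd⟩ := Nat.exists_prime_and_dvd hg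
  have hA : p ∣ Nat.card A := hpd.trans (Nat.gcd_dvd_left _ _)
  have hB : p ∣ Nat.card B := hpd.trans (Nat.gcd_dvd_right _ _)
  have : Fact p.Prime := ⟨hp⟩
  obtain ⟨a, ha⟩ := exists_prime_addOrderOf_dvd_card' p hA
  have h1 : addOrderOf (a : W) = p := by
    rw [← ha]
    exact addOrderOf_injective A.subtype A.subtype_injective a
  have h2 : (a : W) ∈ B := by
    rw [mem_iff_card]
    exact addOrderOf_dvd_iff_nsmul_eq_zero.1 (h1 ▸ hB)
  have h3 : (a : W) ∈ A ⊓ B := ⟨a.2, h2⟩
  rw [h, AddSubgroup.mem_bot] at h3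
  rw [h3, addOrderOf_zero] at h1
  exact hp.one_lt.ne h1

lemma inf_of_cop [Finite W] {A B : AddSubgroup W} (h : (Nat.card A).Coprime (Nat.card B)) :
    A ⊓ B = ⊥ := by
  rw [eq_bot_iff]
  rintro x ⟨hA, hB⟩
  rw [AddSubgroup.mem_bot]
  have h1 : ∀ K : AddSubgroup W, x ∈ K → Nat.card K • x = 0 := by
    intro K hx
    have h0 : Nat.card K • (⟨x, hx⟩ : K) = 0 := card_nsmul_eq_zero'
    exact congrArg (fun t : K => (t : W)) h0
  have h2 : addOrderOf x ∣ Nat.card A := addOrderOf_dvd_of_nsmul_eq_zero (h1 A hA)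
  have h3 : addOrderOf x ∣ Nat.card B := addOrderOf_dvd_of_nsmul_eq_zero (h1 B hB)
  exact AddMonoid.addOrderOf_eq_one_iff.1 (Nat.eq_one_of_dvd_coprimes h h2 h3)

/-- The order of a sum of subgroups with orders prime to `n` is prime to `n`. -/
lemma cop_iSup [Finite W] {ι : Type} [Finite ι] (K : ι → AddSubgroup W) (n : ℕ)
    (h : ∀ i, n.Coprime (Nat.card (K i))) : n.Coprime (Nat.card (⨆ i, K i : AddSubgroup W)) := by
  have : Fintype ι := Fintype.ofFinite ι
  obtain ⟨M, hM⟩ : ∃ M, M = ∏ i, Nat.card (K i) := ⟨_, rfl⟩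
  have hcop : n.Coprime M := by
    rw [hM]
    exact Nat.Coprime.prod_right fun i _ => h i
  have hkill : ∀ x ∈ ⨆ i, K i, M • x = 0 := by
    intro x hx
    induction hx using AddSubgroup.iSup_induction' with
    | hp i v hv =>
      have h0 : Nat.card (K i) • (⟨v, hv⟩ : K i) = 0 := card_nsmul_eq_zero'
      have h1 : Nat.card (K i) • v = 0 := congrArg (fun t : K i => (t : W)) h0
      obtain ⟨c, hc⟩ : Nat.card (K i) ∣ M := by
        rw [hM]
        exact Finset.dvd_prod_of_mem _ (Finset.mem_univ i)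
      rw [hc, mul_nsmul, h1, nsmul_zero]
    | h1 => exact nsmul_zero _
    | hadd a b _ _ ha hb => rw [nsmul_add, ha, hb, add_zero]
  rw [Nat.coprime_iff_gcd_eq_one]
  by_contra hg
  obtain ⟨p, hp, hpd⟩ := Nat.exists_prime_and_dvd hg
  have hA : p ∣ n := hpd.trans (Nat.gcd_dvd_left _ _)
  have hB := hpd.trans (Nat.gcd_dvd_right _ _)
  have : Fact p.Prime := ⟨hp⟩
  obtain ⟨a, ha⟩ := exists_prime_addOrderOf_dvd_card' p hB
  have h1 : M • a = 0 := by
    apply Subtype.ext
    exact hkill a a.2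
  have h2 : p ∣ M := by
    rw [← ha]
    exact addOrderOf_dvd_of_nsmul_eq_zero h1
  have h3 : p ∣ 1 := by
    rw [← Nat.coprime_iff_gcd_eq_one.1 hcop]
    exact Nat.dvd_gcd hA h2
  exact hp.one_lt.ne' (Nat.dvd_one.1 h3)

/-! ### Colour classes -/

variable {C : Type} {col : W → C} {z : Equiv.Perm W} {Θ : W → Equiv.Perm C}

lemma zi_col [Finite W] [IsAddCyclic W] (hz : Tw col z Θ) (c : C) :
    ZI z (AddSubgroup.closure {w | col w = c}) := by
  refine zi_of _ (fun x => AddSubgroup.closure {w | col w = Θ x c}) ?_ ?_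
  · intro x d hd
    exact cyc_step3 col z Θ hz c d hd x
  · intro x d hd
    have h := cyc_step3 col z.symm _ (cyc_tw_symm col z Θ hz) (Θ x c) d hd (z x)
    simpa using h

lemma img_col (hz : Tw col z Θ) (c : C) (x : W) :
    img z {w | col w = c} x = {w | col w = Θ x c} := by
  ext t
  obtain ⟨y, rfl⟩ := img_ex z x t
  rw [mem_img]
  change col (y - x) = c ↔ col (z y - z x) = Θ x c
  rw [(hz x y).1]
  exact (Θ x).injective.eq_iff.symm

lemma pg_col (hz : Tw col z Θ) (c : C) :
    PG z (AddSubgroup.closure {w | col w = c}) {w | col w = c} := by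
  intro x v hv
  rw [img_col hz, img_col hz, cyc_step2 col z Θ hz c v hv x]

lemma atm_col [Finite W] [IsAddCyclic W] (hz : Tw col z Θ) (w : W) {y : W}
    (hy : y ∈ atm z (vw z w) w) : col y = col w := by
  have h1 : vw z w ≤ AddSubgroup.closure {v | col v = col w} :=
    vw_le (zi_col hz _) (AddSubgroup.subset_closure rfl)
  exact atm_sub ((pg_col hz (col w)).mono h1) (rfl : col w = col w) hy

lemma closure_atm [Finite W] [IsAddCyclic W] (z : Equiv.Perm W) (w : W) :
    AddSubgroup.closure (atm z (vw z w) w) = vw z w := by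
  have h1 : atm z (vw z w) w ⊆ vw z w := atm_le (vw_zi z w) (mem_vw z w)
  apply le_antisymm
  · exact (AddSubgroup.closure_le _).2 h1
  · exact vw_le (zi_closure (vw_zi z w) (atm_pg z _ w) h1)
      (AddSubgroup.subset_closure (atm_self z _ w))

end

/-- Every local change of colours on a cyclic group of odd order is given by a permutation with
a constant change of colours. -/
theorem good_cyc (N : ℕ) : ∀ (W : Type) [AddCommGroup W] [Fintype W] [IsAddCyclic W],
    Odd (Fintype.card W) → Fintype.card W = N → Good W := by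
  induction N using Nat.strong_induction_on with
  | _ N ih =>
  intro W _ _ _ hodd hN C col z Θ hz x₀
  by_cases hprim : ∀ V : AddSubgroup W, ZI z V → V = ⊥ ∨ V = ⊤
  · refine ⟨z, fun x y => ?_⟩
    rcases eq_or_ne y x with rfl | hne
    · have := (hz x₀ x₀).1
      simpa using this
    · have hmem : y - x ∈ AddSubgroup.closure {w | col w = col (y - x)} :=
        AddSubgroup.subset_closure rfl
      rcases hprim _ (zi_col hz (col (y - x))) with h | h
      · rw [h, AddSubgroup.mem_bot] at hmem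
        exact absurd (sub_eq_zero.mp hmem) hne
      · have h1 := cyc_step2 col z Θ hz (col (y - x)) (x₀ - x) (by rw [h]; trivial) x
        rw [add_sub_cancel] at h1
        rw [(hz x y).1, h1]
  push Not at hprim
  obtain ⟨V0, hV0, hV0b, hV0t⟩ := hprim
  -- a minimal invariant subgroup
  obtain ⟨L, ⟨hL, hLb, hLV0⟩, hLmin⟩ : ∃ L : AddSubgroup W,
      (ZI z L ∧ L ≠ ⊥ ∧ L ≤ V0) ∧ ∀ D : AddSubgroup W, (ZI z D ∧ D ≠ ⊥ ∧ D ≤ V0) →
        Nat.card L ≤ Nat.card D := by
    have hne : {n | ∃ D : AddSubgroup W, (ZI z D ∧ D ≠ ⊥ ∧ D ≤ V0) ∧ Nat.card D = n}.Nonempty :=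
      ⟨_, V0, ⟨hV0, hV0b, le_rfl⟩, rfl⟩
    obtain ⟨L, h1, h2⟩ := Nat.sInf_mem hne
    exact ⟨L, h1, fun D hD => h2 ▸ Nat.sInf_le ⟨D, hD, rfl⟩⟩
  have hmin : ∀ D, ZI z D → D ≤ L → D = ⊥ ∨ D = L := by
    intro D hD hDL
    by_cases hDb : D = ⊥
    · exact Or.inl hDb
    · right
      have h1 := hLmin D ⟨hD, hDb, hDL.trans hLV0⟩
      exact sub_eq (le_antisymm (Nat.card_le_card_of_injective (AddSubgroup.inclusion hDL)
        (AddSubgroup.inclusion_injective hDL)) h1)
  have hLt : L ≠ ⊤ := by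
    rintro rfl
    exact hV0t (top_le_iff.1 hLV0)
  -- the smaller groups
  have hcard : Nat.card L * Nat.card (W ⧸ L) = Fintype.card W := by
    rw [← Nat.card_eq_fintype_card, mul_comm]
    exact (AddSubgroup.card_eq_card_quotient_mul_card_addSubgroup L).symm
  have hL1 : 1 < Nat.card L := by
    rw [Finite.one_lt_card_iff_nontrivial]
    exact (AddSubgroup.nontrivial_iff_ne_bot L).2 hLb
  have hq1 : 1 < Nat.card (W ⧸ L) := by
    rw [Finite.one_lt_card_iff_nontrivial]
    exact QuotientAddGroup.nontrivial_iff.2 hLt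
  have hoddL : Odd (Nat.card L) := by
    rw [← hcard] at hodd
    exact (Nat.odd_mul.1 hodd).1
  have hoddq : Odd (Nat.card (W ⧸ L)) := by
    rw [← hcard] at hodd
    exact (Nat.odd_mul.1 hodd).2
  have hgL : Good L := by
    have : Fintype L := Fintype.ofFinite L
    refine ih (Nat.card L) ?_ L (by rwa [← Nat.card_eq_fintype_card])
      (Nat.card_eq_fintype_card).symm
    rw [← hN, ← hcard]
    nlinarith
  have hgq : Good (W ⧸ L) := by
    have : Fintype (W ⧸ L) := Fintype.ofFinite _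
    have : IsAddCyclic (W ⧸ L) :=
      isAddCyclic_of_surjective (QuotientAddGroup.mk' L) (QuotientAddGroup.mk'_surjective L)
    refine ih (Nat.card (W ⧸ L)) ?_ (W ⧸ L) (by rwa [← Nat.card_eq_fintype_card])
      (Nat.card_eq_fintype_card).symm
    rw [← hN, ← hcard]
    nlinarith
  -- the bad elements
  obtain ⟨I, hI⟩ : ∃ I : Type, I = {w : W // ∃ l ∈ L, col (w + l) ≠ col w} := ⟨_, rfl⟩
  have hbad : ∀ w : {w : W // ∃ l ∈ L, col (w + l) ≠ col w}, ∃ l ∈ L,
      (w : W) + l ∉ atm z (vw z (w : W)) (w : W) := by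
    rintro ⟨w, l, hl, hne⟩
    exact ⟨l, hl, fun h => hne (atm_col hz w h)⟩
  have hinf : ∀ w : W, ¬ L ≤ vw z w → L ⊓ vw z w = ⊥ := by
    intro w hw
    rcases hmin (L ⊓ vw z w) (hL.inf (vw_zi z w)) inf_le_left with h | h
    · exact h
    · exact absurd (inf_eq_left.1 h) hw
  obtain ⟨V, hVdef⟩ : ∃ V : AddSubgroup W,
      V = L ⊔ ⨆ w : {w : W // ∃ l ∈ L, col (w + l) ≠ col w}, vw z (w : W) := ⟨_, rfl⟩
  have hLV : L ≤ V := by rw [hVdef]; exact le_sup_left
  have hvwV : ∀ w : {w : W // ∃ l ∈ L, col (w + l) ≠ col w}, vw z (w : W) ≤ V := by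
    intro w
    rw [hVdef]
    exact (le_iSup (fun w : {w : W // ∃ l ∈ L, col (w + l) ≠ col w} => vw z (w : W)) w).trans
      le_sup_right
  have hV : ZI z V := by
    rw [hVdef]
    exact hL.sup (zi_iSup _ fun w => vw_zi z _)
  have hout : ∀ w, w ∉ V → ∀ l ∈ L, col (w + l) = col w := by
    intro w hw l hl
    by_contra hne
    exact hw (hvwV ⟨w, l, hl, hne⟩ (mem_vw z w))
  by_cases hprime : (Nat.card L).Prime
  · -- prime order
    obtain ⟨p, hp⟩ : ∃ p, p = Nat.card L := ⟨_, rfl⟩
    rw [← hp] at hprime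
    have key : ∀ w : {w : W // ∃ l ∈ L, col (w + l) ≠ col w}, ∃ (U : AddSubgroup W) (k : ℕ),
        ZI z U ∧ U ≤ vw z (w : W) ∧ p.Coprime (Nat.card U) ∧
          Nat.card (vw z (w : W)) = p ^ k * Nat.card U := by
      intro w
      by_cases hLw : L ≤ vw z (w : W)
      · obtain ⟨l, hl, hl2⟩ := hbad w
        obtain ⟨U, h1, h2, h3, h4, k, h5⟩ := caseC1 hodd z L (vw z (w : W)) hL p hprime hp.symm
          (vw_zi z _) hLw w (mem_vw z _) (closure_atm z _) ⟨l, hl, hl2⟩
        exact ⟨U, k, h1, h2, (Nat.Prime.coprime_iff_not_dvd hprime).2 h4, h5⟩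
      · refine ⟨vw z (w : W), 0, vw_zi z _, le_rfl, ?_, by rw [pow_zero, one_mul]⟩
        rw [hp]
        exact cop_of_inf (hinf _ hLw)
    choose Uw kw hUw hUw2 hUw3 hUw4 using key
    obtain ⟨U, hU⟩ : ∃ U : AddSubgroup W, U = ⨆ w, Uw w := ⟨_, rfl⟩
    have hUZ : ZI z U := by rw [hU]; exact zi_iSup _ hUw
    have hUc : p.Coprime (Nat.card U) := by rw [hU]; exact cop_iSup _ _ hUw3
    have hUV : U ≤ V := by
      rw [hU]
      exact iSup_le fun w => (hUw2 w).trans (hvwV w)
    have hUle : ∀ w, Uw w ≤ U := fun w => by rw [hU]; exact le_iSup Uw w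
    have hLU : L ⊓ U = ⊥ := by
      apply inf_of_cop
      rw [← hp]
      exact hUc
    -- a subgroup is generated by its parts
    have parts : ∀ (w : {w : W // ∃ l ∈ L, col (w + l) ≠ col w}) (K : AddSubgroup W),
        p ^ (kw w) ∣ Nat.card K → vw z (w : W) ≤ K ⊔ U := by
      intro w K hK x hx
      have h1 := (mem_iff_card _ x).1 hx
      rw [hUw4 w] at h1
      have hcop : Nat.Coprime (p ^ (kw w)) (Nat.card (Uw w)) := Nat.Coprime.pow_left _ (hUw3 w)
      have h2 : p ^ (kw w) • x ∈ Uw w := by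
        rw [mem_iff_card, ← mul_nsmul, h1]
      have h3 : Nat.card (Uw w) • x ∈ K := by
        rw [mem_iff_card]
        obtain ⟨c, hc⟩ := hK
        rw [hc, ← mul_nsmul]
        have e : Nat.card (Uw w) * (p ^ kw w * c) = (p ^ kw w * Nat.card (Uw w)) * c := by ring
        rw [e, mul_nsmul, h1, nsmul_zero]
      have h4 := Nat.gcd_eq_gcd_ab (p ^ (kw w)) (Nat.card (Uw w))
      rw [Nat.Coprime.gcd_eq_one hcop] at h4
      have h5 : x = (Nat.gcdA (p ^ (kw w)) (Nat.card (Uw w))) • (p ^ (kw w) • x) +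
          (Nat.gcdB (p ^ (kw w)) (Nat.card (Uw w))) • (Nat.card (Uw w) • x) := by
        have h6 : (1 : ℤ) • x = x := one_zsmul x
        nth_rewrite 1 [← h6]
        have h7 : ((1 : ℕ) : ℤ) = 1 := rfl
        rw [← h7, h4, add_zsmul]
        congr 1
        · rw [mul_comm, mul_zsmul, natCast_zsmul]
        · rw [mul_comm, mul_zsmul, natCast_zsmul]
      rw [h5]
      exact (K ⊔ U).add_mem
        (le_sup_right (a := K) (hUle w ((Uw w).zsmul_mem h2 _)))
        (le_sup_left (b := U) (K.zsmul_mem h3 _))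
    by_cases hk : ∀ w, kw w ≤ 1
    · -- the split case
      have hLUV : L ⊔ U = V := by
        apply le_antisymm (sup_le hLV hUV)
        rw [hVdef]
        refine sup_le le_sup_left (iSup_le fun w => parts w L ?_)
        rw [← hp]
        exact (pow_dvd_pow p (hk w)).trans (by rw [pow_one])
      exact split L U V z hL hUZ hV hLU hLUV col Θ hz hout x₀ hgL hgq
    · push Not at hk
      obtain ⟨w0, hw0⟩ := hk
      obtain ⟨w1, hw1⟩ : ∃ w1, ∀ w, kw w ≤ kw w1 := by
        have : Nonempty {w : W // ∃ l ∈ L, col (w + l) ≠ col w} := ⟨w0⟩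
        exact Finite.exists_max kw
      have hk1 : 2 ≤ kw w1 := by
        have := hw1 w0
        omega
      have hLw1 : L ≤ vw z (w1 : W) := by
        by_contra hcon
        have h1 := cop_of_inf (hinf _ hcon)
        rw [← hp, hUw4 w1] at h1
        have h2 : p ∣ p ^ kw w1 * Nat.card (Uw w1) :=
          (dvd_pow_self p (by omega)).mul_right _
        have h3 := Nat.Coprime.eq_one_of_dvd h1 h2
        exact hprime.one_lt.ne' h3
      obtain ⟨l, hl, hl2⟩ := hbad w1
      have haff1 := caseC hodd z L (vw z (w1 : W)) (Uw w1) hL p hprime hp.symm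
        (vw_zi z _) hLw1 w1 (mem_vw z _) (closure_atm z _) ⟨l, hl, hl2⟩ (hUw w1) (hUw2 w1)
        (kw w1) (hUw4 w1) ((Nat.Prime.coprime_iff_not_dvd hprime).1 (hUw3 w1)) hk1
      have hVle : V ≤ vw z (w1 : W) ⊔ U := by
        rw [hVdef]
        refine sup_le (hLw1.trans le_sup_left) (iSup_le fun w => parts w _ ?_)
        rw [hUw4 w1]
        exact (pow_dvd_pow p (hw1 w)).mul_right _
      have haff : ∀ x, ∀ v ∈ V, ∀ v' ∈ V, z (x + v + v') - z (x + v) - (z (x + v') - z x) ∈ U := by
        intro x v hv v' hv'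
        obtain ⟨a, ha, u, hu, rfl⟩ := AddSubgroup.mem_sup.1 (hVle hv)
        obtain ⟨a', ha', u', hu', rfl⟩ := AddSubgroup.mem_sup.1 (hVle hv')
        have h1 := hUle w1 (haff1 x a ha a' ha')
        have h2 : z (x + (a + u) + (a' + u')) - z (x + a + a') ∈ U := by
          rw [← hUZ]
          have e : x + (a + u) + (a' + u') - (x + a + a') = u + u' := by abel
          rw [e]
          exact U.add_mem hu hu'
        have h3 : z (x + (a + u)) - z (x + a) ∈ U := by
          rw [← hUZ]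
          have e : x + (a + u) - (x + a) = u := by abel
          rwa [e]
        have h4 : z (x + (a' + u')) - z (x + a') ∈ U := by
          rw [← hUZ]
          have e : x + (a' + u') - (x + a') = u' := by abel
          rwa [e]
        have e : z (x + (a + u) + (a' + u')) - z (x + (a + u)) - (z (x + (a' + u')) - z x) =
            (z (x + (a + u) + (a' + u')) - z (x + a + a')) - (z (x + (a + u)) - z (x + a)) -
            (z (x + (a' + u')) - z (x + a')) +
            (z (x + a + a') - z (x + a) - (z (x + a') - z x)) := by abel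
        rw [e]
        exact U.add_mem (U.sub_mem (U.sub_mem h2 h3) h4) h1
      exact nonsplit L U V z hL hUZ hV hLV hUV hLU haff col Θ hz hout x₀ hgq
  · -- composite order
    have key : ∀ w : {w : W // ∃ l ∈ L, col (w + l) ≠ col w}, ∃ U : AddSubgroup W,
        ZI z U ∧ L ⊓ U = ⊥ ∧ U ≤ vw z (w : W) ∧ vw z (w : W) ≤ L ⊔ U := by
      intro w
      by_cases hLw : L ≤ vw z (w : W)
      · obtain ⟨l, hl, hl2⟩ := hbad w
        obtain ⟨Q, h1, h2, h3, h4⟩ := caseA hodd z L (vw z (w : W)) hL hmin hLb hprime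
          (vw_zi z _) hLw w (mem_vw z _) (closure_atm z _) ⟨l, hl, hl2⟩
        exact ⟨Q, h1, h3, h2, h4.ge⟩
      · exact ⟨vw z (w : W), vw_zi z _, hinf _ hLw, le_rfl, le_sup_right⟩
    choose Uw hUw hUw2 hUw3 hUw4 using key
    obtain ⟨U, hU⟩ : ∃ U : AddSubgroup W, U = ⨆ w, Uw w := ⟨_, rfl⟩
    have hUZ : ZI z U := by rw [hU]; exact zi_iSup _ hUw
    have hLU : L ⊓ U = ⊥ := by
      apply inf_of_cop
      rw [hU]
      exact cop_iSup _ _ fun w => cop_of_inf (hUw2 w)
    have hUle : ∀ w, Uw w ≤ U := fun w => by rw [hU]; exact le_iSup Uw w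
    have hLUV : L ⊔ U = V := by
      apply le_antisymm
      · refine sup_le hLV ?_
        rw [hU]
        exact iSup_le fun w => (hUw3 w).trans (hvwV w)
      · rw [hVdef]
        exact sup_le le_sup_left (iSup_le fun w => (hUw4 w).trans (sup_le_sup_left (hUle w) L))
    exact split L U V z hL hUZ hV hLU hLUV col Θ hz hout x₀ hgL hgq

/-- The case of the integers modulo an odd number. -/
theorem good_odd (n : ℕ) (hodd : Odd n) : Good (ZMod n) := by
  have : NeZero n := ⟨hodd.pos.ne'⟩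
  exact good_cyc n (ZMod n) (by rwa [ZMod.card]) (ZMod.card n)

end Pool.Agent.R996.Ty
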