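import Pool.Agent.R996.Ty.Par

/-!
# The local identity
-/

set_option linter.unusedSectionVars false

namespace Pool.Agent.R996.Ty
open Finset Classical

section

variable {W : Type} [AddCommGroup W] [Fintype W]

/-- The periods of a set. -/
def per (T : Set W) : AddSubgroup W where
  carrier := {h | ∀ w, w + h ∈ T ↔ w ∈ T}
  add_mem' := by
    intro a b ha hb w
    rw [← add_assoc, hb, ha]
  zero_mem' := by
    intro w
    rw [add_zero]
  neg_mem' := by
    intro a ha w
    have := ha (w + -a)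
    rw [neg_add_cancel_right] at this
    exact this.symm

lemma mem_per {T : Set W} {h : W} : h ∈ per T ↔ ∀ w, w + h ∈ T ↔ w ∈ T := Iff.rfl

/-- The set of the differences in exactly one of `A` and `B`. -/
def dd (A B : Set W) : Set W := {w | ¬(w ∈ A ↔ w ∈ B)}

lemma ind_dd (A B : Set W) (w : W) : ind (w ∈ dd A B) = ind (w ∈ A) + ind (w ∈ B) := by
  unfold ind dd
  by_cases p : w ∈ A <;> by_cases q : w ∈ B <;> simp [p, q]
  decide

/-- The indicator of a translate. -/
noncomputable def tr (T : Set W) (p y : W) : ZMod 2 := ind (y - p ∈ T)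

lemma tr_dd (A B : Set W) (p y : W) : tr (dd A B) p y = tr A p y + tr B p y := ind_dd A B _

lemma tr_eq_per {T : Set W} {p q : W} (h : ∀ y, tr T p y = tr T q y) : p - q ∈ per T := by
  intro w
  have h1 := ind_inj.1 (h (w + p))
  rw [add_sub_cancel_right] at h1
  rw [h1, ← add_sub_assoc]

lemma tr_of_per {T : Set W} {p q : W} (h : p - q ∈ per T) (y : W) : tr T p y = tr T q y := by
  unfold tr
  rw [ind_inj]
  have h1 := h (y - p)
  rw [← h1]
  have e : y - p + (p - q) = y - q := by abel
  rw [e]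

/-- Translates of different symmetric sets are different. -/
lemma tr_eq_of_symm (hodd : Odd (Fintype.card W)) {T T' : Set W} (hT : ∀ a, a ∈ T → -a ∈ T)
    (hT' : ∀ a, a ∈ T' → -a ∈ T') {p q : W} (h : ∀ y, tr T p y = tr T' q y) : T = T' := by
  have hn : ∀ {S : Set W}, (∀ a, a ∈ S → -a ∈ S) → ∀ a, -a ∈ S ↔ a ∈ S := by
    intro S hS a
    constructor
    · intro h
      have := hS _ h
      rwa [neg_neg] at this
    · exact hS a
  have h0 : ∀ w, w ∈ T ↔ w + (p - q) ∈ T' := by
    intro w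
    have h1 := ind_inj.1 (h (w + p))
    rw [add_sub_cancel_right] at h1
    rw [h1, ← add_sub_assoc]
  have h2 : (p - q) + (p - q) ∈ per T' := by
    intro w
    have h3 := h0 (w + (p - q))
    have h4 := h0 (-(w + (p - q)))
    rw [hn hT] at h4
    have h5 : -(w + (p - q)) + (p - q) = -w := by abel
    rw [h5, hn hT'] at h4
    rw [← add_assoc, ← h3, h4]
  obtain ⟨k, hk⟩ := hodd
  have h6 : p - q ∈ per T' := by
    have h7 : (p - q) = (k + 1) • ((p - q) + (p - q)) := by
      have h1 : (Fintype.card W) • (p - q) = 0 := card_nsmul_eq_zero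
      rw [hk] at h1
      rw [← two_nsmul, ← mul_nsmul', show (k + 1) * 2 = (2 * k + 1) + 1 by ring, add_nsmul,
        one_nsmul, h1, zero_add]
    rw [h7]
    exact (per T').nsmul_mem h2 _
  ext w
  rw [h0 w]
  exact h6 w

/-- The telescoping argument. -/
lemma tele (hodd : Odd (Fintype.card W)) {A B : Set W} (hA : ∀ a, a ∈ A → -a ∈ A)
    (hB : ∀ a, a ∈ B → -a ∈ B) {p q r s : W}
    (h1 : ∀ y, tr A p y + tr A q y = tr (dd A B) r y)
    (h2 : ∀ y, tr B p y + tr B q y = tr (dd A B) s y) : ∀ w, w ∉ dd A B := by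
  have hn : ∀ {S : Set W}, (∀ a, a ∈ S → -a ∈ S) → ∀ a, -a ∈ S ↔ a ∈ S := by
    intro S hS a
    constructor
    · intro h
      have := hS _ h
      rwa [neg_neg] at this
    · exact hS a
  have hflip : ∀ (T : Set W), (∀ a, a ∈ T → -a ∈ T) → ∀ a b y, tr T a (a + b - y) = tr T b y := by
    intro T hT a b y
    unfold tr
    rw [ind_inj]
    have e : a + b - y - a = -(y - b) := by abel
    rw [e, hn hT]
  have hD : ∀ a, a ∈ dd A B → -a ∈ dd A B := by
    intro a ha
    unfold dd at ha ⊢
    change ¬(a ∈ A ↔ a ∈ B) at ha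
    change ¬(-a ∈ A ↔ -a ∈ B)
    rwa [hn hA, hn hB]
  -- symmetry
  have h3 : ∀ (T : Set W), (∀ a, a ∈ T → -a ∈ T) → ∀ c, (∀ y, tr T p y + tr T q y = tr (dd A B) c y) →
      (p + q) - (c + c) ∈ per (dd A B) := by
    intro T hT c hc
    have h4 : ∀ y, tr (dd A B) (p + q - c) y = tr (dd A B) c y := by
      intro y
      rw [← hc y, ← hflip T hT q p y, ← hflip T hT p q y, add_comm q p, add_comm (tr T q _), hc]
      have h5 := hflip (dd A B) hD c (p + q - c) y
      rw [← h5]
      congr 1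
      abel
    have h5 := tr_eq_per h4
    have e : p + q - c - c = p + q - (c + c) := by abel
    rwa [e] at h5
  have h4 := h3 A hA r h1
  have h5 := h3 B hB s h2
  obtain ⟨k, hk⟩ := id hodd
  have half : ∀ x : W, x + x ∈ per (dd A B) → x ∈ per (dd A B) := by
    intro x hx
    have h7 : x = (k + 1) • (x + x) := by
      have h1 : (Fintype.card W) • x = 0 := card_nsmul_eq_zero
      rw [hk] at h1
      rw [← two_nsmul, ← mul_nsmul', show (k + 1) * 2 = (2 * k + 1) + 1 by ring, add_nsmul,
        one_nsmul, h1, zero_add]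
    rw [h7]
    exact (per _).nsmul_mem hx _
  have h6 : r - s ∈ per (dd A B) := by
    apply half
    have e : r - s + (r - s) = (p + q - (s + s)) - (p + q - (r + r)) := by abel
    rw [e]
    exact (per _).sub_mem h5 h4
  have h7 : p - q ∈ per (dd A B) := by
    apply tr_eq_per
    intro y
    have h8 : tr (dd A B) p y + tr (dd A B) q y = 0 := by
      rw [tr_dd, tr_dd]
      have e : tr A p y + tr B p y + (tr A q y + tr B q y) =
          (tr A p y + tr A q y) + (tr B p y + tr B q y) := by ring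
      rw [e, h1, h2, tr_of_per h6, z2]
    have h9 := z2 (tr (dd A B) q y)
    calc tr (dd A B) p y = tr (dd A B) p y + tr (dd A B) q y + tr (dd A B) q y := by
          rw [add_assoc, h9, add_zero]
      _ = tr (dd A B) q y := by rw [h8, zero_add]
  have h8 : r - q ∈ per (dd A B) := by
    apply half
    have e : r - q + (r - q) = (p - q) - (p + q - (r + r)) := by abel
    rw [e]
    exact (per _).sub_mem h7 h4
  -- telescope
  set h := p - q with hh
  have h9 : ∀ w, ind (w ∈ A) = ind (w - h ∈ A) + ind (w - h ∈ dd A B) := by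
    intro w
    have h10 := h1 (w + q)
    rw [tr_of_per h8] at h10
    unfold tr at h10
    have e1 : w + q - p = w - h := by rw [hh]; abel
    have e2 : w + q - q = w := by abel
    rw [e1, e2] at h10
    have h11 : ind (w ∈ dd A B) = ind (w - h ∈ dd A B) := by
      rw [ind_inj]
      have := h7 (w - h)
      rwa [sub_add_cancel] at this
    rw [h11] at h10
    rw [← h10, ← add_assoc, z2, zero_add]
  have h10 : ∀ (n : ℕ) (w : W), ind (w + n • h ∈ A) = ind (w ∈ A) + n * ind (w ∈ dd A B) := by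
    intro n
    induction n with
    | zero => intro w; simp
    | succ n ih =>
      intro w
      rw [h9, succ_nsmul, ← add_assoc, add_sub_cancel_right, ih]
      have h11 : ind (w + n • h ∈ dd A B) = ind (w ∈ dd A B) := by
        rw [ind_inj]
        exact (per (dd A B)).nsmul_mem h7 n w
      rw [h11]
      push_cast
      ring
  intro w hw
  have h11 := h10 (Fintype.card W) w
  have h12 : (Fintype.card W) • h = 0 := card_nsmul_eq_zero
  rw [h12, add_zero, ind_true hw, mul_one, hk] at h11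
  have h13 : ((2 * k + 1 : ℕ) : ZMod 2) = 0 := by
    exact left_eq_add.1 h11
  have h14 : ((2 * k + 1 : ℕ) : ZMod 2) = 1 := by
    push_cast
    have : (2 : ZMod 2) = 0 := by decide
    rw [this, zero_mul, zero_add]
  rw [h14] at h13
  exact absurd h13 (by decide)

/-! ### The identity -/

/-- The indicator of the relation `RR`. -/
noncomputable def rr (A B : Set W) (v y : W × ZMod 2) : ZMod 2 := ind (RR (dd A B) v y)

lemma rr_same {A B : Set W} {v : W × ZMod 2} {l : ZMod 2} (h : v.2 = l) (y : W) :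
    rr A B v (y, l) = tr (dd A B) v.1 y := by
  unfold rr tr
  rw [ind_inj]
  exact ⟨fun h1 => h1.2, fun h1 => ⟨h, h1⟩⟩

lemma rr_diff {A B : Set W} {v : W × ZMod 2} {l : ZMod 2} (h : v.2 ≠ l) (y : W) :
    rr A B v (y, l) = 0 := ind_false fun h1 => h h1.1

lemma z2c (a : ZMod 2) : a = 0 ∨ a = 1 := by revert a; decide

lemma ss_ind (A B : Set W) (v y : W × ZMod 2) :
    ind (y - v ∈ SS A B) = tr B v.1 y.1 + rr A B v y := by
  by_cases h : v.2 = y.2
  · have h1 : rr A B v y = tr (dd A B) v.1 y.1 := rr_same h y.1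
    rw [h1, tr_dd]
    have h2 : ind (y - v ∈ SS A B) = tr A v.1 y.1 := by
      unfold tr
      rw [ind_inj]
      constructor
      · rintro (h3 | h3)
        · exact h3.2
        · exfalso
          have h4 := h3.1
          rw [Prod.snd_sub, h, sub_self] at h4
          exact absurd h4 (by decide)
      · intro h3
        exact Or.inl ⟨by rw [Prod.snd_sub, h, sub_self], h3⟩
    rw [h2, add_comm (tr A v.1 y.1), ← add_assoc, z2, zero_add]
  · have h1 : rr A B v y = 0 := rr_diff h y.1
    rw [h1, add_zero]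
    unfold tr
    rw [ind_inj]
    have h2 : y.2 - v.2 = 1 := by
      revert h
      generalize v.2 = a
      generalize y.2 = b
      revert a b
      decide
    constructor
    · rintro (h3 | h3)
      · exfalso
        have h4 := h3.1
        rw [Prod.snd_sub, h2] at h4
        exact absurd h4 (by decide)
      · exact h3.2
    · intro h3
      exact Or.inr ⟨h2, h3⟩

variable {A B : Set W} {α β : Equiv.Perm (W × ZMod 2)}

lemma rr_pres (hodd : Odd (Fintype.card W)) (hA : ∀ a, a ∈ A → -a ∈ A)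
    (hB : ∀ a, a ∈ B → -a ∈ B) (h : TF A B α β) (x y : W × ZMod 2) :
    rr A B (α x) (α y) = rr A B x y := by
  unfold rr
  rw [ind_inj]
  exact (tf_par hodd hA hB h x y).symm

lemma dia0 (hodd : Odd (Fintype.card W)) (hA : ∀ a, a ∈ A → -a ∈ A)
    (hB : ∀ a, a ∈ B → -a ∈ B) (h : TF A B α β) (x y : W × ZMod 2) :
    tr B (α x).1 y.1 + rr A B (α x) y + rr A B (β x) y = tr B x.1 (β.symm y).1 := by
  have h1 : ind (y - α x ∈ SS A B) = ind (β.symm y - x ∈ SS A B) := by
    rw [ind_inj, h x (β.symm y), Equiv.apply_symm_apply]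
  rw [ss_ind, ss_ind] at h1
  have h2 : rr A B (β x) y = rr A B x (β.symm y) := by
    have h3 := rr_pres hodd hA hB (h.swap hA hB) x (β.symm y)
    rwa [Equiv.apply_symm_apply] at h3
  rw [h1, h2, add_assoc, z2, add_zero]

/-- The local identity. -/
theorem dia (hodd : Odd (Fintype.card W)) (hA : ∀ a, a ∈ A → -a ∈ A)
    (hB : ∀ a, a ∈ B → -a ∈ B) (h : TF A B α β) {x x' : W × ZMod 2} (hx : x.1 - x'.1 ∈ per B)
    (y : W × ZMod 2) :
    tr B (α x).1 y.1 + tr B (α x').1 y.1 =
      rr A B (α x) y + rr A B (α x') y + rr A B (β x) y + rr A B (β x') y := by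
  have h1 := dia0 hodd hA hB h x y
  have h2 := dia0 hodd hA hB h x' y
  rw [← tr_of_per hx, ← h1] at h2
  have key : ∀ a b c d e f : ZMod 2, a + b + c = d + e + f → d + a = e + b + f + c := by decide
  exact key _ _ _ _ _ _ h2

lemma rr_neg (hA : ∀ a, a ∈ A → -a ∈ A) (hB : ∀ a, a ∈ B → -a ∈ B) :
    ∀ a, a ∈ dd A B → -a ∈ dd A B := by
  have hn : ∀ {S : Set W}, (∀ a, a ∈ S → -a ∈ S) → ∀ a, -a ∈ S ↔ a ∈ S := by
    intro S hS a
    constructor
    · intro h
      have := hS _ h
      rwa [neg_neg] at this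
    · exact hS a
  intro a ha
  change ¬(a ∈ A ↔ a ∈ B) at ha
  change ¬(-a ∈ A ↔ -a ∈ B)
  rwa [hn hA, hn hB]

/-- The group generated by the differences. -/
def UU (A B : Set W) : AddSubgroup W := AddSubgroup.closure (dd A B)

lemma mem_UU_of {w : W} (h : w ∈ dd A B) : w ∈ UU A B := AddSubgroup.subset_closure h

/-- Cosets are mapped to cosets. -/
lemma cos (hodd : Odd (Fintype.card W)) (hA : ∀ a, a ∈ A → -a ∈ A)
    (hB : ∀ a, a ∈ B → -a ∈ B) (h : TF A B α β) {x y : W × ZMod 2} (h1 : x.2 = y.2)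
    (h2 : y.1 - x.1 ∈ UU A B) : (α x).2 = (α y).2 ∧ (α y).1 - (α x).1 ∈ UU A B := by
  have key : ∀ u ∈ UU A B, ∀ x : W × ZMod 2, (α x).2 = (α (x.1 + u, x.2)).2 ∧
      (α (x.1 + u, x.2)).1 - (α x).1 ∈ UU A B := by
    intro u hu
    induction hu using AddSubgroup.closure_induction with
    | mem u hu =>
      intro x
      have h3 : RR (dd A B) x (x.1 + u, x.2) := ⟨rfl, by
        change x.1 + u - x.1 ∈ dd A B
        rwa [add_sub_cancel_left]⟩
      have h4 := (tf_par hodd hA hB h _ _).1 h3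
      exact ⟨h4.1, mem_UU_of h4.2⟩
    | zero =>
      intro x
      have e : (x.1 + 0, x.2) = x := by rw [add_zero]
      rw [e]
      exact ⟨rfl, by rw [sub_self]; exact zero_mem _⟩
    | add a b _ _ ha hb =>
      intro x
      obtain ⟨h3, h4⟩ := ha x
      obtain ⟨h5, h6⟩ := hb (x.1 + a, x.2)
      have e : ((x.1 + a, x.2) : W × ZMod 2).1 + b = x.1 + (a + b) := by
        change x.1 + a + b = _
        rw [add_assoc]
      have e2 : ((x.1 + a, x.2) : W × ZMod 2).2 = x.2 := rfl
      rw [e, e2] at h5 h6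
      refine ⟨h3.trans h5, ?_⟩
      have := add_mem h6 h4
      rwa [sub_add_sub_cancel] at this
    | neg a _ ha =>
      intro x
      obtain ⟨h3, h4⟩ := ha (x.1 + -a, x.2)
      have e : (((x.1 + -a, x.2) : W × ZMod 2).1 + a, ((x.1 + -a, x.2) : W × ZMod 2).2) = x := by
        change (x.1 + -a + a, x.2) = x
        rw [neg_add_cancel_right]
      rw [e] at h3 h4
      refine ⟨h3.symm, ?_⟩
      have := neg_mem h4
      rwa [neg_sub] at this
  have h3 := key _ h2 x
  have e : (x.1 + (y.1 - x.1), x.2) = y := Prod.ext (by rw [add_sub_cancel]) h1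
  rwa [e] at h3

lemma ai (γ : Equiv.Perm (W × ZMod 2)) (x : W × ZMod 2) : γ (γ⁻¹ x) = x := γ.apply_symm_apply x

lemma ia (γ : Equiv.Perm (W × ZMod 2)) (x : W × ZMod 2) : γ⁻¹ (γ x) = x := γ.symm_apply_apply x

lemma TF.inv' (h : TF A B α β) : TF A B α⁻¹ β⁻¹ := by
  intro x y
  have h1 := h (α⁻¹ x) (β⁻¹ y)
  rw [ai, ai] at h1
  exact h1.symm

lemma TF.mul' {α' β' : Equiv.Perm (W × ZMod 2)} (h : TF A B α β) (h' : TF A B α' β') :
    TF A B (α * α') (β * β') := fun x y => (h' x y).trans (h (α' x) (β' y))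

/-- Cosets are mapped to cosets, converse. -/
lemma cos_inv (hodd : Odd (Fintype.card W)) (hA : ∀ a, a ∈ A → -a ∈ A)
    (hB : ∀ a, a ∈ B → -a ∈ B) (h : TF A B α β) {x y : W × ZMod 2} (h1 : (α x).2 = (α y).2)
    (h2 : (α y).1 - (α x).1 ∈ UU A B) : x.2 = y.2 ∧ y.1 - x.1 ∈ UU A B := by
  have h3 := cos hodd hA hB h.inv' h1 h2
  rwa [ia, ia] at h3

lemma tr_off {p y : W} (h : y - p ∉ UU A B) : tr (dd A B) p y = 0 :=
  ind_false fun h1 => h (mem_UU_of h1)

end

end Pool.Agent.R996.Ty
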