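import Pool.Agent.R996.Ty.Defs

/-!
# Parity arguments
-/

set_option linter.unusedSectionVars false

namespace Pool.Agent.R996.Ty
open Finset Classical

/-- The indicator of a proposition modulo two. -/
noncomputable def ind (P : Prop) : ZMod 2 := if P then 1 else 0

lemma ind_inj {P Q : Prop} : ind P = ind Q ↔ (P ↔ Q) := by
  unfold ind
  by_cases hP : P <;> by_cases hQ : Q <;> simp [hP, hQ]

lemma ind_and (P Q : Prop) : ind (P ∧ Q) = ind P * ind Q := by
  unfold ind
  by_cases hP : P <;> by_cases hQ : Q <;> simp [hP, hQ]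

lemma ind_true {P : Prop} (h : P) : ind P = 1 := if_pos h

lemma ind_false {P : Prop} (h : ¬ P) : ind P = 0 := if_neg h

lemma z2 (a : ZMod 2) : a + a = 0 := by
  revert a; decide

/-- Sums over an involution. -/
lemma sum_inv {X : Type} [Fintype X] (f : X → X) (hf : ∀ x, f (f x) = x) (g : X → ZMod 2)
    (hg : ∀ x, g (f x) = g x) (s : Finset X) (hs : ∀ x, x ∈ s ↔ f x = x) :
    ∑ x, g x = ∑ x ∈ s, g x := by
  have hs' : s = univ.filter fun x => f x = x := by
    ext x
    rw [mem_filter, hs]
    simp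
  rw [hs', ← Finset.sum_filter_add_sum_filter_not univ (fun x => f x = x) g]
  have h : ∑ x with ¬ f x = x, g x = 0 := by
    refine Finset.sum_involution (fun x _ => f x) ?_ ?_ ?_ ?_
    · intro x _
      rw [hg, z2]
    · intro x hx _
      exact (mem_filter.1 hx).2
    · intro x hx
      rw [mem_filter]
      refine ⟨mem_univ _, ?_⟩
      rw [hf]
      exact fun h => (mem_filter.1 hx).2 h.symm
    · intro x _
      exact hf x
  rw [h, add_zero]

section

variable {W : Type} [AddCommGroup W] [Fintype W]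

/-- The doubles of the elements of a set. -/
def dbl (T : Set W) : Set W := {w | ∃ u ∈ T, w = u + u}

lemma two_inj (hodd : Odd (Fintype.card W)) {u v : W} (h : u + u = v + v) : u = v := by
  obtain ⟨k, hk⟩ := hodd
  have key : ∀ w : W, w = (k + 1) • (w + w) := by
    intro w
    have h1 : (Fintype.card W) • w = 0 := card_nsmul_eq_zero
    rw [hk] at h1
    rw [← two_nsmul, ← mul_nsmul', show (k + 1) * 2 = (2 * k + 1) + 1 by ring, add_nsmul, one_nsmul,
      h1, zero_add]
  rw [key u, key v, h]

lemma exists_half (hodd : Odd (Fintype.card W)) (w : W) : ∃ u : W, u + u = w := by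
  obtain ⟨k, hk⟩ := hodd
  refine ⟨(k + 1) • w, ?_⟩
  have h1 : (Fintype.card W) • w = 0 := card_nsmul_eq_zero
  rw [hk] at h1
  rw [← add_nsmul, show (k + 1) + (k + 1) = (2 * k + 1) + 1 by ring, add_nsmul, one_nsmul, h1,
    zero_add]

lemma mem_dbl (hodd : Odd (Fintype.card W)) (T : Set W) (u : W) : u + u ∈ dbl T ↔ u ∈ T := by
  constructor
  · rintro ⟨v, hv, h⟩
    rwa [two_inj hodd h]
  · intro h
    exact ⟨u, h, rfl⟩

/-- The number of two step walks modulo two. -/
lemma par_W (hodd : Odd (Fintype.card W)) (T : Set W) (a b : W) :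
    ∑ w, ind (w - a ∈ T ∧ b - w ∈ T) = ind (b - a ∈ dbl T) := by
  obtain ⟨c, hc⟩ := exists_half hodd (a + b)
  have h1 : ∀ w, w ∈ ({c} : Finset W) ↔ a + b - w = w := by
    intro w
    rw [mem_singleton]
    constructor
    · rintro rfl
      rw [← hc]
      abel
    · intro h
      apply two_inj hodd
      rw [hc]
      exact (sub_eq_iff_eq_add.1 h).symm
  rw [sum_inv (fun w => a + b - w) (fun w => by abel) _ ?_ {c} h1]
  · rw [sum_singleton]
    rw [ind_inj]
    have h2 : b - c = c - a := by
      rw [sub_eq_sub_iff_add_eq_add, add_comm b a, hc]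
    have h3 : b - a = (c - a) + (c - a) := by
      nth_rewrite 1 [← h2]
      abel
    rw [h3, mem_dbl hodd, h2, and_self]
  · intro w
    rw [ind_inj]
    constructor
    · rintro ⟨h1, h2⟩
      refine ⟨?_, ?_⟩
      · convert h2 using 1; abel
      · convert h1 using 1; abel
    · rintro ⟨h1, h2⟩
      refine ⟨?_, ?_⟩
      · convert h2 using 1; abel
      · convert h1 using 1; abel

lemma dbl_iter (T : Set W) (n : ℕ) : dbl^[n] T = {w | ∃ u ∈ T, w = 2 ^ n • u} := by
  induction n with
  | zero =>
    ext w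
    simp
  | succ n ih =>
    rw [Function.iterate_succ', Function.comp_apply, ih]
    ext w
    constructor
    · rintro ⟨u, ⟨v, hv, rfl⟩, rfl⟩
      refine ⟨v, hv, ?_⟩
      rw [← two_nsmul, ← mul_nsmul', pow_succ']
    · rintro ⟨v, hv, rfl⟩
      refine ⟨2 ^ n • v, ⟨v, hv, rfl⟩, ?_⟩
      rw [← two_nsmul, ← mul_nsmul', pow_succ']

lemma exists_period (hodd : Odd (Fintype.card W)) : ∃ n : ℕ, ∀ T : Set W, dbl^[n + 1] T = T := by
  have h1 : Nat.Coprime 2 (Fintype.card W) := (Nat.coprime_two_left).2 hodd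
  have h2 := Nat.ModEq.pow_totient h1
  have h3 : 0 < Nat.totient (Fintype.card W) := Nat.totient_pos.2 Fintype.card_pos
  obtain ⟨n, hn⟩ := Nat.exists_eq_succ_of_ne_zero h3.ne'
  refine ⟨n, fun T => ?_⟩
  have key : ∀ u : W, 2 ^ (n + 1) • u = u := by
    intro u
    rw [hn] at h2
    have h4 := (Nat.modEq_iff_dvd' (Nat.one_le_two_pow)).1 h2.symm
    obtain ⟨c, hc⟩ := h4
    have h5 : 2 ^ (n + 1) = Fintype.card W * c + 1 := by
      have := Nat.one_le_two_pow (n := n + 1)
      omega
    rw [h5, add_nsmul, one_nsmul, mul_comm, mul_nsmul', card_nsmul_eq_zero, nsmul_zero, zero_add]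
  rw [dbl_iter]
  ext w
  constructor
  · rintro ⟨u, hu, rfl⟩
    rwa [key]
  · intro hw
    exact ⟨w, hw, (key w).symm⟩

lemma ind_sum_prod (f : W × ZMod 2 → ZMod 2) : ∑ v, f v = ∑ w, (f (w, 0) + f (w, 1)) := by
  rw [Fintype.sum_prod_type]
  refine Finset.sum_congr rfl fun w _ => ?_
  exact Fin.sum_univ_two (fun i : Fin 2 => f (w, i))

/-- The number of two step walks in the relation `RR T`. -/
lemma par_RR (hodd : Odd (Fintype.card W)) (T : Set W) (x y : W × ZMod 2) :
    ∑ v, ind (RR T x v ∧ RR T v y) = ind (RR (dbl T) x y) := by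
  by_cases h : x.2 = y.2
  · have h1 : ind (RR (dbl T) x y) = ind (y.1 - x.1 ∈ dbl T) := by
      rw [ind_inj]
      exact ⟨fun h2 => h2.2, fun h2 => ⟨h, h2⟩⟩
    rw [h1, ← par_W hodd, ind_sum_prod]
    refine Finset.sum_congr rfl fun w _ => ?_
    have h2 : ∀ i : ZMod 2, i = x.2 → ind (RR T x (w, i) ∧ RR T (w, i) y) =
        ind (w - x.1 ∈ T ∧ y.1 - w ∈ T) := by
      intro i hi
      rw [ind_inj]
      exact ⟨fun h3 => ⟨h3.1.2, h3.2.2⟩, fun h3 => ⟨⟨hi.symm, h3.1⟩, ⟨hi.trans h, h3.2⟩⟩⟩
    have h3 : ∀ i : ZMod 2, i ≠ x.2 → ind (RR T x (w, i) ∧ RR T (w, i) y) = 0 := by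
      intro i hi
      exact ind_false fun h4 => hi h4.1.1.symm
    have h4 : x.2 = 0 ∨ x.2 = 1 := by
      generalize x.2 = a
      revert a; decide
    rcases h4 with h4 | h4
    · rw [h2 0 h4.symm, h3 1 (by rw [h4]; decide), add_zero]
    · rw [h2 1 h4.symm, h3 0 (by rw [h4]; decide), zero_add]
  · rw [ind_false (fun h1 => h h1.1)]
    refine Finset.sum_eq_zero fun v _ => ind_false fun h1 => h (h1.1.1.trans h1.2.1)

lemma RR_dbl (hodd : Odd (Fintype.card W)) {T : Set W} (α : Equiv.Perm (W × ZMod 2))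
    (h : ∀ x y, RR T x y ↔ RR T (α x) (α y)) :
    ∀ x y, RR (dbl T) x y ↔ RR (dbl T) (α x) (α y) := by
  intro x y
  rw [← ind_inj, ← par_RR hodd, ← par_RR hodd]
  refine Fintype.sum_equiv α _ _ fun v => ?_
  rw [ind_inj, h x v, h v y]

lemma RR_iter (hodd : Odd (Fintype.card W)) {T : Set W} (α : Equiv.Perm (W × ZMod 2))
    (h : ∀ x y, RR (dbl T) x y ↔ RR (dbl T) (α x) (α y)) :
    ∀ x y, RR T x y ↔ RR T (α x) (α y) := by
  obtain ⟨n, hn⟩ := exists_period (W := W) hodd
  have key : ∀ k : ℕ, ∀ x y, RR (dbl^[k] (dbl T)) x y ↔ RR (dbl^[k] (dbl T)) (α x) (α y) := by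
    intro k
    induction k with
    | zero => exact h
    | succ k ih =>
      rw [Function.iterate_succ', Function.comp_apply]
      exact RR_dbl hodd α ih
  have h1 := key n
  have h2 : dbl^[n] (dbl T) = T := by
    rw [← Function.iterate_succ_apply]
    exact hn T
  rwa [h2] at h1

lemma RR_symm {T : Set W} (hT : ∀ a, a ∈ T → -a ∈ T) {x y : W × ZMod 2} (h : RR T x y) :
    RR T y x := by
  refine ⟨h.1.symm, ?_⟩
  have := hT _ h.2
  rwa [neg_sub] at this

/-- A pair of permutations which preserves a symmetric relation in one layer. -/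
lemma RR_pair (hodd : Odd (Fintype.card W)) {T : Set W} (hT : ∀ a, a ∈ T → -a ∈ T)
    (α β : Equiv.Perm (W × ZMod 2)) (h : ∀ x y, RR T x y ↔ RR T (α x) (β y)) :
    ∀ x y, RR T x y ↔ RR T (α x) (α y) := by
  apply RR_iter hodd
  intro x y
  rw [← ind_inj, ← par_RR hodd, ← par_RR hodd]
  refine Fintype.sum_equiv β _ _ fun v => ?_
  rw [ind_inj]
  have h1 : RR T v y ↔ RR T (β v) (α y) := by
    constructor
    · intro h2
      exact RR_symm hT ((h y v).1 (RR_symm hT h2))
    · intro h2
      exact RR_symm hT ((h y v).2 (RR_symm hT h2))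
  rw [h x v, h1]

/-! ### The connection set -/

variable {A B : Set W}

lemma SS_neg (hA : ∀ a, a ∈ A → -a ∈ A) (hB : ∀ a, a ∈ B → -a ∈ B) {v : W × ZMod 2}
    (h : v ∈ SS A B) : -v ∈ SS A B := by
  rcases h with ⟨h1, h2⟩ | ⟨h1, h2⟩
  · left
    exact ⟨by rw [Prod.snd_neg, h1, neg_zero], hA _ h2⟩
  · right
    refine ⟨?_, hB _ h2⟩
    rw [Prod.snd_neg, h1]
    decide

lemma TF.swap (hA : ∀ a, a ∈ A → -a ∈ A) (hB : ∀ a, a ∈ B → -a ∈ B)
    {α β : Equiv.Perm (W × ZMod 2)} (h : TF A B α β) : TF A B β α := by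
  intro x y
  have key : ∀ a b : W × ZMod 2, a - b ∈ SS A B ↔ b - a ∈ SS A B := by
    intro a b
    constructor
    · intro h1
      have := SS_neg hA hB h1
      rwa [neg_sub] at this
    · intro h1
      have := SS_neg hA hB h1
      rwa [neg_sub] at this
  rw [key y x, h y x, key]

/-- The two maps preserve the relation given by the difference of `A` and `B`. -/
theorem tf_par (hodd : Odd (Fintype.card W)) (hA : ∀ a, a ∈ A → -a ∈ A)
    (hB : ∀ a, a ∈ B → -a ∈ B) {α β : Equiv.Perm (W × ZMod 2)} (h : TF A B α β) :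
    ∀ x y, RR {w | ¬(w ∈ A ↔ w ∈ B)} x y ↔ RR {w | ¬(w ∈ A ↔ w ∈ B)} (α x) (α y) := by
  apply RR_iter hodd
  have hswap := h.swap hA hB
  have key : ∀ x y : W × ZMod 2, ∑ v, ind (v - x ∈ SS A B ∧ y - v ∈ SS A B) =
      ind (RR (dbl {w | ¬(w ∈ A ↔ w ∈ B)}) x y) := by
    intro x y
    have hinv : ∀ v : W × ZMod 2, ind (x + y - v - x ∈ SS A B ∧ y - (x + y - v) ∈ SS A B) =
        ind (v - x ∈ SS A B ∧ y - v ∈ SS A B) := by
      intro v
      rw [ind_inj]
      have g1 : x + y - v - x = y - v := by abel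
      have g2 : y - (x + y - v) = v - x := by abel
      rw [g1, g2]
      exact and_comm
    · by_cases hxy : x.2 = y.2
      · obtain ⟨c, hc⟩ := exists_half hodd (x.1 + y.1)
        have h1 : ∀ v : W × ZMod 2, v ∈ ({(c, x.2), (c, x.2 + 1)} : Finset (W × ZMod 2)) ↔
            x + y - v = v := by
          intro v
          rw [mem_insert, mem_singleton, Iff.comm]
          constructor
          · intro h
            have h2 : v.1 = c := by
              apply two_inj hodd
              rw [hc]
              have h3 := congrArg Prod.fst h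
              simp only [Prod.fst_sub, Prod.fst_add] at h3
              rw [sub_eq_iff_eq_add] at h3
              exact h3.symm
            have h4 : v.2 = x.2 ∨ v.2 = x.2 + 1 := by
              generalize v.2 = a
              generalize x.2 = b
              revert a b; decide
            rcases h4 with h4 | h4
            · left; exact Prod.ext h2 h4
            · right; exact Prod.ext h2 h4
          · intro hv
            have h2 : v.1 = c := by rcases hv with rfl | rfl <;> rfl
            apply Prod.ext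
            · rw [Prod.fst_sub, Prod.fst_add, ← hc, h2]
              abel
            · rw [Prod.snd_sub, Prod.snd_add, ← hxy, z2, zero_sub]
              generalize v.2 = a
              revert a; decide
        have h2 : ((c, x.2) : W × ZMod 2) ≠ (c, x.2 + 1) := by
          intro h
          have h3 := congrArg Prod.snd h
          simp only at h3
          revert h3
          generalize x.2 = a
          revert a; decide
        rw [sum_inv (fun v => x + y - v) (fun v => by abel) _ hinv _ h1, sum_pair h2]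
        have h5 : y.1 - c = c - x.1 := by
          rw [sub_eq_sub_iff_add_eq_add, add_comm y.1, hc]
        have h6 : y.1 - x.1 = (c - x.1) + (c - x.1) := by
          nth_rewrite 1 [← h5]
          abel
        have e0 : ∀ w : W, ∀ i : ZMod 2, i = 0 → ((w, i) ∈ SS A B ↔ w ∈ A) := by
          rintro w i rfl
          constructor
          · rintro (h7 | h7)
            · exact h7.2
            · exact absurd h7.1 (show ¬ ((0 : ZMod 2) = 1) by decide)
          · intro h7; exact Or.inl ⟨rfl, h7⟩
        have e1 : ∀ w : W, ∀ i : ZMod 2, i = 1 → ((w, i) ∈ SS A B ↔ w ∈ B) := by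
          rintro w i rfl
          constructor
          · rintro (h7 | h7)
            · exact absurd h7.1 (show ¬ ((1 : ZMod 2) = 0) by decide)
            · exact h7.2
          · intro h7; exact Or.inr ⟨rfl, h7⟩
        have f1 : ind (((c, x.2) : W × ZMod 2) - x ∈ SS A B ∧ y - (c, x.2) ∈ SS A B) =
            ind (c - x.1 ∈ A) := by
          rw [ind_inj]
          have g1 : ((c, x.2) : W × ZMod 2) - x = (c - x.1, x.2 - x.2) := rfl
          have g2 : y - ((c, x.2) : W × ZMod 2) = (y.1 - c, y.2 - x.2) := rfl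
          rw [g1, g2, e0 _ _ (sub_self _), e0 _ _ (by rw [hxy, sub_self]), h5, and_self]
        have f2 : ind (((c, x.2 + 1) : W × ZMod 2) - x ∈ SS A B ∧
            y - (c, x.2 + 1) ∈ SS A B) = ind (c - x.1 ∈ B) := by
          rw [ind_inj]
          have g1 : ((c, x.2 + 1) : W × ZMod 2) - x = (c - x.1, x.2 + 1 - x.2) := rfl
          have g2 : y - ((c, x.2 + 1) : W × ZMod 2) = (y.1 - c, y.2 - (x.2 + 1)) := rfl
          rw [g1, g2, e1 _ _ (by rw [add_sub_cancel_left]), e1 _ _ (by
            rw [hxy, ← sub_sub, sub_self]; decide), h5, and_self]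
        rw [f1, f2]
        have f3 : ind (RR (dbl {w | ¬(w ∈ A ↔ w ∈ B)}) x y) = ind (¬(c - x.1 ∈ A ↔ c - x.1 ∈ B)) := by
          rw [ind_inj]
          constructor
          · intro h7
            have h8 := h7.2
            rw [h6, mem_dbl hodd] at h8
            exact h8
          · intro h7
            refine ⟨hxy, ?_⟩
            rw [h6, mem_dbl hodd]
            exact h7
        rw [f3]
        unfold ind
        by_cases p : c - x.1 ∈ A <;> by_cases q : c - x.1 ∈ B <;> simp [p, q]
        decide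
      · rw [ind_false (fun h1 => hxy h1.1)]
        rw [sum_inv (fun v => x + y - v) (fun v => by abel) _ hinv ∅ ?_, sum_empty]
        intro v
        constructor
        · intro h; exact absurd h (Finset.notMem_empty _)
        · intro hv
          exfalso
          have h3 := congrArg Prod.snd hv
          simp only [Prod.snd_sub, Prod.snd_add] at h3
          rw [sub_eq_iff_eq_add, z2] at h3
          apply hxy
          revert h3
          generalize x.2 = a
          generalize y.2 = b
          revert a b; decide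
  intro x y
  rw [← ind_inj, ← key, ← key]
  refine Fintype.sum_equiv β _ _ fun v => ?_
  rw [ind_inj, h x v, hswap v y]

/-- Two-fold automorphisms which preserve the layers. -/
theorem tf_eq (hodd : Odd (Fintype.card W)) (hA : ∀ a, a ∈ A → -a ∈ A)
    (hst : ∀ h, (∀ a, a + h ∈ A ↔ a ∈ A) → h = 0) {α β : Equiv.Perm (W × ZMod 2)}
    (h : TF A B α β) (h1 : ∀ x, (α x).2 = x.2) (h2 : ∀ x, (β x).2 = x.2) : α = β := by
  have hRR : ∀ x y : W × ZMod 2, RR A x y ↔ (x.2 = y.2 ∧ y - x ∈ SS A B) := by
    intro x y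
    constructor
    · rintro ⟨h3, h4⟩
      refine ⟨h3, Or.inl ⟨?_, h4⟩⟩
      rw [Prod.snd_sub, h3, sub_self]
    · rintro ⟨h3, h4⟩
      refine ⟨h3, ?_⟩
      rcases h4 with h4 | h4
      · exact h4.2
      · exfalso
        have h5 := h4.1
        rw [Prod.snd_sub, h3, sub_self] at h5
        exact absurd h5 (by decide)
  have hp : ∀ x y, RR A x y ↔ RR A (α x) (β y) := by
    intro x y
    rw [hRR, hRR, h1, h2, h x y]
  have hq := RR_pair hodd hA α β hp
  ext1 y
  have h3 : (β y).1 - (α y).1 = 0 := by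
    apply hst
    intro a
    obtain ⟨x, hx⟩ := α.surjective ((α y).1 - a, y.2)
    have hx1 : (α x).1 = (α y).1 - a := by rw [hx]
    have hx2 : (α x).2 = y.2 := by rw [hx]
    have h4 := (hp x y).symm.trans (hq x y)
    have h5 : RR A (α x) (β y) ↔ a + ((β y).1 - (α y).1) ∈ A := by
      have e : (β y).1 - (α x).1 = a + ((β y).1 - (α y).1) := by rw [hx1]; abel
      rw [← e]
      exact ⟨fun h6 => h6.2, fun h6 => ⟨by rw [hx2, h2], h6⟩⟩
    have h6 : RR A (α x) (α y) ↔ a ∈ A := by
      have e : (α y).1 - (α x).1 = a := by rw [hx1]; abel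
      constructor
      · intro h6
        have h7 := h6.2
        rwa [e] at h7
      · intro h6
        exact ⟨by rw [hx2, h1], by rw [e]; exact h6⟩
    rw [← h5, h4, h6]
  apply Prod.ext
  · exact (sub_eq_zero.1 h3).symm
  · rw [h1, h2]

end

end Pool.Agent.R996.Ty
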