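import Pool.Agent.R996.Ty.Mult

set_option linter.unusedSectionVars false

namespace Pool.Agent.R996.Ty

theorem tw_step {W C : Type} [AddCommGroup W] {col : W → C} {z : Equiv.Perm W}
    {Θ : W → Equiv.Perm C} (h : Tw col z Θ) (x w : W) : Θ (x + w) (col w) = Θ x (col w) := by
  obtain ⟨h1, h2⟩ := h x (x + w)
  rw [add_sub_cancel_left] at h1 h2
  rw [← h1, ← h2]

theorem tw_nsmul {W C : Type} [AddCommGroup W] {col : W → C} {z : Equiv.Perm W}
    {Θ : W → Equiv.Perm C} (h : Tw col z Θ) (x w : W) (n : ℕ) :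
    Θ (x + n • w) (col w) = Θ x (col w) := by
  induction n with
  | zero => simp
  | succ n ih => rw [succ_nsmul, ← add_assoc, tw_step h, ih]

theorem tw_inv {W C : Type} [AddCommGroup W] {col : W → C} {z : Equiv.Perm W}
    {Θ : W → Equiv.Perm C} (h : Tw col z Θ) :
    Tw col z.symm (fun x => (Θ (z.symm x)).symm) := by
  intro x y
  obtain ⟨h1, h2⟩ := h (z.symm x) (z.symm y)
  rw [Equiv.apply_symm_apply, Equiv.apply_symm_apply] at h1 h2
  constructor
  · rw [h1, Equiv.symm_apply_apply]
  · rw [h2, Equiv.symm_apply_apply]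

section
variable {A B C : Type} [AddCommGroup A] [Fintype A] [AddCommGroup B] [Fintype B]

theorem nsmul_of_modEq {G : Type} [AddCommGroup G] [Fintype G] {m n : ℕ}
    (h : m ≡ n [MOD Fintype.card G]) (x : G) : m • x = n • x :=
  nsmul_eq_nsmul_iff_modEq.2 (h.of_dvd addOrderOf_dvd_card)

theorem exists_crt (hco : (Fintype.card A).Coprime (Fintype.card B)) (r s : ℕ) :
    ∃ N : ℕ, 0 < N ∧ N ≡ r [MOD Fintype.card A] ∧ N ≡ s [MOD Fintype.card B] := by
  obtain ⟨k, h1, h2⟩ := Nat.chineseRemainder hco r s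
  refine ⟨k + Fintype.card A * Fintype.card B, ?_, ?_, ?_⟩
  · have : 0 < Fintype.card A * Fintype.card B := Nat.mul_pos Fintype.card_pos Fintype.card_pos
    omega
  · calc k + Fintype.card A * Fintype.card B ≡ k + 0 [MOD Fintype.card A] :=
        Nat.ModEq.add_left _ ((Nat.modEq_zero_iff_dvd).2 (dvd_mul_right _ _))
      _ ≡ r [MOD Fintype.card A] := h1
  · calc k + Fintype.card A * Fintype.card B ≡ k + 0 [MOD Fintype.card B] :=
        Nat.ModEq.add_left _ ((Nat.modEq_zero_iff_dvd).2 (dvd_mul_left _ _))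
      _ ≡ s [MOD Fintype.card B] := h2

theorem tw_fst (hco : (Fintype.card A).Coprime (Fintype.card B)) {col : A × B → C}
    {z : Equiv.Perm (A × B)} {Θ : A × B → Equiv.Perm C} (h : Tw col z Θ) (a u : A) (b mu : B) :
    Θ (a + u, b) (col (u, mu)) = Θ (a, b) (col (u, mu)) := by
  obtain ⟨N, -, h1, h2⟩ := exists_crt hco 1 0
  have := tw_nsmul h (a, b) (u, mu) N
  rw [Prod.smul_mk, nsmul_of_modEq h1 u, nsmul_of_modEq h2 mu, one_nsmul, zero_nsmul,
    Prod.mk_add_mk, add_zero] at this
  exact this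

theorem tw_snd (hco : (Fintype.card A).Coprime (Fintype.card B)) {col : A × B → C}
    {z : Equiv.Perm (A × B)} {Θ : A × B → Equiv.Perm C} (h : Tw col z Θ) (a u : A) (b mu : B) :
    Θ (a, b + mu) (col (u, mu)) = Θ (a, b) (col (u, mu)) := by
  obtain ⟨N, -, h1, h2⟩ := exists_crt hco 0 1
  have := tw_nsmul h (a, b) (u, mu) N
  rw [Prod.smul_mk, nsmul_of_modEq h1 u, nsmul_of_modEq h2 mu, one_nsmul, zero_nsmul,
    Prod.mk_add_mk, add_zero] at this
  exact this

/-- (F2) -/
theorem tw_block (hco : (Fintype.card A).Coprime (Fintype.card B)) {col : A × B → C}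
    {s : Equiv.Perm (A × B)} {Th : A × B → Equiv.Perm C} (h : Tw col s Th)
    (hs : ∀ x, (s x).2 = x.2) (a a' : A) (b mu : B) :
    col ((s (a', b)).1 - (s (a, b)).1, mu) = Th (a, b) (col (a' - a, mu)) := by
  classical
  obtain ⟨N, hN0, h1, h2⟩ := exists_crt hco 1 0
  set H : AddSubgroup (A × B) := AddSubgroup.prod ⊤ ⊥ with hH
  have hcard : Nat.card H = Fintype.card A := by
    rw [hH, Nat.card_congr (AddSubgroup.prodEquiv (⊤ : AddSubgroup A) (⊥ : AddSubgroup B)).toEquiv,
      Nat.card_prod, AddSubgroup.card_top, AddSubgroup.card_bot, Nat.card_eq_fintype_card, mul_one]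
  have hNco : N.Coprime (Nat.card H) := by
    rw [hcard]
    have := h1.gcd_eq
    rw [Nat.coprime_iff_gcd_eq_one, this]
    exact Nat.gcd_one_left _
  set c := col (a' - a, mu) with hc
  have key := mult H N hN0 hNco s (Finset.univ.filter (fun w : A × B => w.2 = mu ∧ col w = c))
    (fun x => Finset.univ.filter (fun w : A × B => w.2 = mu ∧ col w = Th x c)) ?_ ?_ ?_ ?_
    (a, b) (a', b)
  · have h3 : (a', b) - (a, b) ∈ (Finset.univ.filter
        (fun w : A × B => w.2 = mu ∧ col w = c)).image (fun w => N • w) := by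
      refine Finset.mem_image.2 ⟨(a' - a, mu), by simp [hc], ?_⟩
      rw [Prod.smul_mk, nsmul_of_modEq h1, nsmul_of_modEq h2, one_nsmul, zero_nsmul,
        Prod.mk_sub_mk, sub_self]
    obtain ⟨w, hw, hw2⟩ := Finset.mem_image.1 (key.1 h3)
    obtain ⟨-, hw3, hw4⟩ := Finset.mem_filter.1 hw
    have hw5 : w.1 = (s (a', b)).1 - (s (a, b)).1 := by
      have := congrArg Prod.fst hw2
      simpa [nsmul_of_modEq h1] using this
    rw [← hw5, ← hw3]
    exact hw4
  · intro w hw w' hw'
    simp only [Finset.mem_filter, Finset.mem_univ, true_and] at hw hw'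
    rw [hH, AddSubgroup.mem_prod]
    refine ⟨AddSubgroup.mem_top _, ?_⟩
    rw [AddSubgroup.mem_bot, Prod.snd_sub, hw.1, hw'.1, sub_self]
  · intro x w hw w' hw'
    simp only [Finset.mem_filter, Finset.mem_univ, true_and] at hw hw'
    rw [hH, AddSubgroup.mem_prod]
    refine ⟨AddSubgroup.mem_top _, ?_⟩
    rw [AddSubgroup.mem_bot, Prod.snd_sub, hw.1, hw'.1, sub_self]
  · intro x y
    simp only [Finset.mem_filter, Finset.mem_univ, true_and, Prod.snd_sub, hs]
    rw [(h x y).1]
    simp
  · intro x w hw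
    simp only [Finset.mem_filter, Finset.mem_univ, true_and] at hw
    have := tw_step h x w
    rw [hw.2] at this
    simp only [this]

/-- (F3) -/
theorem tw_block' (hco : (Fintype.card A).Coprime (Fintype.card B)) {col : A × B → C}
    {s : Equiv.Perm (A × B)} {Th : A × B → Equiv.Perm C} (h : Tw col s Th)
    (hs : ∀ x, (s x).2 = x.2) (a' v : A) (b mu : B) :
    col ((s (a', b + mu)).1 - v, mu) = col ((s (a', b)).1 - v, mu) := by
  obtain ⟨⟨a, b'⟩, hab⟩ := s.surjective (v, b)
  have hb : b' = b := by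
    have := hs (a, b')
    rw [hab] at this
    exact this.symm
  subst hb
  have h1 := tw_block hco h hs a a' b' mu
  have h2 := (h (a, b') (a', b' + mu)).1
  rw [hab] at h1 h2
  rw [h1]
  have e1 : s (a', b' + mu) - (v, b') = ((s (a', b' + mu)).1 - v, mu) := by
    ext
    · simp
    · simp [hs]
  have e2 : (a', b' + mu) - (a, b') = (a' - a, mu) := by
    ext <;> simp
  rw [e1, e2] at h2
  exact h2

/-- (7) -/
theorem tw_half (hodd : Odd (Fintype.card A)) (hco : (Fintype.card A).Coprime (Fintype.card B))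
    {col : A × B → C} {z : Equiv.Perm (A × B)} {Θ : A × B → Equiv.Perm C} (hz : Tw col z Θ)
    (h : A → A) (hh : ∀ a, 2 • h a = a) (hh' : ∀ a, h (2 • a) = a) (x y : A × B) :
    col (h (z y - z x).1, (z y - z x).2) = Θ x (col (h (y - x).1, (y - x).2)) := by
  classical
  obtain ⟨N, hN0, h1, h2⟩ := exists_crt hco 2 1
  have hNco : N.Coprime (Nat.card (⊤ : AddSubgroup (A × B))) := by
    rw [AddSubgroup.card_top, Nat.card_prod, Nat.card_eq_fintype_card, Nat.card_eq_fintype_card]
    refine Nat.Coprime.mul_right ?_ ?_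
    · rw [Nat.coprime_iff_gcd_eq_one, h1.gcd_eq]
      exact (Nat.coprime_two_left).2 hodd
    · rw [Nat.coprime_iff_gcd_eq_one, h2.gcd_eq]
      exact Nat.gcd_one_left _
  set c := col (h (y - x).1, (y - x).2) with hc
  have key := mult ⊤ N hN0 hNco z (Finset.univ.filter (fun w : A × B => col w = c))
    (fun x => Finset.univ.filter (fun w : A × B => col w = Θ x c)) (by simp) (by simp) ?_ ?_ x y
  · have h3 : y - x ∈ (Finset.univ.filter
        (fun w : A × B => col w = c)).image (fun w => N • w) := by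
      refine Finset.mem_image.2 ⟨(h (y - x).1, (y - x).2), by simp [hc], ?_⟩
      rw [Prod.smul_mk, nsmul_of_modEq h1, nsmul_of_modEq h2, one_nsmul, hh]
    obtain ⟨w, hw, hw2⟩ := Finset.mem_image.1 (key.1 h3)
    obtain ⟨-, hw4⟩ := Finset.mem_filter.1 hw
    have hw5 : h (z y - z x).1 = w.1 := by
      rw [← hw2, Prod.smul_fst, nsmul_of_modEq h1, hh']
    have hw6 : (z y - z x).2 = w.2 := by
      rw [← hw2, Prod.smul_snd, nsmul_of_modEq h2, one_nsmul]
    rw [hw5, hw6]
    exact hw4
  · intro x y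
    simp only [Finset.mem_filter, Finset.mem_univ, true_and]
    rw [(hz x y).1]
    simp
  · intro x w hw
    simp only [Finset.mem_filter, Finset.mem_univ, true_and] at hw
    have := tw_step hz x w
    rw [hw] at this
    simp only [this]

/-- the first coordinate is a bijection in every block -/
theorem fst_inj {z : Equiv.Perm (A × B)} (hblk : ∀ a a' b, (z (a, b)).2 = (z (a', b)).2) (b : B) :
    Function.Injective (fun a => (z (a, b)).1) := by
  intro a a' h
  have : z (a, b) = z (a', b) := Prod.ext h (hblk _ _ _)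
  exact (Prod.mk.inj (z.injective this)).1

theorem fst_bij {z : Equiv.Perm (A × B)} (hblk : ∀ a a' b, (z (a, b)).2 = (z (a', b)).2) (b : B) :
    Function.Bijective (fun a => (z (a, b)).1) :=
  Finite.injective_iff_bijective.1 (fst_inj hblk b)

theorem snd_bij {z : Equiv.Perm (A × B)} (hblk : ∀ a a' b, (z (a, b)).2 = (z (a', b)).2) :
    Function.Bijective (fun b => (z (0, b)).2) := by
  refine Finite.surjective_iff_bijective.1 ?_
  intro b'
  obtain ⟨⟨a, b⟩, hab⟩ := z.surjective (0, b')
  refine ⟨b, ?_⟩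
  show (z (0, b)).2 = b'
  rw [hblk 0 a b, hab]

theorem z_eta {z : Equiv.Perm (A × B)} (hblk : ∀ a a' b, (z (a, b)).2 = (z (a', b)).2) (a : A)
    (b : B) : z (a, b) = ((z (a, b)).1, (z (0, b)).2) := Prod.ext rfl (hblk _ _ _)

/-- (5) -/
theorem step5 (hco : (Fintype.card A).Coprime (Fintype.card B)) {col : A × B → C}
    {z : Equiv.Perm (A × B)} {Θ : A × B → Equiv.Perm C} (hz : Tw col z Θ)
    (hblk : ∀ a a' b, (z (a, b)).2 = (z (a', b)).2) (b b2 : B) (u0 : A)
    (hu0 : (z (u0, b)).1 = (z (0, b2)).1) (v v' : A) :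
    col ((z (v, b2)).1 - v', (z (0, b2)).2 - (z (0, b)).2) =
      col ((z (v + u0, b)).1 - v', (z (0, b2)).2 - (z (0, b)).2) := by
  set s : Equiv.Perm (A × B) := z.symm.trans ((Equiv.addRight ((v, 0) : A × B)).trans z) with hs
  have hsx : ∀ x, s x = z (z.symm x + (v, 0)) := fun x => rfl
  have hsz : ∀ a b, s (z (a, b)) = z (a + v, b) := by
    intro a b
    rw [hsx, Equiv.symm_apply_apply, Prod.mk_add_mk, add_zero]
  set Th : A × B → Equiv.Perm C :=
    fun x => (Θ (z.symm x)).symm.trans (Θ (z.symm x + (v, 0))) with hTh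
  have htw : Tw col s Th := by
    intro x y
    have e : z.symm y + (v, 0) - (z.symm x + (v, 0)) = z.symm y - z.symm x := by abel
    obtain ⟨h1, h2⟩ := hz (z.symm x) (z.symm y)
    obtain ⟨h3, h4⟩ := hz (z.symm x + (v, 0)) (z.symm y + (v, 0))
    rw [Equiv.apply_symm_apply, Equiv.apply_symm_apply] at h1 h2
    rw [e] at h3 h4
    constructor
    · rw [hsx, hsx, h3, h1]
      simp [hTh]
    · rw [hsx, hsx, h4, h2]
      simp [hTh]
  have hs2 : ∀ x, (s x).2 = x.2 := by
    intro x
    obtain ⟨⟨a, b⟩, rfl⟩ := z.surjective x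
    rw [hsz]
    exact hblk _ _ _
  have h1 := tw_block' hco htw hs2 (z (0, b2)).1 v' (z (0, b)).2 ((z (0, b2)).2 - (z (0, b)).2)
  rw [add_sub_cancel] at h1
  have e1 : ((z (0, b2)).1, (z (0, b2)).2) = z (0, b2) := rfl
  have e2 : ((z (0, b2)).1, (z (0, b)).2) = z (u0, b) := by
    rw [← hu0, ← z_eta hblk]
  rw [e1, e2, hsz, hsz, zero_add, add_comm u0 v] at h1
  exact h1

/-- Tw in coordinates -/
theorem step0 {col : A × B → C}
    {z : Equiv.Perm (A × B)} {Θ : A × B → Equiv.Perm C} (hz : Tw col z Θ)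
    (hblk : ∀ a a' b, (z (a, b)).2 = (z (a', b)).2) (a a' : A) (b b2 : B) :
    col ((z (a', b2)).1 - (z (a, b)).1, (z (0, b2)).2 - (z (0, b)).2) =
      Θ (a, b) (col (a' - a, b2 - b)) := by
  have := (hz (a, b) (a', b2)).1
  have e1 : z (a', b2) - z (a, b) =
      ((z (a', b2)).1 - (z (a, b)).1, (z (0, b2)).2 - (z (0, b)).2) :=
    Prod.ext rfl (by rw [Prod.snd_sub, hblk 0 a' b2, hblk 0 a b])
  have e2 : ((a', b2) - (a, b) : A × B) = (a' - a, b2 - b) := rfl
  rw [e1, e2] at this
  exact this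

theorem per_nsmul {col : A × B → C} {l : A} {m : B} (h : ∀ v, col (v + l, m) = col (v, m)) (n : ℕ) :
    ∀ v, col (v + n • l, m) = col (v, m) := by
  induction n with
  | zero => simp
  | succ n ih =>
    intro v
    rw [succ_nsmul, ← add_assoc, h, ih]

theorem per_neg {col : A × B → C} {l : A} {m : B} (h : ∀ v, col (v + l, m) = col (v, m)) :
    ∀ v, col (v - l, m) = col (v, m) := by
  intro v
  have := h (v - l)
  rw [sub_add_cancel] at this
  exact this.symm

/-- (6) -/
theorem step6 (hco : (Fintype.card A).Coprime (Fintype.card B)) {col : A × B → C}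
    {z : Equiv.Perm (A × B)} {Θ : A × B → Equiv.Perm C} (hz : Tw col z Θ)
    (hblk : ∀ a a' b, (z (a, b)).2 = (z (a', b)).2) (b b2 : B) (u0 : A)
    (hu0 : (z (u0, b)).1 = (z (0, b2)).1) (a a' : A) :
    col ((z (a' + u0, b)).1 - (z (a, b)).1, (z (0, b2)).2 - (z (0, b)).2) =
      Θ (a, b) (col (a' - a, b2 - b)) := by
  rw [← step5 hco hz hblk b b2 u0 hu0, step0 hz hblk]

/-- (8) -/
theorem step8 (hodd : Odd (Fintype.card A)) (hco : (Fintype.card A).Coprime (Fintype.card B))
    {col : A × B → C} {z : Equiv.Perm (A × B)} {Θ : A × B → Equiv.Perm C} (hz : Tw col z Θ)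
    (hblk : ∀ a a' b, (z (a, b)).2 = (z (a', b)).2) (b b2 : B) (u0 : A)
    (hu0 : (z (u0, b)).1 = (z (0, b2)).1) (k : ℕ) (hk : ∀ a : A, 2 • k • a = a)
    (hk' : ∀ a : A, k • 2 • a = a) (a a' : A) :
    col (k • ((z (a' + u0, b)).1 - (z (a, b)).1), (z (0, b2)).2 - (z (0, b)).2) =
      Θ (a, b) (col (k • (a' - a), b2 - b)) := by
  have h7 := tw_half hodd hco hz (fun a => k • a) hk hk' (a, b) (a', b2)
  have e1 : (z (a', b2) - z (a, b)).2 = (z (0, b2)).2 - (z (0, b)).2 := by
    rw [Prod.snd_sub, hblk 0 a' b2, hblk 0 a b]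
  have e2 : ((a', b2) - (a, b) : A × B) = (a' - a, b2 - b) := rfl
  rw [e1, e2] at h7
  simp only at h7
  rw [← h7]
  set l := (z (a' + u0, b)).1 - (z (a', b2)).1 with hl
  have hper : ∀ v, col (v + l, (z (0, b2)).2 - (z (0, b)).2) =
      col (v, (z (0, b2)).2 - (z (0, b)).2) := by
    intro v
    have := step5 hco hz hblk b b2 u0 hu0 a' ((z (a', b2)).1 - v)
    rw [sub_sub_cancel] at this
    rw [this, hl]
    congr 2
    abel
  have := per_nsmul hper k (k • (z (a', b2) - z (a, b)).1)
  rw [← this, ← nsmul_add]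
  congr 3
  rw [hl, Prod.fst_sub]
  abel

/-- (9) -/
theorem step9 (hco : (Fintype.card A).Coprime (Fintype.card B)) {col : A × B → C}
    {z : Equiv.Perm (A × B)} {Θ : A × B → Equiv.Perm C} (hz : Tw col z Θ)
    (hblk : ∀ a a' b, (z (a, b)).2 = (z (a', b)).2) (b b2 : B) (u0 : A)
    (hu0 : (z (u0, b)).1 = (z (0, b2)).1) (a x : A) :
    Θ (a + x + u0, b) (col (x, b2 - b)) = Θ (a, b) (col (x, b2 - b)) := by
  have h6 := step6 hco hz hblk b b2 u0 hu0 a (a + x)
  rw [add_sub_cancel_left] at h6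
  have h1 := tw_fst hco (tw_inv hz) (z (a, b)).1 ((z (a + x + u0, b)).1 - (z (a, b)).1)
    (z (0, b)).2 ((z (0, b2)).2 - (z (0, b)).2)
  rw [h6, add_sub_cancel, ← z_eta hblk, ← z_eta hblk, Equiv.symm_apply_apply,
    Equiv.symm_apply_apply, Equiv.symm_apply_apply, Equiv.symm_apply_eq] at h1
  exact h1.symm

/-- (10) -/
theorem step10 (hodd : Odd (Fintype.card A)) (hco : (Fintype.card A).Coprime (Fintype.card B))
    {col : A × B → C} {z : Equiv.Perm (A × B)} {Θ : A × B → Equiv.Perm C} (hz : Tw col z Θ)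
    (hblk : ∀ a a' b, (z (a, b)).2 = (z (a', b)).2) (b b2 : B) (u0 : A)
    (hu0 : (z (u0, b)).1 = (z (0, b2)).1) (v : A) :
    col (v + u0, b2 - b) = col (v, b2 - b) := by
  classical
  set k := (Fintype.card A + 1) / 2 with hkdef
  have hk2 : 2 * k = Fintype.card A + 1 := by
    obtain ⟨m, hm⟩ := hodd
    omega
  have hk : ∀ a : A, 2 • k • a = a := by
    intro a
    rw [smul_smul, hk2, succ_nsmul, card_nsmul_eq_zero, zero_add]
  have hk' : ∀ a : A, k • 2 • a = a := by
    intro a
    rw [smul_smul, mul_comm, hk2, succ_nsmul, card_nsmul_eq_zero, zero_add]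
  have key1 : ∀ t : A, col (t - u0, b2 - b) = col (t - k • u0, b2 - b) := by
    intro t
    set c := col (t - u0, b2 - b) with hc
    set gP : Equiv.Perm A := Equiv.ofBijective _ (fst_bij hblk b) with hgP
    have hg : ∀ a, gP a = (z (a, b)).1 := fun a => rfl
    have key := mult (⊤ : AddSubgroup A) 2 (by norm_num) ?_ gP
      (Finset.univ.filter (fun y : A => col (y - u0, b2 - b) = c))
      (fun a => Finset.univ.filter
        (fun u : A => col (u, (z (0, b2)).2 - (z (0, b)).2) = Θ (a, b) c)) (by simp) (by simp)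
        ?_ ?_ 0 (2 • t)
    · have h3 : 2 • t - 0 ∈ (Finset.univ.filter
          (fun y : A => col (y - u0, b2 - b) = c)).image (fun w => 2 • w) :=
        Finset.mem_image.2 ⟨t, by simp [hc], by simp⟩
      obtain ⟨u, hu, hu2⟩ := Finset.mem_image.1 (key.1 h3)
      obtain ⟨-, hu3⟩ := Finset.mem_filter.1 hu
      have hu4 : u = k • ((z (2 • t - u0 + u0, b)).1 - (z (0, b)).1) := by
        rw [sub_add_cancel, ← hg, ← hg, ← hu2, hk']
      rw [hu4, step8 hodd hco hz hblk b b2 u0 hu0 k hk hk', sub_zero, nsmul_sub, hk'] at hu3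
      exact ((Θ (0, b)).injective hu3).symm
    · rw [AddSubgroup.card_top, Nat.card_eq_fintype_card]
      exact Nat.coprime_two_left.2 hodd
    · intro x y
      simp only [Finset.mem_filter, Finset.mem_univ, true_and, hg]
      have := step6 hco hz hblk b b2 u0 hu0 x (y - u0)
      rw [sub_add_cancel] at this
      rw [this, sub_right_comm y u0 x]
      simp
    · intro a w hw
      simp only [Finset.mem_filter, Finset.mem_univ, true_and] at hw
      have := step9 hco hz hblk b b2 u0 hu0 a (w - u0)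
      rw [add_assoc a, sub_add_cancel, hw] at this
      simp only [this]
  have key2 : ∀ v, col (v + k • u0, b2 - b) = col (v, b2 - b) := by
    intro v
    have := key1 (v + u0)
    rw [add_sub_cancel_right] at this
    rw [this, add_sub_assoc]
    have e : k • u0 = u0 - k • u0 := by
      rw [eq_sub_iff_add_eq, ← two_nsmul, hk]
    rw [← e]
  have := per_nsmul key2 2 v
  rw [hk] at this
  exact this

/-- (***) -/
theorem step11 (hodd : Odd (Fintype.card A)) (hco : (Fintype.card A).Coprime (Fintype.card B))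
    {col : A × B → C} {z : Equiv.Perm (A × B)} {Θ : A × B → Equiv.Perm C} (hz : Tw col z Θ)
    (hblk : ∀ a a' b, (z (a, b)).2 = (z (a', b)).2) (b b2 : B) (a' v : A) :
    col ((z (a', b2)).1 - v, (z (0, b2)).2 - (z (0, b)).2) =
      col ((z (a', b)).1 - v, (z (0, b2)).2 - (z (0, b)).2) := by
  obtain ⟨u0, hu0⟩ := (fst_bij hblk b).2 (z (0, b2)).1
  obtain ⟨a, ha⟩ := (fst_bij hblk b).2 v
  simp only at hu0 ha
  rw [step5 hco hz hblk b b2 u0 hu0, ← ha, step6 hco hz hblk b b2 u0 hu0]
  have h6 := step6 hco hz hblk b b2 u0 hu0 a (a' - u0)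
  rw [sub_add_cancel] at h6
  rw [h6]
  congr 1
  have := step10 hodd hco hz hblk b b2 u0 hu0 (a' - u0 - a)
  rw [← this]
  congr 2
  abel

/-- (1) -/
theorem step1 (hodd : Odd (Fintype.card A)) (hco : (Fintype.card A).Coprime (Fintype.card B))
    {col : A × B → C} {z : Equiv.Perm (A × B)} {Θ : A × B → Equiv.Perm C} (hz : Tw col z Θ)
    (hblk : ∀ a a' b, (z (a, b)).2 = (z (a', b)).2) (a a' : A) (b b2 : B) :
    col ((z (a', b)).1 - (z (a, b)).1, (z (0, b2)).2 - (z (0, b)).2) =
      Θ (a, b) (col (a' - a, b2 - b)) := by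
  rw [← step11 hodd hco hz hblk, step0 hz hblk]

end

theorem prod_step {A B : Type} [AddCommGroup A] [Fintype A] [AddCommGroup B] [Fintype B]
    (hodd : Odd (Fintype.card A)) (hco : (Fintype.card A).Coprime (Fintype.card B))
    (hA : Good A) (hB : Good B) {C : Type} (col : A × B → C) (z : Equiv.Perm (A × B))
    (Θ : A × B → Equiv.Perm C) (hz : Tw col z Θ) (hblk : ∀ a a' b, (z (a, b)).2 = (z (a', b)).2)
    (x₀ : A × B) : ∃ ψ : Equiv.Perm (A × B), ∀ x y, col (ψ y - ψ x) = Θ x₀ (col (y - x)) := by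
  obtain ⟨a0, b0⟩ := x₀
  have h1 := fun (a a' : A) (b b2 : B) => step1 hodd hco hz hblk a a' b b2
  have h11 := fun (b b2 : B) (a' v : A) => step11 hodd hco hz hblk b b2 a' v
  set zb : Equiv.Perm B := Equiv.ofBijective _ (snd_bij hblk) with hzb
  have hzb' : ∀ b, (z (0, b)).2 = zb b := fun b => rfl
  set g : B → Equiv.Perm A := fun b => Equiv.ofBijective _ (fst_bij hblk b) with hg
  have hg' : ∀ a b, (z (a, b)).1 = g b a := fun a b => rfl
  simp only [hzb', hg'] at h1 h11
  have hz2 : ∀ a b, z (a, b) = (g b a, zb b) := fun a b => z_eta hblk a b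
  -- the permutation of differences in `B`
  set ζ : Equiv.Perm B := ((Equiv.addLeft b0).trans zb).trans (Equiv.subRight (zb b0)) with hζ
  have hζ' : ∀ m, ζ m = zb (b0 + m) - zb b0 := fun m => rfl
  -- step (12)
  obtain ⟨ψA, hψA⟩ : ∃ ψA : Equiv.Perm A, ∀ a a' m,
      col (ψA a' - ψA a, ζ m) = Θ (a0, b0) (col (a' - a, m)) := by
    have htw : Tw (fun (a : A) (m : B) => col (a, m)) (g b0)
        (fun a => Equiv.arrowCongr ζ (Θ (a, b0))) := by
      intro a a'
      have key : ∀ a'' : A, (∀ m, Θ (a'', b0) (col (a' - a, m)) = Θ (a, b0) (col (a' - a, m))) →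
          (fun m : B => col (g b0 a' - g b0 a, m)) =
          (Equiv.arrowCongr ζ (Θ (a'', b0))) (fun m : B => col (a' - a, m)) := by
        intro a'' ha''
        funext m
        obtain ⟨m, rfl⟩ := ζ.surjective m
        rw [Equiv.arrowCongr_apply]
        simp only [Function.comp, Equiv.symm_apply_apply]
        rw [ha'', hζ']
        have := h1 a a' b0 (b0 + m)
        rw [add_sub_cancel_left] at this
        exact this
      constructor
      · exact key a (fun _ => rfl)
      · refine key a' (fun m => ?_)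
        have := tw_fst hco hz a (a' - a) b0 m
        rw [add_sub_cancel] at this
        exact this
    obtain ⟨ψ, hψ⟩ := hA _ _ _ _ htw a0
    refine ⟨ψ, fun a a' m => ?_⟩
    have := congrFun (hψ a a') (ζ m)
    rw [Equiv.arrowCongr_apply] at this
    simpa only [Function.comp, Equiv.symm_apply_apply] using this
  -- step (13)
  obtain ⟨ψB, hψB⟩ : ∃ ψB : Equiv.Perm B, ∀ k l v,
      col (v, ψB l - ψB k) = col (v, ζ (l - k)) := by
    set g0 : B → Equiv.Perm A := fun k =>
      ((Equiv.addLeft a0).trans (g k)).trans (Equiv.subRight (g k a0)) with hg0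
    have hg0' : ∀ k u, g0 k u = g k (a0 + u) - g k a0 := fun k u => rfl
    have htw : Tw (fun (m : B) (u : A) => col (u, m)) zb
        (fun k => Equiv.arrowCongr (g0 k) (Θ (a0, k))) := by
      intro k l
      constructor
      · funext v
        obtain ⟨v, rfl⟩ := (g0 k).surjective v
        rw [Equiv.arrowCongr_apply]
        simp only [Function.comp, Equiv.symm_apply_apply]
        have := h1 a0 (a0 + v) k l
        rw [add_sub_cancel_left] at this
        rw [hg0']
        exact this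
      · funext v
        obtain ⟨v, rfl⟩ := (g0 l).surjective v
        rw [Equiv.arrowCongr_apply]
        simp only [Function.comp, Equiv.symm_apply_apply]
        rw [hg0']
        have hsw : ∀ t, col (t - g k a0, zb l - zb k) = col (t - g l a0, zb l - zb k) := by
          intro t
          have := h11 k l a0 (g l a0 + g k a0 - t)
          have e1 : g l a0 - (g l a0 + g k a0 - t) = t - g k a0 := by abel
          have e2 : g k a0 - (g l a0 + g k a0 - t) = t - g l a0 := by abel
          rw [e1, e2] at this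
          exact this
        rw [h11, ← hsw]
        have := h1 a0 (a0 + v) k l
        rw [add_sub_cancel_left] at this
        rw [this]
        have := tw_snd hco hz a0 v k (l - k)
        rw [add_sub_cancel] at this
        exact this.symm
    obtain ⟨ψ, hψ⟩ := hB _ _ _ _ htw b0
    refine ⟨ψ, fun k l v => ?_⟩
    obtain ⟨v, rfl⟩ := (g0 b0).surjective v
    have := congrFun (hψ k l) (g0 b0 v)
    rw [Equiv.arrowCongr_apply] at this
    simp only [Function.comp, Equiv.symm_apply_apply] at this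
    rw [this, hg0', hζ']
    have := h1 a0 (a0 + v) b0 (b0 + (l - k))
    rw [add_sub_cancel_left, add_sub_cancel_left] at this
    exact this.symm
  refine ⟨Equiv.prodCongr ψA ψB, ?_⟩
  rintro ⟨a, b⟩ ⟨a', b'⟩
  have e1 : (Equiv.prodCongr ψA ψB) (a', b') - (Equiv.prodCongr ψA ψB) (a, b) =
      (ψA a' - ψA a, ψB b' - ψB b) := rfl
  have e2 : ((a', b') - (a, b) : A × B) = (a' - a, b' - b) := rfl
  rw [e1, e2, hψB, hψA]

end Pool.Agent.R996.Ty
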