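import Pool.Agent.R996.Ty.Defs3

/-!
# Local analysis of permutations of abelian groups: base lemmas
-/

set_option linter.unusedSectionVars false

namespace Pool.Agent.R996.Ty

section

variable {W : Type} [AddCommGroup W] {z : Equiv.Perm W} {U V L : AddSubgroup W} {Y Z : Set W}

lemma mem_img_iff {t x : W} : t ∈ img z Y x ↔ z.symm (z x + t) - x ∈ Y := Iff.rfl

/-- Every element is the image of a difference. -/
lemma img_ex (z : Equiv.Perm W) (x t : W) : ∃ y, t = z y - z x :=
  ⟨z.symm (z x + t), by rw [Equiv.apply_symm_apply, add_sub_cancel_left]⟩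

lemma img_compl (z : Equiv.Perm W) (Y : Set W) (x : W) : img z Yᶜ x = (img z Y x)ᶜ := rfl

lemma img_inter (z : Equiv.Perm W) (Y Z : Set W) (x : W) :
    img z (Y ∩ Z) x = img z Y x ∩ img z Z x := rfl

lemma img_union (z : Equiv.Perm W) (Y Z : Set W) (x : W) :
    img z (Y ∪ Z) x = img z Y x ∪ img z Z x := rfl

lemma img_mono (h : Y ⊆ Z) (x : W) : img z Y x ⊆ img z Z x := fun _ ht => h ht

lemma PG.compl (h : PG z V Y) : PG z V Yᶜ := by
  intro x v hv
  rw [img_compl, img_compl, h x v hv]

lemma PG.inter (h : PG z V Y) (h' : PG z V Z) : PG z V (Y ∩ Z) := by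
  intro x v hv
  rw [img_inter, img_inter, h x v hv, h' x v hv]

lemma PG.union (h : PG z V Y) (h' : PG z V Z) : PG z V (Y ∪ Z) := by
  intro x v hv
  rw [img_union, img_union, h x v hv, h' x v hv]

lemma PG.diff (h : PG z V Y) (h' : PG z V Z) : PG z V (Y \ Z) := h.inter h'.compl

lemma PG.mono {V₁ V₂ : AddSubgroup W} (h : V₁ ≤ V₂) (hY : PG z V₂ Y) : PG z V₁ Y :=
  fun x v hv => hY x v (h hv)

lemma PG.sInter (S : Set (Set W)) (h : ∀ Y ∈ S, PG z V Y) : PG z V (⋂₀ S) := by
  intro x v hv
  ext t
  change (z.symm (z (x + v) + t) - (x + v) ∈ ⋂₀ S) ↔ (z.symm (z x + t) - x ∈ ⋂₀ S)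
  rw [Set.mem_sInter, Set.mem_sInter]
  constructor
  · intro h1 Y hY
    have h2 := h Y hY x v hv
    have h3 : t ∈ img z Y (x + v) := h1 Y hY
    rw [h2] at h3
    exact h3
  · intro h1 Y hY
    have h2 := h Y hY x v hv
    have h3 : t ∈ img z Y x := h1 Y hY
    rw [← h2] at h3
    exact h3

lemma ZI.symm (h : ZI z V) : ZI z.symm V := by
  intro x y
  have := h (z.symm x) (z.symm y)
  rw [Equiv.apply_symm_apply, Equiv.apply_symm_apply] at this
  exact this.symm

lemma ZI.mem (h : ZI z V) (x v : W) : v ∈ V ↔ z (x + v) - z x ∈ V := by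
  have := h x (x + v)
  rwa [add_sub_cancel_left] at this

lemma ZI.img (hU : ZI z U) (x : W) : img z (U : Set W) x = U := by
  ext t
  obtain ⟨y, rfl⟩ := img_ex z x t
  rw [mem_img]
  exact hU x y

lemma ZI.pg (hU : ZI z U) (V : AddSubgroup W) : PG z V (U : Set W) := by
  intro x v _
  rw [hU.img, hU.img]

lemma ZI.img_coset (hU : ZI z U) (w x : W) :
    Pool.Agent.R996.Ty.img z {y | y - w ∈ U} x = {t | t - (z (x + w) - z x) ∈ U} := by
  ext t
  obtain ⟨y, rfl⟩ := img_ex z x t
  rw [mem_img, Set.mem_ofPred_eq, Set.mem_ofPred_eq, sub_sub_sub_cancel_right]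
  have := hU (x + w) y
  rw [← this]
  have e : y - x - w = y - (x + w) := by abel
  rw [e]

lemma ZI.coset (hU : ZI z U) (hVU : V ≤ U) (w : W) : PG z V {y | y - w ∈ U} := by
  intro x v hv
  rw [hU.img_coset, hU.img_coset]
  ext t
  rw [Set.mem_ofPred_eq, Set.mem_ofPred_eq]
  have h1 : (z (x + v + w) - z (x + v)) - (z (x + w) - z x) ∈ U := by
    have h2 := (hU (x + w) (x + v + w)).1 (by
      have e : x + v + w - (x + w) = v := by abel
      rw [e]
      exact hVU hv)
    have h3 := (hU.mem x v).1 (hVU hv)
    have := U.sub_mem h2 h3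
    have e : z (x + v + w) - z (x + w) - (z (x + v) - z x) =
        z (x + v + w) - z (x + v) - (z (x + w) - z x) := by abel
    rwa [e] at this
  constructor
  · intro h2
    have := U.add_mem h2 h1
    rwa [sub_add_sub_cancel] at this
  · intro h2
    have := U.sub_mem h2 h1
    have e : t - (z (x + w) - z x) - (z (x + v + w) - z (x + v) - (z (x + w) - z x)) =
        t - (z (x + v + w) - z (x + v)) := by abel
    rwa [e] at this

lemma zi_bot (z : Equiv.Perm W) : ZI z (⊥ : AddSubgroup W) := by
  intro x y
  rw [AddSubgroup.mem_bot, AddSubgroup.mem_bot, sub_eq_zero, sub_eq_zero]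
  exact ⟨fun h => by rw [h], fun h => z.injective h⟩

lemma zi_top (z : Equiv.Perm W) : ZI z (⊤ : AddSubgroup W) := fun _ _ =>
  ⟨fun _ => AddSubgroup.mem_top _, fun _ => AddSubgroup.mem_top _⟩

lemma ZI.inf (h : ZI z U) (h' : ZI z V) : ZI z (U ⊓ V) := by
  intro x y
  rw [AddSubgroup.mem_inf, AddSubgroup.mem_inf, h x y, h' x y]

lemma zi_sInf (S : Set (AddSubgroup W)) (h : ∀ V ∈ S, ZI z V) : ZI z (sInf S) := by
  intro x y
  rw [AddSubgroup.mem_sInf, AddSubgroup.mem_sInf]
  exact ⟨fun h1 V hV => (h V hV x y).1 (h1 V hV), fun h1 V hV => (h V hV x y).2 (h1 V hV)⟩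

lemma zi_iInf {ι : Type} (V : ι → AddSubgroup W) (h : ∀ i, ZI z (V i)) : ZI z (⨅ i, V i) :=
  zi_sInf _ (by rintro _ ⟨i, rfl⟩; exact h i)

/-- One direction suffices for both permutations. -/
lemma zi_of_both (h1 : ∀ x, ∀ v ∈ V, z (x + v) - z x ∈ V)
    (h2 : ∀ x, ∀ v ∈ V, z.symm (x + v) - z.symm x ∈ V) : ZI z V := by
  intro x y
  constructor
  · intro h
    have := h1 x _ h
    rwa [add_sub_cancel] at this
  · intro h
    have := h2 (z x) _ h
    rwa [add_sub_cancel, Equiv.symm_apply_apply, Equiv.symm_apply_apply] at this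

lemma ZI.sup (h : ZI z U) (h' : ZI z V) : ZI z (U ⊔ V) := by
  have key : ∀ z : Equiv.Perm W, ZI z U → ZI z V → ∀ x, ∀ v ∈ U ⊔ V, z (x + v) - z x ∈ U ⊔ V := by
    intro z h h' x v hv
    obtain ⟨a, ha, b, hb, rfl⟩ := AddSubgroup.mem_sup.1 hv
    have h1 := (h.mem x a).1 ha
    have h2 := (h'.mem (x + a) b).1 hb
    have := (U ⊔ V).add_mem (le_sup_right (a := U) h2) (le_sup_left (b := V) h1)
    rwa [sub_add_sub_cancel, add_assoc] at this
  exact zi_of_both (key z h h') (key z.symm h.symm h'.symm)

lemma zi_iSup {ι : Type} (V : ι → AddSubgroup W) (h : ∀ i, ZI z (V i)) : ZI z (⨆ i, V i) := by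
  have key : ∀ z : Equiv.Perm W, (∀ i, ZI z (V i)) → ∀ v ∈ ⨆ i, V i, ∀ x,
      z (x + v) - z x ∈ ⨆ i, V i := by
    intro z h v hv
    induction hv using AddSubgroup.iSup_induction' with
    | hp i v hv => intro x; exact AddSubgroup.mem_iSup_of_mem i (((h i).mem x v).1 hv)
    | h1 => intro x; rw [add_zero, sub_self]; exact zero_mem _
    | hadd a b _ _ ha hb =>
      intro x
      have := add_mem (hb (x + a)) (ha x)
      rwa [sub_add_sub_cancel, add_assoc] at this
  exact zi_of_both (fun x v hv => key z h v hv x) (fun x v hv => key z.symm (fun i => (h i).symm) v hv x)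

lemma zi_sSup (S : Set (AddSubgroup W)) (h : ∀ V ∈ S, ZI z V) : ZI z (sSup S) := by
  rw [sSup_eq_iSup']
  have key : ∀ z : Equiv.Perm W, (∀ V ∈ S, ZI z V) → ∀ v ∈ ⨆ i : S, (i : AddSubgroup W), ∀ x,
      z (x + v) - z x ∈ ⨆ i : S, (i : AddSubgroup W) := by
    intro z h v hv
    induction hv using AddSubgroup.iSup_induction' with
    | hp i v hv => intro x; exact AddSubgroup.mem_iSup_of_mem i (((h i i.2).mem x v).1 hv)
    | h1 => intro x; rw [add_zero, sub_self]; exact zero_mem _
    | hadd a b _ _ ha hb =>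
      intro x
      have := add_mem (hb (x + a)) (ha x)
      rwa [sub_add_sub_cancel, add_assoc] at this
  exact zi_of_both (fun x v hv => key z h v hv x)
    (fun x v hv => key z.symm (fun i hi => (h i hi).symm) v hv x)

/-! ### Cyclic groups -/

lemma sub_eq [Finite W] [IsAddCyclic W] {A B : AddSubgroup W} (h : Nat.card A = Nat.card B) :
    A = B := by
  classical
  have : Fintype W := Fintype.ofFinite W
  have key : ∀ K : AddSubgroup W, ∀ x : W, x ∈ K ↔ Nat.card K • x = 0 := by
    intro K x
    have h1 : ∀ y ∈ K, Nat.card K • y = 0 := by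
      intro y hy
      have h0 : Nat.card K • (⟨y, hy⟩ : K) = 0 := card_nsmul_eq_zero'
      exact congrArg (fun t : K => (t : W)) h0
    have h2 : (Finset.univ.filter fun y : W => y ∈ K) ⊆
        Finset.univ.filter fun y : W => Nat.card K • y = 0 := by
      intro y hy
      simp only [Finset.mem_filter, Finset.mem_univ, true_and] at hy ⊢
      exact h1 y hy
    have h3 : (Finset.univ.filter fun y : W => Nat.card K • y = 0).card ≤
        (Finset.univ.filter fun y : W => y ∈ K).card := by
      have h4 : (Finset.univ.filter fun y : W => y ∈ K).card = Nat.card K := by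
        rw [Nat.card_eq_fintype_card, Fintype.card_subtype]
      rw [h4]
      exact IsAddCyclic.card_nsmul_eq_zero_le (Nat.card_pos)
    have h5 := Finset.eq_of_subset_of_card_le h2 h3
    have h6 := Finset.ext_iff.mp h5 x
    simpa using h6
  ext x
  rw [key A, key B, h]

lemma zi_of [Finite W] [IsAddCyclic W] (D : AddSubgroup W) (D' : W → AddSubgroup W)
    (h1 : ∀ x, ∀ d ∈ D, z (x + d) - z x ∈ D' x)
    (h2 : ∀ x, ∀ d ∈ D' x, z.symm (z x + d) - x ∈ D) : ZI z D := by
  have h3 : ∀ x, D' x = D := by
    intro x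
    apply sub_eq
    apply le_antisymm
    · refine Nat.card_le_card_of_injective (fun d : D' x => (⟨_, h2 x d d.2⟩ : D)) ?_
      intro a b hab
      have h4 := congrArg (fun t : D => (t : W)) hab
      change z.symm (z x + a) - x = z.symm (z x + b) - x at h4
      have h5 := z.symm.injective (sub_left_injective h4)
      exact Subtype.ext (add_left_cancel h5)
    · refine Nat.card_le_card_of_injective (fun d : D => (⟨_, h1 x d d.2⟩ : D' x)) ?_
      intro a b hab
      have h4 := congrArg (fun t : D' x => (t : W)) hab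
      change z (x + a) - z x = z (x + b) - z x at h4
      have h5 := z.injective (sub_left_injective h4)
      exact Subtype.ext (add_left_cancel h5)
  intro x y
  constructor
  · intro h
    have := h1 x _ h
    rwa [h3, add_sub_cancel] at this
  · intro h
    rw [← h3 x] at h
    have := h2 x _ h
    rwa [add_sub_cancel, Equiv.symm_apply_apply] at this

/-! ### Atoms -/

lemma atm_self (z : Equiv.Perm W) (V : AddSubgroup W) (w : W) : w ∈ atm z V w := fun _ _ h => h

lemma atm_eq_sInter (z : Equiv.Perm W) (V : AddSubgroup W) (w : W) :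
    atm z V w = ⋂₀ {Y | PG z V Y ∧ w ∈ Y} := by
  ext y
  rw [Set.mem_sInter]
  exact ⟨fun h Y hY => h Y hY.1 hY.2, fun h Y h1 h2 => h Y ⟨h1, h2⟩⟩

lemma atm_pg (z : Equiv.Perm W) (V : AddSubgroup W) (w : W) : PG z V (atm z V w) := by
  rw [atm_eq_sInter]
  exact PG.sInter _ fun Y hY => hY.1

lemma atm_sub (hY : PG z V Y) {w : W} (h : w ∈ Y) : atm z V w ⊆ Y := fun _ hy => hy Y hY h

lemma atm_eq {y w : W} (h : y ∈ atm z V w) : atm z V y = atm z V w := by
  have h1 : atm z V y ⊆ atm z V w := atm_sub (atm_pg z V w) h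
  refine Set.Subset.antisymm h1 ?_
  apply atm_sub (atm_pg z V y)
  by_contra h2
  have h3 := h _ (atm_pg z V y).compl h2
  exact h3 (atm_self z V y)

lemma atm_le (hV : ZI z V) {w : W} (hw : w ∈ V) : atm z V w ⊆ V := atm_sub (hV.pg V) hw

lemma vw_zi (z : Equiv.Perm W) (w : W) : ZI z (vw z w) := zi_sInf _ fun _ h => h.1

lemma mem_vw (z : Equiv.Perm W) (w : W) : w ∈ vw z w := by
  unfold vw
  rw [AddSubgroup.mem_sInf]
  exact fun V hV => hV.2

lemma vw_le (hV : ZI z V) {w : W} (h : w ∈ V) : vw z w ≤ V := sInf_le ⟨hV, h⟩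

/-- The subgroup generated by a set of differences with constant images is invariant. -/
theorem zi_closure [Finite W] [IsAddCyclic W] (hV : ZI z V) (hY : PG z V Y) (hYV : Y ⊆ V) :
    ZI z (AddSubgroup.closure Y) := by
  have hcV : AddSubgroup.closure Y ≤ V := (AddSubgroup.closure_le V).2 hYV
  refine zi_of _ (fun x => AddSubgroup.closure (img z Y x)) ?_ ?_
  · intro x d hd
    have key : ∀ d ∈ AddSubgroup.closure Y, ∀ x, z (x + d) - z x ∈
        AddSubgroup.closure (img z Y x) := by
      intro d hd
      induction hd using AddSubgroup.closure_induction with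
      | mem d hd =>
        intro x
        apply AddSubgroup.subset_closure
        rw [mem_img, add_sub_cancel_left]
        exact hd
      | zero => intro x; rw [add_zero, sub_self]; exact zero_mem _
      | add a b ha hb iha ihb =>
        intro x
        have h1 := iha x
        have h2 := ihb (x + a)
        rw [hY x a (hcV ha)] at h2
        have := add_mem h2 h1
        rwa [sub_add_sub_cancel, add_assoc] at this
      | neg a ha iha =>
        intro x
        have h1 := iha (x + -a)
        rw [neg_add_cancel_right, hY x (-a) (neg_mem (hcV ha))] at h1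
        have := neg_mem h1
        rwa [neg_sub] at this
    exact key d hd x
  · intro x d hd
    have key : ∀ d ∈ AddSubgroup.closure (img z Y x), ∀ y, y - x ∈ V →
        z.symm (z y + d) - y ∈ AddSubgroup.closure Y := by
      intro d hd
      induction hd using AddSubgroup.closure_induction with
      | mem d hd =>
        intro y hy
        apply AddSubgroup.subset_closure
        have h1 := hY x _ hy
        rw [add_sub_cancel] at h1
        rw [← h1] at hd
        exact hd
      | zero => intro y _; rw [add_zero, Equiv.symm_apply_apply, sub_self]; exact zero_mem _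
      | add a b ha hb iha ihb =>
        intro y hy
        have h1 := iha y hy
        have h2 := ihb (z.symm (z y + a)) (by
          have := V.add_mem (hcV h1) hy
          rwa [sub_add_sub_cancel] at this)
        rw [Equiv.apply_symm_apply] at h2
        have := add_mem h2 h1
        rwa [sub_add_sub_cancel, add_assoc] at this
      | neg a ha iha =>
        intro y hy
        have haV : a ∈ V := by
          have h1 := iha x (by rw [sub_self]; exact zero_mem _)
          have h2 := hcV h1
          rw [hV x, Equiv.apply_symm_apply, add_sub_cancel_left] at h2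
          exact h2
        have h1 := iha (z.symm (z y + -a)) (by
          have h3 : z.symm (z y + -a) - y ∈ V := by
            rw [hV y, Equiv.apply_symm_apply, add_sub_cancel_left]
            exact neg_mem haV
          have := V.add_mem h3 hy
          rwa [sub_add_sub_cancel] at this)
        rw [Equiv.apply_symm_apply, neg_add_cancel_right, Equiv.symm_apply_apply] at h1
        have := neg_mem h1
        rwa [neg_sub] at this
    exact key d hd x (by rw [sub_self]; exact zero_mem _)

end

end Pool.Agent.R996.Ty
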