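import Pool.Agent.R996.Ty.Sub1

/-!
# Five invariance lemmas
-/

namespace Pool.Agent.R996.Ty

section Sub2

variable {W : Type} [AddCommGroup W] {z : Equiv.Perm W} {L V D : AddSubgroup W} {X Y : Set W}

/-- membership in an image in terms of the difference to the base point -/
lemma sub2_mem_img_add {x y : W} : z (x + y) - z x ∈ img z Y x ↔ y ∈ Y := by
  rw [mem_img, add_sub_cancel_left]

/-- images as direct images -/
lemma sub2_img_eq (x : W) : img z Y x = (fun y => z (x + y) - z x) '' Y := by
  ext t
  constructor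
  · intro ht
    refine ⟨z.symm (z x + t) - x, ht, ?_⟩
    beta_reduce
    rw [add_sub_cancel, Equiv.apply_symm_apply, add_sub_cancel_left]
  · rintro ⟨y, hy, rfl⟩
    exact sub2_mem_img_add.2 hy

lemma sub2_img_sub (hL : ZI z L) (hd : ∀ y ∈ Y, ∀ y' ∈ Y, y - y' ∈ L) {x t t' : W}
    (ht : t ∈ img z Y x) (ht' : t' ∈ img z Y x) : t - t' ∈ L := by
  rw [sub2_img_eq] at ht ht'
  obtain ⟨y, hy, rfl⟩ := ht
  obtain ⟨y', hy', rfl⟩ := ht'
  have h := (hL (x + y') (x + y)).1 (by
    have := hd y hy y' hy'
    rwa [add_sub_add_left_eq_sub])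
  beta_reduce
  rwa [sub_sub_sub_cancel_right]

lemma sub2_symm_mem (hL : ZI z L) {x t : W} (ht : t ∈ L) : z.symm (z x + t) - x ∈ L := by
  rw [hL, Equiv.apply_symm_apply, add_sub_cancel_left]
  exact ht

lemma sub2_closure [Finite W] [IsAddCyclic W] (hL : ZI z L) (G : Set W) (G' : W → Set W)
    (hG : G ⊆ L) (hG'L : ∀ x, G' x ⊆ L) (hG' : ∀ x, ∀ l ∈ L, G' (x + l) = G' x)
    (h1 : ∀ x, ∀ d ∈ G, z (x + d) - z x ∈ AddSubgroup.closure (G' x))
    (h2 : ∀ x, ∀ t ∈ G' x, z.symm (z x + t) - x ∈ AddSubgroup.closure G) :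
    ZI z (AddSubgroup.closure G) := by
  have hGL : AddSubgroup.closure G ≤ L := (AddSubgroup.closure_le L).2 hG
  have hG'L' : ∀ x, AddSubgroup.closure (G' x) ≤ L :=
    fun x => (AddSubgroup.closure_le L).2 (hG'L x)
  apply zi_of _ (fun x => AddSubgroup.closure (G' x))
  · intro x d hd
    induction hd using AddSubgroup.closure_induction generalizing x with
    | mem d hd => exact h1 x d hd
    | zero =>
      rw [add_zero, sub_self]
      exact AddSubgroup.zero_mem _
    | add d1 d2 hd1 hd2 ih1 ih2 =>
      have e : z (x + (d1 + d2)) - z x = (z (x + d1 + d2) - z (x + d1)) + (z (x + d1) - z x) := by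
        rw [← add_assoc]
        abel
      rw [e]
      have i2 := ih2 (x + d1)
      rw [hG' x d1 (hGL hd1)] at i2
      exact AddSubgroup.add_mem _ i2 (ih1 x)
    | neg d hd ih =>
      have i1 := ih (x + -d)
      rw [hG' x (-d) (L.neg_mem (hGL hd)), neg_add_cancel_right] at i1
      have := AddSubgroup.neg_mem _ i1
      rwa [neg_sub] at this
  · intro x d hd
    have key : ∀ x', x' - x ∈ L → z.symm (z x' + d) - x' ∈ AddSubgroup.closure G := by
      induction hd using AddSubgroup.closure_induction with
      | mem d hd =>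
        intro x' hx'
        apply h2 x'
        have e : x' = x + (x' - x) := by abel
        rw [e, hG' x _ hx']
        exact hd
      | zero =>
        intro x' _
        rw [add_zero, Equiv.symm_apply_apply, sub_self]
        exact AddSubgroup.zero_mem _
      | add d1 d2 hd1 hd2 ih1 ih2 =>
        intro x' hx'
        have i1 := ih1 x' hx'
        have i2 := ih2 (z.symm (z x' + d1)) (by
          have e : z.symm (z x' + d1) - x = (z.symm (z x' + d1) - x') + (x' - x) := by abel
          rw [e]
          exact L.add_mem (hGL i1) hx')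
        rw [Equiv.apply_symm_apply, add_assoc] at i2
        have e : z.symm (z x' + (d1 + d2)) - x' =
            (z.symm (z x' + (d1 + d2)) - z.symm (z x' + d1)) + (z.symm (z x' + d1) - x') := by
          abel
        rw [e]
        exact AddSubgroup.add_mem _ i2 i1
      | neg d hd ih =>
        intro x' hx'
        have hl : z.symm (z x' + -d) - x' ∈ L := sub2_symm_mem hL (L.neg_mem (hG'L' x hd))
        have i1 := ih (z.symm (z x' + -d)) (by
          have e : z.symm (z x' + -d) - x = (z.symm (z x' + -d) - x') + (x' - x) := by abel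
          rw [e]
          exact L.add_mem hl hx')
        rw [Equiv.apply_symm_apply, neg_add_cancel_right, Equiv.symm_apply_apply] at i1
        have := AddSubgroup.neg_mem _ i1
        rwa [neg_sub] at this
    exact key x (by rw [sub_self]; exact L.zero_mem)

theorem zi_diff [Finite W] [IsAddCyclic W] (hL : ZI z L) (hY : PG z L Y)
    (hd : ∀ y ∈ Y, ∀ y' ∈ Y, y - y' ∈ L) (hne : Y.Nonempty) :
    ZI z (AddSubgroup.closure {d | ∃ y ∈ Y, ∃ y' ∈ Y, d = y - y'}) := by
  apply sub2_closure hL _ (fun x => {d | ∃ t ∈ img z Y x, ∃ t' ∈ img z Y x, d = t - t'})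
  · rintro d ⟨y, hy, y', hy', rfl⟩
    exact hd y hy y' hy'
  · rintro x d ⟨t, ht, t', ht', rfl⟩
    exact sub2_img_sub hL hd ht ht'
  · intro x l hl
    rw [hY x l hl]
  · rintro x d ⟨y, hy, y', hy', rfl⟩
    apply AddSubgroup.subset_closure
    refine ⟨z (x + y) - z x, sub2_mem_img_add.2 hy, z (x + y) - z (x + (y - y')), ?_, by abel⟩
    rw [← hY x (y - y') (hd y hy y' hy'), mem_img]
    have e : x + y - (x + (y - y')) = y' := by abel
    rw [e]
    exact hy'
  · rintro x d ⟨t, ht, t', ht', rfl⟩
    apply AddSubgroup.subset_closure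
    have hl : z.symm (z x + (t - t')) - x ∈ L := sub2_symm_mem hL (sub2_img_sub hL hd ht ht')
    refine ⟨z.symm (z x + t) - x, ht, z.symm (z x + t) - z.symm (z x + (t - t')), ?_, by abel⟩
    have h1 : t' ∈ img z Y (z.symm (z x + (t - t'))) := by
      have e : z.symm (z x + (t - t')) = x + (z.symm (z x + (t - t')) - x) := by abel
      rw [e, hY x _ hl]
      exact ht'
    have h2 : z.symm (z (z.symm (z x + (t - t'))) + t') - z.symm (z x + (t - t')) ∈ Y := h1
    rw [Equiv.apply_symm_apply] at h2
    have e : z x + (t - t') + t' = z x + t := by abel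
    rwa [e] at h2

theorem zi_per [Finite W] [IsAddCyclic W] (hL : ZI z L) (hY : PG z L Y)
    (hd : ∀ y ∈ Y, ∀ y' ∈ Y, y - y' ∈ L) (hne : Y.Nonempty) : ZI z (pers Y) := by
  obtain ⟨w, hw⟩ := hne
  have hpL : ∀ r ∈ pers Y, r ∈ L := by
    intro r hr
    have h1 : w + r ∈ Y := (hr w).2 hw
    have h2 := hd _ h1 _ hw
    rwa [add_sub_cancel_left] at h2
  -- the base point of the image
  have hI : ∀ a, z a - z (a - w) ∈ img z Y (a - w) := by
    intro a
    rw [mem_img, sub_sub_cancel]
    exact hw
  have himg : ∀ a x, x - (a - w) ∈ L → img z Y x = img z Y (a - w) := by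
    intro a x hx
    have e : x = (a - w) + (x - (a - w)) := by abel
    rw [e]
    exact hY _ _ hx
  apply zi_of _ (fun a => pers (img z Y (a - w)))
  · intro a r hr s
    have hρ : z (a + r) - z a ∈ L := (hL a (a + r)).1 (by
      rw [add_sub_cancel_left]
      exact hpL r hr)
    by_cases hs : s - (z a - z (a - w)) ∈ L
    · -- write `s = z a - z x`
      obtain ⟨x, hzx⟩ : ∃ x, z x = z a - s := ⟨_, Equiv.apply_symm_apply z _⟩
      have hs' : s = z a - z x := by
        rw [hzx]
        abel
      subst hs'
      have hx : x - (a - w) ∈ L := by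
        rw [hL]
        have e : z x - z (a - w) = -(z a - z x - (z a - z (a - w))) := by abel
        rw [e]
        exact L.neg_mem hs
      have hIx := himg a _ hx
      have e2 : z a - z x + (z (a + r) - z a) = z (a + r) - z x := by abel
      rw [e2, ← hIx, mem_img, mem_img, ← hr (a - x)]
      have e4 : a + r - x = a - x + r := by abel
      rw [e4]
    · constructor
      · intro h
        exfalso
        apply hs
        have h1 := sub2_img_sub hL hd h (hI a)
        have e : s - (z a - z (a - w)) =
            (s + (z (a + r) - z a) - (z a - z (a - w))) - (z (a + r) - z a) := by abel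
        rw [e]
        exact L.sub_mem h1 hρ
      · intro h
        exact absurd (sub2_img_sub hL hd h (hI a)) hs
  · intro a ρ hρ
    have hρL : ρ ∈ L := by
      have h1 : z a - z (a - w) + ρ ∈ img z Y (a - w) := (hρ _).2 (hI a)
      have h2 := sub2_img_sub hL hd h1 (hI a)
      rwa [add_sub_cancel_left] at h2
    have hr : z.symm (z a + ρ) - a ∈ L := sub2_symm_mem hL hρL
    intro s
    by_cases hs : s - w ∈ L
    · have hx : (a - s) - (a - w) ∈ L := by
        have e : (a - s) - (a - w) = -(s - w) := by abel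
        rw [e]
        exact L.neg_mem hs
      have hIx := himg a _ hx
      have h1 : s ∈ Y ↔ z a - z (a - s) ∈ img z Y (a - s) := by
        rw [mem_img, sub_sub_cancel]
      have h2 : s + (z.symm (z a + ρ) - a) ∈ Y ↔
          z a - z (a - s) + ρ ∈ img z Y (a - s) := by
        have e : z a - z (a - s) + ρ = z (z.symm (z a + ρ)) - z (a - s) := by
          rw [Equiv.apply_symm_apply]
          abel
        rw [e, mem_img]
        have e2 : z.symm (z a + ρ) - (a - s) = s + (z.symm (z a + ρ) - a) := by abel
        rw [e2]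
      rw [h1, h2, hIx]
      exact hρ _
    · constructor
      · intro h
        exfalso
        apply hs
        have h1 := hd _ h _ hw
        have e : s - w = (s + (z.symm (z a + ρ) - a) - w) - (z.symm (z a + ρ) - a) := by abel
        rw [e]
        exact L.sub_mem h1 hr
      · intro h
        exact absurd (hd _ h _ hw) hs

lemma sub2_diff (hY : PG z L Y) {x u : W} (hu : u ∈ L) :
    img z Y x \ ((fun y => y + (z (x + u) - z x)) '' img z Y x) =
      (fun y => z (x + y) - z x) '' (Y \ ((fun y => y + u) '' Y)) := by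
  have hinj : Function.Injective fun y => z (x + y) - z x := by
    intro y y' h
    have h1 : z (x + y) = z (x + y') := sub_left_injective h
    exact add_left_cancel (z.injective h1)
  rw [Set.image_sdiff hinj, ← sub2_img_eq]
  congr 1
  ext t
  constructor
  · rintro ⟨s, hs, rfl⟩
    -- `s ∈ img z Y (x + u)`
    have hs' : s ∈ img z Y (x + u) := by
      rw [hY x u hu]
      exact hs
    rw [sub2_img_eq] at hs'
    obtain ⟨y, hy, rfl⟩ := hs'
    refine ⟨y + u, ⟨y, hy, rfl⟩, ?_⟩
    beta_reduce
    have e : x + (y + u) = x + u + y := by abel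
    rw [e]
    abel
  · rintro ⟨_, ⟨y, hy, rfl⟩, rfl⟩
    refine ⟨z (x + u + y) - z (x + u), ?_, ?_⟩
    · rw [← hY x u hu]
      exact sub2_mem_img_add.2 hy
    · beta_reduce
      have e : x + (y + u) = x + u + y := by abel
      rw [e]
      abel

lemma sub2_diff_card (hY : PG z L Y) {x u : W} (hu : u ∈ L) :
    (img z Y x \ ((fun y => y + (z (x + u) - z x)) '' img z Y x)).ncard =
      (Y \ ((fun y => y + u) '' Y)).ncard := by
  rw [sub2_diff hY hu]
  apply Set.ncard_image_of_injective
  intro y y' h
  have h1 : z (x + y) = z (x + y') := sub_left_injective h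
  exact add_left_cancel (z.injective h1)

theorem zi_lvl [Finite W] [IsAddCyclic W] (hL : ZI z L) (hY : PG z L Y)
    (hd : ∀ y ∈ Y, ∀ y' ∈ Y, y - y' ∈ L) (t : ℕ) :
    ZI z (AddSubgroup.closure
      {u | u ∈ L ∧ (Y \ ((fun y => y + u) '' Y)).ncard ≤ t}) := by
  apply sub2_closure hL _ (fun x => {u | u ∈ L ∧
    (img z Y x \ ((fun y => y + u) '' img z Y x)).ncard ≤ t})
  · rintro u ⟨hu, _⟩
    exact hu
  · rintro x u ⟨hu, _⟩
    exact hu
  · intro x l hl
    rw [hY x l hl]
  · rintro x u ⟨hu, hut⟩
    apply AddSubgroup.subset_closure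
    refine ⟨(hL x (x + u)).1 (by rw [add_sub_cancel_left]; exact hu), ?_⟩
    rw [sub2_diff_card hY hu]
    exact hut
  · rintro x u ⟨hu, hut⟩
    apply AddSubgroup.subset_closure
    have hl : z.symm (z x + u) - x ∈ L := sub2_symm_mem hL hu
    refine ⟨hl, ?_⟩
    rw [← sub2_diff_card hY (x := x) hl, add_sub_cancel, Equiv.apply_symm_apply,
      add_sub_cancel_left]
    exact hut

theorem kap (hL : ZI z L) (hLV : L ≤ V) (hX : PG z V X) (hXV : AddSubgroup.closure X = V)
    (h1 : ∀ y ∈ X, ∀ l ∈ L, y + l ∈ X → l = 0) :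
    ∀ x, ∀ v ∈ V, ∀ u ∈ L, z (x + v + u) - z (x + v) = z (x + u) - z x := by
  have hone : ∀ x t l, l ∈ L → t ∈ img z X x → t + l ∈ img z X x → l = 0 := by
    intro x t l hl ht htl
    rw [sub2_img_eq] at ht
    obtain ⟨y, hy, rfl⟩ := ht
    have h2 : z.symm (z (x + y) + l) - (x + y) ∈ L := sub2_symm_mem hL hl
    have h3 : z.symm (z x + (z (x + y) - z x + l)) - x ∈ X := htl
    have e1 : z x + (z (x + y) - z x + l) = z (x + y) + l := by abel
    rw [e1] at h3
    have e2 : z.symm (z (x + y) + l) - x = y + (z.symm (z (x + y) + l) - (x + y)) := by abel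
    rw [e2] at h3
    have h4 := h1 y hy _ h2 h3
    have h5 : z.symm (z (x + y) + l) = x + y := sub_eq_zero.1 h4
    have h6 : z (x + y) + l = z (x + y) := by
      have h7 := congrArg z h5
      rwa [Equiv.apply_symm_apply] at h7
    exact add_eq_left.1 h6
  intro x v hv
  rw [← hXV] at hv
  induction hv using AddSubgroup.closure_induction generalizing x with
  | mem w hw =>
    intro u hu
    have ha : z (x + u + w) - z (x + u) ∈ img z X x := by
      rw [← hX x u (hLV hu)]
      exact sub2_mem_img_add.2 hw
    have hb : z (x + w) - z x ∈ img z X x := sub2_mem_img_add.2 hw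
    have hl : (z (x + w + u) - z (x + w)) - (z (x + u) - z x) ∈ L := by
      apply L.sub_mem
      · apply (hL _ _).1
        rw [add_sub_cancel_left]
        exact hu
      · apply (hL _ _).1
        rw [add_sub_cancel_left]
        exact hu
    have h2 := hone x _ _ hl hb (by
      have e : z (x + w) - z x + ((z (x + w + u) - z (x + w)) - (z (x + u) - z x)) =
          z (x + u + w) - z (x + u) := by
        have e0 : x + w + u = x + u + w := by abel
        rw [e0]
        abel
      rw [e]
      exact ha)
    exact sub_eq_zero.1 h2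
  | zero =>
    intro u _
    rw [add_zero]
  | add v1 v2 _ _ ih1 ih2 =>
    intro u hu
    rw [← add_assoc x v1 v2, ih2 (x + v1) u hu, ih1 x u hu]
  | neg v _ ih =>
    intro u hu
    have h2 := ih (x + -v) u hu
    rw [neg_add_cancel_right] at h2
    exact h2.symm

theorem kap_zi [Finite W] [IsAddCyclic W] (hL : ZI z L) (hD : D ≤ L)
    (h : ∀ x, ∀ v ∈ L, ∀ u ∈ L, z (x + v + u) - z (x + v) = z (x + u) - z x) : ZI z D := by
  have hadd : ∀ x, ∀ d ∈ D, ∀ e ∈ D, z (x + (d + e)) - z x =
      (z (x + d) - z x) + (z (x + e) - z x) := by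
    intro x d hd e he
    rw [← h x d (hD hd) e (hD he), ← add_assoc x d e]
    abel
  have hneg : ∀ x, ∀ d ∈ D, z (x + -d) - z x = -(z (x + d) - z x) := by
    intro x d hd
    have h2 := hadd x d hd (-d) (D.neg_mem hd)
    rw [add_neg_cancel, add_zero, sub_self] at h2
    exact eq_neg_of_add_eq_zero_right h2.symm
  apply zi_of D (fun x =>
    { carrier := {t | ∃ d ∈ D, t = z (x + d) - z x}
      add_mem' := by
        rintro _ _ ⟨d, hd, rfl⟩ ⟨e, he, rfl⟩
        exact ⟨d + e, D.add_mem hd he, (hadd x d hd e he).symm⟩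
      zero_mem' := ⟨0, D.zero_mem, by rw [add_zero, sub_self]⟩
      neg_mem' := by
        rintro _ ⟨d, hd, rfl⟩
        exact ⟨-d, D.neg_mem hd, (hneg x d hd).symm⟩ })
  · intro x d hd
    exact ⟨d, hd, rfl⟩
  · rintro x _ ⟨d, hd, rfl⟩
    rw [add_sub_cancel, Equiv.symm_apply_apply, add_sub_cancel_left]
    exact hd

theorem pg_cnt (hL : ZI z L) (hY : PG z V Y) (m : ℕ) :
    PG z V {y | Set.ncard {l : W | l ∈ L ∧ y + l ∈ Y} = m} := by
  have key : ∀ x, img z {y | Set.ncard {l : W | l ∈ L ∧ y + l ∈ Y} = m} x =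
      {t | Set.ncard {l : W | l ∈ L ∧ t + l ∈ img z Y x} = m} := by
    intro x
    ext t
    have e : {l : W | l ∈ L ∧ t + l ∈ img z Y x} =
        (fun l => z (z.symm (z x + t) + l) - (z x + t)) ''
          {l : W | l ∈ L ∧ z.symm (z x + t) - x + l ∈ Y} := by
      ext l'
      constructor
      · rintro ⟨hl, hl'⟩
        refine ⟨z.symm (z x + t + l') - z.symm (z x + t), ⟨?_, ?_⟩, ?_⟩
        · rw [hL, Equiv.apply_symm_apply, Equiv.apply_symm_apply, add_sub_cancel_left]
          exact hl
        · have h2 : z.symm (z x + (t + l')) - x ∈ Y := hl'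
          rw [← add_assoc] at h2
          have e2 : z.symm (z x + t) - x + (z.symm (z x + t + l') - z.symm (z x + t)) =
              z.symm (z x + t + l') - x := by abel
          rw [e2]
          exact h2
        · beta_reduce
          rw [add_sub_cancel, Equiv.apply_symm_apply, add_sub_cancel_left]
      · rintro ⟨l, ⟨hl, hl'⟩, rfl⟩
        refine ⟨?_, ?_⟩
        · beta_reduce
          have h2 := (hL (z.symm (z x + t)) (z.symm (z x + t) + l)).1 (by
            rw [add_sub_cancel_left]
            exact hl)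
          rwa [Equiv.apply_symm_apply] at h2
        · beta_reduce
          have e2 : t + (z (z.symm (z x + t) + l) - (z x + t)) =
              z (z.symm (z x + t) + l) - z x := by abel
          rw [e2, mem_img]
          have e3 : z.symm (z x + t) + l - x = z.symm (z x + t) - x + l := by abel
          rw [e3]
          exact hl'
    have hc : Set.ncard {l : W | l ∈ L ∧ t + l ∈ img z Y x} =
        Set.ncard {l : W | l ∈ L ∧ z.symm (z x + t) - x + l ∈ Y} := by
      rw [e]
      apply Set.ncard_image_of_injective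
      intro l l' h
      have h1 : z (z.symm (z x + t) + l) = z (z.symm (z x + t) + l') := sub_left_injective h
      exact add_left_cancel (z.injective h1)
    change Set.ncard {l : W | l ∈ L ∧ z.symm (z x + t) - x + l ∈ Y} = m ↔
      Set.ncard {l : W | l ∈ L ∧ t + l ∈ img z Y x} = m
    rw [hc]
  intro x v hv
  rw [key, key, hY x v hv]

end Sub2

end Pool.Agent.R996.Ty
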