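import Pool.Agent.R996.Ty.Case1b
import Pool.Agent.R996.Ty.Case2
import Pool.Agent.R996.Ty.Defs2

/-!
# From two-fold automorphisms to local exchanges
-/

namespace Pool.Agent.R996.Ty
open Finset Classical

theorem goodT {W : Type} [AddCommGroup W] [Fintype W] (hodd : Odd (Fintype.card W)) :
    GoodT W := by
  intro A B hA hB hst α β h hαβ
  by_cases hne : ∃ w, w ∈ dd A B
  · by_cases hper : per B ≤ UU A B
    · obtain ⟨z, F, h1, h2⟩ := case1 hodd hA hB hst hne hper h hαβ
      exact ⟨z, F, h2, h1⟩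
    · exfalso
      obtain ⟨t, ht, htU⟩ := Set.not_subset.1 hper
      exact hαβ (case2 hodd hA hB hst hne ⟨t, ht, htU⟩ h)
  · push Not at hne
    have hAB : A = B := by
      ext w
      by_contra h1
      exact hne w h1
    subst hAB
    exact ⟨1, fun _ => true, fun x y => ⟨fun _ => ⟨Iff.rfl, Iff.rfl⟩,
      fun h1 => absurd h1 (by simp)⟩, ⟨0, rfl⟩⟩

end Pool.Agent.R996.Ty
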